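import Pool.Agent.H497.FF.Defs

set_option autoImplicit false



namespace Pool.Agent.H497.FF

open Polynomial


section A1

set_option linter.unusedSectionVars false
set_option linter.unusedVariables false

variable {F : Type} [Field F] [Fintype F]

/-- the polynomial with the top coefficients of `D * E` and the other ones of `D` -/
noncomputable def a1B (m k : ℕ) (E D : F[X]) : F[X] :=
  ∑ i ∈ Finset.range (k + 1),
    C (if k < i + m then (D * E).coeff (i + E.natDegree) else D.coeff i) * X ^ i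

theorem a1B_coeff (m k : ℕ) (E D : F[X]) (i : ℕ) : (a1B m k E D).coeff i =
    if i ≤ k then (if k < i + m then (D * E).coeff (i + E.natDegree) else D.coeff i) else 0 := by
  rw [a1B, finsetSum_coeff]
  simp only [coeff_C_mul_X_pow]
  rw [Finset.sum_ite_eq]
  simp only [Finset.mem_range, Nat.lt_succ_iff]

/-- the permutation of the monic polynomials of degree `k` -/
noncomputable def a1T (f : F[X]) (m k : ℕ) (E D : F[X]) : F[X] :=
  a1B m k E D + (D * E - a1B m k E D) %ₘ f

theorem a1T_coeff {f : F[X]} (hf : f.Monic) (m k : ℕ) (E D : F[X]) {i : ℕ}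
    (hi : f.natDegree ≤ i) : (a1T f m k E D).coeff i = (a1B m k E D).coeff i := by
  have h1 : ((D * E - a1B m k E D) %ₘ f).coeff i = 0 := by
    refine coeff_eq_zero_of_degree_lt ((degree_modByMonic_lt _ hf).trans_le ?_)
    rw [degree_eq_natDegree hf.ne_zero]
    exact_mod_cast hi
  rw [a1T, coeff_add, h1, add_zero]

theorem a1T_dvd {f : F[X]} (hf : f.Monic) (m k : ℕ) (E D : F[X]) : f ∣ a1T f m k E D - D * E := by
  have h1 := modByMonic_add_div (D * E - a1B m k E D) f
  refine ⟨-((D * E - a1B m k E D) /ₘ f), ?_⟩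
  rw [a1T]
  linear_combination h1

theorem a1T_mem {f : F[X]} (hf : f.Monic) {m k : ℕ} (hk : f.natDegree + m ≤ k) {E D : F[X]}
    (hE : E.Monic) (hD : D ∈ mon F k) : a1T f m k E D ∈ mon F k := by
  obtain ⟨hD1, hD2⟩ := (mem_mon F).1 hD
  have h1 : (a1T f m k E D).coeff k = 1 := by
    rw [a1T_coeff hf _ _ _ _ (by omega), a1B_coeff, if_pos le_rfl]
    split_ifs with h
    · have h2 : (D * E).natDegree = k + E.natDegree := by rw [hD1.natDegree_mul hE, hD2]
      rw [← h2]
      exact (hD1.mul hE).coeff_natDegree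
    · rw [← hD2]
      exact hD1.coeff_natDegree
  have h2 : ∀ i, k < i → (a1T f m k E D).coeff i = 0 := by
    intro i hi
    rw [a1T_coeff hf _ _ _ _ (by omega), a1B_coeff, if_neg (by omega)]
  have h3 : (a1T f m k E D).natDegree ≤ k := natDegree_le_iff_coeff_eq_zero.2 h2
  have h4 : (a1T f m k E D).natDegree = k :=
    le_antisymm h3 (le_natDegree_of_ne_zero (by rw [h1]; exact one_ne_zero))
  refine (mem_mon F).2 ⟨?_, h4⟩
  rw [Monic, leadingCoeff, h4, h1]

theorem a1_rev {k : ℕ} {D : F[X]} (hD : D.natDegree = k) {j : ℕ} (hj : j ≤ k) :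
    D.reverse.coeff j = D.coeff (k - j) := by
  rw [coeff_reverse, hD, revAt_le hj]

theorem a1T_rev {f : F[X]} (hf : f.Monic) {m k : ℕ} (hk : f.natDegree + m ≤ k) {E D : F[X]}
    (hE : E.Monic) (hD : D ∈ mon F k) : X ^ m ∣ (a1T f m k E D).reverse - (D * E).reverse := by
  obtain ⟨hD1, hD2⟩ := (mem_mon F).1 hD
  obtain ⟨hT1, hT2⟩ := (mem_mon F).1 (a1T_mem hf hk hE hD)
  have h2 : (D * E).natDegree = k + E.natDegree := by rw [hD1.natDegree_mul hE, hD2]
  rw [X_pow_dvd_iff]
  intro j hj
  rw [coeff_sub, a1_rev hT2 (by omega), a1_rev h2 (by omega), a1T_coeff hf _ _ _ _ (by omega),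
    a1B_coeff, if_pos (by omega), if_pos (by omega), sub_eq_zero]
  congr 1
  omega

theorem a1T_inj {f : F[X]} (hf : f.Monic) {m k : ℕ} (hk : f.natDegree + m ≤ k) {E : F[X]}
    (hE : E.Monic) (hc : IsCoprime E f) {D D' : F[X]} (hD : D ∈ mon F k) (hD' : D' ∈ mon F k)
    (h : a1T f m k E D = a1T f m k E D') : D = D' := by
  obtain ⟨hD1, hD2⟩ := (mem_mon F).1 hD
  obtain ⟨hD1', hD2'⟩ := (mem_mon F).1 hD'
  have h1 : f ∣ D - D' := by
    have h2 : f ∣ (D - D') * E := by
      have h3 := dvd_sub (a1T_dvd hf m k E D') (a1T_dvd hf m k E D)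
      rw [h] at h3
      have h4 : a1T f m k E D' - D' * E - (a1T f m k E D' - D * E) = (D - D') * E := by ring
      rwa [h4] at h3
    exact hc.symm.dvd_of_dvd_mul_right h2
  have h2 : X ^ m ∣ D.reverse - D'.reverse := by
    have h3 : X ^ m ∣ (D.reverse - D'.reverse) * E.reverse := by
      have h4 := dvd_sub (a1T_rev hf hk hE hD') (a1T_rev hf hk hE hD)
      rw [h, reverse_mul_of_domain, reverse_mul_of_domain] at h4
      have h5 : (a1T f m k E D').reverse - D'.reverse * E.reverse -
          ((a1T f m k E D').reverse - D.reverse * E.reverse) =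
          (D.reverse - D'.reverse) * E.reverse := by ring
      rwa [h5] at h4
    have h6 : IsCoprime X E.reverse := by
      rw [irreducible_X.coprime_iff_not_dvd, X_dvd_iff, coeff_zero_reverse, hE.leadingCoeff]
      exact one_ne_zero
    exact (h6.pow_left).dvd_of_dvd_mul_right h3
  rw [X_pow_dvd_iff] at h2
  have h3 : ∀ i, f.natDegree ≤ i → (D - D').coeff i = 0 := by
    intro i hi
    rw [coeff_sub, sub_eq_zero]
    by_cases hik : k < i
    · rw [coeff_eq_zero_of_natDegree_lt (by omega), coeff_eq_zero_of_natDegree_lt (by omega)]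
    · by_cases him : k < i + m
      · have h4 := h2 (k - i) (by omega)
        rw [coeff_sub, a1_rev hD2 (by omega), a1_rev hD2' (by omega), sub_eq_zero] at h4
        have h5 : k - (k - i) = i := by omega
        rwa [h5] at h4
      · have h4 := congrArg (fun P : F[X] => P.coeff i) h
        simp only [a1T_coeff hf _ _ _ _ hi, a1B_coeff] at h4
        rw [if_pos (by omega), if_neg him, if_pos (by omega), if_neg him] at h4
        exact h4
  have h4 : D - D' = 0 := by
    by_contra hne
    have h5 := Polynomial.degree_le_of_dvd h1 hne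
    have h6 : (D - D').degree < f.degree := by
      rw [degree_eq_natDegree hf.ne_zero, degree_lt_iff_coeff_zero]
      intro i hi
      exact h3 i (by exact_mod_cast hi)
    exact absurd h6 (not_lt.2 h5)
  exact sub_eq_zero.1 h4

end A1

/-- orthogonality: a nontrivial Hecke character of modulus `(f, m)` sums to zero over the monic polynomials of
degree `k >= deg f + m`.  -/
theorem sum_mon_eq_zero {F : Type} [Field F] [Fintype F] {f : F[X]} {m : ℕ} {ψ : F[X] → ℂ}
    (h : IsHecke f m ψ) (hn : Nontriv ψ) (k : ℕ) (hk : f.natDegree + m ≤ k) :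
    ∑ D ∈ mon F k, ψ D = 0 := by
  obtain ⟨E, hE, hE0, hE1⟩ := hn
  have hc : IsCoprime E f := (h.supp E hE).1 hE0
  have h1 : ∑ D ∈ mon F k, ψ (a1T f m k E D) = ∑ D ∈ mon F k, ψ D := by
    refine Finset.sum_bij (fun D _ => a1T f m k E D) (fun D hD => a1T_mem h.monic hk hE hD)
      (fun D hD D' hD' hh => a1T_inj h.monic hk hE hc hD hD' hh) ?_ (fun _ _ => rfl)
    have h2 : Set.InjOn (a1T f m k E) (mon F k : Set F[X]) := fun D hD D' hD' hh =>
      a1T_inj h.monic hk hE hc hD hD' hh
    have h3 : Set.MapsTo (a1T f m k E) (mon F k : Set F[X]) (mon F k : Set F[X]) :=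
      fun D hD => a1T_mem h.monic hk hE hD
    intro D hD
    obtain ⟨D', hD', hh⟩ := Finset.surjOn_of_injOn_of_card_le (a1T f m k E) h3 h2 le_rfl hD
    exact ⟨D', hD', hh⟩
  have h2 : ∑ D ∈ mon F k, ψ (a1T f m k E D) = ψ E * ∑ D ∈ mon F k, ψ D := by
    rw [Finset.mul_sum]
    refine Finset.sum_congr rfl fun D hD => ?_
    obtain ⟨hD1, hD2⟩ := (mem_mon F).1 hD
    rw [h.cong _ (D * E) ((mem_mon F).1 (a1T_mem h.monic hk hE hD)).1 (hD1.mul hE)
      (a1T_dvd h.monic m k E D) (a1T_rev h.monic hk hE hD), h.mul D E hD1 hE, mul_comm]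
  have h3 : (ψ E - 1) * ∑ D ∈ mon F k, ψ D = 0 := by
    linear_combination h1 - h2
  exact (mul_eq_zero.1 h3).resolve_left (sub_ne_zero.2 hE1)


end Pool.Agent.H497.FF
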