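import Pool.Agent.H497.FF.Defs

set_option autoImplicit false



namespace Pool.Agent.H497.FF

open Polynomial


section newtonAux

variable {F : Type} [Field F] [Fintype F]

open UniqueFactorizationMonoid

/-- all monic irreducible polynomials of degree between `1` and `k` -/
noncomputable def UU (F : Type) [Field F] [Fintype F] (k : ℕ) : Finset F[X] := by
  classical
  exact (Finset.Icc 1 k).biUnion (irr F)

theorem mem_UU {k : ℕ} {P : F[X]} : P ∈ UU F k ↔ P.Monic ∧ Irreducible P ∧ P.natDegree ≤ k := by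
  classical
  unfold UU
  simp only [Finset.mem_biUnion, Finset.mem_Icc, mem_irr]
  constructor
  · rintro ⟨d, ⟨h1, h2⟩, h3, h4, h5⟩
    exact ⟨h3, h5, h4 ▸ h2⟩
  · rintro ⟨h1, h2, h3⟩
    exact ⟨P.natDegree, ⟨h2.natDegree_pos, h3⟩, h1, rfl, h2⟩

theorem sum_UU {k : ℕ} (g : F[X] → ℂ) : ∑ P ∈ UU F k, g P = ∑ d ∈ Finset.Icc 1 k, ∑ P ∈ irr F d, g P := by
  classical
  unfold UU
  rw [Finset.sum_biUnion]
  intro a _ b _ hab
  rw [Function.onFun, Finset.disjoint_left]
  intro P h1 h2
  rw [mem_irr] at h1 h2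
  exact hab (h1.2.1.symm.trans h2.2.1)

theorem TT_eq (χ : F[X] → ℂ) {r k : ℕ} (hr : r ≠ 0) (hrk : r ≤ k) :
    TT χ r = ∑ P ∈ UU F k, if P.natDegree ∣ r then (P.natDegree : ℂ) * χ P ^ (r / P.natDegree) else 0 := by
  classical
  rw [sum_UU]
  have h1 : ∀ d ∈ Finset.Icc 1 k, (∑ P ∈ irr F d,
      if P.natDegree ∣ r then (P.natDegree : ℂ) * χ P ^ (r / P.natDegree) else 0) =
      if d ∣ r then (d : ℂ) * ∑ P ∈ irr F d, χ P ^ (r / d) else 0 := by
    intro d _
    rw [Finset.sum_congr rfl (g := fun P => if d ∣ r then (d : ℂ) * χ P ^ (r / d) else 0)]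
    · split_ifs with h
      · rw [Finset.mul_sum]
      · simp
    · intro P hP
      rw [(mem_irr (F := F)).1 hP |>.2.1]
  rw [Finset.sum_congr rfl h1, ← Finset.sum_filter]
  unfold TT
  apply Finset.sum_congr _ fun _ _ => rfl
  ext d
  simp only [Nat.mem_divisors, Finset.mem_filter, Finset.mem_Icc]
  constructor
  · rintro ⟨h, _⟩
    exact ⟨⟨Nat.pos_of_dvd_of_pos h (Nat.pos_of_ne_zero hr), (Nat.le_of_dvd (Nat.pos_of_ne_zero hr) h).trans hrk⟩, h⟩
  · rintro ⟨_, h⟩
    exact ⟨h, hr⟩

theorem chi_pow (χ : F[X] → ℂ) (h1 : χ 1 = 1)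
    (hmul : ∀ D E : F[X], D.Monic → E.Monic → χ (D * E) = χ D * χ E) {P : F[X]} (hP : P.Monic) (e : ℕ) :
    χ (P ^ e) = χ P ^ e := by
  induction e with
  | zero => simp [h1]
  | succ e ih => rw [pow_succ, hmul _ _ (hP.pow e) hP, ih, pow_succ]

open Classical in
/-- multiples of `P ^ e` of degree `k` -/
theorem sum_mult (χ : F[X] → ℂ) (h1 : χ 1 = 1)
    (hmul : ∀ D E : F[X], D.Monic → E.Monic → χ (D * E) = χ D * χ E) {P : F[X]} (hP : P.Monic)
    {e k : ℕ} (hk : e * P.natDegree ≤ k) :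
    χ P ^ e * ∑ D ∈ mon F (k - e * P.natDegree), χ D = ∑ D ∈ (mon F k).filter (fun D => P ^ e ∣ D), χ D := by
  rw [Finset.mul_sum]
  refine Finset.sum_bij (fun D _ => P ^ e * D) ?_ ?_ ?_ ?_
  · intro D hD
    rw [mem_mon] at hD
    rw [Finset.mem_filter, mem_mon]
    refine ⟨⟨(hP.pow e).mul hD.1, ?_⟩, dvd_mul_right _ _⟩
    rw [(hP.pow e).natDegree_mul hD.1, hP.natDegree_pow, hD.2]
    omega
  · intro D _ E _ h
    exact mul_left_cancel₀ (pow_ne_zero e hP.ne_zero) h
  · intro D hD
    rw [Finset.mem_filter, mem_mon] at hD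
    obtain ⟨⟨hD1, hD2⟩, E, rfl⟩ := hD
    have hE : E.Monic := (hP.pow e).of_mul_monic_left hD1
    refine ⟨E, ?_, rfl⟩
    rw [mem_mon]
    refine ⟨hE, ?_⟩
    rw [(hP.pow e).natDegree_mul hE, hP.natDegree_pow] at hD2
    omega
  · intro D hD
    rw [mem_mon] at hD
    rw [hmul _ _ (hP.pow e) hD.1, chi_pow χ h1 hmul hP]

open Classical in
/-- the number of powers of `P` dividing `D` -/
theorem card_pow {k : ℕ} {D P : F[X]} (hD : D.Monic) (hk : D.natDegree = k) (hP : P.Monic)
    (hPi : Irreducible P) :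
    ((Finset.range k).filter (fun j => P.natDegree ∣ j + 1 ∧ P ^ ((j + 1) / P.natDegree) ∣ D)).card =
      (normalizedFactors D).count P := by
  have hd : 0 < P.natDegree := hPi.natDegree_pos
  have hnorm : normalize P = P := hP.normalize_eq_self
  have hiff : ∀ e : ℕ, P ^ e ∣ D ↔ e ≤ (normalizedFactors D).count P := by
    intro e
    rw [pow_dvd_iff_le_emultiplicity, emultiplicity_eq_count_normalizedFactors hPi hD.ne_zero, hnorm]
    exact Nat.cast_le
  have himg : (Finset.range k).filter (fun j => P.natDegree ∣ j + 1 ∧ P ^ ((j + 1) / P.natDegree) ∣ D) =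
      (Finset.range ((normalizedFactors D).count P)).image (fun e => (e + 1) * P.natDegree - 1) := by
    ext j
    simp only [Finset.mem_filter, Finset.mem_range, Finset.mem_image, hiff]
    constructor
    · rintro ⟨_, ⟨e, he⟩, h2⟩
      have he0 : 0 < e := by
        rcases Nat.eq_zero_or_pos e with h | h
        · rw [h] at he; simp at he
        · exact h
      rw [he, Nat.mul_div_cancel_left _ hd] at h2
      refine ⟨e - 1, by omega, ?_⟩
      rw [Nat.sub_add_cancel he0, mul_comm]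
      omega
    · rintro ⟨e, he, rfl⟩
      have h1 : 0 < (e + 1) * P.natDegree := by positivity
      have h2 : (e + 1) * P.natDegree - 1 + 1 = (e + 1) * P.natDegree := by omega
      rw [h2, Nat.mul_div_cancel _ hd]
      refine ⟨?_, dvd_mul_left _ _, he⟩
      have h3 : P ^ (e + 1) ∣ D := (hiff (e + 1)).2 he
      have h4 := natDegree_le_of_dvd h3 hD.ne_zero
      rw [hP.natDegree_pow, hk] at h4
      omega
  rw [himg, Finset.card_image_of_injective, Finset.card_range]
  intro a b hab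
  simp only at hab
  have h1 : 0 < (a + 1) * P.natDegree := by positivity
  have h2 : 0 < (b + 1) * P.natDegree := by positivity
  have h3 : (a + 1) * P.natDegree = (b + 1) * P.natDegree := by omega
  have h4 := Nat.eq_of_mul_eq_mul_right hd h3
  omega

open Classical in
/-- the degree of a monic polynomial as a sum over its prime factors -/
theorem deg_eq {k : ℕ} {D : F[X]} (hD : D.Monic) (hk : D.natDegree = k) :
    ∑ P ∈ UU F k, P.natDegree * ((Finset.range k).filter
      (fun j => P.natDegree ∣ j + 1 ∧ P ^ ((j + 1) / P.natDegree) ∣ D)).card = k := by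
  have h0 : D ≠ 0 := hD.ne_zero
  have hprod : (normalizedFactors D).prod = D := by
    have h := prod_normalizedFactors (a := D) h0
    have hm : (normalizedFactors D).prod.Monic := by
      have h2 := monic_multiset_prod_of_monic (normalizedFactors D) id (fun P hP =>
        ((Polynomial.mem_normalizedFactors_iff h0).1 hP).2.1)
      rwa [Multiset.map_id] at h2
    exact eq_of_monic_of_associated hm hD h
  have hmem : ∀ P ∈ normalizedFactors D, P.Monic ∧ Irreducible P ∧ P ∣ D := by
    intro P hP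
    have := (Polynomial.mem_normalizedFactors_iff h0).1 hP
    exact ⟨this.2.1, this.1, this.2.2⟩
  rw [Finset.sum_congr rfl (g := fun P => P.natDegree * (normalizedFactors D).count P)
    (fun P hP => by rw [card_pow hD hk ((mem_UU).1 hP).1 ((mem_UU).1 hP).2.1])]
  have hsub : (normalizedFactors D).toFinset ⊆ UU F k := by
    intro P hP
    rw [Multiset.mem_toFinset] at hP
    obtain ⟨a, b, c⟩ := hmem P hP
    exact mem_UU.2 ⟨a, b, hk ▸ natDegree_le_of_dvd c h0⟩
  rw [← Finset.sum_subset hsub]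
  · have h5 : D.natDegree = ((normalizedFactors D).map natDegree).sum := by
      conv_lhs => rw [← hprod]
      exact natDegree_multiset_prod_of_monic _ fun P hP => (hmem P hP).1
    rw [hk, Finset.sum_multiset_map_count] at h5
    rw [h5]
    apply Finset.sum_congr rfl
    intro P _
    rw [smul_eq_mul, mul_comm]
  · intro P _ hP
    rw [Multiset.mem_toFinset] at hP
    rw [Multiset.count_eq_zero_of_notMem hP, mul_zero]

end newtonAux

/-- Newton identity (logarithmic derivative of the Euler product), degree by degree: every monic `D` of degree `k`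
satisfies `k = ∑_{P^e ∣ D} deg P`. -/
theorem newton {F : Type} [Field F] [Fintype F] (χ : F[X] → ℂ) (h1 : χ 1 = 1)
    (hmul : ∀ D E : F[X], D.Monic → E.Monic → χ (D * E) = χ D * χ E) (k : ℕ) :
    (k : ℂ) * ∑ D ∈ mon F k, χ D =
      ∑ j ∈ Finset.range k, TT χ (j + 1) * ∑ D ∈ mon F (k - 1 - j), χ D := by
  classical
  have e1 : ∀ j ∈ Finset.range k, TT χ (j + 1) * ∑ D ∈ mon F (k - 1 - j), χ D =
      ∑ P ∈ UU F k, ∑ D ∈ mon F k, if P.natDegree ∣ j + 1 ∧ P ^ ((j + 1) / P.natDegree) ∣ D then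
        (P.natDegree : ℂ) * χ D else 0 := by
    intro j hj
    rw [Finset.mem_range] at hj
    rw [TT_eq χ (Nat.succ_ne_zero j) (by omega : j + 1 ≤ k), Finset.sum_mul]
    apply Finset.sum_congr rfl
    intro P hP
    obtain ⟨hPm, hPi, _⟩ := mem_UU.1 hP
    have hd : 0 < P.natDegree := hPi.natDegree_pos
    split_ifs with h
    · have h2 : (j + 1) / P.natDegree * P.natDegree = j + 1 := Nat.div_mul_cancel h
      have h3 := sum_mult χ h1 hmul hPm (e := (j + 1) / P.natDegree) (k := k) (by rw [h2]; omega)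
      rw [h2] at h3
      rw [show k - 1 - j = k - (j + 1) by omega, mul_assoc, h3, Finset.sum_filter, Finset.mul_sum]
      apply Finset.sum_congr rfl
      intro D _
      simp only [h, true_and]
      split_ifs <;> simp
    · simp [h]
  rw [Finset.sum_congr rfl e1]
  -- swap the sums
  have e2 : (∑ j ∈ Finset.range k, ∑ P ∈ UU F k, ∑ D ∈ mon F k,
      if P.natDegree ∣ j + 1 ∧ P ^ ((j + 1) / P.natDegree) ∣ D then (P.natDegree : ℂ) * χ D else 0) =
      ∑ D ∈ mon F k, ∑ P ∈ UU F k, ∑ j ∈ Finset.range k,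
        if P.natDegree ∣ j + 1 ∧ P ^ ((j + 1) / P.natDegree) ∣ D then (P.natDegree : ℂ) * χ D else 0 := by
    rw [Finset.sum_comm]
    have e3 : ∀ P ∈ UU F k, (∑ j ∈ Finset.range k, ∑ D ∈ mon F k,
        if P.natDegree ∣ j + 1 ∧ P ^ ((j + 1) / P.natDegree) ∣ D then (P.natDegree : ℂ) * χ D else 0) =
        ∑ D ∈ mon F k, ∑ j ∈ Finset.range k,
        if P.natDegree ∣ j + 1 ∧ P ^ ((j + 1) / P.natDegree) ∣ D then (P.natDegree : ℂ) * χ D else 0 :=
      fun P _ => Finset.sum_comm
    rw [Finset.sum_congr rfl e3, Finset.sum_comm]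
  rw [e2, Finset.mul_sum]
  apply Finset.sum_congr rfl
  intro D hD
  obtain ⟨hDm, hDk⟩ := (mem_mon F).1 hD
  have h6 := deg_eq hDm hDk
  have h7 : ((∑ P ∈ UU F k, P.natDegree * ((Finset.range k).filter
      (fun j => P.natDegree ∣ j + 1 ∧ P ^ ((j + 1) / P.natDegree) ∣ D)).card : ℕ) : ℂ) = (k : ℂ) := by
    rw [h6]
  rw [← h7]
  push_cast
  rw [Finset.sum_mul]
  apply Finset.sum_congr rfl
  intro P _
  rw [← Finset.sum_filter, Finset.sum_const, nsmul_eq_mul]
  ring

end Pool.Agent.H497.FF
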