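import Mathlib

set_option autoImplicit false

open Polynomial

namespace Pool.Agent.H497.FF

open Polynomial

/-- the coefficients of a monic split polynomial -/
theorem A2b_poly (a : ℕ → ℂ) (M : ℕ) (h0 : a 0 = 1) :
    ∃ ω : Fin M → ℂ, ∀ k ≤ M, a k = (-1) ^ k * (Finset.univ.val.map ω).esymm k := by
  let Q : ℂ[X] := ∑ j ∈ Finset.range (M + 1), monomial j (a (M - j))
  have hc : ∀ j, Q.coeff j = if j < M + 1 then a (M - j) else 0 := by
    intro j
    simp only [Q, finsetSum_coeff, coeff_monomial]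
    rw [Finset.sum_ite_eq']
    simp only [Finset.mem_range]
  have hcM : Q.coeff M = 1 := by rw [hc, if_pos (Nat.lt_succ_self M), Nat.sub_self, h0]
  have hdle : Q.natDegree ≤ M := by
    rw [natDegree_le_iff_coeff_eq_zero]
    intro j hj
    rw [hc, if_neg (by omega)]
  have hd : Q.natDegree = M := le_antisymm hdle (le_natDegree_of_ne_zero (by rw [hcM]; exact one_ne_zero))
  have hm : Q.Monic := by
    unfold Monic leadingCoeff
    rw [hd, hcM]
  have hs : Q.Splits := IsAlgClosed.splits Q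
  have hcard : Q.roots.card = M := by
    rw [← hd]
    exact (splits_iff_card_roots.1 hs)
  have hprod : Q = (Q.roots.map fun t => X - C t).prod := by
    have h := hs.eq_prod_roots
    rw [hm.leadingCoeff, C_1, one_mul] at h
    exact h
  obtain ⟨l, hl⟩ := Quot.exists_rep Q.roots
  have hl' : (l : Multiset ℂ) = Q.roots := hl
  have hlen : l.length = M := by
    rw [← hcard, ← hl', Multiset.coe_card]
  refine ⟨fun i => l.get (i.cast hlen.symm), fun k hk => ?_⟩
  have hmap : Finset.univ.val.map (fun i : Fin M => l.get (i.cast hlen.symm)) = Q.roots := by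
    subst hlen
    rw [← hl']
    simp
  rw [hmap]
  have h1 := Multiset.prod_X_sub_C_coeff Q.roots (k := M - k) (by rw [hcard]; omega)
  rw [← hprod, hcard, hc, if_pos (by omega)] at h1
  have h2 : M - (M - k) = k := by omega
  rw [h2] at h1
  exact h1

/-- From the Newton recursion to the zeros: if `a 0 = 1`, `a k = 0` for `k ≥ M` and
`k a_k = ∑_{j<k} T_{j+1} a_{k-1-j}`, then `T_r = - ∑_i ω_i^r` for suitable complex `ω_i`
(the polynomial `∑ a_k u^k` factors as `∏ (1 - ω_i u)`; pad with zeros). -/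
theorem zeros_of_newton (a T : ℕ → ℂ) (M : ℕ) (h0 : a 0 = 1) (hM : ∀ k, M ≤ k → a k = 0)
    (hN : ∀ k : ℕ, (k : ℂ) * a k = ∑ j ∈ Finset.range k, T (j + 1) * a (k - 1 - j)) :
    ∃ ω : Fin M → ℂ, ∀ r : ℕ, 1 ≤ r → T r = - ∑ i, ω i ^ r := by
  obtain ⟨ω, hω⟩ := A2b_poly a M h0
  refine ⟨ω, ?_⟩
  have ha : ∀ k, a k = (-1) ^ k * MvPolynomial.aeval ω (MvPolynomial.esymm (Fin M) ℂ k) := by
    intro k
    rw [MvPolynomial.aeval_esymm_eq_multiset_esymm]
    rcases le_or_gt k M with hk | hk
    · exact hω k hk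
    · rw [hM k hk.le, Multiset.esymm, Multiset.powersetCard_eq_empty]
      · simp
      · simpa using hk
  -- the Newton identities
  have hN' : ∀ k : ℕ, (k : ℂ) * a k =
      ∑ j ∈ Finset.range k, (- ∑ i, ω i ^ (j + 1)) * a (k - 1 - j) := by
    intro k
    have h1 := congrArg (MvPolynomial.aeval ω) (MvPolynomial.mul_esymm_eq_sum (Fin M) ℂ k)
    rw [map_mul, map_mul, map_natCast, map_pow, map_neg, map_one, map_sum] at h1
    have h2 : (k : ℂ) * a k = (-1) ^ k * ((k : ℂ) *
        MvPolynomial.aeval ω (MvPolynomial.esymm (Fin M) ℂ k)) := by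
      rw [ha k]; ring
    rw [h2, h1, ← mul_assoc, ← pow_add, Finset.sum_filter,
      Finset.Nat.sum_antidiagonal_eq_sum_range_succ_mk, Finset.sum_range_succ]
    have h3 : (-1 : ℂ) ^ (k + (k + 1)) = -1 := by
      rw [show k + (k + 1) = 2 * k + 1 by ring, pow_succ, pow_mul]
      norm_num
    rw [h3]
    simp only [lt_irrefl, if_false, add_zero]
    rw [← Finset.sum_range_reflect, Finset.mul_sum]
    refine Finset.sum_congr rfl fun j hj => ?_
    rw [Finset.mem_range] at hj
    rw [if_pos (by omega), map_mul, map_mul, map_pow, map_neg, map_one, ha (k - 1 - j),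
      show k - (k - 1 - j) = j + 1 by omega]
    have h4 : MvPolynomial.aeval ω (MvPolynomial.psum (Fin M) ℂ (j + 1)) = ∑ i, ω i ^ (j + 1) := by
      simp [MvPolynomial.psum]
    rw [h4]
    ring
  intro r hr
  induction r using Nat.strong_induction_on with
  | _ r ih =>
    obtain ⟨n, rfl⟩ : ∃ n, r = n + 1 := ⟨r - 1, by omega⟩
    have h1 := hN (n + 1)
    rw [hN' (n + 1), Finset.sum_range_succ, Finset.sum_range_succ] at h1
    have h2 : ∑ j ∈ Finset.range n, (- ∑ i, ω i ^ (j + 1)) * a (n + 1 - 1 - j) =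
        ∑ j ∈ Finset.range n, T (j + 1) * a (n + 1 - 1 - j) := by
      refine Finset.sum_congr rfl fun j hj => ?_
      rw [Finset.mem_range] at hj
      rw [ih (j + 1) (by omega) (by omega)]
    rw [h2] at h1
    have h3 := add_left_cancel h1
    rw [show n + 1 - 1 - n = 0 by omega, h0, mul_one, mul_one] at h3
    exact h3.symm

/-- recurrence: the powers of finitely many complex numbers of modulus one come back to one -/
theorem A2b_rec {M : ℕ} (u : Fin M → ℂ) (hu : ∀ i, ‖u i‖ = 1) (ε : ℝ) (hε : 0 < ε) (N : ℕ) :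
    ∃ J, N ≤ J ∧ ∀ i, ‖u i ^ J - 1‖ < ε := by
  have hb : ∀ j : ℕ, (fun i => u i ^ j) ∈ Metric.closedBall (0 : Fin M → ℂ) 1 := by
    intro j
    rw [mem_closedBall_zero_iff, pi_norm_le_iff_of_nonneg zero_le_one]
    intro i
    rw [norm_pow, hu, one_pow]
  obtain ⟨a, _, φ, hφ, hlim⟩ := tendsto_subseq_of_bounded (Metric.isBounded_closedBall) hb
  have hc := hlim.cauchySeq
  rw [Metric.cauchySeq_iff] at hc
  obtain ⟨N0, hN0⟩ := hc ε hε
  have h1 := hN0 (N0 + N) (Nat.le_add_right _ _) N0 le_rfl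
  have h2 : φ N0 + N ≤ φ (N0 + N) := by
    have : ∀ n, φ N0 + n ≤ φ (N0 + n) := by
      intro n
      induction n with
      | zero => exact le_rfl
      | succ n ih =>
        have := hφ (show N0 + n < N0 + (n + 1) by omega)
        omega
    exact this N
  refine ⟨φ (N0 + N) - φ N0, by omega, fun i => ?_⟩
  have h3 : dist (u i ^ φ (N0 + N)) (u i ^ φ N0) < ε :=
    lt_of_le_of_lt (dist_le_pi_dist (fun i => u i ^ φ (N0 + N)) (fun i => u i ^ φ N0) i) h1
  have h4 : u i ^ φ (N0 + N) - u i ^ φ N0 = u i ^ φ N0 * (u i ^ (φ (N0 + N) - φ N0) - 1) := by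
    rw [mul_sub, ← pow_add, mul_one]
    congr 2
    omega
  rw [dist_eq_norm, h4, norm_mul, norm_pow, hu, one_pow, one_mul] at h3
  exact h3

/-- power sums: if all power sums of the `z_i` are `O(B^j)` then `|z_i| ≤ B` (partial fractions: the rational function
`∑_i z_i u/(1 - z_i u)` would have a pole inside the disc `|u| < 1/B`; or simultaneous Dirichlet approximation). -/
theorem power_sum_bound {M : ℕ} (z : Fin M → ℂ) (C B : ℝ) (hB : 0 < B)
    (h : ∀ j : ℕ, 1 ≤ j → ‖∑ i, z i ^ j‖ ≤ C * B ^ j) (i : Fin M) : ‖z i‖ ≤ B := by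
  by_contra hlt
  rw [not_le] at hlt
  let u : Fin M → ℂ := fun i => if z i = 0 then 1 else z i / ‖z i‖
  have hu : ∀ i, ‖u i‖ = 1 := by
    intro i
    by_cases hz : z i = 0
    · simp [u, hz]
    · simp only [u, if_neg hz]
      rw [norm_div, Complex.norm_real, norm_norm, div_self (norm_ne_zero_iff.2 hz)]
  have hzu : ∀ i, z i = ‖z i‖ * u i := by
    intro i
    by_cases hz : z i = 0
    · simp [u, hz]
    · simp only [u, if_neg hz]
      rw [mul_div_cancel₀]
      exact_mod_cast norm_ne_zero_iff.2 hz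
  have hr : 1 < ‖z i‖ / B := (one_lt_div hB).2 hlt
  obtain ⟨N, hN⟩ := pow_unbounded_of_one_lt (2 * |C| + 1) hr
  obtain ⟨J, hJ, hJu⟩ := A2b_rec u hu (1 / 2) (by norm_num) (N + 1)
  have h1 := h J (by omega)
  have h2 : ‖z i‖ ^ J / 2 ≤ (∑ i, z i ^ J).re := by
    rw [Complex.re_sum]
    have h3 : ∀ i, ‖z i‖ ^ J / 2 ≤ (z i ^ J).re := by
      intro i
      have h4 : z i ^ J = ((‖z i‖ ^ J : ℝ) : ℂ) * u i ^ J := by
        conv_lhs => rw [hzu i]
        rw [mul_pow]
        push_cast
        rfl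
      rw [h4, Complex.re_ofReal_mul]
      have h5 : (1 : ℝ) / 2 ≤ (u i ^ J).re := by
        have h6 := (Complex.abs_re_le_norm (u i ^ J - 1)).trans (hJu i).le
        rw [Complex.sub_re, Complex.one_re, abs_le] at h6
        linarith [h6.1]
      have h7 : 0 ≤ ‖z i‖ ^ J := by positivity
      nlinarith
    refine le_trans (h3 i) ?_
    refine Finset.single_le_sum (f := fun i => (z i ^ J).re) (fun i _ => ?_) (Finset.mem_univ i)
    exact le_trans (by positivity) (h3 i)
  have h3 : ‖z i‖ ^ J / 2 ≤ C * B ^ J := (h2.trans (Complex.re_le_norm _)).trans h1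
  have h4 : (‖z i‖ / B) ^ J ≤ 2 * |C| := by
    rw [div_pow, div_le_iff₀ (by positivity)]
    have h5 : C * B ^ J ≤ |C| * B ^ J := mul_le_mul_of_nonneg_right (le_abs_self C) (by positivity)
    linarith
  have h5 : (‖z i‖ / B) ^ N ≤ (‖z i‖ / B) ^ J := pow_le_pow_right₀ hr.le (by omega)
  linarith

end Pool.Agent.H497.FF
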