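import Pool.Agent.H497.FF.A4

set_option autoImplicit false



namespace Pool.Agent.H497.FF

open Polynomial


/-- `∑_{d ∣ k} d |irr d| = q^k` -/
theorem sum_card_irr {F : Type} [Field F] [Fintype F] {k : ℕ} (hk : k ≠ 0) :
    ∑ d ∈ k.divisors, d * (irr F d).card = Fintype.card F ^ k := by
  have h := TT_eq_sum_fix (F := F) (fun _ => (1 : ℂ)) rfl (fun _ _ _ _ => (mul_one 1).symm) hk
  have h2 : TT (F := F) (fun _ => (1 : ℂ)) k = ((∑ d ∈ k.divisors, d * (irr F d).card : ℕ) : ℂ) := by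
    unfold TT
    push_cast
    refine Finset.sum_congr rfl fun d _ => ?_
    simp
  have h3 : ∑ a ∈ fix F k, (fun _ : F[X] => (1 : ℂ)) (DD k a) = ((Fintype.card F ^ k : ℕ) : ℂ) := by
    rw [← card_fix hk]
    simp
  rw [h2, h3] at h
  exact_mod_cast h

theorem card_irr_le {F : Type} [Field F] [Fintype F] (k : ℕ) :
    k * (irr F k).card ≤ Fintype.card F ^ k := by
  rcases eq_or_ne k 0 with rfl | hk
  · simp
  · rw [← sum_card_irr hk]
    exact Finset.single_le_sum (f := fun d => d * (irr F d).card) (fun _ _ => Nat.zero_le _)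
      (Nat.mem_divisors_self k hk)

theorem geom_two_mul {q : ℕ} (hq : 2 ≤ q) (n : ℕ) : ∑ i ∈ Finset.range (n + 1), q ^ i ≤ 2 * q ^ n := by
  induction n with
  | zero => simp
  | succ n ih =>
    rw [Finset.sum_range_succ, pow_succ]
    nlinarith [pow_pos (show 0 < q by omega) n]

/-- the contribution of the proper divisors -/
theorem proper_le {F : Type} [Field F] [Fintype F] (k : ℕ) :
    ((∑ d ∈ k.properDivisors, d * (irr F d).card : ℕ) : ℝ) ≤ 2 * √(Fintype.card F : ℝ) ^ k := by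
  set q := Fintype.card F with hq
  have hq2 : 2 ≤ q := Fintype.one_lt_card
  have hq1 : (1 : ℝ) ≤ q := by exact_mod_cast (by omega : 1 ≤ q)
  have h1 : ∑ d ∈ k.properDivisors, d * (irr F d).card ≤ 2 * q ^ (k / 2) := by
    calc ∑ d ∈ k.properDivisors, d * (irr F d).card
        ≤ ∑ d ∈ k.properDivisors, q ^ d := Finset.sum_le_sum fun d _ => card_irr_le d
      _ ≤ ∑ d ∈ Finset.range (k / 2 + 1), q ^ d := by
          refine Finset.sum_le_sum_of_subset fun d hd => ?_
          rw [Nat.mem_properDivisors] at hd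
          rw [Finset.mem_range]
          obtain ⟨⟨c, hc⟩, hlt⟩ := hd
          have hc2 : 2 ≤ c := by
            rcases c with _ | _ | c
            · simp at hc; omega
            · simp at hc; omega
            · omega
          have : d * 2 ≤ k := by rw [hc]; exact Nat.mul_le_mul_left d hc2
          omega
      _ ≤ 2 * q ^ (k / 2) := geom_two_mul hq2 _
  have h2 : ((q : ℝ)) ^ (k / 2) ≤ √(q : ℝ) ^ k := by
    have hs : √(q : ℝ) ^ 2 = q := Real.sq_sqrt (by positivity)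
    have hs1 : 1 ≤ √(q : ℝ) := Real.one_le_sqrt.2 hq1
    calc ((q : ℝ)) ^ (k / 2) = √(q : ℝ) ^ (2 * (k / 2)) := by rw [pow_mul, hs]
      _ ≤ √(q : ℝ) ^ k := pow_le_pow_right₀ hs1 (Nat.mul_div_le k 2)
  have h3 : ((∑ d ∈ k.properDivisors, d * (irr F d).card : ℕ) : ℝ) ≤ 2 * (q : ℝ) ^ (k / 2) := by
    exact_mod_cast h1
  linarith

theorem card_irr_ge {F : Type} [Field F] [Fintype F] {k : ℕ} (hk : k ≠ 0) :
    (Fintype.card F : ℝ) ^ k - 2 * √(Fintype.card F : ℝ) ^ k ≤ k * (irr F k).card := by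
  have h1 := sum_card_irr (F := F) hk
  rw [← Nat.insert_self_properDivisors hk, Finset.sum_insert Nat.self_notMem_properDivisors, add_comm] at h1
  have h2 : ((∑ d ∈ k.properDivisors, d * (irr F d).card : ℕ) : ℝ) + (k : ℝ) * (irr F k).card
      = (Fintype.card F : ℝ) ^ k := by exact_mod_cast h1
  have h3 := proper_le (F := F) k
  linarith

/-- passing from prime powers to primes -/
theorem irr_sum_bound {F : Type} [Field F] [Fintype F] (χ : F[X] → ℂ) (hχ : ∀ D, ‖χ D‖ ≤ 1) (M : ℝ) {k : ℕ}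
    (hk : k ≠ 0) (h : ‖TT χ k‖ ≤ M * √(Fintype.card F : ℝ) ^ k) :
    (k : ℝ) * ‖∑ P ∈ irr F k, χ P‖ ≤ (M + 2) * √(Fintype.card F : ℝ) ^ k := by
  have h1 : TT χ k = (∑ d ∈ k.properDivisors, (d : ℂ) * ∑ P ∈ irr F d, χ P ^ (k / d)) +
      (k : ℂ) * ∑ P ∈ irr F k, χ P := by
    unfold TT
    rw [← Nat.insert_self_properDivisors hk, Finset.sum_insert Nat.self_notMem_properDivisors, add_comm]
    congr 2
    refine Finset.sum_congr rfl fun P _ => ?_
    rw [Nat.div_self (Nat.pos_of_ne_zero hk), pow_one]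
  have h2 : ‖∑ d ∈ k.properDivisors, (d : ℂ) * ∑ P ∈ irr F d, χ P ^ (k / d)‖ ≤
      ((∑ d ∈ k.properDivisors, d * (irr F d).card : ℕ) : ℝ) := by
    push_cast
    refine (norm_sum_le _ _).trans (Finset.sum_le_sum fun d _ => ?_)
    rw [norm_mul, Complex.norm_natCast]
    refine mul_le_mul_of_nonneg_left ?_ (Nat.cast_nonneg d)
    refine (norm_sum_le _ _).trans ?_
    calc ∑ P ∈ irr F d, ‖χ P ^ (k / d)‖ ≤ ∑ _P ∈ irr F d, (1 : ℝ) := by
          refine Finset.sum_le_sum fun P _ => ?_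
          rw [norm_pow]
          exact pow_le_one₀ (norm_nonneg _) (hχ P)
      _ = (irr F d).card := by simp
  have h3 : (k : ℂ) * ∑ P ∈ irr F k, χ P = TT χ k -
      ∑ d ∈ k.properDivisors, (d : ℂ) * ∑ P ∈ irr F d, χ P ^ (k / d) := by
    rw [h1]; ring
  have h4 : (k : ℝ) * ‖∑ P ∈ irr F k, χ P‖ = ‖(k : ℂ) * ∑ P ∈ irr F k, χ P‖ := by
    rw [norm_mul, Complex.norm_natCast]
  rw [h4, h3]
  refine (norm_sub_le _ _).trans ?_
  have h5 := proper_le (F := F) k
  linarith

end Pool.Agent.H497.FF
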