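import Pool.Agent.H497.FF.TDefs

set_option autoImplicit false



namespace Pool.Agent.H497.FF

open Polynomial


/-! proved elsewhere (leave the `sorry`s) -/

/-! ## Auxiliary lemmas (helper800) -/

section A6

variable {F : Type} [Field F]

/-- divisibility of `f` by `e0 - e1 X` -/
theorem A6_dvd {R : Type} [CommRing R] [Algebra F R] (f : F[X]) (m : ℕ) (e0 e1 p q : R)
    (hpq : p + q = 1) (hp1 : p * e1 = p) (hq0 : q * e0 = q) (hpf : p * aeval e0 f = 0)
    (hqm : q * e1 ^ m = 0) : (C e0 - C e1 * X : R[X]) ∣ f.map (algebraMap F R) := by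
  obtain ⟨g, hg⟩ : (X - C e0 : R[X]) ∣ f.map (algebraMap F R) - C (aeval e0 f) := by
    have h := X_sub_C_dvd_sub_C_eval (a := e0) (p := f.map (algebraMap F R))
    rwa [eval_map_algebraMap] at h
  obtain ⟨h, hh⟩ : (1 - C e1 * X : R[X]) ∣ 1 - (C e1 * X) ^ m := by
    have := sub_dvd_pow_sub_pow (1 : R[X]) (C e1 * X) m
    rwa [one_pow] at this
  have h1 : C p * f.map (algebraMap F R) = (C e0 - C e1 * X) * (-(C p * g)) := by
    have e1' : C p * C (aeval e0 f) = (0 : R[X]) := by rw [← C_mul, hpf, C_0]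
    have e2 : C p * C e1 = (C p : R[X]) := by rw [← C_mul, hp1]
    calc C p * f.map (algebraMap F R)
        = C p * (f.map (algebraMap F R) - C (aeval e0 f)) + C p * C (aeval e0 f) := by ring
      _ = C p * ((X - C e0) * g) := by rw [hg, e1', add_zero]
      _ = (C e0 - C e1 * X) * (-(C p * g)) + (C p - C p * C e1) * (X * g) := by ring
      _ = _ := by rw [e2, sub_self, zero_mul, add_zero]
  have h2 : C q * f.map (algebraMap F R) =
      (C e0 - C e1 * X) * (C q * h * f.map (algebraMap F R)) := by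
    have e1' : C q * C e1 ^ m = (0 : R[X]) := by rw [← C_pow, ← C_mul, hqm, C_0]
    have e2 : C q * C e0 = (C q : R[X]) := by rw [← C_mul, hq0]
    calc C q * f.map (algebraMap F R)
        = (C q * (1 - (C e1 * X) ^ m) + C q * C e1 ^ m * X ^ m) * f.map (algebraMap F R) := by
          rw [mul_pow]; ring
      _ = C q * ((1 - C e1 * X) * h) * f.map (algebraMap F R) := by
          rw [e1', hh]; ring
      _ = (C e0 - C e1 * X) * (C q * h * f.map (algebraMap F R)) +
          (C q - C q * C e0) * (h * f.map (algebraMap F R)) := by ring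
      _ = _ := by rw [e2, sub_self, zero_mul, add_zero]
  have h3 : f.map (algebraMap F R) = C p * f.map (algebraMap F R) + C q * f.map (algebraMap F R) := by
    rw [← add_mul, ← C_add, hpq, C_1, one_mul]
  rw [h3, h1, h2, ← mul_add]
  exact dvd_mul_right _ _

/-- the determinant from the divisibility -/
theorem A6_det {R : Type} [CommRing R] [Algebra F R] {N : ℕ} (b : Module.Basis (Fin N) F R)
    (f : F[X]) (hf : f ≠ 0) (e0 e1 : R) (h : (C e0 - C e1 * X : R[X]) ∣ f.map (algebraMap F R)) :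
    (EX b e0 e1).det ≠ 0 := by
  obtain ⟨v, hv⟩ := h
  let L : R →+* Matrix (Fin N) (Fin N) F := (Algebra.leftMulMatrix b).toRingHom
  let φ : R[X] →+* Matrix (Fin N) (Fin N) F[X] :=
    ((matPolyEquiv (R := F) (n := Fin N)).symm.toAlgHom.toRingHom).comp (mapRingHom L)
  have h1 : φ (C e0 - C e1 * X) = EX b e0 e1 := by
    have e : φ (C e0 - C e1 * X) = matPolyEquiv.symm (C (L e0) - C (L e1) * X) := by
      show matPolyEquiv.symm ((C e0 - C e1 * X : R[X]).map L) = _
      rw [Polynomial.map_sub, Polynomial.map_mul, map_C, map_C, map_X]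
    rw [e, map_sub, map_mul, matPolyEquiv_symm_C, matPolyEquiv_symm_C, matPolyEquiv_symm_X]
    ext1 i j
    rw [Matrix.sub_apply, Matrix.mul_diagonal]
    rfl
  have h2 : φ (f.map (algebraMap F R)) = f • (1 : Matrix (Fin N) (Fin N) F[X]) := by
    show matPolyEquiv.symm ((f.map (algebraMap F R)).map L) = _
    rw [AlgEquiv.symm_apply_eq, matPolyEquiv_smul_one, Polynomial.map_map]
    congr 1
    exact (Algebra.leftMulMatrix b).comp_algebraMap
  have h3 : EX b e0 e1 * φ v = f • (1 : Matrix (Fin N) (Fin N) F[X]) := by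
    rw [← h1, ← map_mul, ← hv, h2]
  intro h0
  have h4 := congrArg Matrix.det h3
  rw [Matrix.det_mul, h0, zero_mul, Matrix.det_smul, Matrix.det_one, mul_one] at h4
  exact pow_ne_zero _ hf h4.symm

/-- the first component of the homogenised evaluation -/
theorem A6_sum1 {S : Type} [CommRing S] [Algebra F S] (x : S) {r : ℕ} {D : F[X]}
    (hD : D.natDegree = r) :
    ∑ j ∈ Finset.range (r + 1), algebraMap F S (D.coeff j) * x ^ j = aeval x D := by
  rw [aeval_def, eval₂_eq_sum_range, hD]

/-- the second component of the homogenised evaluation -/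
theorem A6_sum2 {S : Type} [CommRing S] [Algebra F S] (x : S) {r : ℕ} {D : F[X]}
    (hD : D.natDegree = r) :
    ∑ j ∈ Finset.range (r + 1), algebraMap F S (D.coeff j) * x ^ (r - j) = aeval x D.reverse := by
  have h1 : D.reverse.natDegree < r + 1 := by
    have := reverse_natDegree_le D
    omega
  rw [aeval_def, eval₂_eq_sum_range' _ h1, ← Finset.sum_range_reflect]
  refine Finset.sum_congr rfl fun j hj => ?_
  rw [Finset.mem_range] at hj
  rw [coeff_reverse, hD, revAt_le (by omega)]
  congr 3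
  omega

end A6

/-! ## To prove -/


/-- The algebra `R = A/f × A/X^m`, with `e0 = (X, 1)`, `e1 = (1, X)`: it has a basis with nonzero determinant, and
`homEval e0 e1 r D = (D mod f, D.reverse mod X^m)` for `D` of degree `r`. -/
theorem ring_data {F : Type} [Field F] [Fintype F] (f : F[X]) (hf : f.Monic) (m : ℕ) :
    ∃ (R : Type) (_ : CommRing R) (_ : Algebra F R) (N : ℕ) (b : Module.Basis (Fin N) F R) (e0 e1 : R),
      (EX b e0 e1).det ≠ 0 ∧
      (∀ (r : ℕ) (D E : F[X]), D.natDegree = r → E.natDegree = r →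
        homEval e0 e1 r D = homEval e0 e1 r E → f ∣ D - E ∧ X ^ m ∣ D.reverse - E.reverse) ∧
      (∀ (r s : ℕ) (D E : F[X]), D.natDegree = r → E.natDegree = s →
        (homEval e0 e1 r D = homEval e0 e1 s E ↔ f ∣ D - E ∧ X ^ m ∣ D.reverse - E.reverse)) ∧
      (∀ (r s : ℕ) (D E : F[X]), D.Monic → E.Monic → D.natDegree = r → E.natDegree = s →
        homEval e0 e1 (r + s) (D * E) = homEval e0 e1 r D * homEval e0 e1 s E) ∧
      (∀ (r : ℕ) (D : F[X]), D.Monic → D.natDegree = r → IsCoprime D f → IsUnit (homEval e0 e1 r D)) ∧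
      (∀ (r : ℕ) (D : F[X]), D.Monic → D.natDegree = r → IsUnit (homEval e0 e1 r D) → IsCoprime D f) := by
  have hm : (X ^ m : F[X]).Monic := monic_X_pow m
  have := hf.finite_adjoinRoot
  have := hm.finite_adjoinRoot
  set x : AdjoinRoot f := AdjoinRoot.root f with hx
  set y : AdjoinRoot (X ^ m : F[X]) := AdjoinRoot.root (X ^ m) with hy
  have ax : ∀ D : F[X], aeval x D = AdjoinRoot.mk f D := fun D => AdjoinRoot.aeval_eq D
  have ay : ∀ D : F[X], aeval y D = AdjoinRoot.mk (X ^ m) D := fun D => AdjoinRoot.aeval_eq D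
  have hE : ∀ (r : ℕ) (D : F[X]), D.natDegree = r →
      homEval ((x, 1) : AdjoinRoot f × AdjoinRoot (X ^ m : F[X])) (1, y) r D =
        (AdjoinRoot.mk f D, AdjoinRoot.mk (X ^ m) D.reverse) := by
    intro r D hD
    unfold homEval
    refine Prod.ext ?_ ?_
    · rw [Prod.fst_sum]
      simp only [Prod.fst_mul, Prod.pow_fst, one_pow, mul_one, Prod.algebraMap_apply]
      rw [A6_sum1 x hD, ax]
    · rw [Prod.snd_sum]
      simp only [Prod.snd_mul, Prod.pow_snd, one_pow, mul_one, Prod.algebraMap_apply]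
      rw [A6_sum2 y hD, ay]
  have hu : ∀ (g D : F[X]), IsUnit (AdjoinRoot.mk g D) ↔ IsCoprime D g := by
    intro g D
    constructor
    · intro h
      obtain ⟨a, ha⟩ := h.exists_right_inv
      obtain ⟨a, rfl⟩ := AdjoinRoot.mk_surjective a
      rw [← map_mul, ← map_one (AdjoinRoot.mk g), AdjoinRoot.mk_eq_mk] at ha
      obtain ⟨c, hc⟩ := ha
      exact ⟨a, -c, by linear_combination hc⟩
    · rintro ⟨a, c, hc⟩
      have h1 : AdjoinRoot.mk g a * AdjoinRoot.mk g D = 1 := by
        rw [← map_mul, ← map_one (AdjoinRoot.mk g), AdjoinRoot.mk_eq_mk]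
        exact ⟨-c, by linear_combination hc⟩
      exact IsUnit.of_mul_eq_one_right _ h1
  refine ⟨AdjoinRoot f × AdjoinRoot (X ^ m : F[X]), inferInstance, inferInstance, _,
    Module.finBasis F _, (x, 1), (1, y), ?_, ?_, ?_, ?_, ?_, ?_⟩
  · refine A6_det _ f hf.ne_zero _ _ (A6_dvd f m _ _ (1, 0) (0, 1) ?_ ?_ ?_ ?_ ?_)
    · simp
    · simp
    · simp
    · refine Prod.ext ?_ ?_
      · have h1 : (aeval ((x, 1) : AdjoinRoot f × AdjoinRoot (X ^ m : F[X])) f).1 = aeval x f := by
          have := aeval_algHom_apply (AlgHom.fst F (AdjoinRoot f) (AdjoinRoot (X ^ m : F[X])))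
            ((x, 1) : AdjoinRoot f × AdjoinRoot (X ^ m : F[X])) f
          exact this.symm
        rw [Prod.fst_mul, h1, ax, AdjoinRoot.mk_self, mul_zero]
        rfl
      · simp
    · refine Prod.ext ?_ ?_
      · simp
      · rw [Prod.snd_mul, Prod.pow_snd]
        have h1 : y ^ m = 0 := by
          have := ay (X ^ m)
          rwa [aeval_X_pow, AdjoinRoot.mk_self] at this
        rw [h1, mul_zero]
        rfl
  · intro r D E hD hE' h
    rw [hE r D hD, hE r E hE', Prod.mk.injEq, AdjoinRoot.mk_eq_mk, AdjoinRoot.mk_eq_mk] at h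
    exact h
  · intro r s D E hD hE'
    rw [hE r D hD, hE s E hE', Prod.mk.injEq, AdjoinRoot.mk_eq_mk, AdjoinRoot.mk_eq_mk]
  · intro r s D E hDm hEm hD hE'
    rw [hE r D hD, hE s E hE', hE (r + s) (D * E) (by rw [hDm.natDegree_mul hEm, hD, hE']),
      reverse_mul_of_domain, map_mul, map_mul]
    rfl
  · intro r D hDm hD hco
    rw [hE r D hD, Prod.isUnit_iff]
    refine ⟨(hu f D).2 hco, (hu _ _).2 ?_⟩
    refine IsCoprime.pow_right ?_
    have h1 : D.reverse.coeff 0 = 1 := by rw [coeff_zero_reverse, hDm.leadingCoeff]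
    have h2 := Polynomial.divX_mul_X_add D.reverse
    rw [h1, C_1] at h2
    exact ⟨1, -D.reverse.divX, by linear_combination -h2⟩
  · intro r D hDm hD h
    rw [hE r D hD, Prod.isUnit_iff] at h
    exact (hu f D).1 h.1


end Pool.Agent.H497.FF
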