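import Mathlib

set_option autoImplicit false

open Polynomial

namespace Pool.Agent.H497.FF

open Polynomial

/-- clearing denominators in one polynomial over `k(X)` -/
theorem clear_one {k : Type} [Field k] (p : (RatFunc k)[X]) :
    ∃ (b : k[X]) (P : k[X][X]), b ≠ 0 ∧
      P.map (algebraMap k[X] (RatFunc k)) = C (algebraMap k[X] (RatFunc k) b) * p := by
  obtain ⟨b, hb0, hb⟩ := IsLocalization.integerNormalization_spec (nonZeroDivisors k[X]) p
  refine ⟨b, IsLocalization.integerNormalization (nonZeroDivisors k[X]) p,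
    nonZeroDivisors.ne_zero hb0, ?_⟩
  rw [hb]
  ext n
  rw [coeff_C_mul, coeff_smul, Algebra.smul_def]

theorem map_inj {k : Type} [Field k] :
    Function.Injective (Polynomial.map (algebraMap k[X] (RatFunc k))) :=
  Polynomial.map_injective _ (IsFractionRing.injective k[X] (RatFunc k))

theorem bezout {k : Type} [Field k] (P Q : k[X][X])
    (h : IsCoprime (P.map (algebraMap k[X] (RatFunc k))) (Q.map (algebraMap k[X] (RatFunc k)))) :
    ∃ (δ : k[X]) (A B : k[X][X]), δ ≠ 0 ∧ A * P + B * Q = C δ := by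
  obtain ⟨a, b, hab⟩ := h
  obtain ⟨d1, A, hd1, hA⟩ := clear_one a
  obtain ⟨d2, B, hd2, hB⟩ := clear_one b
  refine ⟨d1 * d2, C d2 * A, C d1 * B, mul_ne_zero hd1 hd2, ?_⟩
  apply map_inj
  simp only [Polynomial.map_add, Polynomial.map_mul, Polynomial.map_C, hA, hB, map_mul]
  linear_combination (C ((algebraMap k[X] (RatFunc k)) d1) * C ((algebraMap k[X] (RatFunc k)) d2)) * hab

/-- polynomial data of an integral element `θ` of an extension of `k(X)` -/
theorem poly_data {k Ω : Type} [Field k] [Field Ω] [Algebra k[X] Ω] [Algebra (RatFunc k) Ω]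
    [IsScalarTower k[X] (RatFunc k) Ω] (θ : Ω) (hθ : IsIntegral k[X] θ) :
    ∃ μ : k[X][X], μ.Monic ∧ μ.map (algebraMap k[X] (RatFunc k)) = minpoly (RatFunc k) θ ∧
      (∀ H : k[X][X], aeval θ H = 0 ↔ μ ∣ H) ∧
      ∀ (N : ℕ) (g : Fin N → Ω), (∀ j, g j ∈ IntermediateField.adjoin (RatFunc k) {θ}) →
        ∃ (Δ : k[X]) (G : Fin N → k[X][X]), Δ ≠ 0 ∧ ∀ j, algebraMap k[X] Ω Δ * g j = aeval θ (G j) := by
  have hinj : Function.Injective (algebraMap k[X] Ω) := by
    rw [IsScalarTower.algebraMap_eq k[X] (RatFunc k) Ω]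
    exact (algebraMap (RatFunc k) Ω).injective.comp (IsFractionRing.injective k[X] (RatFunc k))
  have : FaithfulSMul k[X] Ω := (faithfulSMul_iff_algebraMap_injective k[X] Ω).2 hinj
  have hθ' : IsIntegral (RatFunc k) θ := hθ.tower_top
  refine ⟨minpoly k[X] θ, minpoly.monic hθ,
    (minpoly.isIntegrallyClosed_eq_field_fractions (RatFunc k) Ω hθ).symm,
    fun H => minpoly.isIntegrallyClosed_dvd_iff hθ H, ?_⟩
  intro N g hg
  have h1 : ∀ j, ∃ p : (RatFunc k)[X], aeval θ p = g j := by
    intro j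
    have h2 := hg j
    rw [← IntermediateField.mem_toSubalgebra,
      IntermediateField.adjoin_simple_toSubalgebra_of_isAlgebraic hθ'.isAlgebraic,
      Algebra.adjoin_singleton_eq_range_aeval] at h2
    exact h2
  choose p hp using h1
  choose b P hb hP using fun j => clear_one (p j)
  refine ⟨∏ j, b j, fun j => C (∏ i ∈ Finset.univ.erase j, b i) * P j,
    Finset.prod_ne_zero_iff.2 fun j _ => hb j, fun j => ?_⟩
  have h3 : aeval θ (P j) = algebraMap k[X] Ω (b j) * g j := by
    have h4 : aeval θ ((P j).map (algebraMap k[X] (RatFunc k))) = aeval θ (P j) :=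
      aeval_map_algebraMap (RatFunc k) θ (P j)
    rw [← h4, hP j, map_mul, aeval_C, hp j, ← IsScalarTower.algebraMap_apply]
  rw [map_mul, aeval_C, h3, ← Finset.mul_prod_erase Finset.univ b (Finset.mem_univ j), map_mul]
  ring

/-- two polynomials `μ, V` in `k[X][Y]` without common factor over `k(X)` have common zeros only over finitely many `a` -/
theorem coprime_spec {k : Type} [Field k] (μ V : k[X][X])
    (hirr : Irreducible (μ.map (algebraMap k[X] (RatFunc k))))
    (hnd : ¬ μ.map (algebraMap k[X] (RatFunc k)) ∣ V.map (algebraMap k[X] (RatFunc k))) :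
    ∃ δ : k[X], δ ≠ 0 ∧ ∀ a τ : k, μ.evalEval a τ = 0 → V.evalEval a τ = 0 → δ.eval a = 0 := by
  obtain ⟨δ, A, B, hδ, h⟩ := bezout μ V ((hirr.coprime_iff_not_dvd).2 hnd)
  refine ⟨δ, hδ, fun a τ h1 h2 => ?_⟩
  have h3 := congrArg (Polynomial.evalEval a τ) h
  rw [evalEval_add, evalEval_mul, evalEval_mul, h1, h2, mul_zero, mul_zero, add_zero,
    evalEval_C] at h3
  exact h3.symm

/-- good reduction outside finitely many `a` -/
theorem sep_spec {k : Type} [Field k] (μ : k[X][X])
    (hsep : (μ.map (algebraMap k[X] (RatFunc k))).Separable) :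
    ∃ δ : k[X], δ ≠ 0 ∧ ∀ a : k, δ.eval a ≠ 0 → (μ.map (evalRingHom a)).Separable := by
  have h0 : IsCoprime (μ.map (algebraMap k[X] (RatFunc k)))
      ((derivative μ).map (algebraMap k[X] (RatFunc k))) := by
    rw [← derivative_map]
    exact hsep
  obtain ⟨δ, A, B, hδ, h⟩ := bezout μ (derivative μ) h0
  refine ⟨δ, hδ, fun a ha => ?_⟩
  have h3 := congrArg (Polynomial.map (evalRingHom a)) h
  rw [Polynomial.map_add, Polynomial.map_mul, Polynomial.map_mul, Polynomial.map_C,
    ← derivative_map, coe_evalRingHom] at h3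
  refine ⟨C (δ.eval a)⁻¹ * A.map (evalRingHom a), C (δ.eval a)⁻¹ * B.map (evalRingHom a), ?_⟩
  have h4 : (C (δ.eval a)⁻¹ : k[X]) * C (δ.eval a) = 1 := by
    rw [← C_mul, inv_mul_cancel₀ ha, C_1]
  rw [← h4, ← h3]
  ring

end Pool.Agent.H497.FF
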