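import Mathlib

set_option autoImplicit false

open Polynomial

namespace Pool.Agent.H497.FF

open Polynomial


/-- growth of the `X`-degree under reduction modulo a monic `μ ∈ k[X][Y]` -/
theorem red_deg {k : Type} [Field k] (μ : k[X][X]) (hμ : μ.Monic) :
    ∃ C0 : ℕ, ∀ (H : k[X][X]) (w D : ℕ), H.natDegree ≤ D → (∀ i, (H.coeff i).natDegree ≤ w) →
      ∀ i, ((H %ₘ μ).coeff i).natDegree ≤ w + C0 * D := by
  set c : ℕ := (Finset.range (μ.natDegree + 1)).sup (fun i => (μ.coeff i).natDegree) with hc
  have hcμ : ∀ i, (μ.coeff i).natDegree ≤ c := by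
    intro i
    by_cases hi : i ≤ μ.natDegree
    · exact Finset.le_sup (f := fun i => (μ.coeff i).natDegree)
        (Finset.mem_range.2 (Nat.lt_succ_of_le hi))
    · rw [coeff_eq_zero_of_natDegree_lt (not_le.1 hi)]
      simp
  refine ⟨c, fun H w D => ?_⟩
  induction D generalizing H w with
  | zero =>
    intro hD hw i
    by_cases h1 : μ = 1
    · rw [h1, modByMonic_one]; simp
    · have hpos : 0 < μ.degree := by
        have := hμ.natDegree_pos_of_not_isUnit (fun hu => h1 (hμ.eq_one_of_isUnit hu))
        exact natDegree_pos_iff_degree_pos.1 this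
      have hlt : H.degree < μ.degree := by
        rw [natDegree_eq_zero.1 (Nat.le_zero.1 hD) |>.choose_spec.symm]
        exact degree_C_le.trans_lt hpos
      rw [(modByMonic_eq_self_iff hμ).2 hlt]
      simpa using hw i
  | succ D ih =>
    intro hD hw i
    by_cases h0 : H.natDegree ≤ D
    · exact (ih H w h0 hw i).trans (by nlinarith)
    · have hDe : H.natDegree = D + 1 := by omega
      by_cases hlt : H.degree < μ.degree
      · rw [(modByMonic_eq_self_iff hμ).2 hlt]
        exact (hw i).trans (by nlinarith)
      · have hle : μ.natDegree ≤ D + 1 := by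
          rw [← hDe]
          exact natDegree_le_natDegree (not_lt.1 hlt)
        set n : ℕ := D + 1 - μ.natDegree with hn
        set a : k[X] := H.coeff (D + 1) with ha
        set H' : k[X][X] := H - C a * X ^ n * μ with hH'
        have hcoef : ∀ j, H'.coeff j = H.coeff j - a * (if n ≤ j then μ.coeff (j - n) else 0) := by
          intro j
          rw [hH', coeff_sub, mul_assoc, coeff_C_mul, coeff_X_pow_mul']
        have hdeg : H'.natDegree ≤ D := by
          rw [natDegree_le_iff_coeff_eq_zero]
          intro N hN
          rw [hcoef]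
          rcases Nat.lt_or_ge (D + 1) N with hN' | hN'
          · rw [coeff_eq_zero_of_natDegree_lt (by omega : H.natDegree < N)]
            split_ifs with hnN
            · rw [coeff_eq_zero_of_natDegree_lt (by omega : μ.natDegree < N - n)]
              simp
            · simp
          · have : N = D + 1 := by omega
            subst this
            rw [if_pos (by omega), show D + 1 - n = μ.natDegree by omega, hμ.coeff_natDegree,
              mul_one, sub_self]
        have hw' : ∀ j, (H'.coeff j).natDegree ≤ w + c := by
          intro j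
          rw [hcoef]
          refine (natDegree_sub_le _ _).trans (max_le ((hw j).trans (Nat.le_add_right _ _)) ?_)
          split_ifs
          · exact natDegree_mul_le.trans (add_le_add (hw _) (hcμ _))
          · simp
        have hmod : H %ₘ μ = H' %ₘ μ := by
          have hz : (C a * X ^ n * μ) %ₘ μ = 0 :=
            (modByMonic_eq_zero_iff_dvd hμ).2 (dvd_mul_left _ _)
          have h9 : H' %ₘ μ = H %ₘ μ - (C a * X ^ n * μ) %ₘ μ := by
            rw [hH']
            exact sub_modByMonic H (C a * X ^ n * μ) μ
          rw [h9, hz, sub_zero]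
        rw [hmod]
        refine (ih H' (w + c) hdeg hw' i).trans (le_of_eq ?_)
        ring

/-- linear independence over `P`-th powers from linear independence of truncations, `P = p^s` -/
theorem indep {k : Type} [Field k] (p : ℕ) [Fact p.Prime] [CharP k p] (s : ℕ) {J : Type} [Fintype J]
    (x : J → PowerSeries k)
    (hx : ∀ c : J → k, PowerSeries.X ^ (p ^ s) ∣ ∑ j, algebraMap k (PowerSeries k) (c j) * x j → c = 0)
    (y : J → PowerSeries k) (h : ∑ j, x j * y j ^ (p ^ s) = 0) : ∀ j, y j = 0 := by
  have : CharP (PowerSeries k) p := charP_of_injective_algebraMap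
    (algebraMap k (PowerSeries k)).injective p
  have key : ∀ n : ℕ, ∀ j, PowerSeries.X ^ n ∣ y j := by
    intro n
    induction n with
    | zero => intro j; simp
    | succ n ih =>
      choose z hz using ih
      have h1 : ∑ j, x j * z j ^ (p ^ s) = 0 := by
        have h2 : (PowerSeries.X : PowerSeries k) ^ (n * p ^ s) * ∑ j, x j * z j ^ (p ^ s) = 0 := by
          rw [← h, Finset.mul_sum]
          refine Finset.sum_congr rfl fun j _ => ?_
          conv_rhs => rw [hz j]
          rw [mul_pow, ← pow_mul]
          ring
        exact (mul_eq_zero.1 h2).resolve_left (pow_ne_zero _ PowerSeries.X_ne_zero)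
      -- the constant coefficients
      have h3 : ∀ j, ∃ t : PowerSeries k,
          z j = algebraMap k (PowerSeries k) (PowerSeries.constantCoeff (z j)) +
            PowerSeries.X * t := by
        intro j
        have : PowerSeries.X ∣ z j - algebraMap k (PowerSeries k)
            (PowerSeries.constantCoeff (z j)) := by
          rw [PowerSeries.X_dvd_iff, map_sub]
          rw [PowerSeries.algebraMap_apply]
          simp
        obtain ⟨t, ht⟩ := this
        exact ⟨t, by rw [← ht]; ring⟩
      choose t ht using h3
      have h4 : ∀ j, z j ^ (p ^ s) = algebraMap k (PowerSeries k)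
          ((PowerSeries.constantCoeff (z j)) ^ (p ^ s)) + PowerSeries.X ^ (p ^ s) * t j ^ (p ^ s) := by
        intro j
        conv_lhs => rw [ht j]
        rw [add_pow_char_pow, mul_pow, map_pow]
      have h5 : (PowerSeries.X : PowerSeries k) ^ (p ^ s) ∣
          ∑ j, algebraMap k (PowerSeries k) ((PowerSeries.constantCoeff (z j)) ^ (p ^ s)) * x j := by
        refine ⟨- ∑ j, x j * t j ^ (p ^ s), ?_⟩
        have : ∑ j, algebraMap k (PowerSeries k) ((PowerSeries.constantCoeff (z j)) ^ (p ^ s)) * x j
            = ∑ j, x j * z j ^ (p ^ s) - PowerSeries.X ^ (p ^ s) * ∑ j, x j * t j ^ (p ^ s) := by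
          rw [Finset.mul_sum, ← Finset.sum_sub_distrib]
          refine Finset.sum_congr rfl fun j _ => ?_
          rw [h4 j]
          ring
        rw [this, h1]
        ring
      have h6 := hx _ h5
      intro j
      have h7 : PowerSeries.constantCoeff (z j) = 0 := by
        have := congrFun h6 j
        exact pow_eq_zero_iff (pow_ne_zero _ (Fact.out : p.Prime).ne_zero) |>.1 this
      have h8 := ht j
      rw [h7, map_zero, zero_add] at h8
      refine ⟨t j, ?_⟩
      rw [hz j, h8, pow_succ]
      ring
  intro j
  ext m
  have := PowerSeries.X_pow_dvd_iff.1 (key (m + 1) j) m (Nat.lt_succ_self m)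
  simpa using this

end Pool.Agent.H497.FF
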