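import Mathlib

set_option autoImplicit false

open Polynomial

namespace Pool.Agent.H497.FF

open Polynomial

namespace B4b

/-- the ring of power series is complete -/
theorem adic (k : Type) [Field k] :
    IsAdicComplete (Ideal.span {(PowerSeries.X : PowerSeries k)}) (PowerSeries k) := by
  have key : ∀ (n : ℕ) (x y : PowerSeries k),
      x ≡ y [SMOD ((Ideal.span {(PowerSeries.X : PowerSeries k)}) ^ n • ⊤ :
        Submodule (PowerSeries k) (PowerSeries k))] ↔
      ∀ m < n, PowerSeries.coeff m x = PowerSeries.coeff m y := by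
    intro n x y
    rw [SModEq.sub_mem, Ideal.smul_eq_mul, Ideal.mul_top, Ideal.span_singleton_pow,
      Ideal.mem_span_singleton, PowerSeries.X_pow_dvd_iff]
    simp only [map_sub, sub_eq_zero]
  refine { haus' := ?_, prec' := ?_ }
  · intro x hx
    ext m
    have := (key (m + 1) x 0).1 (hx (m + 1)) m (Nat.lt_succ_self m)
    simpa using this
  · intro f hf
    refine ⟨PowerSeries.mk fun n => PowerSeries.coeff n (f (n + 1)), fun n => ?_⟩
    rw [key]
    intro m hm
    rw [PowerSeries.coeff_mk]
    exact ((key (m + 1) _ _).1 (hf (Nat.succ_le_of_lt hm)) m (Nat.lt_succ_self m)).symm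

/-- degree of a determinant, by columns -/
theorem natDegree_det_le {k : Type} [Field k] {N : ℕ} (M : Matrix (Fin N) (Fin N) k[X])
    (b : Fin N → ℕ) (h : ∀ i j, (M i j).natDegree ≤ b j) : M.det.natDegree ≤ ∑ j, b j := by
  rw [Matrix.det_apply']
  refine natDegree_sum_le_of_forall_le _ _ fun σ _ => ?_
  refine natDegree_mul_le.trans ?_
  rw [natDegree_intCast, zero_add]
  refine (natDegree_prod_le _ _).trans ?_
  exact Finset.sum_le_sum fun j _ => h _ _

theorem natDegree_res_le {k : Type} [Field k] (f g : k[X][X]) (m n a b : ℕ)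
    (hf : ∀ i, (f.coeff i).natDegree ≤ a) (hg : ∀ i, (g.coeff i).natDegree ≤ b) :
    (resultant f g m n).natDegree ≤ m * b + n * a := by
  unfold resultant
  have h1 := natDegree_det_le (sylvester f g m n)
    (fun j => Fin.addCases (fun _ => b) (fun _ => a) j) (by
      intro i j
      refine Fin.addCases (fun j₁ => ?_) (fun j₁ => ?_) j
      · simp only [sylvester, Matrix.of_apply, Fin.addCases_left]
        split_ifs
        · exact hg _
        · simp
      · simp only [sylvester, Matrix.of_apply, Fin.addCases_right]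
        split_ifs
        · exact hf _
        · simp)
  refine h1.trans (le_of_eq ?_)
  rw [Fin.sum_univ_add]
  simp

theorem res {k : Type} [Field k] (μ H : k[X][X]) (hn : μ.natDegree ≠ 0)
    (hc : IsCoprime (μ.map (algebraMap k[X] (RatFunc k))) (H.map (algebraMap k[X] (RatFunc k)))) :
    (∃ p q, μ * p + H * q = C (resultant μ H)) ∧ resultant μ H ≠ 0 := by
  have hinj : Function.Injective (algebraMap k[X] (RatFunc k)) := RatFunc.algebraMap_injective k
  constructor
  · obtain ⟨p, q, -, -, h⟩ := exists_mul_add_mul_eq_C_resultant μ H le_rfl le_rfl (Or.inl hn)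
    exact ⟨p, q, h⟩
  · intro h0
    have h1 := resultant_ne_zero _ _ hc
    rw [natDegree_map_eq_of_injective hinj, natDegree_map_eq_of_injective hinj,
      resultant_map_map, h0, map_zero] at h1
    exact h1 rfl

end B4b

/-- A point of the curve `μ(X,Y) = 0` with good reduction gives an embedding of its coordinate ring in `k[[z]]`
(`X ↦ a0 + z`, `Y ↦` the Hensel lift of a simple root `τ0` of `μ(a0, Y)`). The kernel of `ι` on `k[X][Y]` is `(μ)`
(`k[X][Y]/(μ)` is a domain integral over `k[X]`, and `ι` is injective on `k[X]`). A nonzero `H` with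
`deg_Y H < n`, `deg_X H ≤ l` has norm (resultant with `μ`, a nonzero polynomial in `X` of degree `≤ n (l + C2)`,
a multiple of `H` modulo `μ`), so `z^P ∣ ι H` forces `P ≤ n (l + C2)`.
Good reduction: `μ` separable over `k(X)`, so `A μ + B μ' = D(X) ≠ 0`; choose `a0` with `D(a0) ≠ 0`. -/
theorem embed {k : Type} [Field k] [IsAlgClosed k] (μ : k[X][X]) (hμ : μ.Monic)
    (hirr : Irreducible (μ.map (algebraMap k[X] (RatFunc k))))
    (hsep : (μ.map (algebraMap k[X] (RatFunc k))).Separable) :
    ∃ (ι : k[X][X] →+* PowerSeries k) (C2 : ℕ), (∀ c : k, ι (C (C c)) = algebraMap k (PowerSeries k) c) ∧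
      (∀ H : k[X][X], ι H = 0 ↔ μ ∣ H) ∧
      ∀ (H : k[X][X]) (l P : ℕ), H.natDegree < μ.natDegree → (∀ i, (H.coeff i).natDegree ≤ l) →
        PowerSeries.X ^ P ∣ ι H → μ.natDegree * (l + C2) < P → H = 0 := by
  classical
  have hinj : Function.Injective (algebraMap k[X] (RatFunc k)) := RatFunc.algebraMap_injective k
  have hn : μ.natDegree ≠ 0 := by
    intro h
    have h1 := hirr.natDegree_pos
    rw [natDegree_map_eq_of_injective hinj, h] at h1
    exact lt_irrefl _ h1
  -- good reduction
  have hsep' : IsCoprime (μ.map (algebraMap k[X] (RatFunc k)))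
      ((derivative μ).map (algebraMap k[X] (RatFunc k))) := by
    rw [← derivative_map]
    exact hsep
  obtain ⟨⟨A, B, hAB⟩, hD⟩ := B4b.res μ (derivative μ) hn hsep'
  set D := resultant μ (derivative μ) with hDdef
  obtain ⟨a0, ha0⟩ : ∃ a0 : k, D.eval a0 ≠ 0 := by
    by_contra h
    push Not at h
    exact hD (Polynomial.funext fun x => by rw [h x, eval_zero])
  obtain ⟨τ0, hτ0⟩ : ∃ τ0 : k, (μ.map (evalRingHom a0)).IsRoot τ0 := by
    apply IsAlgClosed.exists_root
    rw [hμ.degree_map, degree_eq_natDegree hμ.ne_zero]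
    exact_mod_cast hn
  have hτ0' : eval₂ (evalRingHom a0) τ0 μ = 0 := by
    rw [← eval_map]; exact hτ0
  have hder : eval₂ (evalRingHom a0) τ0 (derivative μ) ≠ 0 := by
    intro h
    have h1 := congrArg (eval₂ (evalRingHom a0) τ0) hAB
    rw [eval₂_add, eval₂_mul, eval₂_mul, hτ0', h, zero_mul, zero_mul, add_zero, eval₂_C] at h1
    exact ha0 h1.symm
  -- the map on `k[X]`
  set φ : k[X] →+* PowerSeries k :=
    (Polynomial.coeToPowerSeries.ringHom).comp (taylorAlgHom a0 : k[X] →+* k[X]) with hφ
  have hφa : ∀ p : k[X], φ p = ((taylor a0 p : k[X]) : PowerSeries k) := fun p => rfl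
  have hφ0 : ∀ p : k[X], (∀ m ≤ p.natDegree, PowerSeries.coeff m (φ p) = 0) → p = 0 := by
    intro p hp
    have h1 : taylor a0 p = 0 := by
      ext m
      rcases le_or_gt m p.natDegree with hm | hm
      · have := hp m hm
        rw [hφa, Polynomial.coeff_coe] at this
        rw [this, coeff_zero]
      · rw [coeff_zero]
        apply coeff_eq_zero_of_natDegree_lt
        rwa [natDegree_taylor]
    exact taylor_injective a0 (by rw [h1, map_zero])
  have hφinj : ∀ p, φ p = 0 → p = 0 := fun p hp => hφ0 p fun m _ => by rw [hp, map_zero]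
  have hφc : (PowerSeries.constantCoeff (R := k)).comp φ = evalRingHom a0 := by
    apply RingHom.ext
    intro p
    rw [RingHom.comp_apply, hφa, ← PowerSeries.coeff_zero_eq_constantCoeff_apply,
      Polynomial.coeff_coe, taylor_coeff_zero]
    rfl
  -- the root
  have hcst : ∀ H : k[X][X], PowerSeries.constantCoeff ((H.map φ).eval (PowerSeries.C τ0)) =
      eval₂ (evalRingHom a0) τ0 H := by
    intro H
    rw [eval_map, Polynomial.hom_eval₂, hφc, PowerSeries.constantCoeff_C]
  have := B4b.adic k
  obtain ⟨τ, hτ, -⟩ := HenselianRing.is_henselian (I := Ideal.span {(PowerSeries.X : PowerSeries k)})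
    (μ.map φ) (hμ.map φ) (PowerSeries.C τ0) (by
      rw [Ideal.mem_span_singleton, PowerSeries.X_dvd_iff, hcst, hτ0']) (by
      apply IsUnit.map
      rw [PowerSeries.isUnit_iff_constantCoeff, derivative_map, hcst]
      exact isUnit_iff_ne_zero.2 hder)
  have hιμ : eval₂ φ τ μ = 0 := by
    rw [← eval_map]; exact hτ
  -- degrees
  set C2 : ℕ := (Finset.range (μ.natDegree + 1)).sup fun i => (μ.coeff i).natDegree with hC2
  have hC2' : ∀ i, (μ.coeff i).natDegree ≤ C2 := by
    intro i
    rcases Nat.lt_or_ge μ.natDegree i with h | h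
    · rw [coeff_eq_zero_of_natDegree_lt h]; simp
    · exact Finset.le_sup (f := fun i => (μ.coeff i).natDegree)
        (Finset.mem_range.2 (Nat.lt_succ_of_le h))
  have hcop : ∀ H : k[X][X], H ≠ 0 → H.degree < μ.degree →
      IsCoprime (μ.map (algebraMap k[X] (RatFunc k))) (H.map (algebraMap k[X] (RatFunc k))) := by
    intro H hH hd
    rw [hirr.coprime_iff_not_dvd]
    apply not_dvd_of_degree_lt
    · exact (Polynomial.map_ne_zero_iff hinj).2 hH
    · rwa [degree_map_eq_of_injective hinj, degree_map_eq_of_injective hinj]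
  have hred : ∀ H : k[X][X], H ≠ 0 → H.degree < μ.degree → ∃ q,
      φ (resultant μ H) = eval₂ φ τ H * q ∧ resultant μ H ≠ 0 := by
    intro H hH hd
    obtain ⟨⟨p, q, hpq⟩, hr⟩ := B4b.res μ H hn (hcop H hH hd)
    refine ⟨eval₂ φ τ q, ?_, hr⟩
    have h1 := congrArg (eval₂ φ τ) hpq
    rw [eval₂_add, eval₂_mul, eval₂_mul, hιμ, zero_mul, zero_add, eval₂_C] at h1
    exact h1.symm
  refine ⟨eval₂RingHom φ τ, C2, fun c => ?_, fun H => ⟨fun hH => ?_, ?_⟩, ?_⟩
  · rw [coe_eval₂RingHom, eval₂_C, hφa, taylor_C, Polynomial.coe_C]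
    rfl
  · rw [coe_eval₂RingHom] at hH
    rw [← modByMonic_eq_zero_iff_dvd hμ]
    by_contra h0
    obtain ⟨q, h1, h2⟩ := hred _ h0 (degree_modByMonic_lt _ hμ)
    have h3 : eval₂ φ τ (H %ₘ μ) = 0 := by
      have h4 := congrArg (eval₂ φ τ) (modByMonic_add_div H μ)
      rw [eval₂_add, eval₂_mul, hιμ, zero_mul, add_zero, hH] at h4
      exact h4
    rw [h3, zero_mul] at h1
    exact h2 (hφinj _ h1)
  · rintro ⟨q, rfl⟩
    rw [coe_eval₂RingHom, eval₂_mul, hιμ, zero_mul]
  · intro H l P hdeg hl hdvd hP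
    by_contra hH
    rw [coe_eval₂RingHom] at hdvd
    have hd : H.degree < μ.degree := by
      rw [degree_eq_natDegree hH, degree_eq_natDegree hμ.ne_zero]
      exact_mod_cast hdeg
    obtain ⟨q, h1, h2⟩ := hred _ hH hd
    have h3 : PowerSeries.X ^ P ∣ φ (resultant μ H) := by
      rw [h1]
      exact Dvd.dvd.mul_right hdvd q
    rw [PowerSeries.X_pow_dvd_iff] at h3
    have h4 := B4b.natDegree_res_le μ H μ.natDegree H.natDegree C2 l hC2' hl
    have h5 : H.natDegree * C2 ≤ μ.natDegree * C2 := Nat.mul_le_mul_right _ hdeg.le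
    have h6 : (resultant μ H).natDegree < P := by
      calc (resultant μ H).natDegree ≤ μ.natDegree * l + H.natDegree * C2 := h4
        _ ≤ μ.natDegree * l + μ.natDegree * C2 := by omega
        _ = μ.natDegree * (l + C2) := by ring
        _ < P := hP
    exact h2 (hφ0 _ fun m hm => h3 m (lt_of_le_of_lt hm h6))

end Pool.Agent.H497.FF
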