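import Pool.Agent.H497.FF.B4a

set_option autoImplicit false

open Polynomial

namespace Pool.Agent.H497.FF

open Polynomial


/-- the basis element `X^i Y^v` -/
noncomputable def xx {k : Type} [Field k] {n l : ℕ} (j : Fin n × Fin (l + 1)) : k[X][X] :=
  C (X ^ (j.2 : ℕ)) * X ^ (j.1 : ℕ)

/-- `Δ^(n-1) y(X, G/Δ)` -/
noncomputable def homY {k : Type} [Field k] (n : ℕ) (G : k[X][X]) (Δ : k[X]) (y : k[X][X]) : k[X][X] :=
  ∑ v ∈ Finset.range n, C (y.coeff v) * G ^ v * C Δ ^ (n - 1 - v)

/-! ### coefficient degree bounds -/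

theorem b4d_bd_mul {k : Type} [Field k] {w w' : ℕ} {H H' : k[X][X]}
    (h : ∀ i, (H.coeff i).natDegree ≤ w) (h' : ∀ i, (H'.coeff i).natDegree ≤ w') :
    ∀ i, ((H * H').coeff i).natDegree ≤ w + w' := by
  intro i
  rw [Polynomial.coeff_mul]
  refine Polynomial.natDegree_sum_le_of_forall_le _ _ ?_
  intro x _
  exact le_trans Polynomial.natDegree_mul_le (Nat.add_le_add (h _) (h' _))

theorem b4d_bd_pow {k : Type} [Field k] {w : ℕ} {H : k[X][X]}
    (h : ∀ i, (H.coeff i).natDegree ≤ w) (v : ℕ) :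
    ∀ i, ((H ^ v).coeff i).natDegree ≤ v * w := by
  induction v with
  | zero =>
    intro i
    rw [pow_zero, Polynomial.coeff_one]
    split_ifs <;> simp
  | succ v ih =>
    intro i
    rw [pow_succ]
    refine le_trans (b4d_bd_mul ih h i) (le_of_eq ?_)
    ring

theorem b4d_bd_C {k : Type} [Field k] {w : ℕ} {p : k[X]} (h : p.natDegree ≤ w) :
    ∀ i, ((C p : k[X][X]).coeff i).natDegree ≤ w := by
  intro i
  rw [Polynomial.coeff_C]
  split_ifs
  · exact h
  · simp

theorem b4d_bd_X_pow {k : Type} [Field k] (v : ℕ) :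
    ∀ i, (((X : k[X][X]) ^ v).coeff i).natDegree ≤ 0 := by
  intro i
  rw [Polynomial.coeff_X_pow]
  split_ifs <;> simp

theorem b4d_bd_sum {k : Type} [Field k] {ι : Type*} {w : ℕ} (s : Finset ι) (F : ι → k[X][X])
    (h : ∀ j ∈ s, ∀ i, ((F j).coeff i).natDegree ≤ w) :
    ∀ i, ((∑ j ∈ s, F j).coeff i).natDegree ≤ w := by
  intro i
  rw [Polynomial.finsetSum_coeff]
  exact Polynomial.natDegree_sum_le_of_forall_le _ _ (fun j hj => h j hj i)

theorem b4d_exists_bd {k : Type} [Field k] (G : k[X][X]) :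
    ∃ w : ℕ, ∀ i, (G.coeff i).natDegree ≤ w := by
  refine ⟨G.support.sup (fun i => (G.coeff i).natDegree), ?_⟩
  intro i
  by_cases hi : i ∈ G.support
  · exact Finset.le_sup (f := fun i => (G.coeff i).natDegree) hi
  · rw [Polynomial.notMem_support_iff.mp hi]; simp

/-! ### homY -/

theorem b4d_homY_bd {k : Type} [Field k] {n m w : ℕ} {G : k[X][X]} {Δ : k[X]} {y : k[X][X]}
    (hG : ∀ i, (G.coeff i).natDegree ≤ w) (hy : ∀ i, (y.coeff i).natDegree ≤ m) :
    ∀ i, ((homY n G Δ y).coeff i).natDegree ≤ m + (n - 1) * w + (n - 1) * Δ.natDegree := by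
  unfold homY
  refine b4d_bd_sum _ _ ?_
  intro v hv i
  rw [Finset.mem_range] at hv
  have h1 := b4d_bd_mul (b4d_bd_mul (b4d_bd_C (hy v)) (b4d_bd_pow hG v))
    (b4d_bd_pow (b4d_bd_C (le_refl Δ.natDegree)) (n - 1 - v)) i
  refine le_trans h1 ?_
  have h2 : v * w ≤ (n - 1) * w := Nat.mul_le_mul_right _ (by omega)
  have h3 : (n - 1 - v) * Δ.natDegree ≤ (n - 1) * Δ.natDegree := Nat.mul_le_mul_right _ (by omega)
  omega

theorem b4d_homY_deg {k : Type} [Field k] {n : ℕ} {G : k[X][X]} {Δ : k[X]} {y : k[X][X]} :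
    (homY n G Δ y).natDegree ≤ (n - 1) * G.natDegree := by
  unfold homY
  refine Polynomial.natDegree_sum_le_of_forall_le _ _ ?_
  intro v hv
  rw [Finset.mem_range] at hv
  have h1 : (C Δ ^ (n - 1 - v) : k[X][X]).natDegree = 0 := by
    rw [← C_pow]; exact natDegree_C _
  have h2 : (C (y.coeff v) : k[X][X]).natDegree = 0 := natDegree_C _
  have h3 : (G ^ v).natDegree ≤ v * G.natDegree := natDegree_pow_le
  have h4 : v * G.natDegree ≤ (n - 1) * G.natDegree := Nat.mul_le_mul_right _ (by omega)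
  have h5 := natDegree_mul_le (p := C (y.coeff v) * G ^ v) (q := C Δ ^ (n - 1 - v))
  have h6 := natDegree_mul_le (p := C (y.coeff v)) (q := G ^ v)
  omega

theorem b4d_homY_add {k : Type} [Field k] {n : ℕ} {G : k[X][X]} {Δ : k[X]} (y z : k[X][X]) :
    homY n G Δ (y + z) = homY n G Δ y + homY n G Δ z := by
  unfold homY
  rw [← Finset.sum_add_distrib]
  refine Finset.sum_congr rfl ?_
  intro v _
  rw [coeff_add, C_add]; ring

theorem b4d_homY_smul {k : Type} [Field k] {n : ℕ} {G : k[X][X]} {Δ : k[X]} (a : k) (y : k[X][X]) :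
    homY n G Δ (C (C a) * y) = C (C a) * homY n G Δ y := by
  unfold homY
  rw [Finset.mul_sum]
  refine Finset.sum_congr rfl ?_
  intro v _
  rw [coeff_C_mul, C_mul]; ring

/-! ### polynomials with given coefficients -/

/-- the polynomial with given coefficients -/
noncomputable def b4dPoly {k : Type} [Field k] (n m : ℕ) (c : Fin n → Fin (m + 1) → k) : k[X][X] :=
  ∑ i : Fin n, C (∑ a : Fin (m + 1), C (c i a) * X ^ (a : ℕ)) * X ^ (i : ℕ)

theorem b4dPoly_coeff_of_lt {k : Type} [Field k] {n m : ℕ} (c : Fin n → Fin (m + 1) → k) (i : Fin n) :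
    (b4dPoly n m c).coeff i = ∑ a : Fin (m + 1), C (c i a) * X ^ (a : ℕ) := by
  unfold b4dPoly
  rw [Polynomial.finsetSum_coeff]
  rw [Finset.sum_eq_single i]
  · rw [coeff_C_mul, coeff_X_pow]; simp
  · intro b _ hb
    rw [coeff_C_mul, coeff_X_pow, if_neg, mul_zero]
    intro h
    exact hb (Fin.ext h.symm)
  · intro h; exact absurd (Finset.mem_univ _) h

theorem b4dPoly_coeff_of_ge {k : Type} [Field k] {n m : ℕ} (c : Fin n → Fin (m + 1) → k) (i : ℕ)
    (hi : n ≤ i) : (b4dPoly n m c).coeff i = 0 := by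
  unfold b4dPoly
  rw [Polynomial.finsetSum_coeff]
  refine Finset.sum_eq_zero ?_
  intro b _
  rw [coeff_C_mul, coeff_X_pow, if_neg, mul_zero]
  have := b.2
  omega

theorem b4dPoly_natDegree {k : Type} [Field k] {n m : ℕ} (hn : 0 < n) (c : Fin n → Fin (m + 1) → k) :
    (b4dPoly n m c).natDegree < n := by
  have h : (b4dPoly n m c).natDegree ≤ n - 1 := by
    rw [natDegree_le_iff_coeff_eq_zero]
    intro N hN
    exact b4dPoly_coeff_of_ge c N (by omega)
  omega

theorem b4dPoly_bd {k : Type} [Field k] {n m : ℕ} (c : Fin n → Fin (m + 1) → k) :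
    ∀ i, ((b4dPoly n m c).coeff i).natDegree ≤ m := by
  intro i
  by_cases hi : i < n
  · have := b4dPoly_coeff_of_lt c ⟨i, hi⟩
    simp only at this
    rw [this]
    refine Polynomial.natDegree_sum_le_of_forall_le _ _ ?_
    intro a _
    refine le_trans (natDegree_C_mul_X_pow_le _ _) ?_
    have := a.2
    omega
  · rw [b4dPoly_coeff_of_ge c i (by omega)]; simp

theorem b4dPoly_add {k : Type} [Field k] {n m : ℕ} (c d : Fin n → Fin (m + 1) → k) :
    b4dPoly n m (c + d) = b4dPoly n m c + b4dPoly n m d := by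
  unfold b4dPoly
  rw [← Finset.sum_add_distrib]
  refine Finset.sum_congr rfl ?_
  intro i _
  rw [← add_mul, ← C_add, ← Finset.sum_add_distrib]
  congr 2
  refine Finset.sum_congr rfl ?_
  intro a _
  rw [Pi.add_apply, Pi.add_apply, C_add]; ring

theorem b4dPoly_smul {k : Type} [Field k] {n m : ℕ} (a : k) (c : Fin n → Fin (m + 1) → k) :
    b4dPoly n m (a • c) = C (C a) * b4dPoly n m c := by
  unfold b4dPoly
  rw [Finset.mul_sum]
  refine Finset.sum_congr rfl ?_
  intro i _
  rw [← mul_assoc, ← C_mul, Finset.mul_sum]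
  congr 2
  refine Finset.sum_congr rfl ?_
  intro b _
  rw [Pi.smul_apply, Pi.smul_apply, smul_eq_mul, C_mul]; ring

theorem b4dPoly_eq_zero {k : Type} [Field k] {n m : ℕ} (c : Fin n → Fin (m + 1) → k)
    (h : b4dPoly n m c = 0) : c = 0 := by
  funext i a
  have h1 := b4dPoly_coeff_of_lt c i
  rw [h, coeff_zero] at h1
  have h2 := congrArg (fun p : k[X] => p.coeff (a : ℕ)) h1
  simp only [coeff_zero, Polynomial.finsetSum_coeff, coeff_C_mul, coeff_X_pow] at h2
  rw [Finset.sum_eq_single a] at h2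
  · simpa using h2.symm
  · intro b _ hb
    rw [if_neg, mul_zero]
    intro h
    exact hb (Fin.ext h.symm)
  · intro h; exact absurd (Finset.mem_univ _) h

/-! ### the linear map -/

/-- the combination -/
noncomputable def b4dF {k : Type} [Field k] (n : ℕ) (G : k[X][X]) (Δ : k[X]) (P l m : ℕ)
    (c : Fin n × Fin (l + 1) → Fin n → Fin (m + 1) → k) : k[X][X] :=
  ∑ j, xx (k := k) j ^ P * homY n G Δ (b4dPoly n m (c j))

theorem b4dF_add {k : Type} [Field k] (n : ℕ) (G : k[X][X]) (Δ : k[X]) (P l m : ℕ)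
    (c d : Fin n × Fin (l + 1) → Fin n → Fin (m + 1) → k) :
    b4dF n G Δ P l m (c + d) = b4dF n G Δ P l m c + b4dF n G Δ P l m d := by
  unfold b4dF
  rw [← Finset.sum_add_distrib]
  refine Finset.sum_congr rfl ?_
  intro j _
  rw [Pi.add_apply, b4dPoly_add, b4d_homY_add]; ring

theorem b4dF_smul {k : Type} [Field k] (n : ℕ) (G : k[X][X]) (Δ : k[X]) (P l m : ℕ) (a : k)
    (c : Fin n × Fin (l + 1) → Fin n → Fin (m + 1) → k) :
    b4dF n G Δ P l m (a • c) = C (C a) * b4dF n G Δ P l m c := by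
  unfold b4dF
  rw [Finset.mul_sum]
  refine Finset.sum_congr rfl ?_
  intro j _
  rw [Pi.smul_apply, b4dPoly_smul, b4d_homY_smul]; ring

/-- the linear map giving the coefficients of the remainder -/
noncomputable def b4dT {k : Type} [Field k] (μ G : k[X][X]) (Δ : k[X]) (P l m W : ℕ) :
    (Fin μ.natDegree × Fin (l + 1) → Fin μ.natDegree → Fin (m + 1) → k) →ₗ[k]
      (Fin μ.natDegree → Fin (W + 1) → k) where
  toFun c := fun i a => ((b4dF μ.natDegree G Δ P l m c %ₘ μ).coeff i).coeff a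
  map_add' c d := by
    funext i a
    rw [b4dF_add, Polynomial.add_modByMonic]
    simp
  map_smul' r c := by
    funext i a
    rw [b4dF_smul, ← Polynomial.smul_eq_C_mul, Polynomial.smul_modByMonic]
    simp

/-- To prove: the auxiliary polynomial, by counting dimensions: the unknown coefficients of the `y_j`
number `n(l+1) * n(m+1)`; the linear conditions (vanishing of the remainder modulo `μ` of
`∑_j xx_j^P homY(y_j)`, whose coefficients have `X`-degree at most `P l + m + C4 (P + 1)`) number at most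
`n (P l + m + C4 (P + 1) + 1)`. -/
theorem exists_aux {k : Type} [Field k] (μ G : k[X][X]) (Δ : k[X]) (hμ : μ.Monic) (hn : 0 < μ.natDegree) :
    ∃ C4 : ℕ, ∀ P l m : ℕ, P * l + m + C4 * (P + 1) + 1 < μ.natDegree * (l + 1) * (m + 1) →
      ∃ y : Fin μ.natDegree × Fin (l + 1) → k[X][X],
        (∀ j, (y j).natDegree < μ.natDegree ∧ ∀ i, ((y j).coeff i).natDegree ≤ m) ∧ (∃ j, y j ≠ 0) ∧
        μ ∣ ∑ j, xx (k := k) j ^ P * homY μ.natDegree G Δ (y j) := by
  obtain ⟨C0, hC0⟩ := red_deg μ hμ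
  obtain ⟨w, hw⟩ := b4d_exists_bd G
  set n := μ.natDegree with hndef
  refine ⟨(n - 1) * w + (n - 1) * Δ.natDegree + C0 * ((n - 1) * (G.natDegree + 1)), ?_⟩
  intro P l m hlt
  set C4 := (n - 1) * w + (n - 1) * Δ.natDegree + C0 * ((n - 1) * (G.natDegree + 1)) with hC4
  set W := P * l + m + C4 * (P + 1) with hW
  -- degree bound of the remainder
  have hdeg : ∀ c : Fin n × Fin (l + 1) → Fin n → Fin (m + 1) → k,
      ∀ i, ((b4dF n G Δ P l m c %ₘ μ).coeff i).natDegree ≤ W := by
    intro c i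
    have h1 : (b4dF n G Δ P l m c).natDegree ≤ (n - 1) * P + (n - 1) * G.natDegree := by
      unfold b4dF
      refine Polynomial.natDegree_sum_le_of_forall_le _ _ ?_
      intro j _
      refine le_trans natDegree_mul_le (Nat.add_le_add ?_ b4d_homY_deg)
      refine le_trans natDegree_pow_le ?_
      rw [mul_comm]
      refine Nat.mul_le_mul_right _ ?_
      unfold xx
      refine le_trans (natDegree_C_mul_X_pow_le _ _) ?_
      have := j.1.2
      omega
    have h2 : ∀ i, ((b4dF n G Δ P l m c).coeff i).natDegree ≤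
        P * l + (m + (n - 1) * w + (n - 1) * Δ.natDegree) := by
      unfold b4dF
      refine b4d_bd_sum _ _ ?_
      intro j _
      refine b4d_bd_mul ?_ (b4d_homY_bd hw (b4dPoly_bd _))
      refine b4d_bd_pow ?_ P
      unfold xx
      intro i
      have h3 := b4d_bd_mul (w := l) (b4d_bd_C (p := (X : k[X]) ^ (j.2 : ℕ)) (w := l) (by
        rw [natDegree_X_pow]
        have := j.2.2
        omega)) (b4d_bd_X_pow (k := k) (j.1 : ℕ)) i
      simpa using h3
    have h3 := hC0 _ _ _ h1 h2 i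
    refine le_trans h3 ?_
    rw [hW]
    have h4 : (n - 1) * P + (n - 1) * G.natDegree ≤ (n - 1) * (G.natDegree + 1) * (P + 1) := by
      nlinarith [Nat.zero_le ((n - 1) * G.natDegree * P), Nat.zero_le (n - 1)]
    have h5 : C0 * ((n - 1) * P + (n - 1) * G.natDegree) ≤
        C0 * ((n - 1) * (G.natDegree + 1)) * (P + 1) := by
      rw [mul_assoc]
      exact Nat.mul_le_mul_left _ h4
    have h6 : (n - 1) * w + (n - 1) * Δ.natDegree ≤
        ((n - 1) * w + (n - 1) * Δ.natDegree) * (P + 1) := Nat.le_mul_of_pos_right _ (by omega)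
    have h7 : C4 * (P + 1) = ((n - 1) * w + (n - 1) * Δ.natDegree) * (P + 1) +
        C0 * ((n - 1) * (G.natDegree + 1)) * (P + 1) := by
      rw [hC4]; ring
    omega
  -- the kernel
  have hfin : Module.finrank k (Fin μ.natDegree → Fin (W + 1) → k) <
      Module.finrank k (Fin μ.natDegree × Fin (l + 1) → Fin μ.natDegree → Fin (m + 1) → k) := by
    have e1 : Module.finrank k (Fin μ.natDegree → Fin (W + 1) → k) = n * (W + 1) := by
      rw [Module.finrank_pi_fintype]
      simp [← hndef]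
    have e2 : Module.finrank k (Fin μ.natDegree × Fin (l + 1) → Fin μ.natDegree → Fin (m + 1) → k)
        = (n * (l + 1)) * (n * (m + 1)) := by
      rw [Module.finrank_pi_fintype]
      simp only [Module.finrank_pi_fintype, Finset.sum_const, Finset.card_univ, Fintype.card_prod,
        Fintype.card_fin, smul_eq_mul, Module.finrank_self, mul_one]
      try ring
    rw [e1, e2]
    have : n * (W + 1) < n * (n * (l + 1) * (m + 1)) := by
      refine Nat.mul_lt_mul_of_pos_left ?_ hn
      omega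
    calc n * (W + 1) < n * (n * (l + 1) * (m + 1)) := this
      _ = (n * (l + 1)) * (n * (m + 1)) := by ring
  have hker := LinearMap.ker_ne_bot_of_finrank_lt (f := b4dT μ G Δ P l m W) hfin
  obtain ⟨c, hc, hc0⟩ := (Submodule.ne_bot_iff _).mp hker
  rw [LinearMap.mem_ker] at hc
  refine ⟨fun j => b4dPoly n m (c j), ?_, ?_, ?_⟩
  · intro j
    exact ⟨b4dPoly_natDegree hn _, b4dPoly_bd _⟩
  · by_contra hcon
    push Not at hcon
    apply hc0
    funext j
    exact b4dPoly_eq_zero (c j) (hcon j)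
  · have hzero : b4dF n G Δ P l m c %ₘ μ = 0 := by
      ext i a
      rw [coeff_zero, coeff_zero]
      by_cases hi : i < n
      · by_cases ha : a < W + 1
        · have := congrFun (congrFun hc ⟨i, hi⟩) ⟨a, ha⟩
          simpa [b4dT] using this
        · exact coeff_eq_zero_of_natDegree_lt (lt_of_le_of_lt (hdeg c i) (by omega))
      · have : (b4dF n G Δ P l m c %ₘ μ).coeff i = 0 := by
          refine coeff_eq_zero_of_degree_lt ?_
          refine lt_of_lt_of_le (degree_modByMonic_lt _ hμ) ?_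
          rw [degree_eq_natDegree hμ.ne_zero]
          exact_mod_cast (by omega : μ.natDegree ≤ i)
        rw [this, coeff_zero]
    have := (modByMonic_eq_zero_iff_dvd hμ).mp hzero
    simpa [b4dF] using this


end Pool.Agent.H497.FF
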