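import Pool.Agent.H497.FF.TDefs
import Pool.Agent.H497.FF.B4a
import Pool.Agent.H497.FF.B4b
import Pool.Agent.H497.FF.B4d
import Pool.Agent.H497.FF.B3p

set_option autoImplicit false

open Polynomial

namespace Pool.Agent.H497.FF

open Polynomial


/-! Available lemmas (proved elsewhere; leave their `sorry`s). -/

/-- coefficient degrees -/
def cdeg {k : Type} [Field k] (H : k[X][X]) (w : ℕ) : Prop := ∀ i, (H.coeff i).natDegree ≤ w

theorem cdeg_mul {k : Type} [Field k] {A B : k[X][X]} {a b : ℕ} (hA : cdeg A a) (hB : cdeg B b) :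
    cdeg (A * B) (a + b) := by
  intro i
  rw [coeff_mul]
  refine natDegree_sum_le_of_forall_le _ _ fun x _ => ?_
  exact natDegree_mul_le.trans (add_le_add (hA _) (hB _))

theorem cdeg_sum {k : Type} [Field k] {J : Type} (t : Finset J) (f : J → k[X][X]) (w : ℕ)
    (h : ∀ j ∈ t, cdeg (f j) w) : cdeg (∑ j ∈ t, f j) w := by
  intro i
  rw [finsetSum_coeff]
  exact natDegree_sum_le_of_forall_le _ _ fun x hx => h x hx i

theorem cdeg_pow {k : Type} [Field k] {A : k[X][X]} {a : ℕ} (hA : cdeg A a) (m : ℕ) :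
    cdeg (A ^ m) (m * a) := by
  induction m with
  | zero =>
    intro i
    rw [pow_zero, coeff_one]
    split_ifs <;> simp
  | succ m ih =>
    have := cdeg_mul ih hA
    rw [pow_succ, Nat.succ_mul]
    exact this

theorem cdeg_xx {k : Type} [Field k] {n l : ℕ} (j : Fin n × Fin (l + 1)) : cdeg (xx (k := k) j) l := by
  intro i
  rw [xx, coeff_C_mul, coeff_X_pow]
  split_ifs
  · rw [mul_one, natDegree_X_pow]
    exact Nat.le_of_lt_succ j.2.isLt
  · simp

theorem natDegree_xx_lt {k : Type} [Field k] {n l : ℕ} (j : Fin n × Fin (l + 1)) :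
    (xx (k := k) j).natDegree < n := by
  have : (xx (k := k) j).natDegree ≤ (j.1 : ℕ) := by
    rw [xx]
    exact natDegree_C_mul_X_pow_le _ _
  exact this.trans_lt j.1.isLt

theorem xx_indep {k : Type} [Field k] {n l : ℕ} (c : Fin n × Fin (l + 1) → k)
    (h : ∑ j, C (C (c j)) * xx (k := k) j = 0) : c = 0 := by
  funext j
  have h1 : ((∑ i, C (C (c i)) * xx (k := k) i).coeff (j.1 : ℕ)).coeff (j.2 : ℕ) = 0 := by
    rw [h]; simp
  rw [finsetSum_coeff, finsetSum_coeff, Finset.sum_eq_single j] at h1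
  · rw [xx, coeff_C_mul, coeff_C_mul, coeff_C_mul, coeff_X_pow, if_pos rfl, mul_one, coeff_X_pow, if_pos rfl,
      mul_one] at h1
    simpa using h1
  · intro b _ hb
    rw [xx, coeff_C_mul, coeff_C_mul, coeff_C_mul, coeff_X_pow]
    split_ifs with h2
    · rw [mul_one, coeff_X_pow]
      split_ifs with h3
      · exact absurd (Prod.ext (Fin.ext h2.symm) (Fin.ext h3.symm)) hb
      · simp
    · simp
  · intro hj
    exact absurd (Finset.mem_univ j) hj

theorem homY_eval {k : Type} [Field k] (n : ℕ) (G : k[X][X]) (Δ : k[X]) (y : k[X][X]) (a τ T : k)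
    (hy : y.natDegree < n) (hT : Δ.eval a * T = G.evalEval a τ) :
    (homY n G Δ y).evalEval a τ = Δ.eval a ^ (n - 1) * y.evalEval a T := by
  rw [homY, evalEval_finsetSum]
  rw [show y.evalEval a T = ∑ v ∈ Finset.range n, (y.coeff v).eval a * T ^ v by
    rw [evalEval, eval_eq_sum_range' hy, eval_finsetSum]
    refine Finset.sum_congr rfl fun v _ => ?_
    rw [eval_mul, eval_pow, eval_C]]
  rw [Finset.mul_sum]
  refine Finset.sum_congr rfl fun v hv => ?_
  rw [evalEval_mul, evalEval_mul, evalEval_C, evalEval_pow, evalEval_pow, evalEval_C, ← hT]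
  have hv' : v ≤ n - 1 := by
    have := Finset.mem_range.1 hv
    omega
  obtain ⟨w, hw⟩ := Nat.exists_eq_add_of_le hv'
  rw [hw, Nat.add_sub_cancel_left, mul_pow, pow_add]
  ring

theorem b4core {k : Type} [Field k] [IsAlgClosed k] (p : ℕ) [Fact p.Prime] [CharP k p] (μ G : k[X][X]) (Δ : k[X])
    (hμ : μ.Monic) (hirr : Irreducible (μ.map (algebraMap k[X] (RatFunc k))))
    (hsep : (μ.map (algebraMap k[X] (RatFunc k))).Separable) (hΔ : Δ ≠ 0) (hn : 0 < μ.natDegree) :
    ∃ C0 C2 C4 E : ℕ, ∀ (s l m : ℕ) (S : Finset k),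
      μ.natDegree * (l + C2) < p ^ s →
      p ^ s * l + m + C4 * (p ^ s + 1) + 1 < μ.natDegree * (l + 1) * (m + 1) →
      (∀ a ∈ S, a ^ (p ^ (2 * s)) = a ∧
        ∀ τ : k, μ.evalEval a τ = 0 → Δ.eval a * τ ^ (p ^ (2 * s)) = G.evalEval a τ) →
      S.card ≤ l + p ^ s * m + C0 * (μ.natDegree * (p ^ s + 1)) + E := by
  classical
  obtain ⟨C0, hC0⟩ := red_deg μ hμ
  obtain ⟨ι, C2, hι1, hι2, hι3⟩ := embed μ hμ hirr hsep
  obtain ⟨C4, hC4⟩ := exists_aux μ G Δ hμ hn
  obtain ⟨δ, hδ0, hδ⟩ := sep_spec μ hsep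
  refine ⟨C0, C2, C4, Δ.natDegree + δ.natDegree, ?_⟩
  intro s l m S h1 h2 hS
  obtain ⟨yt, hyt, ⟨j0, hj0⟩, hdvd⟩ := hC4 (p ^ s) l m h2
  -- Frobenius
  have : PerfectRing k p := PerfectField.toPerfectRing p
  set F : k →+* k := iterateFrobenius k p (2 * s) with hF
  have hFx : ∀ x : k, F x = x ^ (p ^ (2 * s)) := fun x => by rw [hF, iterateFrobenius_def]
  set φ : k →+* k := ((iterateFrobeniusEquiv k p (2 * s)).symm : k ≃+* k).toRingHom with hφ
  have hFφ : F.comp φ = RingHom.id k := by
    ext x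
    show F (φ x) = x
    rw [hFx, ← iterateFrobeniusEquiv_def]
    exact RingEquiv.apply_symm_apply _ _
  set y : Fin μ.natDegree × Fin (l + 1) → k[X][X] := fun j => (yt j).map (mapRingHom φ) with hy
  have hφinj : Function.Injective φ := φ.injective
  have hymap : ∀ j, (y j).map (mapRingHom F) = yt j := by
    intro j
    rw [hy]
    simp only
    rw [map_map, mapRingHom_comp, hFφ, mapRingHom_id, map_id]
  have hy1 : ∀ j, (y j).natDegree < μ.natDegree := fun j =>
    (natDegree_map_le).trans_lt (hyt j).1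
  have hy2 : ∀ j, cdeg (y j) m := by
    intro j i
    rw [hy]
    simp only
    rw [coeff_map]
    exact natDegree_map_le.trans ((hyt j).2 i)
  have hy0 : y j0 ≠ 0 := by
    intro h0
    apply hj0
    rw [← hymap j0, h0, Polynomial.map_zero]
  set h : k[X][X] := ∑ j, xx (k := k) j * y j ^ (p ^ s) with hh
  have hcd : cdeg h (l + p ^ s * m) := cdeg_sum _ _ _ fun j _ => cdeg_mul (cdeg_xx j) (cdeg_pow (hy2 j) _)
  have hnd : h.natDegree ≤ μ.natDegree * (p ^ s + 1) := by
    refine natDegree_sum_le_of_forall_le _ _ fun j _ => ?_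
    refine natDegree_mul_le.trans ?_
    have e1 := natDegree_xx_lt (k := k) j
    have e2 := natDegree_pow_le (p := y j) (n := p ^ s)
    have e3 : p ^ s * (y j).natDegree ≤ p ^ s * μ.natDegree := Nat.mul_le_mul_left _ (hy1 j).le
    calc _ ≤ μ.natDegree + p ^ s * μ.natDegree := by omega
      _ = _ := by ring
  have hnot : ¬ μ ∣ h := by
    intro hd
    have e0 : ι h = 0 := (hι2 h).2 hd
    have e1 : ∑ j, ι (xx (k := k) j) * ι (y j) ^ (p ^ s) = 0 := by
      rw [← e0, hh, map_sum]
      refine Finset.sum_congr rfl fun j _ => ?_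
      rw [map_mul, map_pow]
    have e2 := indep p s (fun j => ι (xx (k := k) j)) ?_ (fun j => ι (y j)) e1
    · have e3 : μ ∣ y j0 := (hι2 _).1 (e2 j0)
      exact hμ.not_dvd_of_natDegree_lt hy0 (hy1 j0) e3
    · intro c hc
      apply xx_indep (k := k)
      apply hι3 _ l (p ^ s) _ _ _ h1
      · refine lt_of_le_of_lt (natDegree_sum_le_of_forall_le (n := μ.natDegree - 1) _ _ fun j _ => ?_) (by omega)
        have := natDegree_xx_lt (k := k) j
        refine (natDegree_C_mul_le _ _).trans ?_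
        omega
      · refine cdeg_sum _ _ _ fun j _ => ?_
        have := cdeg_mul (A := C (C (c j))) (a := 0) (b := l) ?_ (cdeg_xx (k := k) j)
        · rwa [zero_add] at this
        · intro i
          rw [coeff_C]
          split_ifs <;> simp
      · convert hc using 1
        rw [map_sum]
        refine Finset.sum_congr rfl fun j _ => ?_
        rw [map_mul, hι1]
  set h3 : k[X][X] := h %ₘ μ with hh3
  have h3ne : h3 ≠ 0 := by
    intro h0
    exact hnot ((modByMonic_eq_zero_iff_dvd hμ).1 h0)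
  have h3cd := hC0 h (l + p ^ s * m) _ hnd hcd
  have h3nd : h3.natDegree < μ.natDegree := natDegree_modByMonic_lt h hμ (fun h1 => by
    rw [h1, natDegree_one] at hn
    exact lt_irrefl _ hn)
  obtain ⟨i, hi⟩ : ∃ i, h3.coeff i ≠ 0 := by
    by_contra hcon
    push Not at hcon
    exact h3ne (Polynomial.ext fun i => by rw [hcon i, coeff_zero])
  -- the key vanishing
  have key : ∀ a ∈ S, Δ.eval a ≠ 0 → δ.eval a ≠ 0 → (h3.coeff i).eval a = 0 := by
    intro a ha hΔa hδa
    obtain ⟨ha1, ha2⟩ := hS a ha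
    have hsepa := hδ a hδa
    have hroots : ∀ τ : k, μ.evalEval a τ = 0 → h3.evalEval a τ = 0 := by
      intro τ hτ
      have hT := ha2 τ hτ
      have e1 : (∑ j, xx (k := k) j ^ (p ^ s) * homY μ.natDegree G Δ (yt j)).evalEval a τ = 0 := by
        obtain ⟨q, hq⟩ := hdvd
        rw [hq, evalEval_mul, hτ, zero_mul]
      rw [evalEval_finsetSum] at e1
      have e2 : Δ.eval a ^ (μ.natDegree - 1) * (h.evalEval a τ) ^ (p ^ s) = 0 := by
        rw [← e1, hh, evalEval_finsetSum, sum_pow_char_pow, Finset.mul_sum]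
        refine Finset.sum_congr rfl fun j _ => ?_
        rw [evalEval_mul (p := xx (k := k) j ^ p ^ s), homY_eval _ _ _ _ a τ _ (hyt j).1 hT, evalEval_mul,
          evalEval_pow, evalEval_pow, mul_pow, ← pow_mul, ← pow_add]
        have e3 : (yt j).evalEval a (τ ^ p ^ (2 * s)) = (y j).evalEval a τ ^ p ^ (s + s) := by
          have := map_mapRingHom_evalEval F (y j) a τ
          rw [hymap, hFx, hFx, hFx, ha1] at this
          rw [this, two_mul]
        rw [e3]
        ring
      have e4 : h.evalEval a τ = 0 := by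
        rcases mul_eq_zero.1 e2 with h0 | h0
        · exact absurd (eq_zero_of_pow_eq_zero h0) hΔa
        · exact pow_eq_zero_iff (pow_ne_zero _ (Fact.out (p := p.Prime)).ne_zero) |>.1 h0
      have e5 := modByMonic_add_div h μ
      have e6 : h.evalEval a τ = h3.evalEval a τ := by
        conv_lhs => rw [← e5]
        rw [evalEval_add, evalEval_mul, hτ, zero_mul, add_zero]
      rw [← e6, e4]
    -- h3(a, .) = 0
    have hz : h3.map (evalRingHom a) = 0 := by
      have hm : (μ.map (evalRingHom a)).Monic := hμ.map _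
      have hmd : (μ.map (evalRingHom a)).natDegree = μ.natDegree := hμ.natDegree_map _
      by_contra hne
      have hd : μ.map (evalRingHom a) ∣ h3.map (evalRingHom a) := by
        rw [IsAlgClosed.dvd_iff_roots_le_roots hm.ne_zero hne]
        rw [Multiset.le_iff_subset (nodup_roots hsepa)]
        intro τ hτ
        rw [mem_roots hm.ne_zero, IsRoot.def, map_evalRingHom_eval] at hτ
        rw [mem_roots hne, IsRoot.def, map_evalRingHom_eval]
        exact hroots τ hτ
      refine hm.not_dvd_of_natDegree_lt hne ?_ hd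
      rw [hmd]
      exact natDegree_map_le.trans_lt h3nd
    have := congrArg (fun q => q.coeff i) hz
    simpa [coeff_map] using this
  -- counting
  have hsub : S ⊆ (h3.coeff i).roots.toFinset ∪ (Δ.roots.toFinset ∪ δ.roots.toFinset) := by
    intro a ha
    by_cases hΔa : Δ.eval a = 0
    · simp [hΔa, hΔ]
    by_cases hδa : δ.eval a = 0
    · simp [hδa, hδ0]
    have := key a ha hΔa hδa
    simp [this, hi]
  have hc : ∀ q : k[X], q.roots.toFinset.card ≤ q.natDegree := fun q =>
    (Multiset.toFinset_card_le _).trans (card_roots' q)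
  calc S.card ≤ _ := Finset.card_le_card hsub
    _ ≤ (h3.coeff i).roots.toFinset.card + (Δ.roots.toFinset ∪ δ.roots.toFinset).card := Finset.card_union_le _ _
    _ ≤ (h3.coeff i).roots.toFinset.card + (Δ.roots.toFinset.card + δ.roots.toFinset.card) := by
      gcongr
      exact Finset.card_union_le _ _
    _ ≤ (h3.coeff i).natDegree + (Δ.natDegree + δ.natDegree) := by
      gcongr <;> exact hc _
    _ ≤ _ := by
      gcongr
      exact h3cd i

theorem as_bound : ASBound := by
  intro k _ _ p _ _ μ G Δ hμ hirr hsep hΔ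
  have hn : 0 < μ.natDegree := by
    by_contra h0
    have h1 : μ.natDegree = 0 := by omega
    have h2 : μ = 1 := (hμ.natDegree_eq_zero).1 h1
    rw [h2, Polynomial.map_one] at hirr
    exact hirr.not_isUnit isUnit_one
  obtain ⟨C0, C2, C4, E, hcore⟩ := b4core p μ G Δ hμ hirr hsep hΔ hn
  set n := μ.natDegree with hnn
  set B : ℕ := 2 * n * C2 + 17 with hB
  refine ⟨((1 + (4 * C4 + 8) + 2 * C0 * n + E + B : ℕ) : ℝ), ?_⟩
  intro s S hs hS
  have hp := (Fact.out : p.Prime)
  have hP1 : 1 ≤ p ^ s := Nat.one_le_pow _ _ hp.pos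
  have hQ : (p : ℝ) ^ (2 * s) = (p : ℝ) ^ s * (p : ℝ) ^ s := by rw [two_mul, pow_add]
  have hPr : ((p ^ s : ℕ) : ℝ) = (p : ℝ) ^ s := by push_cast; ring
  have hnr : (0 : ℝ) < n := by exact_mod_cast hn
  by_cases hPB : p ^ s < B
  · -- small case
    have h1 : S.card ≤ p ^ (2 * s) := by
      have hne : (X ^ (p ^ (2 * s)) - X : k[X]) ≠ 0 := by
        exact FiniteField.X_pow_card_sub_X_ne_zero k (Nat.one_lt_pow (by omega) hp.one_lt)
      have hdeg : (X ^ (p ^ (2 * s)) - X : k[X]).natDegree = p ^ (2 * s) :=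
        FiniteField.X_pow_card_sub_X_natDegree_eq k (Nat.one_lt_pow (by omega) hp.one_lt)
      classical
      have hsub : S ⊆ (X ^ (p ^ (2 * s)) - X : k[X]).roots.toFinset := by
        intro a ha
        rw [Multiset.mem_toFinset, mem_roots hne]
        simp [(hS a ha).1]
      calc S.card ≤ _ := Finset.card_le_card hsub
        _ ≤ _ := Multiset.toFinset_card_le _
        _ ≤ _ := card_roots' _
        _ = _ := hdeg
    have h2 : (S.card : ℝ) ≤ (p : ℝ) ^ s * (p : ℝ) ^ s := by
      rw [← hQ]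
      exact_mod_cast h1
    have h3 : (p : ℝ) ^ s ≤ (B : ℝ) := by
      rw [← hPr]
      exact_mod_cast hPB.le
    have h4 : (0 : ℝ) ≤ (p : ℝ) ^ (2 * s) / n := by positivity
    have h5 : (0 : ℝ) < (p : ℝ) ^ s := by rw [← hPr]; exact_mod_cast hP1
    have h6 : (p : ℝ) ^ s * (p : ℝ) ^ s ≤ B * (p : ℝ) ^ s := mul_le_mul_of_nonneg_right h3 h5.le
    have h7 : (B : ℝ) * (p : ℝ) ^ s ≤ ((1 + (4 * C4 + 8) + 2 * C0 * n + E + B : ℕ) : ℝ) * (p : ℝ) ^ s := by
      refine mul_le_mul_of_nonneg_right ?_ h5.le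
      exact_mod_cast Nat.le_add_left _ _
    linarith
  · push Not at hPB
    set P := p ^ s with hP
    have hl1 : 2 * n * (P / (2 * n)) ≤ P := Nat.mul_div_le _ _
    have hl2 : P < 2 * n * (P / (2 * n) + 1) := Nat.lt_mul_div_succ _ (by positivity)
    have ha1 : n * (P / n) ≤ P := Nat.mul_div_le _ _
    have ha2 : P < n * (P / n + 1) := Nat.lt_mul_div_succ _ hn
    set l := P / (2 * n) with hl
    set a := P / n with ha
    have hc1 : n * (l + C2) < P := by
      have : 2 * (n * (l + C2)) < 2 * P := by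
        calc 2 * (n * (l + C2)) = 2 * n * l + 2 * n * C2 := by ring
          _ < P + P := by omega
          _ = 2 * P := by ring
      omega
    have hc2 : P * l + (a + (4 * C4 + 8)) + C4 * (P + 1) + 1 < n * (l + 1) * (a + (4 * C4 + 8) + 1) := by
      have e1 : n * (l + 1) * (a + (4 * C4 + 8) + 1) =
          (l + 1) * (n * (a + 1)) + (2 * n * (l + 1)) * (2 * C4 + 4) := by ring
      have e2 : (l + 1) * (P + 1) ≤ (l + 1) * (n * (a + 1)) := Nat.mul_le_mul_left _ ha2
      have e3 : (P + 1) * (2 * C4 + 4) ≤ (2 * n * (l + 1)) * (2 * C4 + 4) := Nat.mul_le_mul_right _ hl2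
      have e4 : a ≤ P := Nat.div_le_self _ _
      have e5 : 17 ≤ P := by omega
      have e6 : 17 * (C4 + 4) ≤ P * (C4 + 4) := Nat.mul_le_mul_right _ e5
      rw [e1]
      nlinarith
    have hfin := hcore s l (a + (4 * C4 + 8)) S hc1 hc2 hS
    have g1 : (S.card : ℝ) ≤ (l + P * (a + (4 * C4 + 8)) + C0 * (n * (P + 1)) + E : ℝ) := by
      exact_mod_cast hfin
    have g2 : (l : ℝ) ≤ P := by exact_mod_cast Nat.div_le_self _ _
    have g3 : (a : ℝ) ≤ P / n := by
      rw [le_div_iff₀ hnr, mul_comm]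
      exact_mod_cast ha1
    have g4 : (1 : ℝ) ≤ P := by exact_mod_cast hP1
    rw [hQ, ← hPr]
    push_cast
    have g5 : (P : ℝ) * a ≤ P * (P / n) := mul_le_mul_of_nonneg_left g3 (by linarith)
    have g6 : (C0 : ℝ) * (n * (P + 1)) ≤ C0 * (n * (P + P)) := by gcongr
    have g7 : (E : ℝ) ≤ E * P := by
      have : (0 : ℝ) ≤ E := Nat.cast_nonneg _
      nlinarith
    have g8 : (0 : ℝ) ≤ B * P := by positivity
    have g9 : (P : ℝ) * P / n = P * (P / n) := by ring
    rw [g9]
    nlinarith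

end Pool.Agent.H497.FF
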