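import Pool.Agent.H497.FF.TDefs
import Pool.Agent.H497.FF.A4

set_option autoImplicit false



namespace Pool.Agent.H497.FF

open Polynomial


noncomputable section

end

noncomputable section

end

/-! proved elsewhere (leave the `sorry`s) -/

/-! ### helper lemmas -/

/-- homogenised value of `P` at two commuting elements -/
noncomputable def hm {k A : Type*} [CommRing k] [Ring A] [Algebra k A] (x y : A) (r : ℕ) (P : k[X]) : A :=
  ∑ j ∈ Finset.range (r + 1), P.coeff j • (x ^ j * y ^ (r - j))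

theorem hm_mul {k A : Type*} [CommRing k] [Ring A] [Algebra k A] {x y : A} (hxy : Commute x y) (a : k) (r : ℕ)
    (P : k[X]) (hP : P.natDegree ≤ r) :
    hm x y (r + 1) ((X - C a) * P) = (x - a • y) * hm x y r P := by
  have h1 : ∀ j, ((X - C a) * P).coeff j = (X * P).coeff j - a * P.coeff j := by
    intro j
    rw [sub_mul, coeff_sub, coeff_C_mul]
  have h2 : P.coeff (r + 1) = 0 := coeff_eq_zero_of_natDegree_lt (by omega)
  have e1 : ∑ j ∈ Finset.range (r + 1 + 1), (X * P).coeff j • (x ^ j * y ^ (r + 1 - j)) =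
      x * ∑ j ∈ Finset.range (r + 1), P.coeff j • (x ^ j * y ^ (r - j)) := by
    rw [Finset.sum_range_succ', coeff_X_mul_zero, zero_smul, add_zero, Finset.mul_sum]
    refine Finset.sum_congr rfl fun j hj => ?_
    rw [coeff_X_mul, mul_smul_comm, ← mul_assoc, ← pow_succ', Nat.add_sub_add_right]
  have e2 : ∑ j ∈ Finset.range (r + 1 + 1), (a * P.coeff j) • (x ^ j * y ^ (r + 1 - j)) =
      (a • y) * ∑ j ∈ Finset.range (r + 1), P.coeff j • (x ^ j * y ^ (r - j)) := by
    rw [Finset.sum_range_succ, h2, mul_zero, zero_smul, add_zero, Finset.mul_sum]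
    refine Finset.sum_congr rfl fun j hj => ?_
    have hj' : j ≤ r := by simpa [Nat.lt_succ_iff] using hj
    rw [smul_mul_assoc, mul_smul_comm, ← mul_assoc, ← (hxy.pow_left j).eq, mul_assoc, ← pow_succ',
      mul_smul, show r + 1 - j = r - j + 1 by omega]
  unfold hm
  have e3 := sub_mul x (a • y) (∑ j ∈ Finset.range (r + 1), P.coeff j • (x ^ j * y ^ (r - j)))
  rw [e3, ← e1, ← e2, ← Finset.sum_sub_distrib]
  exact Finset.sum_congr rfl fun j _ => by rw [h1, sub_smul]

/-- every element of the algebraic closure is fixed by a power of Frobenius -/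
theorem exists_fix {F : Type} [Field F] [Fintype F] (c : AlgebraicClosure F) :
    ∃ r : ℕ, 0 < r ∧ c ^ (Fintype.card F ^ r) = c := by
  classical
  have hint : IsIntegral F c := Algebra.IsIntegral.isIntegral c
  have : FiniteDimensional F (IntermediateField.adjoin F {c}) := IntermediateField.adjoin.finiteDimensional hint
  have : Finite (IntermediateField.adjoin F {c}) := Module.finite_of_finite F
  let _ : Fintype (IntermediateField.adjoin F {c}) := Fintype.ofFinite _
  refine ⟨Module.finrank F (IntermediateField.adjoin F {c}), Module.finrank_pos, ?_⟩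
  have h := FiniteField.pow_card (⟨c, IntermediateField.mem_adjoin_simple_self F c⟩ : IntermediateField.adjoin F {c})
  rw [Module.card_eq_pow_finrank (K := F)] at h
  exact congrArg Subtype.val h

theorem fix_mul {F : Type} [Field F] [Fintype F] {c : AlgebraicClosure F} {r : ℕ}
    (h : c ^ (Fintype.card F ^ r) = c) (m : ℕ) : c ^ (Fintype.card F ^ (r * m)) = c := by
  induction m with
  | zero => simp
  | succ m ih => rw [Nat.mul_succ, pow_add, pow_mul, ih, h]

theorem exists_fix_finset {F : Type} [Field F] [Fintype F] (S : Finset (AlgebraicClosure F)) :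
    ∃ r : ℕ, 0 < r ∧ ∀ c ∈ S, c ^ (Fintype.card F ^ r) = c := by
  classical
  induction S using Finset.induction_on with
  | empty => exact ⟨1, one_pos, by simp⟩
  | insert c S hc ih =>
    obtain ⟨r, hr, h⟩ := ih
    obtain ⟨r', hr', h'⟩ := exists_fix c
    refine ⟨r * r', Nat.mul_pos hr hr', fun d hd => ?_⟩
    rcases Finset.mem_insert.1 hd with rfl | hd
    · rw [mul_comm]; exact fix_mul h' r
    · exact fix_mul (h d hd) r'

/-- a bivariate polynomial is fixed by a power of Frobenius -/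
theorem exists_fix_poly {F : Type} [Field F] [Fintype F] (μ : (AlgebraicClosure F)[X][X]) :
    ∃ r : ℕ, 0 < r ∧ ∀ i j, ((μ.coeff i).coeff j) ^ (Fintype.card F ^ r) = (μ.coeff i).coeff j := by
  classical
  obtain ⟨r, hr, h⟩ := exists_fix_finset
    (μ.support.biUnion fun i => (μ.coeff i).support.image fun j => (μ.coeff i).coeff j)
  refine ⟨r, hr, fun i j => ?_⟩
  by_cases hi : μ.coeff i = 0
  · simp [hi]
  by_cases hj : (μ.coeff i).coeff j = 0
  · simp [hj]
  refine h _ (Finset.mem_biUnion.2 ⟨i, by simpa [mem_support_iff] using hi, Finset.mem_image.2 ⟨j, ?_, rfl⟩⟩)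
  simpa [mem_support_iff] using hj


section core

variable {F : Type} [Field F] [Fintype F] {R : Type} [CommRing R] [Algebra F R] {N : ℕ}

/-- the regular representation, over the algebraic closure -/
noncomputable def phi (b : Module.Basis (Fin N) F R) : R →+* Matrix (Fin N) (Fin N) (AlgebraicClosure F) :=
  ((algebraMap F (AlgebraicClosure F)).mapMatrix).comp (Algebra.leftMulMatrix b).toRingHom

omit [Fintype F] in
theorem phi_apply (b : Module.Basis (Fin N) F R) (c : R) (j l : Fin N) :
    phi b c j l = algebraMap F (AlgebraicClosure F) (Algebra.leftMulMatrix b c j l) := rfl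

omit [Fintype F] in
theorem phi_algebraMap (b : Module.Basis (Fin N) F R) (t : F) (c : R) :
    phi b (algebraMap F R t * c) = algebraMap F (AlgebraicClosure F) t • phi b c := by
  ext j l
  rw [phi_apply, ← Algebra.smul_def, map_smul, Matrix.smul_apply, Matrix.smul_apply, phi_apply, smul_eq_mul,
    map_mul, smul_eq_mul]

omit [Fintype F] in
theorem phi_homEval (b : Module.Basis (Fin N) F R) (e0 e1 : R) (r : ℕ) (D : F[X]) :
    phi b (homEval e0 e1 r D) = hm (phi b e0) (phi b e1) r (D.map (algebraMap F (AlgebraicClosure F))) := by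
  unfold homEval hm
  rw [map_sum]
  refine Finset.sum_congr rfl fun j _ => ?_
  rw [mul_assoc, phi_algebraMap, map_mul, map_pow, map_pow, coeff_map]

omit [Fintype F] in
theorem eval_Ent (b : Module.Basis (Fin N) F R) (e0 e1 : R) (j l : Fin N) (a : AlgebraicClosure F) :
    (Ent b e0 e1 j l).eval a = (phi b e0 - a • phi b e1) j l := by
  simp only [Ent, EX, Matrix.of_apply, Polynomial.map_sub, Polynomial.map_mul, map_C, map_X, eval_sub, eval_mul,
    eval_C, eval_X, Matrix.sub_apply, Matrix.smul_apply, phi_apply, smul_eq_mul]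
  ring

/-- iteration of the equation of the torsor -/
theorem iterate_frob (b : Module.Basis (Fin N) F R) (e0 e1 : R) (a : AlgebraicClosure F)
    (g : Fin N → AlgebraicClosure F)
    (hg : ∀ j, g j ^ Fintype.card F = ∑ l, (Ent b e0 e1 j l).eval a * g l) (r : ℕ) :
    (fun j => g j ^ (Fintype.card F ^ r)) =
      (hm (phi b e0) (phi b e1) r (∏ i ∈ Finset.range r, (X - C (a ^ (Fintype.card F ^ i))))).mulVec g := by
  classical
  have hcomm : Commute (phi b e0) (phi b e1) := (Commute.all e0 e1).map (phi b)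
  induction r with
  | zero =>
    simp [hm]
  | succ r ih =>
    have hdeg : (∏ i ∈ Finset.range r, (X - C (a ^ (Fintype.card F ^ i)))).natDegree ≤ r := by
      refine (natDegree_prod_le _ _).trans ?_
      simp only [natDegree_X_sub_C, Finset.sum_const, Finset.card_range, smul_eq_mul, mul_one]
      exact le_rfl
    rw [Finset.prod_range_succ, mul_comm, hm_mul hcomm _ _ _ hdeg, ← Matrix.mulVec_mulVec, ← ih]
    funext j
    rw [pow_succ', pow_mul, hg j]
    -- Frobenius
    obtain ⟨p, hp⟩ := CharP.exists F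
    have hpp : p.Prime := CharP.char_is_prime F p
    have : Fact p.Prime := ⟨hpp⟩
    obtain ⟨⟨n, hn0⟩, -, hn⟩ := FiniteField.card F p
    have : CharP (AlgebraicClosure F) p := charP_of_injective_algebraMap (algebraMap F (AlgebraicClosure F)).injective p
    have hq : Fintype.card F ^ r = p ^ (n * r) := by rw [hn, ← pow_mul]; rfl
    have hfr : ∀ x : F, x ^ (Fintype.card F ^ r) = x := fun x => FiniteField.pow_card_pow r x
    rw [hq, sum_pow_char_pow, ← hq]
    simp only [Matrix.mulVec, dotProduct]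
    refine Finset.sum_congr rfl fun l _ => ?_
    rw [mul_pow, eval_Ent]
    congr 1
    simp only [Matrix.sub_apply, Matrix.smul_apply, smul_eq_mul, phi_apply]
    rw [hq, sub_pow_char_pow, ← hq, mul_pow, ← map_pow, ← map_pow, hfr, hfr]

theorem evalEval_zero_of_dvd {k : Type*} [CommRing k] {μ P : k[X][X]} {a τ : k} (h : μ ∣ P)
    (h0 : μ.evalEval a τ = 0) : P.evalEval a τ = 0 := by
  obtain ⟨Q, rfl⟩ := h
  rw [evalEval_mul, h0, zero_mul]

/-- the value of the torsor coordinate at the Frobenius of a point of norm `c` -/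
theorem key (b : Module.Basis (Fin N) F R) (e0 e1 : R) (μ : (AlgebraicClosure F)[X][X])
    (Δ : (AlgebraicClosure F)[X]) (G : Fin N → (AlgebraicClosure F)[X][X]) (T : ℕ)
    (h1 : ∀ j, μ ∣ G j ^ Fintype.card F - C (Δ ^ (Fintype.card F - 1)) * ∑ l, C (Ent b e0 e1 j l) * G l)
    (h2 : μ ∣ C Δ * X - ∑ j : Fin N, C (X ^ (T * (j : ℕ))) * G j)
    {r : ℕ} (hr : r ≠ 0) {a τ : AlgebraicClosure F} (ha : a ∈ fix F r) (hΔ : Δ.eval a ≠ 0)
    (h0 : μ.evalEval a τ = 0) {c : R} (hc : homEval e0 e1 r (DD r a) = c) :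
    τ ^ (Fintype.card F ^ r) = (Gc b T G c).evalEval a τ / Δ.eval a := by
  classical
  have haQ : a ^ (Fintype.card F ^ r) = a := (mem_fix F hr).1 ha
  have hcard : 1 ≤ Fintype.card F := Fintype.card_pos
  set g : Fin N → AlgebraicClosure F := fun j => (G j).evalEval a τ / Δ.eval a with hgdef
  have hg : ∀ j, g j ^ Fintype.card F = ∑ l, (Ent b e0 e1 j l).eval a * g l := by
    intro j
    have h := evalEval_zero_of_dvd (h1 j) h0
    rw [evalEval_sub, evalEval_pow, evalEval_mul, evalEval_C, evalEval_finsetSum, eval_pow, sub_eq_zero] at h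
    simp only [evalEval_mul, evalEval_C] at h
    simp only [hgdef]
    rw [div_pow, h]
    have e : Δ.eval a ^ Fintype.card F = Δ.eval a ^ (Fintype.card F - 1) * Δ.eval a := by
      rw [← pow_succ, Nat.sub_add_cancel hcard]
    rw [e, mul_div_mul_left _ _ (pow_ne_zero _ hΔ), Finset.sum_div]
    exact Finset.sum_congr rfl fun l _ => by rw [mul_div_assoc]
  have hτ : τ = ∑ j : Fin N, a ^ (T * (j : ℕ)) * g j := by
    have h := evalEval_zero_of_dvd h2 h0
    rw [evalEval_sub, evalEval_mul, evalEval_C, evalEval_X, evalEval_finsetSum, sub_eq_zero] at h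
    simp only [evalEval_mul, evalEval_C, eval_pow, eval_X] at h
    have : τ = (Δ.eval a * τ) / Δ.eval a := by field_simp
    rw [this, h, Finset.sum_div]
    exact Finset.sum_congr rfl fun l _ => by rw [hgdef, mul_div_assoc]
  have hmat : ∀ j, g j ^ (Fintype.card F ^ r) = ∑ l, phi b c j l * g l := by
    intro j
    have h := congrFun (iterate_frob b e0 e1 a g hg r) j
    rw [← map_DD hr ha, ← phi_homEval, hc] at h
    exact h
  obtain ⟨p, hp⟩ := CharP.exists F
  have hpp : p.Prime := CharP.char_is_prime F p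
  have : Fact p.Prime := ⟨hpp⟩
  obtain ⟨⟨n, hn0⟩, -, hn⟩ := FiniteField.card F p
  have : CharP (AlgebraicClosure F) p := charP_of_injective_algebraMap (algebraMap F (AlgebraicClosure F)).injective p
  have hq : Fintype.card F ^ r = p ^ (n * r) := by rw [hn, ← pow_mul]; rfl
  have e1 : τ ^ (Fintype.card F ^ r) = ∑ j : Fin N, a ^ (T * (j : ℕ)) * ∑ l, phi b c j l * g l := by
    conv_lhs => rw [hτ]
    rw [hq, sum_pow_char_pow, ← hq]
    refine Finset.sum_congr rfl fun j _ => ?_
    rw [mul_pow, hmat, ← pow_mul, mul_comm (T * (j : ℕ)), pow_mul, haQ]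
  rw [e1]
  unfold Gc
  rw [evalEval_finsetSum, Finset.sum_div]
  refine Finset.sum_congr rfl fun j _ => ?_
  rw [evalEval_mul, evalEval_C, evalEval_finsetSum, mul_div_assoc, eval_pow, eval_X, Finset.sum_div]
  congr 1
  refine Finset.sum_congr rfl fun l _ => ?_
  rw [evalEval_mul, evalEval_C, eval_C, mul_div_assoc, phi_apply]

/-- a polynomial with coefficients fixed by Frobenius -/
theorem evalEval_frob (μ : (AlgebraicClosure F)[X][X]) {r : ℕ}
    (hμ : ∀ i j, ((μ.coeff i).coeff j) ^ (Fintype.card F ^ r) = (μ.coeff i).coeff j)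
    {a : AlgebraicClosure F} (haQ : a ^ (Fintype.card F ^ r) = a) (τ : AlgebraicClosure F) :
    μ.evalEval a (τ ^ (Fintype.card F ^ r)) = μ.evalEval a τ ^ (Fintype.card F ^ r) := by
  classical
  obtain ⟨p, hp⟩ := CharP.exists F
  have hpp : p.Prime := CharP.char_is_prime F p
  have : Fact p.Prime := ⟨hpp⟩
  obtain ⟨⟨n, hn0⟩, -, hn⟩ := FiniteField.card F p
  have : CharP (AlgebraicClosure F) p := charP_of_injective_algebraMap (algebraMap F (AlgebraicClosure F)).injective p
  have : ExpChar (AlgebraicClosure F) p := ExpChar.prime hpp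
  have hq : Fintype.card F ^ r = p ^ (n * r) := by rw [hn, ← pow_mul]; rfl
  set f : AlgebraicClosure F →+* AlgebraicClosure F := iterateFrobenius (AlgebraicClosure F) p (n * r) with hf
  have hfx : ∀ x, f x = x ^ (Fintype.card F ^ r) := fun x => by rw [hf, iterateFrobenius_def, hq]
  have hmap : μ.map (mapRingHom f) = μ := by
    ext i j
    rw [coeff_map, coe_mapRingHom, coeff_map, hfx, hμ]
  have h := map_mapRingHom_evalEval f μ a τ
  rw [hfx, hfx, hfx, hmap, haQ] at h
  exact h

end core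
/-! To prove. Upper bounds for the number of points of the torsor.

Let `k = AlgebraicClosure F`, `n = card H`, `Q = q^r` with `r` even and divisible by `r1`, where all coefficients of
`μ` lie in `F_{q^r1}`.
For `a ∈ F_{q^r}` with `Δ(a) ≠ 0` and a root `τ` of `μ(a, .)` put `ḡ_j = G_j(a,τ)/Δ(a)`. From the first divisibility
`ḡ_j^q = ∑_l Ent_{jl}(a) ḡ_l`, i.e. `ḡ^(q) = E_a ḡ`, `E_a = M(e0) - a M(e1)` (matrices over `k`; `M(e0), M(e1)` over `F`).
Iterating, `ḡ^(q^r) = E_{a^(q^(r-1))} ⋯ E_{a^q} E_a ḡ` and the product of the (commuting) matrices is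
`M(homEval e0 e1 r (DD r a))` by `map_DD` (homogenisation). So if the norm is `c` then
`ḡ_j^Q = (M(c) ḡ)_j`, and from the second divisibility `τ = ∑_j a^(T j) ḡ_j`, so (using `a^Q = a`)
`τ^Q = ∑_j a^(T j) (M(c) ḡ)_j = Gc(a,τ)/Δ(a)`.
* `c ∈ H`: apply `hAS` to `μ`, `Gc b T G c`, `Δ` (`p` the characteristic, `q^r = p^(2s)`); add `deg Δ` for the zeros of `Δ`.
* `c ∉ H`: `μ(a, τ^Q) = μ(a,τ)^Q = 0` (coefficients of `μ` in `F_{q^r}`, `a^Q = a`), so by the last clause of
`TorsorData`, `Δ(a) = 0` or `δ(a) = 0`: at most `deg Δ + deg δ` such `a`. -/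
theorem upper_bounds {F : Type} [Field F] [Fintype F] {R : Type} [CommRing R] [Algebra F R] {N : ℕ}
    (b : Module.Basis (Fin N) F R) (e0 e1 : R) (hD : TorsorData b e0 e1) (hAS : ASBound) :
    ∃ (H : Subgroup Rˣ) (r0 : ℕ) (K : ℝ), 0 < r0 ∧ 0 ≤ K ∧ ∀ r : ℕ, r ≠ 0 → r0 ∣ r → ∀ c : Rˣ,
      (c ∈ H → (cnt (F := F) e0 e1 r (c : R) : ℝ) ≤
        (Fintype.card F : ℝ) ^ r / Nat.card H + K * √(Fintype.card F : ℝ) ^ r) ∧
      (c ∉ H → (cnt (F := F) e0 e1 r (c : R) : ℝ) ≤ K) := by
  classical
  obtain ⟨H, μ, Δ, G, T, δ, hμ, hirr, hsep, hdeg, hΔ, hδ, h1, h2, h3⟩ := hD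
  have hRmf : Module.Finite F R := Module.Finite.of_basis b
  have hRfin : Finite R := Module.finite_of_finite F
  have hUfin : Finite Rˣ := inferInstance
  let _ : Fintype Rˣ := Fintype.ofFinite _
  obtain ⟨r1, hr1, hfix⟩ := exists_fix_poly μ
  obtain ⟨p, hp⟩ := CharP.exists F
  have hpp : p.Prime := CharP.char_is_prime F p
  have hpF : Fact p.Prime := ⟨hpp⟩
  obtain ⟨⟨n, hn0⟩, -, hn⟩ := FiniteField.card F p
  have hchar : CharP (AlgebraicClosure F) p :=
    charP_of_injective_algebraMap (algebraMap F (AlgebraicClosure F)).injective p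
  have hn' : Fintype.card F = p ^ n := hn
  have hAS' : ∀ c : Rˣ, ∃ K : ℝ, ∀ (s : ℕ) (S : Finset (AlgebraicClosure F)), 0 < s →
      (∀ a ∈ S, a ^ (p ^ (2 * s)) = a ∧
        ∀ τ : AlgebraicClosure F, μ.evalEval a τ = 0 →
          Δ.eval a * τ ^ (p ^ (2 * s)) = (Gc b T G (c : R)).evalEval a τ) →
      (S.card : ℝ) ≤ (p : ℝ) ^ (2 * s) / μ.natDegree + K * (p : ℝ) ^ s := fun c =>
    hAS (AlgebraicClosure F) p μ (Gc b T G (c : R)) Δ hμ hirr hsep hΔ
  choose K hK using hAS'
  have hHcard : 0 < Nat.card H := Nat.card_pos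
  -- zeros of Δ
  have hcardΔ : ∀ (P : (AlgebraicClosure F)[X]), P ≠ 0 → ∀ S : Finset (AlgebraicClosure F),
      (∀ a ∈ S, P.eval a = 0) → S.card ≤ P.natDegree := by
    intro P hP S hS
    have hsub : S ⊆ P.roots.toFinset := fun a ha => by
      rw [Multiset.mem_toFinset, mem_roots hP]; exact hS a ha
    exact (Finset.card_le_card hsub).trans ((Multiset.toFinset_card_le _).trans (card_roots' P))
  refine ⟨H, 2 * r1, ∑ c, |K c| + Δ.natDegree + δ.natDegree, by omega, by positivity, ?_⟩
  intro r hr hdvd c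
  obtain ⟨m, rfl⟩ := hdvd
  set r : ℕ := 2 * r1 * m with hrdef
  have hKsum : K c ≤ ∑ c, |K c| :=
    (le_abs_self _).trans (Finset.single_le_sum (f := fun c => |K c|) (fun _ _ => abs_nonneg _) (Finset.mem_univ c))
  have hKnn : 0 ≤ ∑ c, |K c| := Finset.sum_nonneg fun _ _ => abs_nonneg _
  have hqr : Fintype.card F ^ r = p ^ (2 * (n * r1 * m)) := by
    rw [hn', ← pow_mul, hrdef]; congr 1; ring
  have hsq : √(Fintype.card F : ℝ) ^ r = (p : ℝ) ^ (n * r1 * m) := by
    have e1 : √(Fintype.card F : ℝ) ^ 2 = (p : ℝ) ^ n := by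
      rw [Real.sq_sqrt (Nat.cast_nonneg _), hn']; push_cast; rfl
    rw [hrdef, mul_assoc, pow_mul, e1, ← pow_mul]
    congr 1; ring
  have hpone : (1 : ℝ) ≤ (p : ℝ) ^ (n * r1 * m) := one_le_pow₀ (by exact_mod_cast hpp.one_lt.le)
  constructor
  · intro hc
    -- split the set
    set A := (fix F r).filter (fun a => homEval e0 e1 r (DD r a) = (c : R)) with hA
    have hcnt : cnt (F := F) e0 e1 r (c : R) = A.card := by
      unfold cnt; congr
    set A1 := A.filter (fun a => Δ.eval a ≠ 0)
    set A2 := A.filter (fun a => ¬ Δ.eval a ≠ 0)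
    have hsplit : A.card = A1.card + A2.card := (Finset.card_filter_add_card_filter_not _).symm
    have hA2 : A2.card ≤ Δ.natDegree := hcardΔ Δ hΔ A2 fun a ha => by
      have := (Finset.mem_filter.1 ha).2
      simpa using this
    have hpos : 0 < n * r1 * m := by
      have hm0 : m ≠ 0 := by rintro rfl; exact hr (by rw [hrdef]; simp)
      have hn1 : 0 < n := hn0
      positivity
    have hA1 := hK c (n * r1 * m) A1 hpos (fun a ha => by
      have h := Finset.mem_filter.1 ha
      have h' := Finset.mem_filter.1 h.1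
      refine ⟨?_, fun τ hτ => ?_⟩
      · rw [← hqr]; exact (mem_fix F hr).1 h'.1
      · rw [← hqr, key b e0 e1 μ Δ G T h1 h2 hr h'.1 h.2 hτ h'.2]
        rw [mul_div_cancel₀ _ h.2])
    rw [hcnt, hsplit]
    push_cast
    have hA2' : (A2.card : ℝ) ≤ Δ.natDegree := by exact_mod_cast hA2
    have hqr' : (Fintype.card F : ℝ) ^ r = (p : ℝ) ^ (2 * (n * r1 * m)) := by exact_mod_cast hqr
    rw [hdeg] at hA1
    rw [hqr', hsq]
    have hΔnn : (0 : ℝ) ≤ Δ.natDegree := Nat.cast_nonneg _
    have hδnn : (0 : ℝ) ≤ δ.natDegree := Nat.cast_nonneg _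
    nlinarith [mul_le_mul_of_nonneg_right hKsum (by positivity : (0:ℝ) ≤ (p : ℝ) ^ (n * r1 * m)),
      mul_le_mul_of_nonneg_left hpone hΔnn, mul_le_mul_of_nonneg_left hpone hδnn,
      mul_nonneg hδnn (by positivity : (0:ℝ) ≤ (p : ℝ) ^ (n * r1 * m))]
  · intro hc
    set A := (fix F r).filter (fun a => homEval e0 e1 r (DD r a) = (c : R)) with hA
    have hcnt : cnt (F := F) e0 e1 r (c : R) = A.card := by
      unfold cnt; congr
    have hfixr : ∀ i j, ((μ.coeff i).coeff j) ^ (Fintype.card F ^ r) = (μ.coeff i).coeff j := by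
      intro i j
      have := fix_mul (hfix i j) (2 * m)
      rwa [show r1 * (2 * m) = r by rw [hrdef]; ring] at this
    have hle : A.card ≤ (Δ * δ).natDegree := by
      refine hcardΔ (Δ * δ) (mul_ne_zero hΔ hδ) A fun a ha => ?_
      have h' := Finset.mem_filter.1 ha
      rw [eval_mul]
      by_contra hne
      have hΔa : Δ.eval a ≠ 0 := left_ne_zero_of_mul hne
      have hδa : δ.eval a ≠ 0 := right_ne_zero_of_mul hne
      have haQ : a ^ (Fintype.card F ^ r) = a := (mem_fix F hr).1 h'.1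
      -- a root
      have hmon : (μ.map (evalRingHom a)).Monic := hμ.map _
      have hdeg' : (μ.map (evalRingHom a)).degree ≠ 0 := by
        rw [degree_eq_natDegree hmon.ne_zero, hμ.natDegree_map, hdeg]
        exact_mod_cast hHcard.ne'
      obtain ⟨τ, hτ⟩ := IsAlgClosed.exists_root _ hdeg'
      have hτ0 : μ.evalEval a τ = 0 := by
        rw [← eval₂_evalRingHom, eval₂_eq_eval_map]
        exact hτ
      have hk := key b e0 e1 μ Δ G T h1 h2 hr h'.1 hΔa hτ0 h'.2
      have hfro := evalEval_frob μ hfixr haQ τ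
      rw [hτ0, zero_pow (pow_ne_zero _ Fintype.card_ne_zero), hk] at hfro
      exact h3 c hc a τ hΔa hδa hτ0 hfro
    rw [natDegree_mul hΔ hδ] at hle
    rw [hcnt]
    have : (A.card : ℝ) ≤ Δ.natDegree + δ.natDegree := by exact_mod_cast hle
    linarith


end Pool.Agent.H497.FF
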