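import Pool.Agent.H497.FF.TDefs
import Pool.Agent.H497.FF.A4

set_option autoImplicit false



namespace Pool.Agent.H497.FF

open Polynomial


noncomputable section

end

noncomputable section

end

/-! proved elsewhere (leave the `sorry`s) -/

theorem homog_isUnit {k A : Type} [Field k] [Ring A] [Algebra k A] (U V : A) (hUV : Commute U V)
    (f : ℕ → k) (r : ℕ) (h : ∀ i < r, IsUnit (U - f i • V)) :
    IsUnit (∑ j ∈ Finset.range (r + 1),
      (∏ i ∈ Finset.range r, (X - C (f i))).coeff j • (U ^ j * V ^ (r - j))) := by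
  induction r with
  | zero => simp
  | succ r ih =>
    have ih' := ih (fun i hi => h i (by omega))
    have h1 := (h r (by omega)).mul ih'
    obtain ⟨P, hP⟩ : ∃ P, P = ∏ i ∈ Finset.range r, (X - C (f i)) := ⟨_, rfl⟩
    have hPd : P.natDegree ≤ r := by
      rw [hP]
      refine (natDegree_prod_le _ _).trans ?_
      refine (Finset.sum_le_card_nsmul _ _ 1 (fun i _ => ?_)).trans ?_
      · exact (natDegree_X_sub_C _).le
      · simp
    rw [← hP] at h1
    rw [Finset.prod_range_succ, ← hP]
    refine (congrArg IsUnit ?_).mp h1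
    symm
    rw [mul_sub, sub_mul]
    have e1 : ∀ j, (P * X - P * C (f r)).coeff j • (U ^ j * V ^ (r + 1 - j)) =
        (P * X).coeff j • (U ^ j * V ^ (r + 1 - j)) -
          (P.coeff j * f r) • (U ^ j * V ^ (r + 1 - j)) := by
      intro j
      rw [coeff_sub, coeff_mul_C, sub_smul]
    rw [Finset.sum_congr rfl (fun j _ => e1 j), Finset.sum_sub_distrib]
    congr 1
    · rw [Finset.sum_range_succ', coeff_mul_X_zero, zero_smul, add_zero, Finset.mul_sum]
      refine Finset.sum_congr rfl fun j _ => ?_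
      rw [coeff_mul_X, Nat.add_sub_add_right, mul_smul_comm, pow_succ', mul_assoc]
    · rw [Finset.sum_range_succ, coeff_eq_zero_of_natDegree_lt (lt_of_le_of_lt hPd (Nat.lt_succ_self r)),
        zero_mul, zero_smul, add_zero, Finset.mul_sum]
      refine Finset.sum_congr rfl fun j hj => ?_
      have hj' : j ≤ r := by
        have := Finset.mem_range.1 hj
        omega
      have e2 : r + 1 - j = (r - j) + 1 := by omega
      rw [e2, pow_succ', smul_mul_assoc, mul_smul_comm, smul_smul, mul_comm (P.coeff j)]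
      congr 1
      rw [← mul_assoc, ← mul_assoc]
      congr 1
      exact (hUV.pow_left j)

theorem isUnit_of_det {F : Type} [Field F] {R : Type} [CommRing R] [Algebra F R] {N : ℕ}
    (b : Module.Basis (Fin N) F R) (c : R) (h : (Algebra.leftMulMatrix b c).det ≠ 0) :
    IsUnit c := by
  have h1 : IsUnit (LinearMap.det (Algebra.lmul F R c)) := by
    rw [← LinearMap.det_toMatrix b]
    exact isUnit_iff_ne_zero.2 h
  let e := LinearEquiv.ofIsUnitDet (f := Algebra.lmul F R c) (v := b) (v' := b) (by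
    rw [LinearMap.det_toMatrix]; exact h1)
  have h2 : c * e.symm 1 = 1 := by
    have h3 : e (e.symm 1) = 1 := e.apply_symm_apply 1
    have h4 : ∀ z, e z = c * z := fun z => rfl
    rw [h4] at h3
    exact h3
  exact IsUnit.of_mul_eq_one _ h2

theorem aeval_frob {F : Type} [Field F] [Fintype F] {k : Type} [Field k] [Algebra F k] (p : F[X])
    (a : k) (i : ℕ) : aeval (a ^ (Fintype.card F ^ i)) p = (aeval a p) ^ (Fintype.card F ^ i) := by
  induction i with
  | zero => simp
  | succ i ih =>
    have h1 : ∀ z : k, aeval (z ^ Fintype.card F) p = (aeval z p) ^ Fintype.card F := by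
      intro z
      rw [← expand_aeval, FiniteField.expand_card, map_pow]
    rw [pow_succ, pow_mul, pow_mul, h1, ih]

/-- only boundedly many `a` have non-unit norm. (`M(norm) = ∏_i (M(e0) - a^(q^i) M(e1))`, whose determinant is
`∏_i det(EX)(a^(q^i))`; `det EX` is a nonzero polynomial over `F`, so if it vanishes at `a^(q^i)` it vanishes at `a`.) -/
theorem nonunit_bound {F : Type} [Field F] [Fintype F] {R : Type} [CommRing R] [Algebra F R] {N : ℕ}
    (b : Module.Basis (Fin N) F R) (e0 e1 : R) (hdet : (EX b e0 e1).det ≠ 0) :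
    ∃ K : ℕ, ∀ r : ℕ, r ≠ 0 → ∀ S : Finset (AlgebraicClosure F), S ⊆ fix F r →
      (∀ a ∈ S, ¬ IsUnit (homEval e0 e1 r (DD r a))) → S.card ≤ K := by
  classical
  refine ⟨((EX b e0 e1).det.aroots (AlgebraicClosure F)).toFinset.card, ?_⟩
  intro r hr S hS hnu
  apply Finset.card_le_card
  intro a haS
  rw [Multiset.mem_toFinset, mem_aroots]
  refine ⟨hdet, ?_⟩
  by_contra hne
  apply hnu a haS
  apply isUnit_of_det b
  let ψ : R →+* Matrix (Fin N) (Fin N) (AlgebraicClosure F) :=
    ((algebraMap F (AlgebraicClosure F)).mapMatrix).comp (Algebra.leftMulMatrix b).toRingHom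
  have hψ : ∀ c : R, ψ c = (Algebra.leftMulMatrix b c).map (algebraMap F (AlgebraicClosure F)) :=
    fun c => rfl
  have hψF : ∀ z : F, ψ (algebraMap F R z) =
      algebraMap (AlgebraicClosure F) (Matrix (Fin N) (Fin N) (AlgebraicClosure F))
        (algebraMap F (AlgebraicClosure F) z) := by
    intro z
    rw [hψ, AlgHom.commutes]
    ext i j
    rw [Matrix.map_apply, Matrix.algebraMap_matrix_apply, Matrix.algebraMap_matrix_apply]
    split_ifs with h
    · rfl
    · exact map_zero _
  have hcomm : Commute (ψ e0) (ψ e1) := by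
    show ψ e0 * ψ e1 = ψ e1 * ψ e0
    rw [← map_mul, ← map_mul, mul_comm]
  have hU : IsUnit (ψ (homEval e0 e1 r (DD r a))) := by
    have h1 := homog_isUnit (ψ e0) (ψ e1) hcomm (fun i => a ^ (Fintype.card F ^ i)) r (by
      intro i _
      rw [Matrix.isUnit_iff_isUnit_det, isUnit_iff_ne_zero]
      have h2 : (ψ e0 - a ^ (Fintype.card F ^ i) • ψ e1) =
          (aeval (a ^ (Fintype.card F ^ i)) : F[X] →ₐ[F] AlgebraicClosure F).toRingHom.mapMatrix
            (EX b e0 e1) := by
        ext j l
        rw [hψ, hψ, RingHom.mapMatrix_apply, Matrix.map_apply, Matrix.sub_apply, Matrix.smul_apply,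
          Matrix.map_apply, Matrix.map_apply]
        show _ = aeval (a ^ (Fintype.card F ^ i)) (C (Algebra.leftMulMatrix b e0 j l) -
          C (Algebra.leftMulMatrix b e1 j l) * X)
        rw [map_sub, map_mul, aeval_C, aeval_C, aeval_X, smul_eq_mul, mul_comm]
      rw [h2, ← RingHom.map_det]
      show aeval (a ^ (Fintype.card F ^ i)) (EX b e0 e1).det ≠ 0
      rw [aeval_frob]
      exact pow_ne_zero _ hne)
    refine (congrArg IsUnit ?_).mp h1
    symm
    unfold homEval
    rw [map_sum]
    refine Finset.sum_congr rfl fun j _ => ?_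
    rw [map_mul, map_mul, map_pow, map_pow, hψF, ← map_DD hr (hS haS), coeff_map,
      Algebra.smul_def, mul_assoc]
  rw [Matrix.isUnit_iff_isUnit_det, isUnit_iff_ne_zero] at hU
  intro h0
  apply hU
  rw [hψ]
  have := RingHom.map_det (algebraMap F (AlgebraicClosure F))
    (Algebra.leftMulMatrix b (homEval e0 e1 r (DD r a)))
  rw [h0, map_zero] at this
  exact this.symm

/-- from the upper bounds to the asymptotic count (all the counts sum to `q^r - O(1)`). -/
theorem torsor_count {F : Type} [Field F] [Fintype F] {R : Type} [CommRing R] [Algebra F R] {N : ℕ}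
    (b : Module.Basis (Fin N) F R) (e0 e1 : R) (hdet : (EX b e0 e1).det ≠ 0)
    (h : ∃ (H : Subgroup Rˣ) (r0 : ℕ) (K : ℝ), 0 < r0 ∧ 0 ≤ K ∧ ∀ r : ℕ, r ≠ 0 → r0 ∣ r → ∀ c : Rˣ,
      (c ∈ H → (cnt (F := F) e0 e1 r (c : R) : ℝ) ≤
        (Fintype.card F : ℝ) ^ r / Nat.card H + K * √(Fintype.card F : ℝ) ^ r) ∧
      (c ∉ H → (cnt (F := F) e0 e1 r (c : R) : ℝ) ≤ K)) :
    ∃ (H : Subgroup Rˣ) (r0 : ℕ) (K : ℝ), 0 < r0 ∧ 0 ≤ K ∧ ∀ r : ℕ, r ≠ 0 → r0 ∣ r →
      (∀ c : Rˣ, c ∈ H → |(cnt (F := F) e0 e1 r (c : R) : ℝ) - (Fintype.card F : ℝ) ^ r / Nat.card H| ≤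
        K * √(Fintype.card F : ℝ) ^ r) ∧
      (∀ c : R, (∀ u : Rˣ, (u : R) = c → u ∉ H) → (cnt (F := F) e0 e1 r c : ℝ) ≤ K) := by
  classical
  have hfin : Module.Finite F R := Module.Finite.of_basis b
  have hfinR : Finite R := Module.finite_of_finite F
  let _ : Fintype Rˣ := Fintype.ofFinite _
  obtain ⟨H, r0, K, hr0, hK, hb⟩ := h
  obtain ⟨K0, hK0⟩ := nonunit_bound b e0 e1 hdet
  refine ⟨H, r0, K0 + K + Fintype.card Rˣ * K, hr0, by positivity, ?_⟩
  intro r hr hr0r
  have hq1 : (1 : ℝ) ≤ √(Fintype.card F : ℝ) ^ r := by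
    apply one_le_pow₀
    rw [Real.one_le_sqrt]
    exact_mod_cast Fintype.card_pos
  have hnon : ∀ S : Finset (AlgebraicClosure F), S ⊆ fix F r →
      (∀ a ∈ S, ¬ IsUnit (homEval e0 e1 r (DD r a))) → (S.card : ℝ) ≤ K0 := by
    intro S hS hS'
    exact_mod_cast hK0 r hr S hS hS'
  have hHpos : 0 < Nat.card H := Nat.card_pos
  refine ⟨?_, ?_⟩
  · intro c hc
    have hup := (hb r hr hr0r c).1 hc
    have hlow : (Fintype.card F : ℝ) ^ r ≤ K0 + ∑ u : Rˣ, (cnt (F := F) e0 e1 r (u : R) : ℝ) := by
      have h1 : fix F r ⊆ (fix F r).filter (fun a => ¬ IsUnit (homEval e0 e1 r (DD r a))) ∪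
          (Finset.univ : Finset Rˣ).biUnion
            (fun u => (fix F r).filter (fun a => homEval e0 e1 r (DD r a) = (u : R))) := by
        intro a ha
        rw [Finset.mem_union]
        by_cases hu : IsUnit (homEval e0 e1 r (DD r a))
        · right
          obtain ⟨u, hu⟩ := hu
          exact Finset.mem_biUnion.2 ⟨u, Finset.mem_univ _, Finset.mem_filter.2 ⟨ha, hu.symm⟩⟩
        · left
          exact Finset.mem_filter.2 ⟨ha, hu⟩
      have h2 := (Finset.card_le_card h1).trans (Finset.card_union_le _ _)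
      have h3 := Finset.card_biUnion_le (s := (Finset.univ : Finset Rˣ))
        (t := fun u => (fix F r).filter (fun a => homEval e0 e1 r (DD r a) = (u : R)))
      rw [card_fix hr] at h2
      have h4 := hnon _ (Finset.filter_subset (fun a => ¬ IsUnit (homEval e0 e1 r (DD r a))) (fix F r))
        (fun a ha => (Finset.mem_filter.1 ha).2)
      have h5 : ((Fintype.card F ^ r : ℕ) : ℝ) ≤
          (((fix F r).filter (fun a => ¬ IsUnit (homEval e0 e1 r (DD r a)))).card : ℝ) +
          ((∑ u : Rˣ, ((fix F r).filter (fun a => homEval e0 e1 r (DD r a) = (u : R))).card : ℕ) : ℝ) := by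
        exact_mod_cast h2.trans (Nat.add_le_add_left h3 _)
      push_cast at h5
      have h6 : ∀ u : Rˣ, (cnt (F := F) e0 e1 r (u : R) : ℝ) =
          (((fix F r).filter (fun a => homEval e0 e1 r (DD r a) = (u : R))).card : ℝ) := by
        intro u
        rfl
      rw [Finset.sum_congr rfl (fun u _ => h6 u)]
      linarith
    have hsum : ∑ u : Rˣ, (cnt (F := F) e0 e1 r (u : R) : ℝ) ≤
        (cnt (F := F) e0 e1 r (c : R) : ℝ) +
          ∑ u ∈ (Finset.univ : Finset Rˣ).erase c,
            ((if u ∈ H then (Fintype.card F : ℝ) ^ r / Nat.card H else 0) +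
              K * √(Fintype.card F : ℝ) ^ r) := by
      rw [← Finset.add_sum_erase _ _ (Finset.mem_univ c)]
      gcongr with u hu
      split_ifs with hu
      · exact (hb r hr hr0r u).1 hu
      · refine ((hb r hr hr0r u).2 hu).trans ?_
        rw [zero_add]
        nlinarith
    rw [Finset.sum_add_distrib, Finset.sum_const, Finset.sum_ite, Finset.sum_const_zero, add_zero,
      Finset.sum_const] at hsum
    have hcardH : ((Finset.univ.erase c).filter (fun u => u ∈ H)).card = Nat.card H - 1 := by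
      rw [Finset.filter_erase, Finset.card_erase_of_mem (Finset.mem_filter.2 ⟨Finset.mem_univ _, hc⟩),
        Nat.card_eq_fintype_card, Fintype.card_subtype]
    rw [hcardH, nsmul_eq_mul, nsmul_eq_mul, Nat.cast_sub hHpos, Nat.cast_one] at hsum
    have hce : ((Finset.univ.erase c).card : ℝ) ≤ Fintype.card Rˣ := by
      exact_mod_cast Finset.card_le_univ _
    have hH0 : (Nat.card H : ℝ) ≠ 0 := by exact_mod_cast hHpos.ne'
    have e1 : ((Nat.card H : ℝ) - 1) * ((Fintype.card F : ℝ) ^ r / Nat.card H) =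
        (Fintype.card F : ℝ) ^ r - (Fintype.card F : ℝ) ^ r / Nat.card H := by
      field_simp
    rw [e1] at hsum
    have hKs : 0 ≤ K * √(Fintype.card F : ℝ) ^ r := by positivity
    have h7 : ((Finset.univ.erase c).card : ℝ) * (K * √(Fintype.card F : ℝ) ^ r) ≤
        Fintype.card Rˣ * (K * √(Fintype.card F : ℝ) ^ r) := mul_le_mul_of_nonneg_right hce hKs
    have h8 : (K0 : ℝ) ≤ K0 * √(Fintype.card F : ℝ) ^ r := by
      have : (0 : ℝ) ≤ K0 := Nat.cast_nonneg _
      nlinarith
    have h9 : 0 ≤ (Fintype.card Rˣ : ℝ) * (K * √(Fintype.card F : ℝ) ^ r) := by positivity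
    have h10 : (0 : ℝ) ≤ K0 := Nat.cast_nonneg _
    rw [abs_le]
    constructor
    · nlinarith
    · nlinarith
  · intro c hc
    have h10 : (0 : ℝ) ≤ K0 := Nat.cast_nonneg _
    have h11 : 0 ≤ (Fintype.card Rˣ : ℝ) * K := by positivity
    by_cases hu : IsUnit c
    · obtain ⟨u, rfl⟩ := hu
      have := (hb r hr hr0r u).2 (hc u rfl)
      linarith
    · have h4 := hnon ((fix F r).filter (fun a => homEval e0 e1 r (DD r a) = c))
        (Finset.filter_subset _ _)
        (fun a ha => by rw [(Finset.mem_filter.1 ha).2]; exact hu)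
      have h6 : (cnt (F := F) e0 e1 r c : ℝ) =
          (((fix F r).filter (fun a => homEval e0 e1 r (DD r a) = c)).card : ℝ) := by
        rfl
      rw [h6]
      linarith

end Pool.Agent.H497.FF
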