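import Pool.Agent.H497.FF.B3
import Pool.Agent.H497.FF.B4
import Pool.Agent.H497.FF.B5a
import Pool.Agent.H497.FF.B5b

set_option autoImplicit false

namespace Pool.Agent.H497.FF

/-- asymptotic count of the points of the Lang torsor -/
theorem torsor_count_all {F : Type} [Field F] [Fintype F] {R : Type} [CommRing R] [Algebra F R] {N : ℕ}
    (b : Module.Basis (Fin N) F R) (e0 e1 : R) (hdet : (EX b e0 e1).det ≠ 0) :
    ∃ (H : Subgroup Rˣ) (r0 : ℕ) (K : ℝ), 0 < r0 ∧ 0 ≤ K ∧ ∀ r : ℕ, r ≠ 0 → r0 ∣ r →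
      (∀ c : Rˣ, c ∈ H → |(cnt (F := F) e0 e1 r (c : R) : ℝ) - (Fintype.card F : ℝ) ^ r / Nat.card H| ≤
        K * √(Fintype.card F : ℝ) ^ r) ∧
      (∀ c : R, (∀ u : Rˣ, (u : R) = c → u ∉ H) → (cnt (F := F) e0 e1 r c : ℝ) ≤ K) :=
  torsor_count b e0 e1 hdet (upper_bounds b e0 e1 (torsor_data b e0 e1 hdet) as_bound)

end Pool.Agent.H497.FF
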