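import Pool.Agent.H497.FF.A1
import Pool.Agent.H497.FF.A2
import Pool.Agent.H497.FF.A2b
import Pool.Agent.H497.FF.A6
import Pool.Agent.H497.FF.B5

set_option autoImplicit false



namespace Pool.Agent.H497.FF

open Polynomial


/-! proved elsewhere (leave the `sorry`s) -/

/-! ## To prove -/

theorem dvd_sub_iff_mod {F : Type} [Field F] {f D E : F[X]} (hf : f.Monic) :
    f ∣ D - E ↔ D %ₘ f = E %ₘ f := by
  rw [← modByMonic_eq_zero_iff_dvd hf, sub_modByMonic, sub_eq_zero]

theorem norm_le_one {F : Type} [Field F] [Fintype F] {f : F[X]} {m : ℕ} {ψ : F[X] → ℂ}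
    (h : IsHecke f m ψ) (D : F[X]) : ‖ψ D‖ ≤ 1 := by
  classical
  by_cases hD : D.Monic
  swap
  · rw [h.zero D hD]; simp
  by_cases h0 : ψ D = 0
  · rw [h0]; simp
  have hpow : ∀ k : ℕ, ψ (D ^ k) = ψ D ^ k := by
    intro k
    induction k with
    | zero => simp [h.one]
    | succ k ih => rw [pow_succ, h.mul _ _ (hD.pow k) hD, ih, pow_succ]
  -- pigeonhole
  let c : ℕ → (degreeLT F f.natDegree) × (degreeLT F m) := fun k =>
    (⟨D ^ k %ₘ f, by
        rw [mem_degreeLT]
        refine lt_of_lt_of_le (degree_modByMonic_lt _ h.monic) ?_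
        exact degree_le_natDegree⟩,
      ⟨(D ^ k).reverse %ₘ (X ^ m), by
        rw [mem_degreeLT]
        refine lt_of_lt_of_le (degree_modByMonic_lt _ (monic_X_pow m)) ?_
        exact degree_X_pow_le m⟩)
  have hfin1 : ∀ n : ℕ, Finite (degreeLT F n) := fun n =>
    Finite.of_injective (degreeLTEquiv F n) (degreeLTEquiv F n).injective
  haveI := hfin1 f.natDegree
  haveI := hfin1 m
  obtain ⟨i, j, hij, hc⟩ := Finite.exists_ne_map_eq_of_infinite c
  have h1 : ψ (D ^ i) = ψ (D ^ j) := by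
    have hc1 := congrArg (fun x => (x.1 : F[X])) hc
    have hc2 := congrArg (fun x => (x.2 : F[X])) hc
    exact h.cong _ _ (hD.pow i) (hD.pow j) ((dvd_sub_iff_mod h.monic).mpr hc1)
      ((dvd_sub_iff_mod (monic_X_pow m)).mpr hc2)
  rw [hpow, hpow] at h1
  have h2 : ∀ i j : ℕ, i < j → ψ D ^ i = ψ D ^ j → ‖ψ D‖ ≤ 1 := by
    intro i j hij h1
    obtain ⟨k, rfl⟩ := Nat.exists_eq_add_of_lt hij
    have h3 : ψ D ^ i * (ψ D ^ (k + 1) - 1) = 0 := by
      rw [mul_sub, mul_one, ← pow_add, ← add_assoc, ← h1, sub_self]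
    rcases mul_eq_zero.mp h3 with h4 | h4
    · exact absurd h4 (pow_ne_zero i h0)
    · have h5 : ‖ψ D‖ ^ (k + 1) = 1 := by
        rw [← norm_pow, sub_eq_zero.mp h4, norm_one]
      exact ((pow_eq_one_iff_of_nonneg (norm_nonneg _) (by omega)).mp h5).le
  rcases lt_or_gt_of_ne hij with h3 | h3
  · exact h2 i j h3 h1
  · exact h2 j i h3 h1.symm

open Classical in
/-- the function on `R` induced by `ψ` -/
noncomputable def psiT {F : Type} [Field F] {R : Type} [CommRing R] [Algebra F R] (e0 e1 : R)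
    (ψ : F[X] → ℂ) (c : R) : ℂ :=
  if h : ∃ D : F[X], D.Monic ∧ homEval e0 e1 D.natDegree D = c then ψ h.choose else 0

theorem psiT_eq {F : Type} [Field F] [Fintype F] {f : F[X]} {m : ℕ} {ψ : F[X] → ℂ}
    (h : IsHecke f m ψ) {R : Type} [CommRing R] [Algebra F R] (e0 e1 : R)
    (P3 : ∀ (r s : ℕ) (D E : F[X]), D.natDegree = r → E.natDegree = s →
        (homEval e0 e1 r D = homEval e0 e1 s E ↔ f ∣ D - E ∧ X ^ m ∣ D.reverse - E.reverse))
    (D : F[X]) (hD : D.Monic) (r : ℕ) (hr : D.natDegree = r) :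
    psiT e0 e1 ψ (homEval e0 e1 r D) = ψ D := by
  classical
  subst hr
  have hex : ∃ E : F[X], E.Monic ∧ homEval e0 e1 E.natDegree E = homEval e0 e1 D.natDegree D := ⟨D, hD, rfl⟩
  unfold psiT
  rw [dif_pos hex]
  obtain ⟨h1, h2⟩ := hex.choose_spec
  obtain ⟨h3, h4⟩ := (P3 _ _ _ _ rfl rfl).mp h2
  exact h.cong _ _ h1 hD h3 h4

theorem psiT_norm {F : Type} [Field F] [Fintype F] {f : F[X]} {m : ℕ} {ψ : F[X] → ℂ}
    (h : IsHecke f m ψ) {R : Type} [CommRing R] [Algebra F R] (e0 e1 : R) (c : R) :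
    ‖psiT e0 e1 ψ c‖ ≤ 1 := by
  unfold psiT
  split_ifs with hc
  · exact norm_le_one h _
  · simp

theorem TT_eq_psiT {F : Type} [Field F] [Fintype F] {f : F[X]} {m : ℕ} {ψ : F[X] → ℂ}
    (h : IsHecke f m ψ) {R : Type} [CommRing R] [Algebra F R] [Fintype R] (e0 e1 : R)
    (P3 : ∀ (r s : ℕ) (D E : F[X]), D.natDegree = r → E.natDegree = s →
        (homEval e0 e1 r D = homEval e0 e1 s E ↔ f ∣ D - E ∧ X ^ m ∣ D.reverse - E.reverse))
    {r : ℕ} (hr : r ≠ 0) :
    TT ψ r = ∑ c : R, (cnt (F := F) e0 e1 r c : ℂ) * psiT e0 e1 ψ c := by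
  classical
  rw [TT_eq_sum_fix ψ h.one h.mul hr, ← Finset.sum_fiberwise (fix F r) (fun a => homEval e0 e1 r (DD r a))]
  refine Finset.sum_congr rfl fun c _ => ?_
  have h1 : ∀ a ∈ (fix F r).filter (fun a => homEval e0 e1 r (DD r a) = c), ψ (DD r a) = psiT e0 e1 ψ c := by
    intro a ha
    rw [Finset.mem_filter] at ha
    obtain ⟨h2, h3⟩ := (mem_mon F).mp (DD_mon hr ha.1)
    rw [← ha.2, psiT_eq h e0 e1 P3 _ h2 r h3]
  rw [Finset.sum_congr rfl h1, Finset.sum_const, nsmul_eq_mul]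
  unfold cnt
  congr

/-- The Riemann hypothesis for the Hecke characters of `F(t)`, as a bound for the power sums.

`T_r(ψ) = ∑_{a ∈ F_{q^r}} ψ(DD r a)` (`TT_eq_sum_fix`) `= ∑_c (cnt c) ψ~(c)` over `c ∈ R`, where `ψ~(c) = ψ(D)` for any
monic `D` with `homEval D = c`. Using the torsor count for `R` from `ring_data`: for `r` a multiple of `r0`,
`T_r(ψ) = (q^r/|H|) ∑_{c ∈ H} ψ~(c) + O(√q^r)`. For `r` large every `c ∈ H` is a norm (`cnt > 0`), so `ψ~` is defined
and multiplicative on `H`, hence `∑_{c ∈ H} ψ~(c)` is `0` or `|H|`. By `newton`, `sum_mon_eq_zero`,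
`zeros_of_newton` (with `M = deg f + m`): `T_r = -∑ ω_i^r`. The second case (sum `= |H|`) is impossible:
`q^r + ∑_i ω_i^r = O(√q^r)` for all multiples `r` of `r0` contradicts `power_sum_bound` (apply it to the `M + 1` numbers
`ω_i^r0, q^r0`, adjusting the constant for the finitely many small multiples). In the first case `power_sum_bound`
gives `|ω_i| ≤ √q`. -/
theorem TT_bound {F : Type} [Field F] [Fintype F] {f : F[X]} {m : ℕ} {ψ : F[X] → ℂ}
    (h : IsHecke f m ψ) (hn : Nontriv ψ) {r : ℕ} (hr : r ≠ 0) :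
    ‖TT ψ r‖ ≤ ((f.natDegree : ℝ) + m) * √(Fintype.card F : ℝ) ^ r := by
  classical
  obtain ⟨R, iR, iA, N, b, e0, e1, hdet, P2, P3, P4, P5, P6⟩ := ring_data f h.monic m
  haveI : Finite R := Finite.of_injective b.equivFun b.equivFun.injective
  haveI : Fintype R := Fintype.ofFinite R
  haveI : Finite Rˣ := inferInstance
  haveI : Fintype Rˣ := Fintype.ofFinite _
  obtain ⟨H, r0, K, hr0, hK, hcnt⟩ := torsor_count_all b e0 e1 hdet
  set q : ℝ := (Fintype.card F : ℝ) with hq
  have hq2 : (2 : ℝ) ≤ q := by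
    rw [hq]
    have : 1 < Fintype.card F := Fintype.one_lt_card
    exact_mod_cast this
  have hsq1 : 1 < √q := by
    rw [Real.lt_sqrt (by norm_num)]; linarith
  have hsq : √q * √q = q := Real.mul_self_sqrt (by linarith)
  have hHpos : (0 : ℝ) < Nat.card H := by
    have : 0 < Nat.card H := Nat.card_pos
    exact_mod_cast this
  set g : R → ℂ := psiT e0 e1 ψ with hg
  -- the zeros
  obtain ⟨ω, hω⟩ := zeros_of_newton (fun k => ∑ D ∈ mon F k, ψ D) (TT ψ) (f.natDegree + m)
    (by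
      have : mon F 0 = {1} := by
        ext D
        rw [mem_mon, Finset.mem_singleton]
        constructor
        · rintro ⟨h1, h2⟩
          exact h1.natDegree_eq_zero.mp h2
        · rintro rfl
          exact ⟨monic_one, natDegree_one⟩
      simp only [this, Finset.sum_singleton, h.one])
    (fun k hk => sum_mon_eq_zero h hn k hk)
    (fun k => newton ψ h.one h.mul k)
  -- the sum over `H`
  set HF : Finset R := Finset.univ.filter (fun c : R => ∃ u : Rˣ, u ∈ H ∧ (u : R) = c) with hHF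
  have hHFcard : HF.card = Nat.card H := by
    have h1 : HF = (Finset.univ.filter (fun u : Rˣ => u ∈ H)).image (fun u : Rˣ => (u : R)) := by
      ext c
      simp [hHF]
    rw [h1, Finset.card_image_of_injective _ Units.val_injective]
    rw [Nat.card_eq_fintype_card, Fintype.card_subtype]
    
  set S : ℂ := ∑ c ∈ HF, g c with hS
  set K' : ℝ := 2 * Fintype.card R * K with hK'
  have hasymp : ∀ r : ℕ, r ≠ 0 → r0 ∣ r → ‖TT ψ r - (q ^ r / Nat.card H : ℝ) * S‖ ≤ K' * √q ^ r := by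
    intro r hr hd
    obtain ⟨hc1, hc2⟩ := hcnt r hr hd
    have hpow1 : 1 ≤ √q ^ r := one_le_pow₀ hsq1.le
    rw [TT_eq_psiT h e0 e1 P3 hr]
    have h1 : ∑ c : R, (cnt (F := F) e0 e1 r c : ℂ) * psiT e0 e1 ψ c - (q ^ r / Nat.card H : ℝ) * S =
        ∑ c ∈ HF, ((cnt (F := F) e0 e1 r c : ℝ) - q ^ r / Nat.card H : ℝ) * g c +
        ∑ c ∈ HFᶜ, (cnt (F := F) e0 e1 r c : ℂ) * g c := by
      rw [← Finset.sum_add_sum_compl HF, hS, Finset.mul_sum]
      have : ∑ c ∈ HF, (((cnt (F := F) e0 e1 r c : ℝ) - q ^ r / Nat.card H : ℝ) : ℂ) * g c =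
          ∑ c ∈ HF, (cnt (F := F) e0 e1 r c : ℂ) * g c - ∑ c ∈ HF, ((q ^ r / Nat.card H : ℝ) : ℂ) * g c := by
        rw [← Finset.sum_sub_distrib]
        refine Finset.sum_congr rfl fun c _ => ?_
        push_cast
        ring
      rw [this]
      ring
    rw [h1]
    have h2 : ‖∑ c ∈ HF, (((cnt (F := F) e0 e1 r c : ℝ) - q ^ r / Nat.card H : ℝ) : ℂ) * g c‖ ≤
        Fintype.card R * (K * √q ^ r) := by
      refine (norm_sum_le _ _).trans ?_
      have : ∀ c ∈ HF, ‖(((cnt (F := F) e0 e1 r c : ℝ) - q ^ r / Nat.card H : ℝ) : ℂ) * g c‖ ≤ K * √q ^ r := by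
        intro c hc
        rw [hHF, Finset.mem_filter] at hc
        obtain ⟨-, u, hu, rfl⟩ := hc
        rw [norm_mul, Complex.norm_real, Real.norm_eq_abs]
        have h3 := hc1 u hu
        have h4 : ‖g (u : R)‖ ≤ 1 := psiT_norm h e0 e1 _
        calc _ ≤ (K * √q ^ r) * 1 := mul_le_mul h3 h4 (norm_nonneg _) (by positivity)
          _ = _ := mul_one _
      refine (Finset.sum_le_sum this).trans ?_
      rw [Finset.sum_const, nsmul_eq_mul]
      refine mul_le_mul_of_nonneg_right ?_ (by positivity)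
      exact_mod_cast Finset.card_le_univ HF
    have h3 : ‖∑ c ∈ HFᶜ, (cnt (F := F) e0 e1 r c : ℂ) * g c‖ ≤ Fintype.card R * (K * √q ^ r) := by
      refine (norm_sum_le _ _).trans ?_
      have : ∀ c ∈ HFᶜ, ‖(cnt (F := F) e0 e1 r c : ℂ) * g c‖ ≤ K * √q ^ r := by
        intro c hc
        rw [Finset.mem_compl, hHF, Finset.mem_filter] at hc
        push Not at hc
        have h5 := hc2 c (fun u hu hu2 => hc (Finset.mem_univ _) u hu2 hu)
        rw [norm_mul, Complex.norm_natCast]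
        have h4 : ‖g c‖ ≤ 1 := psiT_norm h e0 e1 _
        calc _ ≤ K * 1 := mul_le_mul h5 h4 (norm_nonneg _) hK
          _ ≤ _ := mul_le_mul_of_nonneg_left hpow1 hK
      refine (Finset.sum_le_sum this).trans ?_
      rw [Finset.sum_const, nsmul_eq_mul]
      refine mul_le_mul_of_nonneg_right ?_ (by positivity)
      exact_mod_cast Finset.card_le_univ _
    refine (norm_add_le _ _).trans ?_
    rw [hK']
    linarith
  -- all elements of `H` are norms for large `r`
  have hnorm : ∀ u : Rˣ, u ∈ H → ∃ D : F[X], D.Monic ∧ homEval e0 e1 D.natDegree D = (u : R) := by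
    -- choose `r` large
    obtain ⟨j, hj⟩ := pow_unbounded_of_one_lt ((K + 1) * Nat.card H) hsq1
    have hr1 : r0 * (j + 1) ≠ 0 := by positivity
    obtain ⟨hc1, -⟩ := hcnt (r0 * (j + 1)) hr1 (dvd_mul_right _ _)
    intro u hu
    have h3 := hc1 u hu
    have h4 : (K + 1) * Nat.card H < √q ^ (r0 * (j + 1)) := by
      refine lt_of_lt_of_le hj (pow_le_pow_right₀ hsq1.le ?_)
      nlinarith
    set P := √q ^ (r0 * (j + 1)) with hP
    have hP0 : 0 < P := by positivity
    have hqP : q ^ (r0 * (j + 1)) = P * P := by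
      rw [hP, ← mul_pow, hsq]
    rw [hqP] at h3
    have h5 : K * P < P * P / Nat.card H := by
      rw [lt_div_iff₀ hHpos]
      nlinarith
    have h6 : 0 < (cnt (F := F) e0 e1 (r0 * (j + 1)) (u : R) : ℝ) := by
      have := (abs_le.mp h3).1
      linarith
    have h7 : 0 < cnt (F := F) e0 e1 (r0 * (j + 1)) (u : R) := by exact_mod_cast h6
    unfold cnt at h7
    obtain ⟨a, ha⟩ := Finset.card_pos.mp h7
    rw [Finset.mem_filter] at ha
    obtain ⟨h8, h9⟩ := (mem_mon F).mp (DD_mon hr1 ha.1)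
    exact ⟨_, h8, by rw [h9]; exact ha.2⟩
  have hgmul : ∀ u v : Rˣ, u ∈ H → v ∈ H → g ((u : R) * (v : R)) = g (u : R) * g (v : R) := by
    intro u v hu hv
    obtain ⟨D, hD, hD2⟩ := hnorm u hu
    obtain ⟨E, hE, hE2⟩ := hnorm v hv
    rw [← hD2, ← hE2, ← P4 _ _ D E hD hE rfl rfl, hg, psiT_eq h e0 e1 P3 _ hD _ rfl, psiT_eq h e0 e1 P3 _ hE _ rfl,
      psiT_eq h e0 e1 P3 _ (hD.mul hE) _ (hD.natDegree_mul hE), h.mul _ _ hD hE]
  -- dichotomy
  have hdich : S = 0 ∨ S = Nat.card H := by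
    by_cases hone : ∀ u : Rˣ, u ∈ H → g (u : R) = 1
    · right
      rw [hS]
      have : ∀ c ∈ HF, g c = 1 := by
        intro c hc
        rw [hHF, Finset.mem_filter] at hc
        obtain ⟨-, u, hu, rfl⟩ := hc
        exact hone u hu
      rw [Finset.sum_congr rfl this, Finset.sum_const, nsmul_eq_mul, mul_one, hHFcard]
    · left
      push Not at hone
      obtain ⟨u, hu, hu1⟩ := hone
      have h1 : g (u : R) * S = S := by
        rw [hS, Finset.mul_sum]
        refine Finset.sum_bij (fun c _ => (u : R) * c) ?_ ?_ ?_ ?_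
        · intro c hc
          rw [hHF, Finset.mem_filter] at hc ⊢
          obtain ⟨-, v, hv, rfl⟩ := hc
          exact ⟨Finset.mem_univ _, u * v, H.mul_mem hu hv, by simp⟩
        · intro c _ d _ hcd
          exact (Units.mul_right_inj u).mp hcd
        · intro c hc
          rw [hHF, Finset.mem_filter] at hc
          obtain ⟨-, v, hv, rfl⟩ := hc
          refine ⟨((u⁻¹ * v : Rˣ) : R), ?_, ?_⟩
          · rw [hHF, Finset.mem_filter]
            exact ⟨Finset.mem_univ _, _, H.mul_mem (H.inv_mem hu) hv, rfl⟩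
          · rw [← Units.val_mul]; simp
        · intro c hc
          rw [hHF, Finset.mem_filter] at hc
          obtain ⟨-, v, hv, rfl⟩ := hc
          exact (hgmul u v hu hv).symm
      have h2 : (g (u : R) - 1) * S = 0 := by rw [sub_mul, h1, one_mul, sub_self]
      rcases mul_eq_zero.mp h2 with h3 | h3
      · exact absurd (sub_eq_zero.mp h3) hu1
      · exact h3
  have hB : 0 < √q ^ r0 := by positivity
  rcases hdich with hS0 | hS1
  · -- the good case
    have hωb : ∀ i, ‖ω i‖ ≤ √q := by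
      intro i
      have h1 : ‖(fun i => ω i ^ r0) i‖ ≤ √q ^ r0 := by
        refine power_sum_bound (fun i => ω i ^ r0) K' (√q ^ r0) hB ?_ i
        intro j hj
        have h2 := hasymp (r0 * j) (by positivity) (dvd_mul_right _ _)
        rw [hS0, mul_zero, sub_zero, hω (r0 * j) (by nlinarith [Nat.one_le_iff_ne_zero.mpr hr0.ne']), norm_neg] at h2
        simp only [← pow_mul]
        exact h2
      simp only [norm_pow] at h1
      exact (pow_le_pow_iff_left₀ (norm_nonneg _) (by positivity) hr0.ne').mp h1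
    rw [hω r (Nat.one_le_iff_ne_zero.mpr hr), norm_neg]
    refine (norm_sum_le _ _).trans ?_
    have : ∀ i ∈ Finset.univ, ‖ω i ^ r‖ ≤ √q ^ r := by
      intro i _
      rw [norm_pow]
      exact pow_le_pow_left₀ (norm_nonneg _) (hωb i) r
    refine (Finset.sum_le_sum this).trans ?_
    rw [Finset.sum_const, nsmul_eq_mul, Finset.card_univ, Fintype.card_fin]
    push_cast
    exact le_rfl
  · -- the impossible case
    exfalso
    have h1 : ‖(Fin.cons ((q : ℂ) ^ r0) (fun i => ω i ^ r0) : Fin (f.natDegree + m + 1) → ℂ) 0‖ ≤ √q ^ r0 := by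
      refine power_sum_bound _ K' (√q ^ r0) hB ?_ 0
      intro j hj
      have h2 := hasymp (r0 * j) (by positivity) (dvd_mul_right _ _)
      rw [hS1, hω (r0 * j) (by nlinarith [Nat.one_le_iff_ne_zero.mpr hr0.ne'])] at h2
      rw [Fin.sum_univ_succ]
      simp only [Fin.cons_zero, Fin.cons_succ, ← pow_mul]
      have h3 : - ∑ i, ω i ^ (r0 * j) - ((q ^ (r0 * j) / Nat.card H : ℝ) : ℂ) * (Nat.card H : ℂ) =
          - ((q : ℂ) ^ (r0 * j) + ∑ i, ω i ^ (r0 * j)) := by
        have h4 : ((q ^ (r0 * j) / Nat.card H : ℝ) : ℂ) * (Nat.card H : ℂ) = (q : ℂ) ^ (r0 * j) := by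
          have h5 : q ^ (r0 * j) / (Nat.card H : ℝ) * (Nat.card H : ℝ) = q ^ (r0 * j) :=
            div_mul_cancel₀ _ hHpos.ne'
          have h6 := congrArg (fun x : ℝ => (x : ℂ)) h5
          push_cast at h6 ⊢
          exact h6
        rw [h4]
        ring
      rw [h3, norm_neg] at h2
      exact h2
    rw [Fin.cons_zero, norm_pow, Complex.norm_real, Real.norm_of_nonneg (by linarith)] at h1
    have h2 : q ≤ √q := (pow_le_pow_iff_left₀ (by linarith) (by positivity) hr0.ne').mp h1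
    nlinarith

end Pool.Agent.H497.FF
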