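import Mathlib

set_option autoImplicit false

open Polynomial

namespace Pool.Agent.H497.FF

open Polynomial

/-- auxiliary polynomials -/
noncomputable def langX {Ω : Type} [Field Ω] (q : ℕ) (a : ℕ → Ω) : ℕ → Polynomial Ω
  | 0 => C (a 0) * X ^ q
  | (i + 1) => langX q a i ^ q + C (a (i + 1)) * X ^ q

theorem langX_zero {Ω : Type} [Field Ω] (q : ℕ) (a : ℕ → Ω) : langX q a 0 = C (a 0) * X ^ q := rfl

theorem langX_succ {Ω : Type} [Field Ω] (q : ℕ) (a : ℕ → Ω) (i : ℕ) :
    langX q a (i + 1) = langX q a i ^ q + C (a (i + 1)) * X ^ q := rfl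

theorem langX_derivative {Ω : Type} [Field Ω] (q : ℕ) (hq : (q : Ω) = 0) (a : ℕ → Ω) (i : ℕ) :
    derivative (langX q a i) = 0 := by
  cases i with
  | zero => rw [langX_zero]; simp [derivative_pow, hq]
  | succ i => rw [langX_succ]; simp [derivative_pow, hq]

theorem langX_X_dvd {Ω : Type} [Field Ω] (q : ℕ) (hq0 : q ≠ 0) (a : ℕ → Ω) (i : ℕ) :
    (X : Polynomial Ω) ∣ langX q a i := by
  induction i with
  | zero => rw [langX_zero]; exact Dvd.dvd.mul_left (dvd_pow_self _ hq0) _
  | succ i ih =>
    rw [langX_succ]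
    exact dvd_add (dvd_pow ih hq0) (Dvd.dvd.mul_left (dvd_pow_self _ hq0) _)

theorem langX_natDegree {Ω : Type} [Field Ω] (q : ℕ) (hq : 1 < q) (a : ℕ → Ω) (i j : ℕ) (hj : a j ≠ 0) (hji : j ≤ i) :
    q ≤ (langX q a i).natDegree := by
  have key : ∀ i, (langX q a i ≠ 0 → q ≤ (langX q a i).natDegree) ∧
      (langX q a i ≠ 0 → langX q a (i + 1) ≠ 0) ∧ (langX q a i = 0 → a i = 0) := by
    intro i
    induction i with
    | zero =>
      have h1 : langX q a 0 ≠ 0 → q ≤ (langX q a 0).natDegree := by
        intro h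
        rw [langX_zero] at h ⊢
        have h0 : a 0 ≠ 0 := by
          intro h0; rw [h0] at h; simp at h
        rw [natDegree_C_mul_X_pow _ _ h0]
      refine ⟨h1, ?_, ?_⟩
      · intro h h2
        have h3 := h1 h
        rw [langX_succ] at h2
        have h4 : langX q a 0 ^ q = - (C (a (0 + 1)) * X ^ q) := by linear_combination h2
        have h5 : (langX q a 0 ^ q).natDegree ≤ q := by
          rw [h4, natDegree_neg]; exact natDegree_C_mul_X_pow_le _ _
        rw [natDegree_pow] at h5
        nlinarith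
      · intro h
        rw [langX_zero] at h
        by_contra h0
        have : (C (a 0) * X ^ q : Polynomial Ω) ≠ 0 := by
          rw [Ne, C_mul_X_pow_eq_monomial, monomial_eq_zero_iff]; exact h0
        exact this h
    | succ i ih =>
      obtain ⟨ih1, ih2, ih3⟩ := ih
      have h1 : langX q a (i + 1) ≠ 0 → q ≤ (langX q a (i + 1)).natDegree := by
        intro h
        by_cases hi : langX q a i = 0
        · rw [langX_succ, hi, zero_pow (by omega), zero_add] at h ⊢
          have h0 : a (i + 1) ≠ 0 := by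
            intro h0; rw [h0] at h; simp at h
          rw [natDegree_C_mul_X_pow _ _ h0]
        · have h3 := ih1 hi
          rw [langX_succ]
          have h5 : (C (a (i + 1)) * X ^ q : Polynomial Ω).natDegree < (langX q a i ^ q).natDegree := by
            refine lt_of_le_of_lt (natDegree_C_mul_X_pow_le _ _) ?_
            rw [natDegree_pow]
            nlinarith
          rw [natDegree_add_eq_left_of_natDegree_lt h5, natDegree_pow]
          nlinarith
      refine ⟨h1, ?_, ?_⟩
      · intro h h2
        have h3 := h1 h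
        rw [langX_succ] at h2
        have h4 : langX q a (i + 1) ^ q = - (C (a (i + 1 + 1)) * X ^ q) := by linear_combination h2
        have h5 : (langX q a (i + 1) ^ q).natDegree ≤ q := by
          rw [h4, natDegree_neg]; exact natDegree_C_mul_X_pow_le _ _
        rw [natDegree_pow] at h5
        nlinarith
      · intro h
        have hi : langX q a i = 0 := by
          by_contra hi
          exact ih2 hi h
        rw [langX_succ, hi, zero_pow (by omega), zero_add] at h
        by_contra h0
        have : (C (a (i + 1)) * X ^ q : Polynomial Ω) ≠ 0 := by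
          rw [Ne, C_mul_X_pow_eq_monomial, monomial_eq_zero_iff]; exact h0
        exact this h
  have hne : langX q a i ≠ 0 := by
    induction i, hji using Nat.le_induction with
    | base => intro h; exact hj ((key j).2.2 h)
    | succ i _ ih => exact (key i).2.1 ih
  exact (key i).1 hne

theorem langX_root {Ω : Type} [Field Ω] [IsSepClosed Ω] (q : ℕ) (hq : 1 < q) (hq0 : (q : Ω) = 0) (a : ℕ → Ω) (i j : ℕ)
    (hj : a j ≠ 0) (hji : j ≤ i) : ∃ y : Ω, y ≠ 0 ∧ (langX q a i).eval y = y := by
  have hdeg := langX_natDegree q hq a i j hj hji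
  obtain ⟨R, hR⟩ := langX_X_dvd q (by omega) a i
  have hP : langX q a i - X = X * (R - 1) := by rw [hR]; ring
  have hsepP : (langX q a i - X).Separable := by
    rw [separable_def, derivative_sub, langX_derivative q hq0, derivative_X, zero_sub]
    exact ⟨0, -1, by ring⟩
  have hsep : (R - 1).Separable := by
    rw [hP] at hsepP
    exact hsepP.of_mul_right
  have hdegR : (R - 1).degree ≠ 0 := by
    intro h
    have h2 : (langX q a i - X).natDegree = 1 := by
      rw [hP, natDegree_X_mul]
      · have : (R - 1).natDegree = 0 := natDegree_eq_of_degree_eq_some h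
        rw [this]
      · intro h3; rw [h3] at h; simp at h
    have h3 : (langX q a i).natDegree ≤ 1 := by
      have : langX q a i = (langX q a i - X) + X := by ring
      rw [this]
      refine (natDegree_add_le _ _).trans ?_
      rw [h2, natDegree_X]; simp
    omega
  obtain ⟨y, hy⟩ := IsSepClosed.exists_root (R - 1) hdegR hsep
  have hy1 : R.eval y = 1 := by
    have := hy
    rw [IsRoot.def, eval_sub, eval_one] at this
    linear_combination this
  refine ⟨y, ?_, ?_⟩
  · intro h0
    -- `R(0) = 0` as the derivative of `X * R` is zero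
    have hd := langX_derivative q hq0 a i
    rw [hR, derivative_mul, derivative_X, one_mul] at hd
    have h2 := congrArg (eval 0) hd
    simp at h2
    rw [h0] at hy1
    rw [h2] at hy1
    exact zero_ne_one hy1
  · rw [hR, eval_mul, eval_X, hy1, mul_one]

/-- `Phi v` is nonzero for `v` nonzero -/
theorem lang_inj {Ω : Type} [Field Ω] (σ : Ω →+* Ω) {V : Type} [AddCommGroup V] [Module Ω V] [FiniteDimensional Ω V]
    (Φ : V →ₛₗ[σ] V) (h : Submodule.span Ω (Set.range Φ) = ⊤) (v : V) (hv : Φ v = 0) : v = 0 := by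
  classical
  set b := Module.finBasis Ω V with hb
  have hΦ : ∀ w : V, Φ w = ∑ i, σ (b.repr w i) • Φ (b i) := by
    intro w
    conv_lhs => rw [← b.sum_repr w]
    rw [map_sum]
    refine Finset.sum_congr rfl fun i _ => ?_
    rw [LinearMap.map_smulₛₗ]
  have hspan : ⊤ ≤ Submodule.span Ω (Set.range (fun i => Φ (b i))) := by
    rw [← h, Submodule.span_le]
    rintro _ ⟨w, rfl⟩
    rw [hΦ w]
    refine Submodule.sum_mem _ fun i _ => Submodule.smul_mem _ _ (Submodule.subset_span ⟨i, rfl⟩)
  have hli : LinearIndependent Ω (fun i => Φ (b i)) :=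
    linearIndependent_of_top_le_span_of_card_eq_finrank hspan (by simp)
  rw [hΦ v] at hv
  have h2 := Fintype.linearIndependent_iff.mp hli _ hv
  have h3 : b.repr v = 0 := by
    ext i
    have := h2 i
    rw [map_eq_zero] at this
    simpa using this
  exact b.repr.map_eq_zero_iff.mp h3

theorem lang_exists_fixed {Ω : Type} [Field Ω] [IsSepClosed Ω] (p : ℕ) [Fact p.Prime] [CharP Ω p] (s : ℕ) (hs : 0 < s)
    {V : Type} [AddCommGroup V] [Module Ω V] [FiniteDimensional Ω V]
    (Φ : V →ₛₗ[iterateFrobenius Ω p s] V) (h : Submodule.span Ω (Set.range Φ) = ⊤) (v : V) (hv : v ≠ 0) :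
    ∃ w : V, w ≠ 0 ∧ Φ w = w := by
  classical
  have hσ : ∀ x : Ω, iterateFrobenius Ω p s x = x ^ (p ^ s) := fun x => iterateFrobenius_def p s x
  have hq : 1 < p ^ s := Nat.one_lt_pow (by omega) (Fact.out : p.Prime).one_lt
  have hq0 : ((p ^ s : ℕ) : Ω) = 0 := by
    push_cast
    rw [CharP.cast_eq_zero, zero_pow (by omega)]
  -- minimal dependence
  have hex : ∃ d : ℕ, ¬ LinearIndependent Ω (fun i : Fin (d + 1) => (Φ^[i]) v) := by
    refine ⟨Module.finrank Ω V, fun hli => ?_⟩
    have := hli.fintype_card_le_finrank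
    simp at this
  obtain ⟨d, hd, hmin⟩ : ∃ d : ℕ, ¬ LinearIndependent Ω (fun i : Fin (d + 1) => (Φ^[i]) v) ∧
      ∀ e < d, LinearIndependent Ω (fun i : Fin (e + 1) => (Φ^[i]) v) :=
    ⟨Nat.find hex, Nat.find_spec hex, fun e he => by simpa using Nat.find_min hex he⟩
  have hd0 : d ≠ 0 := by
    rintro rfl
    apply hd
    have : (fun i : Fin (0 + 1) => (Φ^[i]) v) = fun _ => v := by
      funext i
      have : (i : ℕ) = 0 := by omega
      rw [this]; rfl
    rw [this]
    haveI : Unique (Fin (0 + 1)) := inferInstanceAs (Unique (Fin 1))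
    rw [linearIndependent_unique_iff]
    exact hv
  obtain ⟨e, rfl⟩ := Nat.exists_eq_succ_of_ne_zero hd0
  have hli := hmin e (by omega)
  have hmem : (Φ^[e + 1]) v ∈ Submodule.span Ω (Set.range (fun i : Fin (e + 1) => (Φ^[i]) v)) := by
    by_contra hcon
    apply hd
    rw [linearIndependent_finSucc']
    exact ⟨hli, hcon⟩
  obtain ⟨c, hc⟩ := (Submodule.mem_span_range_iff_exists_fun Ω).mp hmem
  set a : ℕ → Ω := fun i => if hi : i < e + 1 then c ⟨i, hi⟩ else 0 with ha
  have hsum : ∑ i ∈ Finset.range (e + 1), a i • (Φ^[i]) v = (Φ^[e + 1]) v := by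
    rw [← hc, ← Fin.sum_univ_eq_sum_range (fun i => a i • (Φ^[i]) v) (e + 1)]
    refine Finset.sum_congr rfl fun i _ => ?_
    have h1 : a (i : ℕ) = c i := by simp only [ha]; rw [dif_pos i.2]
    rw [h1]
  have hinj : ∀ k : ℕ, (Φ^[k]) v ≠ 0 := by
    intro k
    induction k with
    | zero => simpa using hv
    | succ k ih =>
      rw [Function.iterate_succ_apply']
      intro h0
      exact ih (lang_inj _ Φ h _ h0)
  obtain ⟨j, hje, haj⟩ : ∃ j, j ≤ e ∧ a j ≠ 0 := by
    by_contra hcon
    push Not at hcon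
    apply hinj (e + 1)
    rw [← hsum]
    refine Finset.sum_eq_zero fun i hi => ?_
    rw [hcon i (by simpa [Nat.lt_succ_iff] using hi), zero_smul]
  obtain ⟨y, hy0, hy⟩ := langX_root (p ^ s) hq hq0 a e j haj hje
  set x : ℕ → Ω := fun i => (langX (p ^ s) a i).eval y with hx
  have hx0 : x 0 = a 0 * y ^ (p ^ s) := by simp [hx, langX_zero]
  have hxs : ∀ i, x (i + 1) = x i ^ (p ^ s) + a (i + 1) * y ^ (p ^ s) := by
    intro i; simp [hx, langX_succ]
  have hxe : x e = y := hy
  refine ⟨∑ i ∈ Finset.range (e + 1), x i • (Φ^[i]) v, ?_, ?_⟩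
  · intro h0
    rw [← Fin.sum_univ_eq_sum_range (fun i => x i • (Φ^[i]) v) (e + 1)] at h0
    have h1 := Fintype.linearIndependent_iff.mp hli (fun i => x i) h0 (Fin.last e)
    simp only [Fin.val_last] at h1
    rw [hxe] at h1
    exact hy0 h1
  · rw [map_sum]
    have h1 : ∀ i, Φ (x i • (Φ^[i]) v) = (x i ^ (p ^ s)) • (Φ^[i + 1]) v := by
      intro i
      rw [LinearMap.map_smulₛₗ, hσ, Function.iterate_succ_apply']
    simp only [h1]
    rw [Finset.sum_range_succ, hxe, ← hsum, Finset.smul_sum, Finset.sum_range_succ' _ e,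
      Finset.sum_range_succ' (fun i => x i • (Φ^[i]) v) e, hx0, ← add_assoc, ← Finset.sum_add_distrib]
    congr 1
    · refine Finset.sum_congr rfl fun i _ => ?_
      rw [hxs i, add_smul, smul_smul, mul_comm (a (i + 1))]
    · rw [smul_smul, mul_comm]

theorem lang_span {Ω : Type} [Field Ω] [IsSepClosed Ω] (p : ℕ) [Fact p.Prime] [CharP Ω p] (s : ℕ) (hs : 0 < s) (n : ℕ) :
    ∀ {V : Type} [AddCommGroup V] [Module Ω V] [FiniteDimensional Ω V]
    (Φ : V →ₛₗ[iterateFrobenius Ω p s] V), Module.finrank Ω V = n → Submodule.span Ω (Set.range Φ) = ⊤ →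
    Submodule.span Ω {v : V | Φ v = v} = ⊤ := by
  classical
  have hσ : ∀ x : Ω, iterateFrobenius Ω p s x = x ^ (p ^ s) := fun x => iterateFrobenius_def p s x
  have hq : 1 < p ^ s := Nat.one_lt_pow (by omega) (Fact.out : p.Prime).one_lt
  have hq0 : ((p ^ s : ℕ) : Ω) = 0 := by
    push_cast
    rw [CharP.cast_eq_zero, zero_pow (by omega)]
  induction n with
  | zero =>
    intro V _ _ _ Φ hn _
    have := Module.finrank_zero_iff.mp hn
    exact Subsingleton.elim _ _
  | succ n ih =>
    intro V _ _ _ Φ hn h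
    have hpos : 0 < Module.finrank Ω V := by omega
    haveI : Nontrivial V := Module.finrank_pos_iff.mp hpos
    obtain ⟨v0, hv0⟩ := exists_ne (0 : V)
    obtain ⟨w, hw0, hw⟩ := lang_exists_fixed p s hs Φ h v0 hv0
    set W := Submodule.span Ω {w} with hW
    have hstab : W ≤ W.comap Φ := by
      rw [hW, Submodule.span_le]
      rintro _ rfl
      show Φ _ ∈ Submodule.span Ω _
      rw [hw]; exact Submodule.mem_span_singleton_self _
    set Ψ : (V ⧸ W) →ₛₗ[iterateFrobenius Ω p s] (V ⧸ W) := W.mapQ W Φ hstab with hΨ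
    have hΨm : ∀ v : V, Ψ (W.mkQ v) = W.mkQ (Φ v) := fun v => rfl
    have hfin : Module.finrank Ω (V ⧸ W) = n := by
      have h1 := Submodule.finrank_quotient_add_finrank W
      have h2 : Module.finrank Ω W = 1 := finrank_span_singleton hw0
      omega
    have hΨs : Submodule.span Ω (Set.range Ψ) = ⊤ := by
      rw [eq_top_iff]
      rintro x -
      obtain ⟨v, rfl⟩ := W.mkQ_surjective x
      have hv : v ∈ Submodule.span Ω (Set.range Φ) := by rw [h]; trivial
      have := Submodule.mem_map_of_mem (f := W.mkQ) hv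
      rw [Submodule.map_span] at this
      refine Submodule.span_mono ?_ this
      rintro _ ⟨_, ⟨u, rfl⟩, rfl⟩
      exact ⟨W.mkQ u, hΨm u⟩
    have hsp := ih Ψ hfin hΨs
    -- lifting
    have hlift : ∀ x : V ⧸ W, Ψ x = x → ∃ v : V, Φ v = v ∧ W.mkQ v = x := by
      intro x hx
      obtain ⟨v, rfl⟩ := W.mkQ_surjective x
      rw [hΨm, ← sub_eq_zero, ← map_sub, ← LinearMap.mem_ker, Submodule.ker_mkQ] at hx
      obtain ⟨c, hc⟩ := Submodule.mem_span_singleton.mp hx
      have hsep : (X ^ (p ^ s) - X + C c : Polynomial Ω).Separable := by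
        rw [separable_def]
        have : derivative (X ^ (p ^ s) - X + C c : Polynomial Ω) = -1 := by
          simp [derivative_X_pow, CharP.cast_eq_zero, zero_pow (show s ≠ 0 by omega)]
        rw [this]
        exact ⟨0, -1, by ring⟩
      have hdeg : (X ^ (p ^ s) - X + C c : Polynomial Ω).degree ≠ 0 := by
        have h1 : (X ^ (p ^ s) - X + C c : Polynomial Ω).natDegree = p ^ s := by
          have h2 : (X ^ (p ^ s) - X + C c : Polynomial Ω) = X ^ (p ^ s) + (- X + C c) := by ring
          rw [h2, natDegree_add_eq_left_of_natDegree_lt, natDegree_X_pow]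
          rw [natDegree_X_pow, natDegree_add_C, natDegree_neg, natDegree_X]
          exact hq
        intro h3
        have h4 := natDegree_eq_of_degree_eq_some h3
        rw [h1] at h4
        have h5 : p ^ s = 0 := h4
        omega
      obtain ⟨y, hy⟩ := IsSepClosed.exists_root _ hdeg hsep
      have hy' : y ^ (p ^ s) - y + c = 0 := by simpa [IsRoot.def] using hy
      refine ⟨v + y • w, ?_, ?_⟩
      · rw [map_add, LinearMap.map_smulₛₗ, hσ, hw]
        have h4 : Φ v = v + c • w := by rw [hc]; abel
        rw [h4]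
        have h5 : y ^ (p ^ s) = y - c := by linear_combination hy'
        rw [h5, sub_smul]
        abel
      · rw [map_add, map_smul]
        have : W.mkQ w = 0 := by
          rw [← LinearMap.mem_ker, Submodule.ker_mkQ]; exact Submodule.mem_span_singleton_self _
        rw [this, smul_zero, add_zero]
    -- conclusion
    have hWle : W ≤ Submodule.span Ω {v : V | Φ v = v} := by
      rw [hW, Submodule.span_le]
      rintro _ rfl
      exact Submodule.subset_span hw
    have hmap : Submodule.map W.mkQ (Submodule.span Ω {v : V | Φ v = v}) = ⊤ := by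
      rw [eq_top_iff, ← hsp, Submodule.map_span, Submodule.span_le]
      intro x hx
      obtain ⟨v, hv, rfl⟩ := hlift x hx
      exact Submodule.subset_span ⟨v, hv, rfl⟩
    rw [eq_top_iff]
    rintro v -
    have hv : W.mkQ v ∈ Submodule.map W.mkQ (Submodule.span Ω {v : V | Φ v = v}) := by
      rw [hmap]; trivial
    obtain ⟨u, hu, huv⟩ := hv
    have h6 : v - u ∈ W := by
      rw [← Submodule.ker_mkQ W, LinearMap.mem_ker, map_sub, huv, sub_self]
    have h7 : v = (v - u) + u := by abel
    rw [h7]
    exact Submodule.add_mem _ (hWle h6) hu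

/-- Lang's theorem for `GL_N` over a separably closed field: solve `U^{(q)} = E U`. -/
theorem lang {Ω : Type} [Field Ω] [IsSepClosed Ω] (p : ℕ) [Fact p.Prime] [CharP Ω p] (s : ℕ) (hs : 0 < s)
    (N : ℕ) (E : Matrix (Fin N) (Fin N) Ω) (hE : E.det ≠ 0) :
    ∃ U : Matrix (Fin N) (Fin N) Ω, U.det ≠ 0 ∧ U.map (fun x => x ^ (p ^ s)) = E * U := by
  classical
  have hσ : ∀ x : Ω, iterateFrobenius Ω p s x = x ^ (p ^ s) := fun x => iterateFrobenius_def p s x
  have hEu : IsUnit E.det := isUnit_iff_ne_zero.mpr hE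
  let Φ : (Fin N → Ω) →ₛₗ[iterateFrobenius Ω p s] (Fin N → Ω) :=
    { toFun := fun v => E⁻¹.mulVec (fun i => iterateFrobenius Ω p s (v i))
      map_add' := by
        intro v w
        rw [← Matrix.mulVec_add]
        congr 1
        funext i
        simp
      map_smul' := by
        intro c v
        rw [← Matrix.mulVec_smul]
        congr 1
        funext i
        simp }
  have hΦ : ∀ v, Φ v = E⁻¹.mulVec (fun i => iterateFrobenius Ω p s (v i)) := fun v => rfl
  have hspan : Submodule.span Ω (Set.range Φ) = ⊤ := by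
    rw [eq_top_iff]
    rintro w -
    have h1 : w = ∑ i, (E.mulVec w i) • Φ (Pi.single i 1) := by
      have h2 : ∀ i : Fin N, Φ (Pi.single i 1) = E⁻¹.mulVec (Pi.single i 1) := by
        intro i
        rw [hΦ]
        congr 1
        funext j
        by_cases hij : j = i
        · subst hij; simp
        · simp [Pi.single_eq_of_ne hij]
      simp only [h2]
      have h3 : ∑ i, (E.mulVec w i) • E⁻¹.mulVec (Pi.single i (1 : Ω)) =
          E⁻¹.mulVec (∑ i, (E.mulVec w i) • (Pi.single i (1 : Ω) : Fin N → Ω)) := by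
        rw [Matrix.mulVec_sum]
        refine Finset.sum_congr rfl fun i _ => ?_
        rw [Matrix.mulVec_smul]
      rw [h3]
      have h4 : (∑ i, (E.mulVec w i) • (Pi.single i (1 : Ω) : Fin N → Ω)) = E.mulVec w := by
        funext j
        simp [Finset.sum_apply, Pi.single_apply]
      rw [h4, Matrix.mulVec_mulVec, Matrix.nonsing_inv_mul _ hEu, Matrix.one_mulVec]
    rw [h1]
    exact Submodule.sum_mem _ fun i _ => Submodule.smul_mem _ _ (Submodule.subset_span ⟨_, rfl⟩)
  have hfix := lang_span p s hs _ Φ rfl hspan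
  obtain ⟨b, hbs, hbspan, hbli⟩ := exists_linearIndependent Ω {v : Fin N → Ω | Φ v = v}
  rw [hfix] at hbspan
  let B : Module.Basis b Ω (Fin N → Ω) := Module.Basis.mk hbli (by simpa using hbspan.ge)
  haveI : Fintype b := FiniteDimensional.fintypeBasisIndex B
  have hcard : Fintype.card b = N := by
    have := Module.finrank_eq_card_basis B
    simpa using this.symm
  let e : Fin N ≃ b := (Fintype.equivFinOfCardEq hcard).symm
  refine ⟨Matrix.of fun i j => (e j : Fin N → Ω) i, ?_, ?_⟩
  · have hli2 : LinearIndependent Ω (fun j : Fin N => ((e j : Fin N → Ω))) := hbli.comp e e.injective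
    have h5 : IsUnit (Matrix.of fun i j => (e j : Fin N → Ω) i : Matrix (Fin N) (Fin N) Ω) := by
      rw [← Matrix.linearIndependent_cols_iff_isUnit]
      exact hli2
    exact ((Matrix.isUnit_iff_isUnit_det _).mp h5).ne_zero
  · have h6 : ∀ j, (fun i => iterateFrobenius Ω p s ((e j : Fin N → Ω) i)) = E.mulVec (e j : Fin N → Ω) := by
      intro j
      have h7 : Φ (e j : Fin N → Ω) = (e j : Fin N → Ω) := hbs (e j).2
      have h8 := congrArg E.mulVec h7
      rw [hΦ, Matrix.mulVec_mulVec, Matrix.mul_nonsing_inv _ hEu, Matrix.one_mulVec] at h8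
      exact h8
    ext i j
    have h9 := congrFun (h6 j) i
    simp only [hσ] at h9
    rw [Matrix.map_apply, Matrix.of_apply, h9]
    rfl

end Pool.Agent.H497.FF
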