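import Pool.Agent.H497.FF.TDefs

set_option autoImplicit false



namespace Pool.Agent.H497.FF

open Polynomial


noncomputable section

end


/-! ### auxiliary lemmas for `unit_solution` -/

section B2aux

variable {F : Type} [Field F] [Fintype F] {Ω : Type} [Field Ω] [Algebra F Ω]

/-- the fixed points of the Frobenius -/
theorem B2_fixed {x : Ω} (hx : x ^ Fintype.card F = x) : ∃ a : F, algebraMap F Ω a = x := by
  classical
  by_contra hne
  push Not at hne
  have h0 : (X ^ Fintype.card F - X : Polynomial Ω) ≠ 0 :=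
    FiniteField.X_pow_card_sub_X_ne_zero _ Fintype.one_lt_card
  have hinj : Function.Injective (algebraMap F Ω) := (algebraMap F Ω).injective
  let S : Finset Ω := insert x (Finset.univ.image (algebraMap F Ω))
  have hS : S.card = Fintype.card F + 1 := by
    rw [Finset.card_insert_of_notMem, Finset.card_image_of_injective _ hinj, Finset.card_univ]
    intro h
    rw [Finset.mem_image] at h
    obtain ⟨a, _, ha⟩ := h
    exact hne a ha
  have hsub : S ⊆ (X ^ Fintype.card F - X : Polynomial Ω).roots.toFinset := by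
    intro y hy
    rw [Multiset.mem_toFinset, mem_roots h0, IsRoot.def, eval_sub, eval_pow, eval_X, sub_eq_zero]
    rcases Finset.mem_insert.1 hy with rfl | hy
    · exact hx
    · rw [Finset.mem_image] at hy
      obtain ⟨a, _, rfl⟩ := hy
      rw [← map_pow, FiniteField.pow_card]
  have h1 := Finset.card_le_card hsub
  have h2 := Multiset.toFinset_card_le (X ^ Fintype.card F - X : Polynomial Ω).roots
  have h3 := card_roots' (X ^ Fintype.card F - X : Polynomial Ω)
  rw [FiniteField.X_pow_card_sub_X_natDegree_eq _ Fintype.one_lt_card] at h3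
  omega

/-- minimal support: a nonzero subspace stable under the Frobenius has a nonzero rational point -/
theorem B2_minsupp {N : ℕ} (W : Submodule Ω (Fin N → Ω))
    (hW : ∀ v ∈ W, (fun j => v j ^ Fintype.card F) ∈ W) (h0 : ∃ v ∈ W, v ≠ 0) :
    ∃ v : Fin N → F, v ≠ 0 ∧ (fun j => algebraMap F Ω (v j)) ∈ W := by
  classical
  have hP : ∃ n : ℕ, ∃ v ∈ W, v ≠ 0 ∧ (Finset.univ.filter fun j => v j ≠ 0).card = n := by
    obtain ⟨v, hv, hv0⟩ := h0
    exact ⟨_, v, hv, hv0, rfl⟩
  obtain ⟨v, hv, hv0, hvn⟩ := Nat.find_spec hP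
  have hmin : ∀ u ∈ W, (Finset.univ.filter fun j => u j ≠ 0).card < Nat.find hP → u = 0 := by
    intro u hu hlt
    by_contra hu0
    exact Nat.find_min hP hlt ⟨u, hu, hu0, rfl⟩
  obtain ⟨k, hk⟩ : ∃ k, v k ≠ 0 := by
    by_contra h
    push Not at h
    exact hv0 (funext h)
  let u : Fin N → Ω := (v k)⁻¹ • v
  have hu : u ∈ W := W.smul_mem _ hv
  have huk : u k = 1 := by
    show (v k)⁻¹ * v k = 1
    exact inv_mul_cancel₀ hk
  have hsupp : ∀ j, v j = 0 → u j = 0 := by
    intro j hj
    show (v k)⁻¹ * v j = 0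
    rw [hj, mul_zero]
  have hd : (fun j => u j ^ Fintype.card F) - u = 0 := by
    refine hmin _ (W.sub_mem (hW u hu) hu) ?_
    rw [← hvn]
    refine Finset.card_lt_card (Finset.ssubset_iff_of_subset ?_ |>.2 ⟨k, ?_, ?_⟩)
    · intro j hj
      rw [Finset.mem_filter] at hj ⊢
      refine ⟨Finset.mem_univ _, fun hj0 => hj.2 ?_⟩
      show u j ^ Fintype.card F - u j = 0
      rw [hsupp j hj0, zero_pow Fintype.card_ne_zero, sub_zero]
    · rw [Finset.mem_filter]
      exact ⟨Finset.mem_univ _, hk⟩
    · rw [Finset.mem_filter]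
      intro h
      apply h.2
      show u k ^ Fintype.card F - u k = 0
      rw [huk, one_pow, sub_self]
  have hfix : ∀ j, ∃ a : F, algebraMap F Ω a = u j := by
    intro j
    apply B2_fixed
    have := congrFun hd j
    exact sub_eq_zero.1 this
  choose a ha using hfix
  refine ⟨a, ?_, ?_⟩
  · intro h
    have : algebraMap F Ω (a k) = 0 := by rw [h]; simp
    rw [ha, huk] at this
    exact one_ne_zero this
  · have : (fun j => algebraMap F Ω (a j)) = u := funext ha
    rw [this]
    exact hu

variable {R : Type} [CommRing R] [Algebra F R] {N : ℕ} (b : Module.Basis (Fin N) F R)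
  {J : Type} (B : Module.Basis J F Ω)

/-- the coordinates in `R` with respect to a basis of `Ω` over `F` -/
noncomputable def B2rho (i : J) (v : Fin N → Ω) : R := ∑ j, (B.repr (v j) i) • b j

omit [Fintype F] in
theorem B2rho_add (i : J) (v w : Fin N → Ω) :
    B2rho b B i (v + w) = B2rho b B i v + B2rho b B i w := by
  unfold B2rho
  rw [← Finset.sum_add_distrib]
  refine Finset.sum_congr rfl fun j _ => ?_
  rw [Pi.add_apply, map_add, Finsupp.add_apply, add_smul]

omit [Fintype F] in
theorem B2rho_zero (i : J) : B2rho b B i (0 : Fin N → Ω) = 0 := by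
  unfold B2rho
  simp

omit [Fintype F] in
theorem B2rho_sum {κ : Type} (s : Finset κ) (i : J) (f : κ → Fin N → Ω) :
    B2rho b B i (∑ k ∈ s, f k) = ∑ k ∈ s, B2rho b B i (f k) := by
  classical
  induction s using Finset.induction_on with
  | empty => simp [B2rho_zero]
  | insert k s hk ih => rw [Finset.sum_insert hk, Finset.sum_insert hk, B2rho_add, ih]

omit [Fintype F] in
theorem B2rho_mul (i : J) (r : R) (v : Fin N → Ω) :
    B2rho b B i ((MM b Ω r).mulVec v) = r * B2rho b B i v := by
  unfold B2rho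
  have h1 : ∀ k, B.repr ((MM b Ω r).mulVec v k) i =
      ∑ l, b.repr (r * b l) k * B.repr (v l) i := by
    intro k
    show B.repr (∑ l, MM b Ω r k l * v l) i = _
    rw [map_sum, Finsupp.finsetSum_apply]
    refine Finset.sum_congr rfl fun l _ => ?_
    have : MM b Ω r k l * v l = (b.repr (r * b l) k) • v l := by
      rw [Algebra.smul_def]
      unfold MM
      rw [Matrix.map_apply, Algebra.leftMulMatrix_eq_repr_mul]
    rw [this, map_smul, Finsupp.smul_apply, smul_eq_mul]
  simp only [h1]
  rw [Finset.mul_sum]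
  simp only [Finset.sum_smul]
  rw [Finset.sum_comm]
  refine Finset.sum_congr rfl fun l _ => ?_
  have h2 : ∑ k, b.repr (r * b l) k • b k = r * b l := b.sum_repr _
  rw [mul_smul_comm]
  conv_rhs => rw [← h2, Finset.smul_sum]
  refine Finset.sum_congr rfl fun k _ => ?_
  rw [smul_smul, mul_comm]

omit [Fintype F] in
theorem B2rho_lin (i : J) (ℓ : R →ₗ[F] F) (v : Fin N → Ω) :
    B.repr (∑ j, v j * algebraMap F Ω (ℓ (b j))) i = ℓ (B2rho b B i v) := by
  unfold B2rho
  rw [map_sum, map_sum, Finsupp.finsetSum_apply]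
  refine Finset.sum_congr rfl fun j _ => ?_
  rw [mul_comm, ← Algebra.smul_def, map_smul, map_smul, Finsupp.smul_apply, smul_eq_mul,
    smul_eq_mul, mul_comm]

omit [Fintype F] in
theorem B2_MM_mul (r s : R) : MM b Ω r * MM b Ω s = MM b Ω (r * s) := by
  unfold MM
  rw [map_mul, Matrix.map_mul]

omit [Fintype F] in
theorem B2_comm (e : Fin N → Ω) (r : R) : MV b Ω e * MM b Ω r = MM b Ω r * MV b Ω e := by
  unfold MV
  rw [Finset.sum_mul, Finset.mul_sum]
  refine Finset.sum_congr rfl fun j _ => ?_
  rw [smul_mul_assoc, mul_smul_comm, B2_MM_mul, B2_MM_mul, mul_comm]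

omit [Fintype F] in
theorem B2_comm2 (e g : Fin N → Ω) : MV b Ω e * MV b Ω g = MV b Ω g * MV b Ω e := by
  conv_lhs => rw [MV.eq_1 b Ω g]
  conv_rhs => rw [MV.eq_1 b Ω g]
  rw [Finset.mul_sum, Finset.sum_mul]
  refine Finset.sum_congr rfl fun j _ => ?_
  rw [smul_mul_assoc, mul_smul_comm, B2_comm]

omit [Fintype F] in
theorem B2_col (g : Fin N → Ω) (j k : Fin N) : MV b Ω g k j = (MM b Ω (b j)).mulVec g k := by
  unfold MV
  rw [Matrix.sum_apply]
  show _ = ∑ l, MM b Ω (b j) k l * g l
  refine Finset.sum_congr rfl fun l _ => ?_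
  rw [Matrix.smul_apply, smul_eq_mul, mul_comm]
  unfold MM
  rw [Matrix.map_apply, Matrix.map_apply, Algebra.leftMulMatrix_eq_repr_mul,
    Algebra.leftMulMatrix_eq_repr_mul, mul_comm (b l)]

omit [Fintype F] in
/-- `MV` of a product -/
theorem B2_MV_mul (e g : Fin N → Ω) : MV b Ω ((MV b Ω e).mulVec g) = MV b Ω e * MV b Ω g := by
  ext k j
  rw [B2_col, Matrix.mulVec_mulVec, ← B2_comm, ← Matrix.mulVec_mulVec]
  show ∑ l, MV b Ω e k l * (MM b Ω (b j)).mulVec g l = ∑ l, MV b Ω e k l * MV b Ω g l j
  exact Finset.sum_congr rfl fun l _ => by rw [B2_col b g j l]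

theorem B2_frob_mul {N : ℕ} (A C : Matrix (Fin N) (Fin N) Ω) :
    (A * C).map (fun x => x ^ Fintype.card F) =
      A.map (fun x => x ^ Fintype.card F) * C.map (fun x => x ^ Fintype.card F) :=
  Matrix.map_mul (f := (FiniteField.frobeniusAlgHom F Ω : Ω →+* Ω))

theorem B2_frob_sum {κ : Type} (s : Finset κ) (f : κ → Ω) :
    (∑ k ∈ s, f k) ^ Fintype.card F = ∑ k ∈ s, f k ^ Fintype.card F :=
  map_sum (FiniteField.frobeniusAlgHom F Ω) f s

theorem B2_frob_MM (r : R) (k l : Fin N) : (MM b Ω r k l) ^ Fintype.card F = MM b Ω r k l := by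
  unfold MM
  rw [Matrix.map_apply, ← map_pow, FiniteField.pow_card]

theorem B2_frob_MV (g : Fin N → Ω) :
    (MV b Ω g).map (fun x => x ^ Fintype.card F) = MV b Ω (fun j => g j ^ Fintype.card F) := by
  ext k l
  rw [Matrix.map_apply]
  unfold MV
  rw [Matrix.sum_apply, Matrix.sum_apply, B2_frob_sum]
  refine Finset.sum_congr rfl fun j _ => ?_
  rw [Matrix.smul_apply, Matrix.smul_apply, smul_eq_mul, smul_eq_mul, mul_pow, B2_frob_MM]

end B2aux

/-- The Lang torsor has a unit point. Here `E = MV b Ω e` is an invertible element of `Ω ⊗ R`; we look for a unit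
`g` of `Ω ⊗ R` (written in coordinates) with `Frob_q(g) = E g`. Idea: `hL` (Lang) gives `U`; the solution space
`V0 = {v : v^(q) = E v}` is the `F`-span of the columns of `U`, an `R`-module of dimension `N` over `F` spanning
`Ω^N`; for each maximal ideal `m_i` of `R` it is not contained in `Ω ⊗ m_i`; use the Chinese remainder theorem
(orthogonal idempotents modulo the nilradical) to find `g ∈ V0` outside all the `Ω ⊗ m_i`; such a `g` is a unit:
the ideal `(g)` of `Ω ⊗ R` is stable under the coordinatewise Frobenius, hence defined over `F`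
(alternatively: `V0` is a cyclic `R`-module by Nakayama on each local factor, and a generator is a unit). -/
theorem unit_solution {F : Type} [Field F] [Fintype F] {Ω : Type} [Field Ω] [Algebra F Ω]
    (hL : ∀ (N : ℕ) (E : Matrix (Fin N) (Fin N) Ω), E.det ≠ 0 →
      ∃ U : Matrix (Fin N) (Fin N) Ω, U.det ≠ 0 ∧ U.map (fun x => x ^ (Fintype.card F)) = E * U)
    {R : Type} [CommRing R] [Algebra F R] {N : ℕ} (b : Module.Basis (Fin N) F R)
    (e : Fin N → Ω) (hE : (MV b Ω e).det ≠ 0) :
    ∃ g : Fin N → Ω, (∀ j, g j ^ Fintype.card F = ((MV b Ω e).mulVec g) j) ∧ (MV b Ω g).det ≠ 0 := by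
  classical
  obtain ⟨U, hU, hUE⟩ := hL N (MV b Ω e) hE
  let B := Module.Basis.ofVectorSpace F Ω
  -- the solution space
  let sol : (Fin N → Ω) → Prop := fun v => ∀ j, v j ^ Fintype.card F = ((MV b Ω e).mulVec v) j
  have sol_add : ∀ v w, sol v → sol w → sol (v + w) := by
    intro v w hv hw j
    rw [Matrix.mulVec_add, Pi.add_apply, Pi.add_apply, ← hv j, ← hw j]
    exact map_add (FiniteField.frobeniusAlgHom F Ω) (v j) (w j)
  have sol_zero : sol 0 := by
    intro j
    rw [Matrix.mulVec_zero]
    exact zero_pow Fintype.card_ne_zero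
  have sol_sum : ∀ {κ : Type} (s : Finset κ) (f : κ → Fin N → Ω), (∀ k ∈ s, sol (f k)) →
      sol (∑ k ∈ s, f k) := by
    intro κ s f
    induction s using Finset.induction_on with
    | empty => intro _; rw [Finset.sum_empty]; exact sol_zero
    | insert k s hk ih =>
      intro h
      rw [Finset.sum_insert hk]
      exact sol_add _ _ (h k (Finset.mem_insert_self _ _))
        (ih fun l hl => h l (Finset.mem_insert_of_mem hl))
  have sol_mul : ∀ (r : R) v, sol v → sol ((MM b Ω r).mulVec v) := by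
    intro r v hv j
    rw [Matrix.mulVec_mulVec, B2_comm, ← Matrix.mulVec_mulVec]
    show (∑ l, MM b Ω r j l * v l) ^ Fintype.card F = ∑ l, MM b Ω r j l * (MV b Ω e).mulVec v l
    rw [B2_frob_sum]
    refine Finset.sum_congr rfl fun l _ => ?_
    rw [mul_pow, B2_frob_MM, hv l]
  have sol_col : ∀ c, sol (fun k => U k c) := by
    intro c j
    have := congrFun (congrFun hUE j) c
    rw [Matrix.map_apply] at this
    rw [this]
    rfl
  -- (F2) no maximal ideal contains all the coordinates of all solutions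
  have hF2 : ∀ m : MaximalSpectrum R, ∃ v, sol v ∧ ∃ i, B2rho b B i v ∉ m.asIdeal := by
    intro m
    by_contra hcon
    push Not at hcon
    have hne : (m.asIdeal.restrictScalars F : Submodule F R) ≠ ⊤ := by
      intro h
      apply m.isMaximal.ne_top
      rw [Ideal.eq_top_iff_one]
      have : (1 : R) ∈ (m.asIdeal.restrictScalars F : Submodule F R) := by rw [h]; trivial
      exact this
    obtain ⟨ℓ, hℓ0, hℓ⟩ := Submodule.exists_le_ker_of_lt_top _ (lt_top_iff_ne_top.2 hne)
    apply hℓ0
    have hz : Matrix.vecMul (fun j => algebraMap F Ω (ℓ (b j))) U = 0 := by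
      funext c
      show ∑ j, algebraMap F Ω (ℓ (b j)) * U j c = 0
      apply B.repr.injective
      ext i
      have h1 := B2rho_lin b B i ℓ (fun k => U k c)
      have h2 : ℓ (B2rho b B i (fun k => U k c)) = 0 :=
        LinearMap.mem_ker.1 (hℓ (hcon _ (sol_col c) i))
      rw [h2] at h1
      simp only [mul_comm (algebraMap F Ω _)]
      rw [h1, map_zero]
      rfl
    have hz2 : (fun j => algebraMap F Ω (ℓ (b j))) = 0 := by
      have hunit : IsUnit U := (Matrix.isUnit_iff_isUnit_det U).2 (isUnit_iff_ne_zero.2 hU)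
      obtain ⟨U', hU'⟩ := hunit
      have h3 : Matrix.vecMul (Matrix.vecMul (fun j => algebraMap F Ω (ℓ (b j))) U)
          ((U'⁻¹ : (Matrix (Fin N) (Fin N) Ω)ˣ) : Matrix (Fin N) (Fin N) Ω) = 0 := by
        rw [hz, Matrix.zero_vecMul]
      rw [Matrix.vecMul_vecMul, ← hU', Units.mul_inv, Matrix.vecMul_one] at h3
      exact h3
    apply b.ext
    intro j
    have h4 := congrFun hz2 j
    simp only [Pi.zero_apply] at h4
    rw [LinearMap.zero_apply]
    exact (map_eq_zero_iff _ (algebraMap F Ω).injective).1 h4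
  choose w hw iw hiw using hF2
  -- the maximal ideals
  have hfinR : Finite R := by
    have : Module.Finite F R := Module.Finite.of_basis b
    exact Module.finite_of_finite F
  have hfin : Finite (MaximalSpectrum R) := inferInstance
  have : Fintype (MaximalSpectrum R) := Fintype.ofFinite _
  have hcop : Pairwise (Function.onFun IsCoprime fun m : MaximalSpectrum R => m.asIdeal) := by
    intro m m' hmm
    have := m.isMaximal
    have := m'.isMaximal
    exact Ideal.isCoprime_of_isMaximal (fun h => hmm (MaximalSpectrum.ext h))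
  have hr : ∀ m : MaximalSpectrum R, ∃ r : R, ∀ m' : MaximalSpectrum R,
      r - (if m' = m then 1 else 0) ∈ m'.asIdeal := fun m =>
    Ideal.exists_forall_sub_mem_ideal hcop (fun m' => if m' = m then (1 : R) else 0)
  choose r hr using hr
  let g : Fin N → Ω := ∑ m, (MM b Ω (r m)).mulVec (w m)
  have hg : sol g := sol_sum _ _ fun m _ => sol_mul _ _ (hw m)
  have hgm : ∀ m : MaximalSpectrum R, B2rho b B (iw m) g ∉ m.asIdeal := by
    intro m hmem
    apply hiw m
    have h1 : B2rho b B (iw m) g = ∑ m', r m' * B2rho b B (iw m) (w m') := by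
      rw [B2rho_sum]
      exact Finset.sum_congr rfl fun m' _ => B2rho_mul b B _ _ _
    have h2 : B2rho b B (iw m) g - B2rho b B (iw m) (w m) ∈ m.asIdeal := by
      have h3 : B2rho b B (iw m) g - B2rho b B (iw m) (w m) =
          ∑ m', (r m' - (if m = m' then 1 else 0)) * B2rho b B (iw m) (w m') := by
        rw [h1]
        simp only [sub_mul, Finset.sum_sub_distrib, ite_mul, one_mul, zero_mul]
        rw [Finset.sum_ite_eq]
        simp
      rw [h3]
      exact Ideal.sum_mem _ fun m' _ => Ideal.mul_mem_right _ _ (hr m' m)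
    have h4 := Ideal.sub_mem _ hmem h2
    rwa [sub_sub_cancel] at h4
  refine ⟨g, hg, fun hdet => ?_⟩
  -- the left kernel of `MV g`
  let W : Submodule Ω (Fin N → Ω) := LinearMap.ker (Matrix.vecMulLinear (MV b Ω g))
  have hWmem : ∀ v, v ∈ W ↔ Matrix.vecMul v (MV b Ω g) = 0 := fun v => Iff.rfl
  have hWfrob : ∀ v ∈ W, (fun j => v j ^ Fintype.card F) ∈ W := by
    intro v hv
    rw [hWmem] at hv ⊢
    have h1 : Matrix.vecMul (fun j => v j ^ Fintype.card F)
        ((MV b Ω g).map (fun x => x ^ Fintype.card F)) = 0 := by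
      funext c
      show ∑ j, v j ^ Fintype.card F * (MV b Ω g j c) ^ Fintype.card F = 0
      have h2 : ∑ j, v j * MV b Ω g j c = 0 := congrFun hv c
      have h3 := congrArg (fun x => x ^ Fintype.card F) h2
      simp only [B2_frob_sum, mul_pow, zero_pow Fintype.card_ne_zero] at h3
      exact h3
    have h4 : (fun j => g j ^ Fintype.card F) = (MV b Ω e).mulVec g := funext hg
    rw [B2_frob_MV, h4, B2_MV_mul, B2_comm2, ← Matrix.vecMul_vecMul] at h1
    have hunit : IsUnit (MV b Ω e) :=
      (Matrix.isUnit_iff_isUnit_det _).2 (isUnit_iff_ne_zero.2 hE)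
    obtain ⟨E', hE'⟩ := hunit
    have h5 := congrArg (fun v => Matrix.vecMul v
      ((E'⁻¹ : (Matrix (Fin N) (Fin N) Ω)ˣ) : Matrix (Fin N) (Fin N) Ω)) h1
    simp only [Matrix.zero_vecMul] at h5
    rw [Matrix.vecMul_vecMul _ (MV b Ω e), ← hE', Units.mul_inv, Matrix.vecMul_one] at h5
    exact h5
  obtain ⟨v, hv0, hv⟩ := Matrix.exists_vecMul_eq_zero_iff.2 hdet
  obtain ⟨a, ha0, ha⟩ := B2_minsupp (F := F) W hWfrob ⟨v, (hWmem v).2 hv, hv0⟩
  rw [hWmem] at ha
  -- the linear form
  let ℓ : R →ₗ[F] F := b.constr F a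
  have hℓb : ∀ j, ℓ (b j) = a j := fun j => b.constr_basis F a j
  have hℓρ : ∀ i (s : R), ℓ (s * B2rho b B i g) = 0 := by
    intro i s
    have h1 : ∀ j, ℓ (b j * B2rho b B i g) = 0 := by
      intro j
      rw [← B2rho_mul, ← B2rho_lin b B i ℓ]
      have h2 : ∑ k, (MM b Ω (b j)).mulVec g k * algebraMap F Ω (ℓ (b k)) = 0 := by
        have h3 := congrFun ha j
        have h4 : ∑ k, algebraMap F Ω (a k) * MV b Ω g k j = 0 := h3
        rw [← h4]
        refine Finset.sum_congr rfl fun k _ => ?_
        rw [hℓb, B2_col, mul_comm]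
      rw [h2, map_zero]
      rfl
    rw [← b.sum_repr s, Finset.sum_mul, map_sum]
    refine Finset.sum_eq_zero fun j _ => ?_
    rw [smul_mul_assoc, map_smul, h1, smul_zero]
  let I : Ideal R :=
    { carrier := {x | ∀ s, ℓ (s * x) = 0}
      add_mem' := fun {x y} hx hy s => by rw [mul_add, map_add, hx, hy, add_zero]
      zero_mem' := fun s => by rw [mul_zero, map_zero]
      smul_mem' := fun c x hx s => by
        show ℓ (s * (c * x)) = 0
        rw [← mul_assoc]
        exact hx _ }
  have hI : I ≠ ⊤ := by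
    intro h
    have h1 : (1 : R) ∈ I := by rw [h]; trivial
    apply ha0
    funext j
    have h2 : ℓ (b j * 1) = 0 := h1 (b j)
    rw [mul_one, hℓb] at h2
    exact h2
  obtain ⟨M, hM, hIM⟩ := Ideal.exists_le_maximal I hI
  exact hgm ⟨M, hM⟩ (hIM (hℓρ _))


end Pool.Agent.H497.FF
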