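import Pool.Agent.H497.FF.TDefs

set_option autoImplicit false



namespace Pool.Agent.H497.FF

open Polynomial


noncomputable section

end


section aux

variable {F : Type} [Field F] {R : Type} [CommRing R] [Algebra F R] {N : ℕ} (b : Module.Basis (Fin N) F R)
  (K : Type) [Field K] [Algebra F K]

theorem b2b_MM_mul (c d : R) : MM b K (c * d) = MM b K c * MM b K d := by
  unfold MM
  rw [map_mul, Matrix.map_mul]

theorem b2b_MM_one : MM b K (1 : R) = 1 := by
  unfold MM
  rw [map_one, Matrix.map_one] <;> simp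

theorem b2b_MM_comm (c d : R) : MM b K c * MM b K d = MM b K d * MM b K c := by
  rw [← b2b_MM_mul, ← b2b_MM_mul, mul_comm]

/-- coordinates -/
noncomputable def b2b_co (x : R) : Fin N → K := fun j => algebraMap F K (b.repr x j)

theorem b2b_MM_co (c x : R) : (MM b K c).mulVec (b2b_co b K x) = b2b_co b K (c * x) := by
  funext j
  have h := congrFun (Algebra.leftMulMatrix_mulVec_repr b c x) j
  unfold b2b_co MM
  rw [← h]
  simp [Matrix.mulVec, dotProduct, map_sum, map_mul]

theorem b2b_co_basis (i : Fin N) : b2b_co b K (b i) = Pi.single i (1 : K) := by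
  funext j
  unfold b2b_co
  rw [Module.Basis.repr_self, Finsupp.single_apply, Pi.single_apply]
  by_cases h : i = j
  · subst h; simp
  · rw [if_neg h, if_neg (fun h' => h h'.symm), map_zero]

theorem b2b_sum_co (g : Fin N → K) : ∑ j, g j • b2b_co b K (b j) = g := by
  funext i
  simp [b2b_co_basis, Finset.sum_apply, Pi.single_apply]

theorem b2b_MV_one (g : Fin N → K) : (MV b K g).mulVec (b2b_co b K 1) = g := by
  unfold MV
  rw [Matrix.sum_mulVec]
  conv_rhs => rw [← b2b_sum_co b K g]
  refine Finset.sum_congr rfl fun j _ => ?_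
  rw [Matrix.smul_mulVec, b2b_MM_co, mul_one]

theorem b2b_MV_co (x : R) : MV b K (b2b_co b K x) = MM b K x := by
  ext i k
  have h : Algebra.leftMulMatrix b x = ∑ j, b.repr x j • Algebra.leftMulMatrix b (b j) := by
    conv_lhs => rw [← b.sum_repr x]
    rw [map_sum]
    exact Finset.sum_congr rfl fun j _ => by rw [map_smul]
  unfold MV MM b2b_co
  rw [h]
  simp only [Matrix.sum_apply, map_sum, Matrix.smul_apply, Matrix.map_apply, smul_eq_mul, map_mul]

theorem b2b_MV_add (g h : Fin N → K) : MV b K (g + h) = MV b K g + MV b K h := by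
  unfold MV
  rw [← Finset.sum_add_distrib]
  exact Finset.sum_congr rfl fun j _ => by rw [Pi.add_apply, add_smul]

theorem b2b_MV_smul (a : K) (g : Fin N → K) : MV b K (a • g) = a • MV b K g := by
  unfold MV
  rw [Finset.smul_sum]
  exact Finset.sum_congr rfl fun j _ => by rw [Pi.smul_apply, smul_assoc]

theorem b2b_MV_sum {ι : Type} (s : Finset ι) (f : ι → Fin N → K) :
    MV b K (∑ i ∈ s, f i) = ∑ i ∈ s, MV b K (f i) := by
  classical
  induction s using Finset.induction_on with
  | empty => unfold MV; simp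
  | insert a s ha ih => rw [Finset.sum_insert ha, Finset.sum_insert ha, b2b_MV_add, ih]

theorem b2b_MV_MM (c : R) (g : Fin N → K) :
    MV b K ((MM b K c).mulVec g) = MM b K c * MV b K g := by
  have h1 : (MM b K c).mulVec g = ∑ j, g j • b2b_co b K (c * b j) := by
    conv_lhs => rw [← b2b_sum_co b K g]
    rw [Matrix.mulVec_sum]
    refine Finset.sum_congr rfl fun j _ => ?_
    rw [Matrix.mulVec_smul, b2b_MM_co]
  rw [h1, b2b_MV_sum]
  have h2 : MM b K c * MV b K g = ∑ j, g j • (MM b K c * MM b K (b j)) := by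
    unfold MV
    rw [Finset.mul_sum]
    exact Finset.sum_congr rfl fun j _ => by rw [Matrix.mul_smul]
  rw [h2]
  refine Finset.sum_congr rfl fun j _ => ?_
  rw [b2b_MV_smul, b2b_MV_co, b2b_MM_mul]

theorem b2b_MV_MV (e g : Fin N → K) :
    MV b K ((MV b K e).mulVec g) = MV b K e * MV b K g := by
  have h1 : (MV b K e).mulVec g = ∑ j, e j • (MM b K (b j)).mulVec g := by
    unfold MV
    rw [Matrix.sum_mulVec]
    exact Finset.sum_congr rfl fun j _ => by rw [Matrix.smul_mulVec]
  rw [h1, b2b_MV_sum]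
  have h2 : MV b K e * MV b K g = ∑ j, e j • (MM b K (b j) * MV b K g) := by
    conv_lhs => unfold MV
    rw [Finset.sum_mul]
    refine Finset.sum_congr rfl fun j _ => ?_
    rw [Matrix.smul_mul]
    rfl
  rw [h2]
  refine Finset.sum_congr rfl fun j _ => ?_
  rw [b2b_MV_smul, b2b_MV_MM]

theorem b2b_MM_MV_comm (c : R) (g : Fin N → K) : MM b K c * MV b K g = MV b K g * MM b K c := by
  unfold MV
  rw [Finset.mul_sum, Finset.sum_mul]
  refine Finset.sum_congr rfl fun j _ => ?_
  rw [Matrix.mul_smul, Matrix.smul_mul, b2b_MM_comm]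

theorem b2b_MV_comm (e g : Fin N → K) : MV b K e * MV b K g = MV b K g * MV b K e := by
  have h : ∀ x : Fin N → K, MV b K x = ∑ j, x j • MM b K (b j) := fun x => rfl
  rw [h e, Finset.sum_mul, Finset.mul_sum]
  refine Finset.sum_congr rfl fun j _ => ?_
  rw [Matrix.smul_mul, Matrix.mul_smul, b2b_MM_MV_comm]

theorem b2b_MV_swap (e g : Fin N → K) : (MV b K e).mulVec g = (MV b K g).mulVec e := by
  conv_lhs => rw [← b2b_MV_one b K g]
  conv_rhs => rw [← b2b_MV_one b K e]
  rw [Matrix.mulVec_mulVec, Matrix.mulVec_mulVec, b2b_MV_comm]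

theorem b2b_MM_inj {c c' : R} (h : MM b K c = MM b K c') : c = c' := by
  apply Algebra.leftMulMatrix_injective b
  ext i j
  have := congrFun (congrFun h i) j
  unfold MM at this
  simpa using this

theorem b2b_det_MM (c : R) : (MM b K c).det = algebraMap F K (Algebra.leftMulMatrix b c).det := by
  unfold MM
  exact ((algebraMap F K).map_det _).symm

end aux

section frob

variable {F : Type} [Field F] [Fintype F] {Ω : Type} [Field Ω] [Algebra F Ω]
    {R : Type} [CommRing R] [Algebra F R] {N : ℕ} (b : Module.Basis (Fin N) F R)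

theorem b2b_MM_frob (c : R) : (MM b Ω c).map (FiniteField.frobeniusAlgHom F Ω) = MM b Ω c := by
  ext i j
  unfold MM
  simp only [Matrix.map_apply]
  exact AlgHom.commutes _ _

theorem b2b_MM_mulVec_frob (c : R) (g : Fin N → Ω) :
    (fun j => ((MM b Ω c).mulVec g) j ^ Fintype.card F) =
      (MM b Ω c).mulVec (fun j => g j ^ Fintype.card F) := by
  funext j
  have h1 : ∀ x : Ω, x ^ Fintype.card F = FiniteField.frobeniusAlgHom F Ω x := fun x => by
    rw [FiniteField.coe_frobeniusAlgHom]
  simp only [h1]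
  simp only [Matrix.mulVec, dotProduct, map_sum, map_mul]
  refine Finset.sum_congr rfl fun i _ => ?_
  congr 1
  exact AlgHom.commutes _ _

theorem b2b_MV_frob (g : Fin N → Ω) :
    (MV b Ω g).map (FiniteField.frobeniusAlgHom F Ω) = MV b Ω (fun j => g j ^ Fintype.card F) := by
  ext i k
  unfold MV
  simp only [Matrix.map_apply, Matrix.sum_apply, Matrix.smul_apply, map_sum, smul_eq_mul, map_mul]
  refine Finset.sum_congr rfl fun j _ => ?_
  congr 1
  exact AlgHom.commutes _ _

theorem b2b_fixed {x : Ω} (hx : x ^ Fintype.card F = x) : ∃ a : F, algebraMap F Ω a = x := by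
  classical
  have h1 : 1 < Fintype.card F := Fintype.one_lt_card
  have h0 : (X ^ (Fintype.card F) - X : Polynomial Ω) ≠ 0 := FiniteField.X_pow_card_sub_X_ne_zero _ h1
  have hdeg : (X ^ (Fintype.card F) - X : Polynomial Ω).natDegree = Fintype.card F :=
    FiniteField.X_pow_card_sub_X_natDegree_eq _ h1
  have hsub : (Finset.univ.image (algebraMap F Ω)) ⊆ (X ^ (Fintype.card F) - X : Polynomial Ω).roots.toFinset := by
    intro y hy
    rw [Finset.mem_image] at hy
    obtain ⟨a, _, rfl⟩ := hy
    rw [Multiset.mem_toFinset, mem_roots h0, IsRoot.def]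
    simp only [eval_sub, eval_pow, eval_X]
    rw [← map_pow, FiniteField.pow_card, sub_self]
  have hcard : (X ^ (Fintype.card F) - X : Polynomial Ω).roots.toFinset.card ≤
      (Finset.univ.image (algebraMap F Ω)).card := by
    rw [Finset.card_image_of_injective _ (algebraMap F Ω).injective, Finset.card_univ]
    calc _ ≤ Multiset.card (X ^ (Fintype.card F) - X : Polynomial Ω).roots := Multiset.toFinset_card_le _
      _ ≤ (X ^ (Fintype.card F) - X : Polynomial Ω).natDegree := card_roots' _
      _ = _ := hdeg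
  have heq := Finset.eq_of_subset_of_card_le hsub hcard
  have hxm : x ∈ (X ^ (Fintype.card F) - X : Polynomial Ω).roots.toFinset := by
    rw [Multiset.mem_toFinset, mem_roots h0, IsRoot.def]
    simp only [eval_sub, eval_pow, eval_X]
    rw [hx, sub_self]
  rw [← heq, Finset.mem_image] at hxm
  obtain ⟨a, _, ha⟩ := hxm
  exact ⟨a, ha⟩

end frob

/-- Two solutions of `Frob_q(g) = E g` differ by an element of `R` when the first one is a unit
(`y = g'/g ∈ Ω ⊗ R` satisfies `Frob_q(y) = y`, so its coordinates are in `F`; everything commutes). -/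
theorem torsor {F : Type} [Field F] [Fintype F] {Ω : Type} [Field Ω] [Algebra F Ω]
    {R : Type} [CommRing R] [Algebra F R] {N : ℕ} (b : Module.Basis (Fin N) F R)
    (e g g' : Fin N → Ω) (hg : ∀ j, g j ^ Fintype.card F = ((MV b Ω e).mulVec g) j)
    (hg' : ∀ j, g' j ^ Fintype.card F = ((MV b Ω e).mulVec g') j) (hu : (MV b Ω g).det ≠ 0) :
    ∃ c : R, g' = (MM b Ω c).mulVec g := by
  classical
  have hge : (fun j => g j ^ Fintype.card F) = (MV b Ω e).mulVec g := funext hg
  have hge' : (fun j => g' j ^ Fintype.card F) = (MV b Ω e).mulVec g' := funext hg'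
  -- `det (MV e) ≠ 0`
  have hfr : (MV b Ω (fun j => g j ^ Fintype.card F)).det ≠ 0 := by
    rw [← b2b_MV_frob]
    have h := ((FiniteField.frobeniusAlgHom F Ω : Ω →ₐ[F] Ω) : Ω →+* Ω).map_det (MV b Ω g)
    have h2 : ((MV b Ω g).map (FiniteField.frobeniusAlgHom F Ω)).det =
        FiniteField.frobeniusAlgHom F Ω (MV b Ω g).det := h.symm
    rw [h2, FiniteField.coe_frobeniusAlgHom]
    exact pow_ne_zero _ hu
  have hgunit : IsUnit (MV b Ω g).det := isUnit_iff_ne_zero.mpr hu
  set y : Fin N → Ω := (MV b Ω g)⁻¹.mulVec g' with hy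
  have hgy : (MV b Ω g).mulVec y = g' := by
    rw [hy, Matrix.mulVec_mulVec, Matrix.mul_nonsing_inv _ hgunit, Matrix.one_mulVec]
  have hfr' : (MV b Ω (fun j => g j ^ Fintype.card F)).mulVec (fun j => y j ^ Fintype.card F) =
      (MV b Ω (fun j => g j ^ Fintype.card F)).mulVec y := by
    have h1 : (MV b Ω (fun j => g j ^ Fintype.card F)).mulVec (fun j => y j ^ Fintype.card F) =
        fun j => g' j ^ Fintype.card F := by
      funext i
      have h3 : ∀ x : Ω, x ^ Fintype.card F = FiniteField.frobeniusAlgHom F Ω x := fun x => by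
        rw [FiniteField.coe_frobeniusAlgHom]
      rw [← b2b_MV_frob]
      conv_rhs => rw [← hgy, h3]
      simp only [Matrix.mulVec, dotProduct, map_sum, map_mul, Matrix.map_apply, h3]
    rw [h1, hge', hge, b2b_MV_MV, ← hgy, Matrix.mulVec_mulVec]
  have hyfix : (fun j => y j ^ Fintype.card F) = y := by
    have hun : IsUnit (MV b Ω (fun j => g j ^ Fintype.card F)).det := isUnit_iff_ne_zero.mpr hfr
    have h4 := congrArg (fun v => (MV b Ω (fun j => g j ^ Fintype.card F))⁻¹.mulVec v) hfr'
    simp only [Matrix.mulVec_mulVec, Matrix.nonsing_inv_mul _ hun, Matrix.one_mulVec] at h4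
    exact h4
  choose a ha using fun j => b2b_fixed (F := F) (congrFun hyfix j)
  refine ⟨b.equivFun.symm a, ?_⟩
  have hya : y = b2b_co b Ω (b.equivFun.symm a) := by
    funext j
    unfold b2b_co
    rw [← ha j]
    congr 1
    have := congrFun (b.equivFun.apply_symm_apply a) j
    rw [Module.Basis.equivFun_apply] at this
    exact this.symm
  rw [← b2b_MV_co, ← hya, ← hgy, b2b_MV_swap]

/-- if moreover `g'` is a unit then so is `c` -/
theorem torsor_unit {F : Type} [Field F] [Fintype F] {Ω : Type} [Field Ω] [Algebra F Ω]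
    {R : Type} [CommRing R] [Algebra F R] {N : ℕ} (b : Module.Basis (Fin N) F R)
    (g : Fin N → Ω) (c : R) (hu : (MV b Ω ((MM b Ω c).mulVec g)).det ≠ 0) : IsUnit c := by
  rw [b2b_MV_MM, Matrix.det_mul, b2b_det_MM] at hu
  have h1 : (Algebra.leftMulMatrix b c).det ≠ 0 := by
    intro h
    rw [h, map_zero, zero_mul] at hu
    exact hu rfl
  have hun : IsUnit (Algebra.leftMulMatrix b c).det := isUnit_iff_ne_zero.mpr h1
  set x : R := b.equivFun.symm ((Algebra.leftMulMatrix b c)⁻¹.mulVec (b.repr 1)) with hx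
  have h2 : c * x = 1 := by
    apply b.repr.injective
    apply DFunLike.coe_injective
    rw [← Algebra.leftMulMatrix_mulVec_repr]
    have h3 : (b.repr x : Fin N → F) = (Algebra.leftMulMatrix b c)⁻¹.mulVec (b.repr 1) := by
      rw [hx, ← Module.Basis.equivFun_apply, LinearEquiv.apply_symm_apply]
    rw [h3, Matrix.mulVec_mulVec, Matrix.mul_nonsing_inv _ hun, Matrix.one_mulVec]
  exact IsUnit.of_mul_eq_one x h2

/-- `c ↦ c g` is injective when `g` is a unit -/
theorem torsor_inj {F : Type} [Field F] [Fintype F] {Ω : Type} [Field Ω] [Algebra F Ω]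
    {R : Type} [CommRing R] [Algebra F R] {N : ℕ} (b : Module.Basis (Fin N) F R)
    (g : Fin N → Ω) (hu : (MV b Ω g).det ≠ 0) (c c' : R)
    (h : (MM b Ω c).mulVec g = (MM b Ω c').mulVec g) : c = c' := by
  have h1 := congrArg (MV b Ω) h
  rw [b2b_MV_MM, b2b_MV_MM] at h1
  have hun : IsUnit (MV b Ω g).det := isUnit_iff_ne_zero.mpr hu
  have h2 := congrArg (fun M => M * (MV b Ω g)⁻¹) h1
  simp only [Matrix.mul_assoc, Matrix.mul_nonsing_inv _ hun, Matrix.mul_one] at h2
  exact b2b_MM_inj b Ω h2

/-- multiplying a solution by an element of `R` gives a solution -/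
theorem torsor_smul {F : Type} [Field F] [Fintype F] {Ω : Type} [Field Ω] [Algebra F Ω]
    {R : Type} [CommRing R] [Algebra F R] {N : ℕ} (b : Module.Basis (Fin N) F R)
    (e g : Fin N → Ω) (hg : ∀ j, g j ^ Fintype.card F = ((MV b Ω e).mulVec g) j) (c : R) :
    ∀ j, ((MM b Ω c).mulVec g) j ^ Fintype.card F = ((MV b Ω e).mulVec ((MM b Ω c).mulVec g)) j := by
  intro j
  have h1 : ((MM b Ω c).mulVec g) j ^ Fintype.card F =
      ((MM b Ω c).mulVec (fun j => g j ^ Fintype.card F)) j := congrFun (b2b_MM_mulVec_frob b c g) j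
  rw [h1, funext hg, Matrix.mulVec_mulVec, Matrix.mulVec_mulVec, b2b_MM_MV_comm]


end Pool.Agent.H497.FF
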