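import Mathlib

set_option autoImplicit false

open Polynomial

namespace Pool.Agent.H497.FF

open Polynomial


/-- Galois part: `𝓖` (a finite commutative group) simply transitively labels the solutions `g c`; the Galois group
acts through translations. -/
theorem galois_part {K0 Ω : Type} [Field K0] [Field Ω] [Algebra K0 Ω] [IsGalois K0 Ω] {𝓖 : Type} [CommGroup 𝓖]
    [Finite 𝓖] {N : ℕ} (g : 𝓖 → Fin N → Ω)
    (hg : ∀ σ : Ω ≃ₐ[K0] Ω, ∃ c' : 𝓖, ∀ (c : 𝓖) (j : Fin N), σ (g c j) = g (c * c') j) (lam : Fin N → K0)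
    (hinj : Function.Injective (fun c : 𝓖 => ∑ j, algebraMap K0 Ω (lam j) * g c j)) :
    ∃ H : Subgroup 𝓖,
      (minpoly K0 (∑ j, algebraMap K0 Ω (lam j) * g 1 j)).natDegree = Nat.card H ∧
      (∀ c : 𝓖, c ∈ H ↔
        aeval (∑ j, algebraMap K0 Ω (lam j) * g c j) (minpoly K0 (∑ j, algebraMap K0 Ω (lam j) * g 1 j)) = 0) ∧
      (∀ (c : 𝓖) (j : Fin N), g c j ∈ IntermediateField.adjoin K0 {∑ j, algebraMap K0 Ω (lam j) * g 1 j}) ∧
      (minpoly K0 (∑ j, algebraMap K0 Ω (lam j) * g 1 j)).Separable := by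
  classical
  set θ : 𝓖 → Ω := fun c => ∑ j, algebraMap K0 Ω (lam j) * g c j with hθ
  have hσ : ∀ σ : Ω ≃ₐ[K0] Ω, ∃ c' : 𝓖, (∀ (c : 𝓖) (j : Fin N), σ (g c j) = g (c * c') j) ∧
      ∀ c, σ (θ c) = θ (c * c') := by
    intro σ
    obtain ⟨c', hc'⟩ := hg σ
    refine ⟨c', hc', fun c => ?_⟩
    simp only [hθ, map_sum, map_mul, AlgEquiv.commutes, hc']
  choose κ hκ1 hκ2 using hσ
  have hθ1 : (∑ j, algebraMap K0 Ω (lam j) * g 1 j) = θ 1 := rfl
  have hθc : ∀ c, (∑ j, algebraMap K0 Ω (lam j) * g c j) = θ c := fun _ => rfl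
  simp only [hθ1, hθc]
  have halg : IsAlgebraic K0 (θ 1) := Algebra.IsAlgebraic.isAlgebraic _
  have hint : IsIntegral K0 (θ 1) := halg.isIntegral
  let H : Subgroup 𝓖 :=
    { carrier := {c | ∃ σ : Ω ≃ₐ[K0] Ω, σ (θ 1) = θ c}
      mul_mem' := by
        rintro a b ⟨σ, hσ⟩ ⟨τ, hτ⟩
        have ha : κ σ = a := hinj (by
          show θ (κ σ) = θ a
          rw [← hσ, hκ2, one_mul])
        refine ⟨σ * τ, ?_⟩
        show σ (τ (θ 1)) = θ (a * b)
        rw [hτ, hκ2, ha, mul_comm]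
      one_mem' := ⟨1, rfl⟩
      inv_mem' := by
        rintro a ⟨σ, hσ⟩
        have ha : κ σ = a := hinj (by
          show θ (κ σ) = θ a
          rw [← hσ, hκ2, one_mul])
        refine ⟨σ⁻¹, ?_⟩
        have h1 : σ (θ a⁻¹) = θ 1 := by rw [hκ2, ha, inv_mul_cancel]
        rw [← h1]
        exact σ.symm_apply_apply _ }
  have hH : ∀ c, c ∈ H ↔ aeval (θ c) (minpoly K0 (θ 1)) = 0 := by
    intro c
    constructor
    · rintro ⟨σ, hσ⟩
      rw [← hσ]
      have := Polynomial.aeval_algHom_apply σ.toAlgHom (θ 1) (minpoly K0 (θ 1))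
      rw [minpoly.aeval, map_zero] at this
      exact this
    · intro h
      obtain ⟨σ, hσ⟩ := minpoly.exists_algEquiv_of_root' halg h
      exact ⟨σ, hσ⟩
  refine ⟨H, ?_, hH, ?_, ?_⟩
  · have hsep : (minpoly K0 (θ 1)).Separable := Algebra.IsSeparable.isSeparable K0 (θ 1)
    have hspl : ((minpoly K0 (θ 1)).map (algebraMap K0 Ω)).Splits := Normal.splits inferInstance _
    have h1 := Polynomial.card_rootSet_eq_natDegree hsep hspl
    rw [← h1, ← Nat.card_eq_fintype_card]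
    refine Nat.card_congr ((Equiv.ofBijective (fun c : H => (⟨θ c, ?_⟩ :
      (minpoly K0 (θ 1)).rootSet Ω)) ⟨?_, ?_⟩).symm)
    · rw [Polynomial.mem_rootSet_of_ne (minpoly.ne_zero hint)]
      exact (hH c).1 c.2
    · intro a b hab
      have : θ a = θ b := congrArg Subtype.val hab
      exact Subtype.ext (hinj this)
    · rintro ⟨y, hy⟩
      rw [Polynomial.mem_rootSet_of_ne (minpoly.ne_zero hint)] at hy
      obtain ⟨σ, hσ⟩ := minpoly.exists_algEquiv_of_root' halg hy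
      have h2 : θ (κ σ) = y := by rw [← hσ, hκ2, one_mul]
      refine ⟨⟨κ σ, ?_⟩, Subtype.ext h2⟩
      exact ⟨σ, by rw [hσ, h2]⟩
  · intro c j
    rw [← InfiniteGalois.fixedField_fixingSubgroup (IntermediateField.adjoin K0 {θ 1})]
    rw [IntermediateField.mem_fixedField_iff]
    intro σ hσ
    have h1 : σ (θ 1) = θ 1 := by
      rw [IntermediateField.mem_fixingSubgroup_iff] at hσ
      exact hσ _ (IntermediateField.mem_adjoin_simple_self K0 (θ 1))
    have h2 : κ σ = 1 := hinj (by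
      show θ (κ σ) = θ 1
      rw [hκ2, one_mul] at h1
      exact h1)
    rw [hκ1, h2, mul_one]
  · exact Algebra.IsSeparable.isSeparable K0 (θ 1)


end Pool.Agent.H497.FF
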