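import Mathlib

set_option autoImplicit false

open Polynomial

namespace Pool.Agent.H497.FF

open Polynomial


/-- finitely many nonzero vectors are not killed by the linear form `(1, x^T, x^(2T), ...)` for a suitable `T` -/
theorem exists_T {Ω : Type} [Field Ω] (x : Ω) (hx : Function.Injective (fun i : ℕ => x ^ i)) {N : ℕ} {S : Type}
    [Finite S] (v : S → Fin N → Ω) (hv : ∀ s, v s ≠ 0) :
    ∃ T : ℕ, ∀ s, ∑ j : Fin N, x ^ (T * (j : ℕ)) * v s j ≠ 0 := by
  classical
  have _ := Fintype.ofFinite S
  let P : S → Polynomial Ω := fun s => ∑ j : Fin N, C (v s j) * X ^ (j : ℕ)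
  have hcoef : ∀ s (j : Fin N), (P s).coeff (j : ℕ) = v s j := by
    intro s j
    simp only [P, finsetSum_coeff, coeff_C_mul, coeff_X_pow]
    rw [Finset.sum_eq_single j]
    · simp
    · intro i _ hij
      rw [if_neg (fun h => hij (Fin.ext h.symm)), mul_zero]
    · intro h
      exact absurd (Finset.mem_univ j) h
  have hP : ∀ s, P s ≠ 0 := by
    intro s h0
    apply hv s
    funext j
    rw [← hcoef s j, h0, coeff_zero]
    rfl
  have hfin : (⋃ s, {y : Ω | (P s).IsRoot y}).Finite :=
    Set.finite_iUnion fun s => Polynomial.finite_setOfPred_isRoot (hP s)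
  have hinf : (Set.range (fun i : ℕ => x ^ i)).Infinite := Set.infinite_range_of_injective hx
  obtain ⟨y, ⟨T, rfl⟩, hT⟩ := (hinf.sdiff hfin).nonempty
  refine ⟨T, fun s h0 => hT ?_⟩
  rw [Set.mem_iUnion]
  refine ⟨s, ?_⟩
  change (P s).eval (x ^ T) = 0
  rw [← h0]
  simp only [P, eval_finsetSum, eval_mul, eval_C, eval_pow, eval_X]
  exact Finset.sum_congr rfl fun j _ => by rw [pow_mul, mul_comm]

/-- all monomials are in the span of the reduced ones -/
theorem mono_mem_span {A Ω : Type} [CommRing A] [Field Ω] [Algebra A Ω] {N : ℕ} (q : ℕ) (hq : 2 ≤ q)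
    (E : Matrix (Fin N) (Fin N) A) (g : Fin N → Ω) (hg : ∀ j, g j ^ q = ∑ l, algebraMap A Ω (E j l) * g l) :
    ∀ (d : ℕ) (α : Fin N → ℕ), ∑ i, α i = d → ∏ i, g i ^ α i ∈
      Submodule.span A (Set.range fun β : Fin N → Fin q => ∏ i, g i ^ (β i : ℕ)) := by
  intro d
  induction d using Nat.strong_induction_on with
  | _ d ih =>
    intro α hα
    by_cases h : ∀ i, α i < q
    · exact Submodule.subset_span ⟨fun i => ⟨α i, h i⟩, rfl⟩
    · push Not at h
      obtain ⟨j, hj⟩ := h
      have h1 : ∏ i, g i ^ α i = ∑ l, E j l • ∏ i, g i ^ ((Function.update α j (α j - q)) i +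
          if i = l then 1 else 0) := by
        have h2 : ∏ i, g i ^ α i = g j ^ q * ∏ i, g i ^ (Function.update α j (α j - q)) i := by
          rw [← Finset.mul_prod_erase _ _ (Finset.mem_univ j),
            ← Finset.mul_prod_erase Finset.univ (fun i => g i ^ (Function.update α j (α j - q)) i)
              (Finset.mem_univ j), ← mul_assoc, Function.update_self, ← pow_add,
            Nat.add_sub_cancel' hj]
          congr 1
          refine Finset.prod_congr rfl fun i hi => ?_
          rw [Function.update_of_ne (Finset.ne_of_mem_erase hi)]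
        rw [h2, hg, Finset.sum_mul]
        refine Finset.sum_congr rfl fun l _ => ?_
        have h3 : ∏ i, g i ^ ((Function.update α j (α j - q)) i + if i = l then 1 else 0) =
            (∏ i, g i ^ (Function.update α j (α j - q)) i) * g l := by
          simp_rw [pow_add]
          rw [Finset.prod_mul_distrib]
          congr 1
          rw [Finset.prod_eq_single l]
          · simp
          · intro i _ hil
            simp [hil]
          · intro h
            exact absurd (Finset.mem_univ l) h
        rw [h3, Algebra.smul_def]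
        ring
      rw [h1]
      refine Submodule.sum_mem _ fun l _ => Submodule.smul_mem _ _ ?_
      have h4 : ∑ i, (Function.update α j (α j - q)) i + q = d := by
        rw [← hα, ← Finset.add_sum_erase _ α (Finset.mem_univ j),
          ← Finset.add_sum_erase Finset.univ (Function.update α j (α j - q)) (Finset.mem_univ j),
          Function.update_self]
        have h5 : ∑ i ∈ Finset.univ.erase j, (Function.update α j (α j - q)) i =
            ∑ i ∈ Finset.univ.erase j, α i :=
          Finset.sum_congr rfl fun i hi => by
            rw [Function.update_of_ne (Finset.ne_of_mem_erase hi)]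
        rw [h5]
        omega
      refine ih (∑ i, ((Function.update α j (α j - q)) i + if i = l then 1 else 0)) ?_ _ rfl
      rw [Finset.sum_add_distrib, Finset.sum_ite_eq' Finset.univ l, if_pos (Finset.mem_univ l)]
      omega

/-- solutions of `g^(q) = E g` are integral: the ring `A[g_1..g_N]` is spanned over `A` by the monomials with all
exponents `< q` -/
theorem integral_sol {A Ω : Type} [CommRing A] [Field Ω] [Algebra A Ω] {N : ℕ} (q : ℕ) (hq : 2 ≤ q)
    (E : Matrix (Fin N) (Fin N) A) (g : Fin N → Ω) (hg : ∀ j, g j ^ q = ∑ l, algebraMap A Ω (E j l) * g l) (j : Fin N) :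
    IsIntegral A (g j) := by
  classical
  have hmono : ∀ y ∈ Submonoid.closure (Set.range g), ∃ α : Fin N → ℕ, y = ∏ i, g i ^ α i := by
    intro y hy
    induction hy using Submonoid.closure_induction with
    | mem y hy =>
      obtain ⟨l, rfl⟩ := hy
      refine ⟨fun i => if i = l then 1 else 0, ?_⟩
      rw [Finset.prod_eq_single l]
      · simp
      · intro i _ hil
        simp [hil]
      · intro h
        exact absurd (Finset.mem_univ l) h
    | one => exact ⟨0, by simp⟩
    | mul y z _ _ hy hz =>
      obtain ⟨α, rfl⟩ := hy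
      obtain ⟨β, rfl⟩ := hz
      refine ⟨α + β, ?_⟩
      rw [← Finset.prod_mul_distrib]
      exact Finset.prod_congr rfl fun i _ => by rw [Pi.add_apply, pow_add]
  have heq : Subalgebra.toSubmodule (Algebra.adjoin A (Set.range g)) =
      Submodule.span A (Set.range fun β : Fin N → Fin q => ∏ i, g i ^ (β i : ℕ)) := by
    rw [Algebra.adjoin_eq_span]
    apply le_antisymm
    · rw [Submodule.span_le]
      intro y hy
      obtain ⟨α, rfl⟩ := hmono y hy
      exact mono_mem_span q hq E g hg _ α rfl
    · rw [Submodule.span_le]
      rintro y ⟨β, rfl⟩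
      apply Submodule.subset_span
      exact Submonoid.prod_mem _ fun i _ =>
        Submonoid.pow_mem _ (Submonoid.subset_closure (Set.mem_range_self i)) _
  refine IsIntegral.of_mem_of_fg (Algebra.adjoin A (Set.range g)) ?_ (g j)
    (Algebra.subset_adjoin (Set.mem_range_self j))
  rw [heq]
  exact Submodule.fg_span (Set.finite_range _)


end Pool.Agent.H497.FF
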