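import Pool.Agent.H497.FF.B1
import Pool.Agent.H497.FF.B2
import Pool.Agent.H497.FF.B2b
import Pool.Agent.H497.FF.B3t
import Pool.Agent.H497.FF.B3g
import Pool.Agent.H497.FF.B3p

set_option autoImplicit false



namespace Pool.Agent.H497.FF

open Polynomial


noncomputable section

end

noncomputable section

end

/-! Lemmas proved elsewhere (leave their `sorry`s). -/

/-! The theorem to prove.

Take `k = AlgebraicClosure F`, `K0 = RatFunc k`, `Ω = SeparableClosure K0`, `x` = the image of `X`. By `lang` and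
`unit_solution` there is `g : Fin N → Ω` with `g_j^q = (E g)_j`, `E = MV b Ω (ee b Ω e0 e1 x)
= MM b Ω e0 - x • MM b Ω e1`, a unit. For `σ ∈ Gal(Ω/K0)` the vector `σ g` is again a unit solution, so
`σ g = c g` with `c ∈ Rˣ` (`torsor`, `torsor_unit`); `σ (c g) = c σ(g)` as `MM b Ω c` has entries in `F`.
Choose `T` with `exists_T` so that the `θ_c = ∑_j x^(T j) (c g)_j` (`c ∈ R`) are pairwise distinct (`torsor_inj`: the
vectors `(c - c') g` are nonzero). Apply `galois_part` with `𝓖 = Rˣ`, `lam j = X^(T j)`; `integral_sol`; `poly_data`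
for `θ_1` and the vector `g`. The polynomials `Gc` represent `Δ θ_c`. For `c ∉ H`, `θ_c` is not a root of `μ`; take
`V_c = ∑_i C (μ.coeff i) * Gc^i * C (Δ^(n-i))`, (so `V_c(θ) = Δ^n μ(θ_c) ≠ 0`), apply `coprime_spec` and
let `δ` be the product over all `c ∉ H`. -/

theorem mv_apply {Ω : Type} [Field Ω] {N : ℕ} (M : Matrix (Fin N) (Fin N) Ω) (v : Fin N → Ω) (i : Fin N) :
    M.mulVec v i = ∑ j, M i j * v j := rfl

section aux

variable {F : Type} [Field F] {Ω : Type} [Field Ω] [Algebra F Ω]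
  {R : Type} [CommRing R] [Algebra F R] {N : ℕ} (b : Module.Basis (Fin N) F R)

theorem MM_mul (c c' : R) : MM b Ω (c * c') = MM b Ω c * MM b Ω c' := by
  unfold MM
  rw [map_mul, Matrix.map_mul]

theorem MM_one : MM b Ω (1 : R) = 1 := by
  unfold MM
  rw [map_one, Matrix.map_one _ (map_zero _) (map_one _)]

theorem MM_sub (c c' : R) : MM b Ω (c - c') = MM b Ω c - MM b Ω c' := by
  unfold MM
  rw [map_sub, Matrix.map_sub]
  intro a b
  exact map_sub _ a b

theorem MM_sum_repr (c : R) : MM b Ω c = ∑ j, algebraMap F Ω (b.repr c j) • MM b Ω (b j) := by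
  have h : c = ∑ j, b.repr c j • b j := (b.sum_repr c).symm
  unfold MM
  ext i l
  conv_lhs => rw [h]
  rw [Matrix.map_apply, map_sum, Matrix.sum_apply, map_sum, Matrix.sum_apply]
  refine Finset.sum_congr rfl fun j _ => ?_
  rw [map_smul, Matrix.smul_apply, Matrix.smul_apply, Matrix.map_apply, smul_eq_mul, smul_eq_mul,
    map_mul]

theorem MV_ee (e0 e1 : R) (x : Ω) :
    MV b Ω (ee b Ω e0 e1 x) = MM b Ω e0 - x • MM b Ω e1 := by
  unfold MV ee
  rw [MM_sum_repr b e0, MM_sum_repr b e1, Finset.smul_sum, ← Finset.sum_sub_distrib]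
  refine Finset.sum_congr rfl fun j _ => ?_
  rw [sub_smul, mul_smul]

/-- a ring homomorphism which fixes `F` commutes with `MV` -/
theorem MV_map (σ : Ω →+* Ω) (hσ : ∀ a : F, σ (algebraMap F Ω a) = algebraMap F Ω a)
    (g : Fin N → Ω) : MV b Ω (fun j => σ (g j)) = (MV b Ω g).map σ := by
  unfold MV MM
  ext i l
  rw [Matrix.map_apply, Matrix.sum_apply, Matrix.sum_apply, map_sum]
  refine Finset.sum_congr rfl fun j _ => ?_
  rw [Matrix.smul_apply, Matrix.smul_apply, Matrix.map_apply, smul_eq_mul, smul_eq_mul, map_mul, hσ]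

theorem MM_mulVec_map (σ : Ω →+* Ω) (hσ : ∀ a : F, σ (algebraMap F Ω a) = algebraMap F Ω a)
    (c : R) (g : Fin N → Ω) (j : Fin N) :
    σ ((MM b Ω c).mulVec g j) = (MM b Ω c).mulVec (fun j => σ (g j)) j := by
  rw [mv_apply, mv_apply, map_sum]
  refine Finset.sum_congr rfl fun l _ => ?_
  unfold MM
  rw [map_mul, Matrix.map_apply, hσ]

end aux

theorem V_eval {k : Type} [Field k] (μ W : k[X][X]) (Δ : k[X]) (a τ : k) (hΔ : Δ.eval a ≠ 0) :
    (∑ i ∈ Finset.range (μ.natDegree + 1), C (μ.coeff i) * W ^ i * C (Δ ^ (μ.natDegree - i))).evalEval a τ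
      = Δ.eval a ^ μ.natDegree * μ.evalEval a (W.evalEval a τ / Δ.eval a) := by
  have h1 : μ.evalEval a (W.evalEval a τ / Δ.eval a) =
      ∑ i ∈ Finset.range (μ.natDegree + 1), (μ.coeff i).eval a * (W.evalEval a τ / Δ.eval a) ^ i := by
    rw [← map_evalRingHom_eval, eval_eq_sum_range' (n := μ.natDegree + 1)
      (Nat.lt_succ_of_le natDegree_map_le)]
    refine Finset.sum_congr rfl fun i _ => ?_
    rw [coeff_map, coe_evalRingHom]
  rw [h1, Finset.mul_sum, ← coe_evalEvalRingHom, map_sum]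
  refine Finset.sum_congr rfl fun i hi => ?_
  rw [map_mul, map_mul, map_pow, coe_evalEvalRingHom, evalEval_C, evalEval_C, eval_pow, div_pow]
  have hle : i ≤ μ.natDegree := Nat.lt_succ_iff.1 (Finset.mem_range.1 hi)
  have h2 : Δ.eval a ^ μ.natDegree = Δ.eval a ^ (μ.natDegree - i) * Δ.eval a ^ i := by
    rw [← pow_add, Nat.sub_add_cancel hle]
  rw [h2]
  have h3 : Δ.eval a ^ i ≠ 0 := pow_ne_zero _ hΔ
  field_simp

theorem V_aeval {k Ω : Type} [Field k] [Field Ω] [Algebra k[X] Ω] (μ W : k[X][X]) (Δ : k[X]) (θ θc : Ω)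
    (hW : aeval θ W = algebraMap k[X] Ω Δ * θc) :
    aeval θ (∑ i ∈ Finset.range (μ.natDegree + 1), C (μ.coeff i) * W ^ i * C (Δ ^ (μ.natDegree - i)))
      = algebraMap k[X] Ω Δ ^ μ.natDegree * aeval θc μ := by
  rw [aeval_eq_sum_range (p := μ) θc, Finset.mul_sum, map_sum]
  refine Finset.sum_congr rfl fun i hi => ?_
  have hle : i ≤ μ.natDegree := Nat.lt_succ_iff.1 (Finset.mem_range.1 hi)
  rw [map_mul, map_mul, map_pow, aeval_C, aeval_C, hW, map_pow, mul_pow, Algebra.smul_def]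
  have h2 : algebraMap k[X] Ω Δ ^ μ.natDegree =
      algebraMap k[X] Ω Δ ^ (μ.natDegree - i) * algebraMap k[X] Ω Δ ^ i := by
    rw [← pow_add, Nat.sub_add_cancel hle]
  rw [h2]
  ring

theorem torsor_data_aux {F : Type} [Field F] [Fintype F] {R : Type} [CommRing R] [Algebra F R] {N : ℕ}
    (b : Module.Basis (Fin N) F R) (e0 e1 : R) (hdet : (EX b e0 e1).det ≠ 0)
    (Ω : Type) [Field Ω] [Algebra F Ω] [Algebra (AlgebraicClosure F)[X] Ω]
    [Algebra (RatFunc (AlgebraicClosure F)) Ω]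
    [IsScalarTower (AlgebraicClosure F)[X] (RatFunc (AlgebraicClosure F)) Ω]
    [IsSepClosed Ω] [IsGalois (RatFunc (AlgebraicClosure F)) Ω]
    (hF : ∀ a : F, algebraMap F Ω a =
      algebraMap (AlgebraicClosure F)[X] Ω (C (algebraMap F (AlgebraicClosure F) a))) :
    TorsorData b e0 e1 := by
  classical
  set k := AlgebraicClosure F with hk
  set x : Ω := algebraMap k[X] Ω X with hx
  have hinjΩ : Function.Injective (algebraMap k[X] Ω) := by
    rw [IsScalarTower.algebraMap_eq k[X] (RatFunc k) Ω]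
    exact (algebraMap (RatFunc k) Ω).injective.comp (RatFunc.algebraMap_injective k)
  -- the matrix
  have hE : ∀ j l, MV b Ω (ee b Ω e0 e1 x) j l = algebraMap k[X] Ω (Ent b e0 e1 j l) := by
    intro j l
    rw [MV_ee, Matrix.sub_apply, Matrix.smul_apply]
    unfold MM Ent EX
    rw [Matrix.map_apply, Matrix.map_apply, Matrix.of_apply, Polynomial.map_sub, Polynomial.map_mul,
      Polynomial.map_C, Polynomial.map_C, Polynomial.map_X, map_sub, map_mul, ← hF, ← hF, smul_eq_mul,
      ← hx, mul_comm x]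
  have hEdet : (MV b Ω (ee b Ω e0 e1 x)).det ≠ 0 := by
    have h1 : MV b Ω (ee b Ω e0 e1 x) =
        (((EX b e0 e1).map (Polynomial.mapRingHom (algebraMap F k))).map (algebraMap k[X] Ω)) := by
      ext j l
      rw [hE]
      rfl
    rw [h1]
    have h2 : (((EX b e0 e1).map (Polynomial.mapRingHom (algebraMap F k))).map (algebraMap k[X] Ω)).det =
        algebraMap k[X] Ω (Polynomial.mapRingHom (algebraMap F k) (EX b e0 e1).det) := by
      rw [RingHom.map_det, RingHom.map_det]
      rfl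
    rw [h2]
    intro h3
    have h4 := hinjΩ (h3.trans (map_zero _).symm)
    exact hdet (Polynomial.map_injective _ (algebraMap F k).injective (h4.trans (Polynomial.map_zero _).symm))
  -- characteristic
  obtain ⟨p, hp⟩ := CharP.exists F
  obtain ⟨s, hpp, hcard⟩ := FiniteField.card F p
  haveI : Fact p.Prime := ⟨hpp⟩
  haveI : CharP Ω p := charP_of_injective_algebraMap (algebraMap F Ω).injective p
  have hL : ∀ (N : ℕ) (E : Matrix (Fin N) (Fin N) Ω), E.det ≠ 0 →
      ∃ U : Matrix (Fin N) (Fin N) Ω, U.det ≠ 0 ∧ U.map (fun x => x ^ (Fintype.card F)) = E * U := by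
    intro N E hE
    rw [hcard]
    exact lang p s s.pos N E hE
  obtain ⟨g, hg, hgu⟩ := unit_solution hL b (ee b Ω e0 e1 x) hEdet
  -- translates
  set gg : R → Fin N → Ω := fun c => (MM b Ω c).mulVec g with hgg
  have hgg1 : gg 1 = g := by
    rw [hgg]
    show (MM b Ω 1).mulVec g = g
    rw [MM_one, Matrix.one_mulVec]
  have hggm : ∀ c c', gg (c * c') = (MM b Ω c).mulVec (gg c') := by
    intro c c'
    show (MM b Ω (c * c')).mulVec g = (MM b Ω c).mulVec ((MM b Ω c').mulVec g)
    rw [MM_mul, Matrix.mulVec_mulVec]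
  have hfinb : Module.Finite F R := Module.Finite.of_basis b
  have hfinR : Finite R := Module.finite_of_finite F
  -- Galois action
  have hσF : ∀ (σ : Ω ≃ₐ[RatFunc k] Ω) (a : k[X]), σ (algebraMap k[X] Ω a) = algebraMap k[X] Ω a := by
    intro σ a
    rw [IsScalarTower.algebraMap_apply k[X] (RatFunc k) Ω]
    exact σ.commutes _
  have hσ1 : ∀ (σ : Ω ≃ₐ[RatFunc k] Ω) (a : F), σ (algebraMap F Ω a) = algebraMap F Ω a := by
    intro σ a
    rw [hF]
    exact hσF σ _
  have hgal : ∀ σ : Ω ≃ₐ[RatFunc k] Ω, ∃ c' : Rˣ, ∀ (c : Rˣ) (j : Fin N),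
      σ (gg (c : R) j) = gg ((c * c' : Rˣ) : R) j := by
    intro σ
    have h1 : ∀ j, (fun j => σ (g j)) j ^ Fintype.card F =
        ((MV b Ω (ee b Ω e0 e1 x)).mulVec (fun j => σ (g j))) j := by
      intro j
      show σ (g j) ^ Fintype.card F = _
      rw [← map_pow, hg j, mv_apply, mv_apply, map_sum]
      refine Finset.sum_congr rfl fun l _ => ?_
      rw [map_mul, hE, hσF]
    obtain ⟨c', hc'⟩ := torsor b _ g _ hg h1 hgu
    have h2 : (MV b Ω (fun j => σ (g j))).det ≠ 0 := by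
      have := MV_map b (σ : Ω →+* Ω) (hσ1 σ) g
      have h3 : MV b Ω (fun j => σ (g j)) = (MV b Ω g).map (σ : Ω →+* Ω) := this
      rw [h3]
      have h4 : ((MV b Ω g).map (σ : Ω →+* Ω)).det = (σ : Ω →+* Ω) (MV b Ω g).det := by
        rw [RingHom.map_det]
        rfl
      rw [h4]
      exact (_root_.map_ne_zero _).2 hgu
    have h5 : IsUnit c' := torsor_unit b g c' (by rw [← hc']; exact h2)
    refine ⟨h5.unit, fun c j => ?_⟩
    have h6 : σ (gg (c : R) j) = (MM b Ω (c : R)).mulVec (fun j => σ (g j)) j :=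
      MM_mulVec_map b (σ : Ω →+* Ω) (hσ1 σ) (c : R) g j
    rw [h6, hc']
    show _ = gg ((c : R) * ((h5.unit : Rˣ) : R)) j
    rw [hggm, IsUnit.unit_spec]
  -- choice of `T`
  have hxinj : Function.Injective (fun i : ℕ => x ^ i) := by
    intro i j hij
    have h1 : algebraMap k[X] Ω (X ^ i) = algebraMap k[X] Ω (X ^ j) := by
      rw [map_pow, map_pow]
      exact hij
    have h2 := hinjΩ h1
    have h3 := congrArg Polynomial.natDegree h2
    rwa [natDegree_X_pow, natDegree_X_pow] at h3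
  obtain ⟨T, hT⟩ := exists_T x hxinj (S := {s : R × R // s.1 ≠ s.2})
    (fun s => gg s.1.1 - gg s.1.2) (fun s h => s.2 (torsor_inj b g hgu _ _ (sub_eq_zero.1 h)))
  set lam : Fin N → RatFunc k := fun j => algebraMap k[X] (RatFunc k) (X ^ (T * (j : ℕ))) with hlam
  have hlamΩ : ∀ j, algebraMap (RatFunc k) Ω (lam j) = x ^ (T * (j : ℕ)) := by
    intro j
    rw [hlam]
    show algebraMap (RatFunc k) Ω (algebraMap k[X] (RatFunc k) (X ^ (T * (j : ℕ)))) = _
    rw [← IsScalarTower.algebraMap_apply k[X] (RatFunc k) Ω, map_pow]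
  obtain ⟨H, hH1, hH2, hH3, hH4⟩ := galois_part (K0 := RatFunc k) (Ω := Ω) (𝓖 := Rˣ)
    (fun c => gg (c : R)) hgal lam (by
      intro c c' hcc
      by_contra hne
      have h1 := hT ⟨((c : R), (c' : R)), fun h => hne (Units.ext h)⟩
      apply h1
      have h2 : ∑ j, algebraMap (RatFunc k) Ω (lam j) * gg (c : R) j =
        ∑ j, algebraMap (RatFunc k) Ω (lam j) * gg (c' : R) j := hcc
      have h3 : ∑ j : Fin N, x ^ (T * (j : ℕ)) * (gg (c : R) - gg (c' : R)) j =
          ∑ j, algebraMap (RatFunc k) Ω (lam j) * gg (c : R) j -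
            ∑ j, algebraMap (RatFunc k) Ω (lam j) * gg (c' : R) j := by
        rw [← Finset.sum_sub_distrib]
        refine Finset.sum_congr rfl fun j _ => ?_
        rw [hlamΩ, Pi.sub_apply]
        ring
      show ∑ j : Fin N, x ^ (T * (j : ℕ)) * (gg (c : R) - gg (c' : R)) j = 0
      rw [h3, h2, sub_self])
  simp only [Units.val_one, hgg1] at hH1 hH2 hH3 hH4
  set θ : Ω := ∑ j, algebraMap (RatFunc k) Ω (lam j) * g j with hθ
  -- integrality
  have hgint : ∀ j, IsIntegral k[X] (g j) := by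
    intro j
    refine integral_sol (A := k[X]) (Fintype.card F) Fintype.one_lt_card (fun j l => Ent b e0 e1 j l) g
      (fun j => ?_) j
    rw [hg j, mv_apply]
    refine Finset.sum_congr rfl fun l _ => ?_
    rw [hE]
  have hθint : IsIntegral k[X] θ := by
    rw [hθ]
    refine IsIntegral.sum _ fun j _ => ?_
    rw [hlamΩ]
    exact ((isIntegral_algebraMap (R := k[X]) (x := (X : k[X]))).pow _).mul (hgint j)
  obtain ⟨μ, hμm, hμmap, hμdvd, hμdata⟩ := poly_data θ hθint
  obtain ⟨Δ, G, hΔ, hG⟩ := hμdata N g (fun j => by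
    have := hH3 1 j
    simpa only [Units.val_one, hgg1] using this)
  have hΔΩ : algebraMap k[X] Ω Δ ≠ 0 := fun h => hΔ (hinjΩ (h.trans (map_zero _).symm))
  have hirr : Irreducible (μ.map (algebraMap k[X] (RatFunc k))) := by
    rw [hμmap]
    exact minpoly.irreducible (hθint.tower_top)
  -- the values of `Gc`
  have hGc : ∀ c : R, aeval θ (Gc b T G c) =
      algebraMap k[X] Ω Δ * ∑ j, algebraMap (RatFunc k) Ω (lam j) * gg c j := by
    intro c
    unfold Gc
    rw [map_sum, Finset.mul_sum]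
    refine Finset.sum_congr rfl fun j _ => ?_
    rw [map_mul, aeval_C, map_sum, hlamΩ, map_pow]
    show x ^ (T * (j : ℕ)) * _ = algebraMap k[X] Ω Δ * (x ^ (T * (j : ℕ)) * (MM b Ω c).mulVec g j)
    have h1 : ∑ l, aeval θ (C (C (algebraMap F (AlgebraicClosure F) (Algebra.leftMulMatrix b c j l))) * G l) =
        algebraMap k[X] Ω Δ * (MM b Ω c).mulVec g j := by
      rw [mv_apply, Finset.mul_sum]
      refine Finset.sum_congr rfl fun l _ => ?_
      rw [map_mul, aeval_C, ← hG, ← hF]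
      unfold MM
      rw [Matrix.map_apply]
      ring
    rw [h1]
    ring
  have hVc : ∀ c : Rˣ, c ∉ H → ∃ δ : k[X], δ ≠ 0 ∧ ∀ a τ : k, μ.evalEval a τ = 0 →
      (∑ i ∈ Finset.range (μ.natDegree + 1),
        C (μ.coeff i) * (Gc b T G (c : R)) ^ i * C (Δ ^ (μ.natDegree - i))).evalEval a τ = 0 →
      δ.eval a = 0 := by
    intro c hc
    refine coprime_spec μ _ hirr ?_
    intro hdvd
    have h1 : aeval θ (∑ i ∈ Finset.range (μ.natDegree + 1),
        C (μ.coeff i) * (Gc b T G (c : R)) ^ i * C (Δ ^ (μ.natDegree - i))) = 0 := by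
      rw [hμmap] at hdvd
      rw [minpoly.dvd_iff, aeval_map_algebraMap] at hdvd
      exact hdvd
    rw [V_aeval μ _ Δ θ _ (hGc (c : R))] at h1
    rcases mul_eq_zero.1 h1 with h2 | h2
    · exact pow_ne_zero _ hΔΩ h2
    · apply hc
      rw [hH2, ← hμmap, aeval_map_algebraMap]
      exact h2
  choose δ hδ0 hδ using hVc
  haveI : Fintype Rˣ := Fintype.ofFinite _
  refine ⟨H, μ, Δ, G, T, ∏ c : Rˣ, (if h : c ∈ H then 1 else δ c h), hμm, hirr, ?_, ?_, hΔ, ?_, ?_, ?_, ?_⟩
  · rw [hμmap]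
    exact hH4
  · rw [← hH1, ← hμmap]
    exact (hμm.natDegree_map _).symm
  · rw [Finset.prod_ne_zero_iff]
    intro c _
    split_ifs with h
    · exact one_ne_zero
    · exact hδ0 c h
  · intro j
    rw [← hμdvd]
    have h1 : ∑ l, aeval θ (C (Ent b e0 e1 j l) * G l) = algebraMap k[X] Ω Δ * g j ^ Fintype.card F := by
      rw [hg j, mv_apply, Finset.mul_sum]
      refine Finset.sum_congr rfl fun l _ => ?_
      rw [map_mul, aeval_C, ← hG, hE]
      ring
    rw [map_sub, map_pow, map_mul, map_sum, h1, aeval_C, ← hG, map_pow, mul_pow]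
    have h2 : algebraMap k[X] Ω Δ ^ Fintype.card F =
        algebraMap k[X] Ω Δ ^ (Fintype.card F - 1) * algebraMap k[X] Ω Δ := by
      rw [← pow_succ, Nat.sub_add_cancel Fintype.card_pos]
    rw [h2]
    ring
  · rw [← hμdvd, map_sub, map_mul, aeval_C, aeval_X, map_sum]
    have h1 : ∑ j : Fin N, aeval θ (C (X ^ (T * (j : ℕ))) * G j) = algebraMap k[X] Ω Δ * θ := by
      rw [hθ, Finset.mul_sum]
      refine Finset.sum_congr rfl fun j _ => ?_
      rw [map_mul, aeval_C, ← hG, hlamΩ, map_pow]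
      ring
    rw [h1, sub_self]
  · intro c hc a τ hΔa hδa hμa h0
    apply hδa
    have h1 := hδ c hc a τ hμa (by
      rw [V_eval μ _ Δ a τ hΔa, h0, mul_zero])
    rw [eval_prod]
    refine Finset.prod_eq_zero (Finset.mem_univ c) ?_
    rw [dif_neg hc]
    exact h1

theorem torsor_data {F : Type} [Field F] [Fintype F] {R : Type} [CommRing R] [Algebra F R] {N : ℕ}
    (b : Module.Basis (Fin N) F R) (e0 e1 : R) (hdet : (EX b e0 e1).det ≠ 0) : TorsorData b e0 e1 := by
  letI a1 : Algebra (AlgebraicClosure F)[X] (SeparableClosure (RatFunc (AlgebraicClosure F))) :=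
    ((algebraMap (RatFunc (AlgebraicClosure F)) (SeparableClosure (RatFunc (AlgebraicClosure F)))).comp
      (algebraMap (AlgebraicClosure F)[X] (RatFunc (AlgebraicClosure F)))).toAlgebra
  haveI t1 : IsScalarTower (AlgebraicClosure F)[X] (RatFunc (AlgebraicClosure F))
      (SeparableClosure (RatFunc (AlgebraicClosure F))) := IsScalarTower.of_algebraMap_eq fun _ => rfl
  letI a2 : Algebra F (SeparableClosure (RatFunc (AlgebraicClosure F))) :=
    ((algebraMap (AlgebraicClosure F)[X] (SeparableClosure (RatFunc (AlgebraicClosure F)))).comp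
      (C.comp (algebraMap F (AlgebraicClosure F)))).toAlgebra
  exact torsor_data_aux b e0 e1 hdet (SeparableClosure (RatFunc (AlgebraicClosure F))) fun _ => rfl


end Pool.Agent.H497.FF
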