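import Pool.Agent.H497.FF.CDefs

set_option autoImplicit false



namespace Pool.Agent.H497.FF

open Polynomial



/-! ### auxiliary lemmas for `core` -/

theorem sum_anti_le (K : ℕ) (F : ℕ → ℕ → ℝ) (hF : ∀ i j, 0 ≤ F i j) :
    ∑ m ∈ Finset.range K, ∑ p ∈ Finset.HasAntidiagonal.antidiagonal m, F p.1 p.2 ≤
      ∑ i ∈ Finset.range K, ∑ j ∈ Finset.range K, F i j := by
  rw [← Finset.sum_product']
  set s := (Finset.range K ×ˢ Finset.range K).filter (fun p : ℕ × ℕ => p.1 + p.2 < K) with hs
  have h1 : ∑ m ∈ Finset.range K, ∑ p ∈ Finset.HasAntidiagonal.antidiagonal m, F p.1 p.2 =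
      ∑ p ∈ s, F p.1 p.2 := by
    rw [← Finset.sum_fiberwise_of_maps_to (s := s) (t := Finset.range K)
      (g := fun p : ℕ × ℕ => p.1 + p.2)]
    · apply Finset.sum_congr rfl
      intro m hm
      apply Finset.sum_congr _ (fun _ _ => rfl)
      ext p
      simp only [hs, Finset.HasAntidiagonal.mem_antidiagonal, Finset.mem_filter, Finset.mem_product,
        Finset.mem_range] at hm ⊢
      omega
    · intro p hp
      simp only [hs, Finset.mem_filter, Finset.mem_product, Finset.mem_range] at hp ⊢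
      exact hp.2
  rw [h1]
  exact Finset.sum_le_sum_of_subset_of_nonneg (Finset.filter_subset _ _)
    (fun p _ _ => hF p.1 p.2)

theorem maj (K : ℕ) (c d : ℕ → ℝ) (hc : ∀ k, 0 ≤ c k) (hd : ∀ k, 0 ≤ d k) (c0 : c 0 = 1)
    (h : ∀ k : ℕ, (k : ℝ) * c k ≤ ∑ j ∈ Finset.range k, d (j + 1) * c (k - 1 - j)) :
    ∑ k ∈ Finset.range K, c k ≤ Real.exp (∑ j ∈ Finset.range K, d j / j) := by
  cases K with
  | zero => simp
  | succ K =>
    set P : ℝ → ℝ := fun t => ∑ k ∈ Finset.range (K + 1), c k * t ^ k with hP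
    set Q : ℝ → ℝ := fun t => ∑ j ∈ Finset.range (K + 1), d j / j * t ^ j with hQ
    set P' : ℝ → ℝ := fun t => ∑ k ∈ Finset.range (K + 1), c k * (k * t ^ (k - 1)) with hP'
    set Q' : ℝ → ℝ := fun t => ∑ j ∈ Finset.range (K + 1), d j / j * (j * t ^ (j - 1)) with hQ'
    have dP : ∀ t, HasDerivAt P (P' t) t := by
      intro t
      rw [hP, hP']
      apply HasDerivAt.fun_sum
      intro k _
      exact (hasDerivAt_pow k t).const_mul (c k)
    have dQ : ∀ t, HasDerivAt Q (Q' t) t := by
      intro t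
      rw [hQ, hQ']
      apply HasDerivAt.fun_sum
      intro k _
      exact (hasDerivAt_pow k t).const_mul (d k / k)
    have df : ∀ t, HasDerivAt (fun t => P t * Real.exp (-Q t))
        (P' t * Real.exp (-Q t) + P t * (Real.exp (-Q t) * (-Q' t))) t := by
      intro t
      exact (dP t).mul ((dQ t).neg.exp)
    have key : ∀ t, 0 ≤ t → P' t ≤ P t * Q' t := by
      intro t ht
      have e1 : P' t = ∑ m ∈ Finset.range K, (((m + 1 : ℕ) : ℝ) * c (m + 1)) * t ^ m := by
        simp only [hP']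
        rw [Finset.sum_range_succ']
        simp only [Nat.cast_zero, zero_mul, mul_zero, add_zero, Nat.add_sub_cancel]
        apply Finset.sum_congr rfl
        intro m _
        ring
      have e2 : ∀ m : ℕ, (((m + 1 : ℕ) : ℝ) * c (m + 1)) * t ^ m ≤
          ∑ p ∈ Finset.HasAntidiagonal.antidiagonal m, (d (p.1 + 1) * t ^ p.1) * (c p.2 * t ^ p.2) := by
        intro m
        have h1 := h (m + 1)
        rw [Finset.Nat.sum_antidiagonal_eq_sum_range_succ_mk]
        calc (((m + 1 : ℕ) : ℝ) * c (m + 1)) * t ^ m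
            ≤ (∑ j ∈ Finset.range (m + 1), d (j + 1) * c (m + 1 - 1 - j)) * t ^ m :=
              mul_le_mul_of_nonneg_right h1 (pow_nonneg ht m)
          _ = _ := by
              rw [Finset.sum_mul]
              apply Finset.sum_congr rfl
              intro j hj
              have hj' : j ≤ m := by
                have := Finset.mem_range.mp hj
                omega
              have e3 : t ^ m = t ^ j * t ^ (m - j) := by
                rw [← pow_add]; congr 1; omega
              simp only [Nat.add_sub_cancel]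
              rw [e3]
              ring
      have e4 : Q' t = ∑ m ∈ Finset.range K, d (m + 1) * t ^ m := by
        simp only [hQ']
        rw [Finset.sum_range_succ']
        simp only [Nat.cast_zero, zero_mul, mul_zero, add_zero, Nat.add_sub_cancel]
        apply Finset.sum_congr rfl
        intro m _
        have : ((m + 1 : ℕ) : ℝ) ≠ 0 := by exact_mod_cast Nat.succ_ne_zero m
        field_simp
      have hQ'0 : 0 ≤ Q' t := by
        rw [e4]
        exact Finset.sum_nonneg (fun m _ => mul_nonneg (hd _) (pow_nonneg ht _))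
      calc P' t = _ := e1
        _ ≤ ∑ m ∈ Finset.range K,
            ∑ p ∈ Finset.HasAntidiagonal.antidiagonal m, (d (p.1 + 1) * t ^ p.1) * (c p.2 * t ^ p.2) :=
            Finset.sum_le_sum (fun m _ => e2 m)
        _ ≤ ∑ i ∈ Finset.range K, ∑ j ∈ Finset.range K, (d (i + 1) * t ^ i) * (c j * t ^ j) :=
            sum_anti_le K (fun i j => (d (i + 1) * t ^ i) * (c j * t ^ j))
              (fun i j => mul_nonneg (mul_nonneg (hd _) (pow_nonneg ht _))
                (mul_nonneg (hc _) (pow_nonneg ht _)))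
        _ = Q' t * ∑ j ∈ Finset.range K, c j * t ^ j := by
            rw [e4, Finset.sum_mul_sum]
        _ ≤ Q' t * P t := by
            apply mul_le_mul_of_nonneg_left _ hQ'0
            simp only [hP]
            exact Finset.sum_le_sum_of_subset_of_nonneg
              (Finset.range_mono (Nat.le_succ K))
              (fun j _ _ => mul_nonneg (hc _) (pow_nonneg ht _))
        _ = P t * Q' t := mul_comm _ _
    have anti : AntitoneOn (fun t => P t * Real.exp (-Q t)) (Set.Icc 0 1) := by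
      apply antitoneOn_of_deriv_nonpos (convex_Icc 0 1)
      · exact fun t _ => (df t).continuousAt.continuousWithinAt
      · exact fun t _ => (df t).differentiableAt.differentiableWithinAt
      · intro t ht
        rw [interior_Icc] at ht
        rw [(df t).deriv]
        have h1 := key t ht.1.le
        have h2 := Real.exp_pos (-Q t)
        nlinarith
    have hfin := anti (Set.left_mem_Icc.mpr zero_le_one) (Set.right_mem_Icc.mpr zero_le_one)
      zero_le_one
    have hP0 : P 0 = 1 := by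
      simp only [hP]
      rw [Finset.sum_range_succ']
      simp [c0]
    have hQ0 : Q 0 = 0 := by
      simp only [hQ]
      rw [Finset.sum_range_succ']
      simp
    have hP1 : P 1 = ∑ k ∈ Finset.range (K + 1), c k := by
      simp [hP]
    have hQ1 : Q 1 = ∑ j ∈ Finset.range (K + 1), d j / j := by
      simp [hQ]
    simp only at hfin
    rw [hP0, hQ0, neg_zero, Real.exp_zero, mul_one, Real.exp_neg, ← div_eq_mul_inv,
      div_le_one (Real.exp_pos _)] at hfin
    rw [← hP1, ← hQ1]
    exact hfin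

/-- partial norm -/
noncomputable def nr (r : ℝ) (K : ℕ) (f : PowerSeries ℂ) : ℝ :=
  ∑ k ∈ Finset.range K, ‖PowerSeries.coeff k f‖ * r ^ k

theorem nr_nonneg {r : ℝ} (hr : 0 ≤ r) (K : ℕ) (f : PowerSeries ℂ) : 0 ≤ nr r K f :=
  Finset.sum_nonneg (fun k _ => mul_nonneg (norm_nonneg _) (pow_nonneg hr k))

theorem nr_mul {r : ℝ} (hr : 0 ≤ r) (K : ℕ) (f g : PowerSeries ℂ) :
    nr r K (f * g) ≤ nr r K f * nr r K g := by
  have h1 : ∀ m : ℕ, ‖PowerSeries.coeff m (f * g)‖ * r ^ m ≤
      ∑ p ∈ Finset.HasAntidiagonal.antidiagonal m, (‖PowerSeries.coeff p.1 f‖ * r ^ p.1) *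
        (‖PowerSeries.coeff p.2 g‖ * r ^ p.2) := by
    intro m
    rw [PowerSeries.coeff_mul]
    calc ‖∑ p ∈ Finset.HasAntidiagonal.antidiagonal m, PowerSeries.coeff p.1 f * PowerSeries.coeff p.2 g‖ * r ^ m
        ≤ (∑ p ∈ Finset.HasAntidiagonal.antidiagonal m,
            ‖PowerSeries.coeff p.1 f * PowerSeries.coeff p.2 g‖) * r ^ m :=
          mul_le_mul_of_nonneg_right (norm_sum_le _ _) (pow_nonneg hr m)
      _ = _ := by
          rw [Finset.sum_mul]
          apply Finset.sum_congr rfl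
          intro p hp
          rw [← Finset.HasAntidiagonal.mem_antidiagonal.mp hp, norm_mul, pow_add]
          ring
  calc nr r K (f * g) ≤ ∑ m ∈ Finset.range K, ∑ p ∈ Finset.HasAntidiagonal.antidiagonal m,
        (‖PowerSeries.coeff p.1 f‖ * r ^ p.1) * (‖PowerSeries.coeff p.2 g‖ * r ^ p.2) :=
        Finset.sum_le_sum (fun m _ => h1 m)
    _ ≤ ∑ i ∈ Finset.range K, ∑ j ∈ Finset.range K,
        (‖PowerSeries.coeff i f‖ * r ^ i) * (‖PowerSeries.coeff j g‖ * r ^ j) :=
        sum_anti_le K (fun i j => (‖PowerSeries.coeff i f‖ * r ^ i) *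
          (‖PowerSeries.coeff j g‖ * r ^ j))
          (fun i j => mul_nonneg (mul_nonneg (norm_nonneg _) (pow_nonneg hr _))
            (mul_nonneg (norm_nonneg _) (pow_nonneg hr _)))
    _ = nr r K f * nr r K g := by
        unfold nr
        rw [Finset.sum_mul_sum]

theorem nr_add (r : ℝ) (hr : 0 ≤ r) (K : ℕ) (f g : PowerSeries ℂ) :
    nr r K (f + g) ≤ nr r K f + nr r K g := by
  unfold nr
  rw [← Finset.sum_add_distrib]
  apply Finset.sum_le_sum
  intro k _
  rw [← add_mul, map_add]
  exact mul_le_mul_of_nonneg_right (norm_add_le _ _) (pow_nonneg hr k)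

/-- the Euler derivation `X d/dX` -/
noncomputable def Dd (f : PowerSeries ℂ) : PowerSeries ℂ :=
  PowerSeries.mk (fun n => (n : ℂ) * PowerSeries.coeff n f)

theorem coeff_Dd (f : PowerSeries ℂ) (n : ℕ) :
    PowerSeries.coeff n (Dd f) = (n : ℂ) * PowerSeries.coeff n f := by
  rw [Dd, PowerSeries.coeff_mk]

theorem Dd_mul (f g : PowerSeries ℂ) : Dd (f * g) = Dd f * g + f * Dd g := by
  ext n
  rw [coeff_Dd, map_add, PowerSeries.coeff_mul, PowerSeries.coeff_mul, PowerSeries.coeff_mul,
    Finset.mul_sum, ← Finset.sum_add_distrib]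
  apply Finset.sum_congr rfl
  intro p hp
  rw [coeff_Dd, coeff_Dd, ← Finset.HasAntidiagonal.mem_antidiagonal.mp hp]
  push_cast
  ring

/-- generating series of `g`, without the constant term -/
noncomputable def GS (g : ℕ → ℂ) : PowerSeries ℂ :=
  PowerSeries.mk (fun n => if n = 0 then 0 else g n)

theorem Dd_of_rec (a g : ℕ → ℂ)
    (h : ∀ k : ℕ, (k : ℂ) * a k = ∑ j ∈ Finset.range k, g (j + 1) * a (k - 1 - j)) :
    Dd (PowerSeries.mk a) = GS g * PowerSeries.mk a := by
  ext n
  rw [coeff_Dd, PowerSeries.coeff_mk, h n, PowerSeries.coeff_mul,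
    Finset.Nat.sum_antidiagonal_eq_sum_range_succ_mk, Finset.sum_range_succ']
  simp only [GS, PowerSeries.coeff_mk, Nat.succ_ne_zero, if_false, if_true, zero_mul, add_zero]
  apply Finset.sum_congr rfl
  intro j _
  congr 2
  omega

theorem c2_expc_congr (g g' : ℕ → ℂ) (k0 : ℕ) (h : ∀ j, 1 ≤ j → j < k0 → g' j = g j) :
    ∀ j, j < k0 → expc g' j = expc g j := by
  intro j
  induction j using Nat.strong_induction_on with
  | _ j ih =>
    intro hj
    cases j with
    | zero => rw [expc_zero, expc_zero]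
    | succ k =>
      have h1 := expc_rec g' (k + 1)
      have h2 := expc_rec g (k + 1)
      have h3 : (((k + 1 : ℕ) : ℂ)) ≠ 0 := by exact_mod_cast Nat.succ_ne_zero k
      apply mul_left_cancel₀ h3
      rw [h1, h2]
      apply Finset.sum_congr rfl
      intro i hi
      have hi' := Finset.mem_range.mp hi
      rw [h (i + 1) (by omega) (by omega), ih (k + 1 - 1 - i) (by omega) (by omega)]

/-- bound for the exponential -/
theorem nr_expc (g : ℕ → ℂ) (x : ℝ) (hx : 0 ≤ x) (K : ℕ) :
    nr x K (PowerSeries.mk (expc g)) ≤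
      Real.exp (∑ j ∈ Finset.range K, ‖g j‖ * x ^ j / j) := by
  unfold nr
  have := maj K (fun k => ‖expc g k‖ * x ^ k) (fun k => ‖g k‖ * x ^ k)
    (fun k => mul_nonneg (norm_nonneg _) (pow_nonneg hx k))
    (fun k => mul_nonneg (norm_nonneg _) (pow_nonneg hx k)) (by simp [expc_zero]) ?_
  · simp only [PowerSeries.coeff_mk]
    exact this
  · intro k
    cases k with
    | zero => simp
    | succ k =>
      have h1 := expc_rec g (k + 1)
      have h2 : ((k + 1 : ℕ) : ℝ) * ‖expc g (k + 1)‖ ≤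
          ∑ j ∈ Finset.range (k + 1), ‖g (j + 1)‖ * ‖expc g (k + 1 - 1 - j)‖ := by
        calc ((k + 1 : ℕ) : ℝ) * ‖expc g (k + 1)‖ = ‖((k + 1 : ℕ) : ℂ) * expc g (k + 1)‖ := by
              rw [norm_mul, Complex.norm_natCast]
          _ = ‖∑ j ∈ Finset.range (k + 1), g (j + 1) * expc g (k + 1 - 1 - j)‖ := by rw [h1]
          _ ≤ ∑ j ∈ Finset.range (k + 1), ‖g (j + 1) * expc g (k + 1 - 1 - j)‖ :=
              norm_sum_le _ _
          _ = _ := by
              apply Finset.sum_congr rfl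
              intro j _
              rw [norm_mul]
      calc ((k + 1 : ℕ) : ℝ) * (‖expc g (k + 1)‖ * x ^ (k + 1))
          = (((k + 1 : ℕ) : ℝ) * ‖expc g (k + 1)‖) * x ^ (k + 1) := by ring
        _ ≤ (∑ j ∈ Finset.range (k + 1), ‖g (j + 1)‖ * ‖expc g (k + 1 - 1 - j)‖) *
            x ^ (k + 1) := mul_le_mul_of_nonneg_right h2 (pow_nonneg hx _)
        _ = _ := by
            rw [Finset.sum_mul]
            apply Finset.sum_congr rfl
            intro j hj
            have hj' := Finset.mem_range.mp hj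
            have e : x ^ (k + 1) = x ^ (j + 1) * x ^ (k + 1 - 1 - j) := by
              rw [← pow_add]; congr 1; omega
            rw [e]
            ring


theorem nr_mono {r x : ℝ} (hr : 0 ≤ r) (h : r ≤ x) (K : ℕ) (f : PowerSeries ℂ) :
    nr r K f ≤ nr x K f :=
  Finset.sum_le_sum (fun k _ => mul_le_mul_of_nonneg_left (pow_le_pow_left₀ hr h k)
    (norm_nonneg _))

theorem nr_expc_le (g g' : ℕ → ℂ) (k0 : ℕ) (hg : ∀ j, ‖g' j‖ = if j < k0 then ‖g j‖ else 0)
    (x B : ℝ) (hx : 0 ≤ x) (hB : ∑ j ∈ Finset.Ico 1 k0, ‖g j‖ / j * x ^ j ≤ B) (K : ℕ) :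
    nr x K (PowerSeries.mk (expc g')) ≤ Real.exp B := by
  refine (nr_expc g' x hx K).trans (Real.exp_le_exp.mpr (le_trans ?_ hB))
  have hnn : ∀ j : ℕ, 0 ≤ ‖g j‖ / j * x ^ j := fun j => by positivity
  calc ∑ j ∈ Finset.range K, ‖g' j‖ * x ^ j / j
      = ∑ j ∈ (Finset.range K).filter (fun j => 1 ≤ j ∧ j < k0), ‖g j‖ / j * x ^ j := by
        rw [Finset.sum_filter]
        apply Finset.sum_congr rfl
        intro j _
        rw [hg j]
        by_cases h0 : j = 0
        · subst h0; simp
        · by_cases h1 : j < k0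
          · rw [if_pos h1, if_pos ⟨by omega, h1⟩]; ring
          · rw [if_neg h1, if_neg (fun h => h1 h.2)]; simp
    _ ≤ _ := by
        apply Finset.sum_le_sum_of_subset_of_nonneg
        · intro j hj
          simp only [Finset.mem_filter, Finset.mem_Ico] at hj ⊢
          exact hj.2
        · exact fun j _ _ => hnn j

theorem coeff_zero_one_of_Dd {A : PowerSeries ℂ} (h : Dd A = 0)
    (h0 : PowerSeries.coeff 0 A = 1) : A = 1 := by
  ext n
  cases n with
  | zero => rw [h0]; simp
  | succ n =>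
    have h1 := congrArg (PowerSeries.coeff (n + 1)) h
    rw [coeff_Dd, map_zero] at h1
    have h2 : ((n + 1 : ℕ) : ℂ) ≠ 0 := by exact_mod_cast Nat.succ_ne_zero n
    have h3 : PowerSeries.coeff (n + 1) A = 0 := by
      rcases mul_eq_zero.mp h1 with h4 | h4
      · exact absurd h4 h2
      · exact h4
    rw [h3, PowerSeries.coeff_one, if_neg (Nat.succ_ne_zero n)]

theorem GS_neg (g : ℕ → ℂ) : GS (fun j => -g j) = - GS g := by
  ext n
  simp only [GS, PowerSeries.coeff_mk, map_neg]
  split_ifs <;> simp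

theorem nr_Dd {r : ℝ} (hr : 0 ≤ r) (k : ℕ) (f : PowerSeries ℂ) :
    nr r (k + 1) (Dd f) ≤ k * nr r (k + 1) f := by
  unfold nr
  rw [Finset.mul_sum]
  apply Finset.sum_le_sum
  intro i hi
  have hi' : (i : ℝ) ≤ k := by
    have := Finset.mem_range.mp hi
    exact_mod_cast (by omega : i ≤ k)
  rw [coeff_Dd, norm_mul, Complex.norm_natCast, mul_assoc]
  exact mul_le_mul_of_nonneg_right hi' (mul_nonneg (norm_nonneg _) (pow_nonneg hr _))

theorem coeff_le_nr {r : ℝ} (hr : 0 ≤ r) (k : ℕ) (f : PowerSeries ℂ) :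
    ‖PowerSeries.coeff k f‖ * r ^ k ≤ nr r (k + 1) f := by
  unfold nr
  exact Finset.single_le_sum (f := fun k => ‖PowerSeries.coeff k f‖ * r ^ k)
    (fun i _ => mul_nonneg (norm_nonneg _) (pow_nonneg hr _)) (Finset.mem_range.mpr (Nat.lt_succ_self k))

/-- the numerical identity `√q^N q^(-i) r^(N-i) = r^i q^(-η N + 2 η i)` -/
theorem qr_identity (q : ℝ) (hq : 0 < q) (η : ℝ) (N i : ℕ) (hi : i ≤ N) :
    √q ^ N / q ^ i * (q ^ (-(1 / 2 + η)) : ℝ) ^ (N - i) =
      (q ^ (-(1 / 2 + η)) : ℝ) ^ i * q ^ (-η * N + 2 * η * i) := by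
  rw [Real.sqrt_eq_rpow, ← Real.rpow_natCast (q ^ (1 / 2 : ℝ)), ← Real.rpow_natCast q i,
    ← Real.rpow_natCast (q ^ (-(1 / 2 + η)) : ℝ) (N - i),
    ← Real.rpow_natCast (q ^ (-(1 / 2 + η)) : ℝ) i, ← Real.rpow_mul hq.le,
    ← Real.rpow_mul hq.le, ← Real.rpow_mul hq.le, ← Real.rpow_sub hq, ← Real.rpow_add hq,
    ← Real.rpow_add hq]
  congr 1
  rw [Nat.cast_sub hi]
  ring

/-- The analytic core. Work with power series and the partial norms `nr_K(f) = ∑_{k<K} ‖f_k‖ r^k`
(submultiplicative). `E = expc g'` with `g' = g` on `1 ≤ j < k0`, `0` elsewhere (so `E_j = expc g j` for `j < k0`):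
`∑_{k<K} ‖E_k‖ x^k ≤ exp(∑ ‖g_j‖ x^j / j) ≤ exp B` for `x = r1` (and `x = r`), the same for `1/E = expc (-g')`.
With `S = LL ...`: `S = A + R`, `A` = truncation of `E`; `nr(A - E) ≤ (r/r1)^k0 exp B`;
`nr(R) ≤ ∑_{j<k0} ‖E_j‖ (√q r)^N (q r)^(-j) ≤ q^(-η N) q^(2 η k0) exp B` (as `√q r = q^(-η)`, `(q r)^(-j) = r^j q^(2 η j)`).
So `S = E (1 + z)`, `nr(z) ≤ ρ := exp(2B)((r/r1)^k0 + q^(-η N + 2 η k0)) ≤ 1/2`, and
`ldc S = g' + ldc(1 + z)`, `ldc(1+z)_k = ∑_{i ≤ k} i z_i y_{k-i}`, `y = 1/(1+z)`, `nr(y) ≤ 1 + ρ nr(y)` so `nr(y) ≤ 2`;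
hence `‖ldc(1+z)_k‖ r^k ≤ k ρ 2 ≤ k`. -/
theorem core (q : ℕ) (hq : 2 ≤ q) (η r r1 B : ℝ) (hη : 0 < η) (hr : r = (q : ℝ) ^ (-(1 / 2 + η))) (hr1 : r < r1)
    (g : ℕ → ℂ) (k0 N : ℕ) (W : ℂ) (hW : ‖W‖ = 1) (hk0 : 1 ≤ k0) (hN : 2 * k0 ≤ N)
    (hB : ∑ j ∈ Finset.Ico 1 k0, ‖g j‖ / j * r1 ^ j ≤ B)
    (hρ : Real.exp (2 * B) * ((r / r1) ^ k0 + (q : ℝ) ^ (-η * N + 2 * η * k0)) ≤ 1 / 2) (k : ℕ) (hk : k0 ≤ k) :
    ‖ldc (LL q g k0 N W) k‖ ≤ k * (r ^ k)⁻¹ := by
  have hq0 : (0 : ℝ) < q := by
    have : 0 < q := by omega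
    exact_mod_cast this
  have hq1 : (1 : ℝ) ≤ q := by
    have : 1 ≤ q := by omega
    exact_mod_cast this
  have hr0 : 0 < r := by rw [hr]; exact Real.rpow_pos_of_pos hq0 _
  have hr10 : 0 < r1 := hr0.trans hr1
  set g' : ℕ → ℂ := fun j => if j < k0 then g j else 0 with hg'
  set E : PowerSeries ℂ := PowerSeries.mk (expc g') with hEdef
  set F : PowerSeries ℂ := PowerSeries.mk (expc (fun j => -g' j)) with hFdef
  set S : PowerSeries ℂ := PowerSeries.mk (LL q g k0 N W) with hSdef
  set c : ℝ := (q : ℝ) ^ (-η * N + 2 * η * k0) with hc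
  have hc0 : 0 < c := Real.rpow_pos_of_pos hq0 _
  have hEg : ∀ j, j < k0 → expc g' j = expc g j :=
    c2_expc_congr g g' k0 (fun j _ hj => by simp [hg', hj])
  have hE : Dd E = GS g' * E := Dd_of_rec _ _ (expc_rec g')
  have hF : Dd F = GS (fun j => -g' j) * F := Dd_of_rec _ _ (expc_rec _)
  rw [GS_neg] at hF
  have hS0 : LL q g k0 N W 0 = 1 := by
    unfold LL
    rw [if_pos (by omega), if_neg (by omega), expc_zero, add_zero]
  have hS : Dd S = GS (ldc (LL q g k0 N W)) * S := Dd_of_rec _ _ (ldc_rec _ hS0)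
  have hE0 : PowerSeries.coeff 0 E = 1 := by rw [hEdef, PowerSeries.coeff_mk, expc_zero]
  have hF0 : PowerSeries.coeff 0 F = 1 := by rw [hFdef, PowerSeries.coeff_mk, expc_zero]
  have hSc0 : PowerSeries.coeff 0 S = 1 := by rw [hSdef, PowerSeries.coeff_mk, hS0]
  have hFE : F * E = 1 := by
    apply coeff_zero_one_of_Dd
    · rw [Dd_mul, hE, hF]; ring
    · rw [PowerSeries.coeff_mul, Finset.Nat.antidiagonal_zero, Finset.sum_singleton, hE0, hF0,
        one_mul]
  -- the norm bounds
  have nE1 : ∀ K, nr r1 K E ≤ Real.exp B := fun K => by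
    refine nr_expc_le g g' k0 (fun j => ?_) r1 B hr10.le hB K
    simp only [hg']; split_ifs <;> simp
  have nE : ∀ K, nr r K E ≤ Real.exp B := fun K => (nr_mono hr0.le hr1.le K E).trans (nE1 K)
  have nF : ∀ K, nr r K F ≤ Real.exp B := fun K => by
    refine (nr_mono hr0.le hr1.le K F).trans ?_
    refine nr_expc_le g (fun j => -g' j) k0 (fun j => ?_) r1 B hr10.le hB K
    simp only [hg', norm_neg]; split_ifs <;> simp
  set U : PowerSeries ℂ := PowerSeries.mk (fun j => if j < k0 then 0 else - expc g' j) with hU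
  set Rf : ℕ → ℂ := fun j => (if j ≤ N ∧ N - j < k0 then
    W * starRingEnd ℂ (expc g (N - j)) * ((√(q : ℝ) ^ N / (q : ℝ) ^ (N - j) : ℝ) : ℂ) else 0)
    with hRf
  set R : PowerSeries ℂ := PowerSeries.mk Rf with hR
  have hSE : S - E = U + R := by
    ext j
    rw [map_sub, map_add, hSdef, hEdef, hU, hR, PowerSeries.coeff_mk, PowerSeries.coeff_mk,
      PowerSeries.coeff_mk, PowerSeries.coeff_mk]
    unfold LL
    by_cases hj : j < k0
    · rw [if_pos hj, if_pos hj, hEg j hj]; simp only [hRf]; ring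
    · rw [if_neg hj, if_neg hj]; simp only [hRf]; ring
  have nU : ∀ K, nr r K U ≤ (r / r1) ^ k0 * Real.exp B := by
    intro K
    have hq1' : r / r1 ≤ 1 := (div_le_one hr10).mpr hr1.le
    have hq0' : 0 ≤ r / r1 := (div_pos hr0 hr10).le
    calc nr r K U ≤ (r / r1) ^ k0 * nr r1 K E := by
          unfold nr
          rw [Finset.mul_sum]
          apply Finset.sum_le_sum
          intro j _
          rw [hU, hEdef, PowerSeries.coeff_mk, PowerSeries.coeff_mk]
          by_cases hj : j < k0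
          · rw [if_pos hj, norm_zero, zero_mul]
            positivity
          · rw [if_neg hj, norm_neg]
            have e1 : r ^ j = (r / r1) ^ j * r1 ^ j := by
              rw [div_pow, div_mul_cancel₀]
              exact pow_ne_zero _ hr10.ne'
            have e2 : (r / r1) ^ j ≤ (r / r1) ^ k0 :=
              pow_le_pow_of_le_one hq0' hq1' (by omega)
            rw [e1]
            calc ‖expc g' j‖ * ((r / r1) ^ j * r1 ^ j)
                = (r / r1) ^ j * (‖expc g' j‖ * r1 ^ j) := by ring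
              _ ≤ _ := mul_le_mul_of_nonneg_right e2 (by positivity)
      _ ≤ _ := mul_le_mul_of_nonneg_left (nE1 K) (by positivity)
  have nR : ∀ K, nr r K R ≤ c * Real.exp B := by
    intro K
    set f : ℕ → ℝ := fun i => if i < k0 then ‖expc g' i‖ * r ^ i * c else 0 with hf
    have hf0 : ∀ i, 0 ≤ f i := by
      intro i
      simp only [hf]
      split_ifs
      · positivity
      · exact le_refl _
    have hterm : ∀ j, ‖Rf j‖ * r ^ j ≤ if j ≤ N then f (N + 1 - 1 - j) else 0 := by
      intro j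
      by_cases hj : j ≤ N ∧ N - j < k0
      · have hj2 : N - j < k0 := hj.2
        have e0 : Rf j = W * starRingEnd ℂ (expc g (N - j)) *
            ((√(q : ℝ) ^ N / (q : ℝ) ^ (N - j) : ℝ) : ℂ) := by
          simp only [hRf]; rw [if_pos hj]
        have e1 : f (N + 1 - 1 - j) = ‖expc g (N - j)‖ * r ^ (N - j) * c := by
          have : N + 1 - 1 - j = N - j := by omega
          simp only [hf]
          rw [this, if_pos hj2, hEg _ hj2]
        rw [if_pos hj.1, e0, e1, norm_mul, norm_mul, hW, one_mul, RCLike.norm_conj,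
          Complex.norm_real, Real.norm_of_nonneg (by positivity)]
        have e2 := qr_identity (q : ℝ) hq0 η N (N - j) (by omega)
        have e3 : N - (N - j) = j := by omega
        rw [e3, ← hr] at e2
        have e4 : (q : ℝ) ^ (-η * (N : ℝ) + 2 * η * ((N - j : ℕ) : ℝ)) ≤ c := by
          rw [hc]
          apply Real.rpow_le_rpow_of_exponent_le hq1
          have : ((N - j : ℕ) : ℝ) ≤ (k0 : ℝ) := by exact_mod_cast hj2.le
          have := mul_le_mul_of_nonneg_left this (by linarith : (0 : ℝ) ≤ 2 * η)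
          linarith
        calc ‖expc g (N - j)‖ * (√(q : ℝ) ^ N / (q : ℝ) ^ (N - j)) * r ^ j
            = ‖expc g (N - j)‖ * ((√(q : ℝ) ^ N / (q : ℝ) ^ (N - j)) * r ^ j) := by ring
          _ = ‖expc g (N - j)‖ * (r ^ (N - j) * (q : ℝ) ^ (-η * (N : ℝ) + 2 * η * ((N - j : ℕ) : ℝ))) := by
              rw [e2]
          _ = ‖expc g (N - j)‖ * r ^ (N - j) * (q : ℝ) ^ (-η * (N : ℝ) + 2 * η * ((N - j : ℕ) : ℝ)) := by
              ring
          _ ≤ _ := mul_le_mul_of_nonneg_left e4 (by positivity)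
      · have e0 : Rf j = 0 := by
          simp only [hRf]; rw [if_neg hj]
        rw [e0, norm_zero, zero_mul]
        split_ifs
        · exact hf0 _
        · exact le_refl _
    calc nr r K R = ∑ j ∈ Finset.range K, ‖Rf j‖ * r ^ j := by
          unfold nr
          apply Finset.sum_congr rfl
          intro j _
          rw [hR, PowerSeries.coeff_mk]
      _ ≤ ∑ j ∈ Finset.range K, (if j ≤ N then f (N + 1 - 1 - j) else 0) :=
          Finset.sum_le_sum (fun j _ => hterm j)
      _ = ∑ j ∈ (Finset.range K).filter (fun j => j ≤ N), f (N + 1 - 1 - j) := by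
          rw [Finset.sum_filter]
      _ ≤ ∑ j ∈ Finset.range (N + 1), f (N + 1 - 1 - j) := by
          apply Finset.sum_le_sum_of_subset_of_nonneg
          · intro j hj
            simp only [Finset.mem_filter, Finset.mem_range] at hj ⊢
            omega
          · exact fun j _ _ => hf0 _
      _ = ∑ j ∈ Finset.range (N + 1), f j := Finset.sum_range_reflect f (N + 1)
      _ ≤ c * nr r (N + 1) E := by
          unfold nr
          rw [Finset.mul_sum]
          apply Finset.sum_le_sum
          intro i _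
          rw [hEdef, PowerSeries.coeff_mk]
          simp only [hf]
          split_ifs
          · apply le_of_eq; ring
          · positivity
      _ ≤ _ := mul_le_mul_of_nonneg_left (nE _) hc0.le
  -- `Y = 1 + z`
  set z : PowerSeries ℂ := F * (S - E) with hz
  have hY : F * S = 1 + z := by
    rw [hz, mul_sub, hFE]; ring
  have nz : ∀ K, nr r K z ≤ 1 / 2 := by
    intro K
    calc nr r K z ≤ nr r K F * nr r K (S - E) := nr_mul hr0.le K F (S - E)
      _ ≤ Real.exp B * ((r / r1) ^ k0 * Real.exp B + c * Real.exp B) := by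
          apply mul_le_mul (nF K) _ (nr_nonneg hr0.le K _) (Real.exp_pos B).le
          rw [hSE]
          exact (nr_add r hr0.le K U R).trans (add_le_add (nU K) (nR K))
      _ = Real.exp (2 * B) * ((r / r1) ^ k0 + c) := by
          rw [two_mul, Real.exp_add]; ring
      _ ≤ 1 / 2 := hρ
  set y : PowerSeries ℂ := (1 + z)⁻¹ with hy
  have hcc : PowerSeries.constantCoeff (1 + z) ≠ 0 := by
    rw [← PowerSeries.coeff_zero_eq_constantCoeff_apply, ← hY, PowerSeries.coeff_mul,
      Finset.Nat.antidiagonal_zero, Finset.sum_singleton, hF0, hSc0]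
    norm_num
  have hYy : (1 + z) * y = 1 := PowerSeries.mul_inv_cancel _ hcc
  have ny : ∀ K, nr r K y ≤ 2 := by
    intro K
    have e : y = 1 + (-z) * y := by
      have : y + z * y = 1 := by rw [← hYy]; ring
      linear_combination this
    have h1 : nr r K y ≤ nr r K 1 + nr r K (-z) * nr r K y := by
      calc nr r K y = nr r K (1 + (-z) * y) := by rw [← e]
        _ ≤ nr r K 1 + nr r K ((-z) * y) := nr_add r hr0.le K _ _
        _ ≤ _ := by
            have := nr_mul hr0.le K (-z) y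
            linarith
    have h2 : nr r K 1 ≤ 1 := by
      unfold nr
      cases K with
      | zero => simp
      | succ K =>
        rw [Finset.sum_range_succ']
        have : ∑ k ∈ Finset.range K, ‖PowerSeries.coeff (k + 1) (1 : PowerSeries ℂ)‖ * r ^ (k + 1) = 0 := by
          apply Finset.sum_eq_zero
          intro k _
          rw [PowerSeries.coeff_one, if_neg (Nat.succ_ne_zero k)]
          simp
        rw [this]
        simp
    have h3 : nr r K (-z) = nr r K z := by
      unfold nr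
      apply Finset.sum_congr rfl
      intro k _
      rw [map_neg, norm_neg]
    have h4 := nz K
    have h5 := nr_nonneg hr0.le K y
    rw [h3] at h1
    nlinarith
  -- the logarithmic derivative
  have hD1 : Dd (1 : PowerSeries ℂ) = 0 := by
    ext n
    rw [coeff_Dd, map_zero, PowerSeries.coeff_one]
    split_ifs with h
    · subst h; simp
    · simp
  have hDadd : ∀ f g : PowerSeries ℂ, Dd (f + g) = Dd f + Dd g := by
    intro f g
    ext n
    rw [map_add, coeff_Dd, coeff_Dd, coeff_Dd, map_add]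
    ring
  have hDY : (GS (ldc (LL q g k0 N W)) - GS g') * (1 + z) = Dd z := by
    have h1 : Dd (1 + z) = Dd z := by rw [hDadd, hD1, zero_add]
    rw [← h1, ← hY, Dd_mul, hF, hS]
    ring
  have hfin : GS (ldc (LL q g k0 N W)) - GS g' = Dd z * y := by
    rw [← hDY, mul_assoc, hYy, mul_one]
  have hk1 : k ≠ 0 := by omega
  have hcoef : ldc (LL q g k0 N W) k = PowerSeries.coeff k (Dd z * y) := by
    rw [← hfin, map_sub]
    unfold GS
    rw [PowerSeries.coeff_mk, PowerSeries.coeff_mk, if_neg hk1, if_neg hk1]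
    have : g' k = 0 := by
      simp only [hg']; rw [if_neg (by omega)]
    rw [this, sub_zero]
  have hmain : ‖ldc (LL q g k0 N W) k‖ * r ^ k ≤ k := by
    rw [hcoef]
    calc ‖PowerSeries.coeff k (Dd z * y)‖ * r ^ k ≤ nr r (k + 1) (Dd z * y) :=
          coeff_le_nr hr0.le k _
      _ ≤ nr r (k + 1) (Dd z) * nr r (k + 1) y := nr_mul hr0.le _ _ _
      _ ≤ (k * nr r (k + 1) z) * 2 := by
          apply mul_le_mul (nr_Dd hr0.le k z) (ny _) (nr_nonneg hr0.le _ _)
          exact mul_nonneg (Nat.cast_nonneg k) (nr_nonneg hr0.le _ _)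
      _ ≤ (k * (1 / 2)) * 2 := by
          apply mul_le_mul_of_nonneg_right _ (by norm_num)
          exact mul_le_mul_of_nonneg_left (nz _) (Nat.cast_nonneg k)
      _ = k := by ring
  rw [← div_eq_mul_inv, le_div_iff₀ (pow_pos hr0 k)]
  exact hmain



end Pool.Agent.H497.FF
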