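import Pool.Agent.H497.FF.CDefs

set_option autoImplicit false



namespace Pool.Agent.H497.FF

open Polynomial


theorem LL_zero (q : ℕ) (g : ℕ → ℂ) (k0 N : ℕ) (W : ℂ) (hk0 : 1 ≤ k0) (hN : 2 * k0 ≤ N) :
    LL q g k0 N W 0 = 1 := by
  unfold LL
  rw [if_pos (by omega), if_neg (by omega), add_zero, expc_zero]

theorem LL_supp (q : ℕ) (g : ℕ → ℂ) (k0 N : ℕ) (W : ℂ) (hN : 2 * k0 ≤ N) (j : ℕ) (hj : N < j) :
    LL q g k0 N W j = 0 := by
  unfold LL
  rw [if_neg (by omega), if_neg (by omega), add_zero]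

theorem LL_low (q : ℕ) (g : ℕ → ℂ) (k0 N : ℕ) (W : ℂ) (hN : 2 * k0 ≤ N) (j : ℕ) (hj : j < k0) :
    LL q g k0 N W j = expc g j := by
  unfold LL
  rw [if_pos hj, if_neg (by omega), add_zero]

theorem expc_congr (g g' : ℕ → ℂ) (k : ℕ) (h : ∀ j, 1 ≤ j → j ≤ k → g j = g' j) : expc g k = expc g' k := by
  induction k using Nat.strong_induction_on with
  | _ k ih =>
    cases k with
    | zero => rw [expc_zero, expc_zero]
    | succ k =>
      rw [expc, expc]
      congr 1
      refine Finset.sum_congr rfl fun j _ => ?_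
      have hj := j.isLt
      rw [h (j + 1) (by omega) (by omega), ih (k - j) (by omega) fun i hi1 hi2 => h i hi1 (by omega)]

theorem ldc_low (q : ℕ) (g : ℕ → ℂ) (k0 N : ℕ) (W : ℂ) (hN : 2 * k0 ≤ N) (k : ℕ) (hk1 : 1 ≤ k) (hk : k < k0) :
    ldc (LL q g k0 N W) k = g k := by
  induction k using Nat.strong_induction_on with
  | _ k ih =>
    have h0 : LL q g k0 N W 0 = 1 := LL_zero q g k0 N W (by omega) hN
    obtain ⟨m, rfl⟩ : ∃ m, k = m + 1 := ⟨k - 1, by omega⟩
    have h1 := ldc_rec (LL q g k0 N W) h0 (m + 1)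
    have h2 := expc_rec g (m + 1)
    rw [LL_low q g k0 N W hN (m + 1) hk, h2, Finset.sum_range_succ, Finset.sum_range_succ] at h1
    have h3 : ∑ j ∈ Finset.range m, ldc (LL q g k0 N W) (j + 1) * LL q g k0 N W (m + 1 - 1 - j) =
        ∑ j ∈ Finset.range m, g (j + 1) * expc g (m + 1 - 1 - j) := by
      refine Finset.sum_congr rfl fun j hj => ?_
      have hj' := Finset.mem_range.1 hj
      rw [ih (j + 1) (by omega) (by omega) (by omega), LL_low q g k0 N W hN _ (by omega)]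
    rw [h3] at h1
    have h4 := add_left_cancel h1
    have h5 : m + 1 - 1 - m = 0 := by omega
    rw [h5, expc_zero, h0, mul_one, mul_one] at h4
    exact h4.symm

theorem LL_congr (q : ℕ) (g g' : ℕ → ℂ) (k0 N : ℕ) (W : ℂ) (h : ∀ j, 1 ≤ j → j < k0 → g j = g' j) :
    LL q g k0 N W = LL q g' k0 N W := by
  have h1 : ∀ i, i < k0 → expc g i = expc g' i := fun i hi =>
    expc_congr g g' i fun j h2 h3 => h j h2 (by omega)
  funext j
  unfold LL
  congr 1
  · by_cases hj : j < k0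
    · rw [if_pos hj, if_pos hj, h1 j hj]
    · rw [if_neg hj, if_neg hj]
  · by_cases hj : j ≤ N ∧ N - j < k0
    · rw [if_pos hj, if_pos hj, h1 _ hj.2]
    · rw [if_neg hj, if_neg hj]

theorem expc_conj (g g' : ℕ → ℂ) (k : ℕ) (h : ∀ j, 1 ≤ j → j ≤ k → g' j = starRingEnd ℂ (g j)) :
    expc g' k = starRingEnd ℂ (expc g k) := by
  induction k using Nat.strong_induction_on with
  | _ k ih =>
    cases k with
    | zero => rw [expc_zero, expc_zero, map_one]
    | succ k =>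
      rw [expc, expc, map_div₀, map_sum, map_add, map_one, Complex.conj_natCast]
      congr 1
      refine Finset.sum_congr rfl fun j _ => ?_
      have hj := j.isLt
      rw [map_mul, h (j + 1) (by omega) (by omega),
        ih (k - j) (by omega) fun i hi1 hi2 => h i hi1 (by omega)]

theorem ldc_conj' (a : ℕ → ℂ) (k : ℕ) :
    ldc (fun j => starRingEnd ℂ (a j)) k = starRingEnd ℂ (ldc a k) := by
  induction k using Nat.strong_induction_on with
  | _ k ih =>
    cases k with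
    | zero => rw [ldc, ldc, map_zero]
    | succ k =>
      rw [ldc, ldc, map_sub, map_mul, map_add, map_one, Complex.conj_natCast, map_sum]
      congr 1
      refine Finset.sum_congr rfl fun j _ => ?_
      have hj := j.isLt
      rw [map_mul, ih (j + 1) (by omega)]

/-- complex conjugation (real data) -/
theorem ldc_conj (q : ℕ) (g g' : ℕ → ℂ) (k0 N : ℕ) (W : ℂ)
    (h : ∀ j, 1 ≤ j → j < k0 → g' j = starRingEnd ℂ (g j)) (k : ℕ) :
    ldc (LL q g' k0 N (starRingEnd ℂ W)) k = starRingEnd ℂ (ldc (LL q g k0 N W) k) := by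
  rw [← ldc_conj']
  congr 1
  have h1 : ∀ i, i < k0 → expc g' i = starRingEnd ℂ (expc g i) := fun i hi =>
    expc_conj g g' i fun j h2 h3 => h j h2 (by omega)
  funext j
  unfold LL
  rw [map_add]
  congr 1
  · by_cases hj : j < k0
    · rw [if_pos hj, if_pos hj, h1 j hj]
    · rw [if_neg hj, if_neg hj, map_zero]
  · by_cases hj : j ≤ N ∧ N - j < k0
    · rw [if_pos hj, if_pos hj, h1 _ hj.2, map_mul, map_mul, Complex.conj_ofReal]
    · rw [if_neg hj, if_neg hj, map_zero]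

/-- the polynomial as a sum of two parts -/
theorem LL_sum (q : ℕ) (hq : 2 ≤ q) (g : ℕ → ℂ) (k0 N : ℕ) (W : ℂ) (hN : 2 * k0 ≤ N)
    (u : ℂ) (hu : u ≠ 0) :
    ∑ j ∈ Finset.range (N + 1), LL q g k0 N W j * u ^ j =
      ∑ j ∈ Finset.range k0, expc g j * u ^ j + W * ((√(q : ℝ) : ℝ) * u) ^ N *
        starRingEnd ℂ (∑ j ∈ Finset.range k0, expc g j * (1 / (q * starRingEnd ℂ u)) ^ j) := by
  have hq0 : (q : ℂ) ≠ 0 := by exact_mod_cast (by omega : q ≠ 0)
  have e1 : ∑ j ∈ Finset.range (N + 1), LL q g k0 N W j * u ^ j =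
      ∑ j ∈ Finset.range (N + 1), (if j < k0 then expc g j * u ^ j else 0) +
      ∑ j ∈ Finset.range (N + 1), (if N - j < k0 then W * starRingEnd ℂ (expc g (N - j)) *
        ((√(q : ℝ) ^ N / (q : ℝ) ^ (N - j) : ℝ) : ℂ) * u ^ j else 0) := by
    rw [← Finset.sum_add_distrib]
    refine Finset.sum_congr rfl fun j hj => ?_
    have hj' := Finset.mem_range.1 hj
    unfold LL
    rw [add_mul]
    congr 1
    · split_ifs
      · rfl
      · rw [zero_mul]
    · by_cases h : N - j < k0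
      · rw [if_pos ⟨by omega, h⟩, if_pos h]
      · rw [if_neg (fun h' => h h'.2), if_neg h, zero_mul]
  rw [e1]
  congr 1
  · rw [← Finset.sum_filter]
    refine Finset.sum_congr ?_ fun _ _ => rfl
    ext j
    rw [Finset.mem_filter, Finset.mem_range, Finset.mem_range]
    omega
  · have e2 := Finset.sum_range_reflect (fun j => if N - j < k0 then
      W * starRingEnd ℂ (expc g (N - j)) *
        ((√(q : ℝ) ^ N / (q : ℝ) ^ (N - j) : ℝ) : ℂ) * u ^ j else 0) (N + 1)
    rw [← e2, map_sum, Finset.mul_sum]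
    have e3 : ∀ j ∈ Finset.range (N + 1), (if N - (N + 1 - 1 - j) < k0 then
        W * starRingEnd ℂ (expc g (N - (N + 1 - 1 - j))) *
        ((√(q : ℝ) ^ N / (q : ℝ) ^ (N - (N + 1 - 1 - j)) : ℝ) : ℂ) * u ^ (N + 1 - 1 - j) else 0) =
        if j < k0 then W * ((√(q : ℝ) : ℝ) * u) ^ N *
          starRingEnd ℂ (expc g j * (1 / (q * starRingEnd ℂ u)) ^ j) else 0 := by
      intro j hj
      have hj' := Finset.mem_range.1 hj
      have h1 : N - (N + 1 - 1 - j) = j := by omega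
      have h2 : N + 1 - 1 - j = N - j := by omega
      rw [h1, h2]
      by_cases h : j < k0
      · rw [if_pos h, if_pos h, map_mul, map_pow, map_div₀, map_one, map_mul, Complex.conj_conj,
          Complex.conj_natCast]
        push_cast
        have h3 : u ^ N = u ^ (N - j) * u ^ j := by rw [← pow_add]; congr 1; omega
        rw [mul_pow, h3, one_div, inv_pow, mul_pow]
        have h4 : u ^ j ≠ 0 := pow_ne_zero _ hu
        have h5 : (q : ℂ) ^ j ≠ 0 := pow_ne_zero _ hq0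
        field_simp
      · rw [if_neg h, if_neg h]
    rw [Finset.sum_congr rfl e3, ← Finset.sum_filter]
    refine Finset.sum_congr ?_ fun _ _ => rfl
    ext j
    rw [Finset.mem_filter, Finset.mem_range, Finset.mem_range]
    omega

/-- the functional equation -/
theorem LL_FE (q : ℕ) (hq : 2 ≤ q) (g : ℕ → ℂ) (k0 N : ℕ) (W : ℂ) (hW : ‖W‖ = 1) (hN : 2 * k0 ≤ N)
    (u : ℂ) (hu : u ≠ 0) :
    ∑ j ∈ Finset.range (N + 1), LL q g k0 N W j * u ^ j =
      W * ((√(q : ℝ) : ℝ) * u) ^ N *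
        starRingEnd ℂ (∑ j ∈ Finset.range (N + 1), LL q g k0 N W j * (1 / (q * starRingEnd ℂ u)) ^ j) := by
  have hq0 : (q : ℂ) ≠ 0 := by exact_mod_cast (by omega : q ≠ 0)
  have hcu : starRingEnd ℂ u ≠ 0 := (_root_.map_ne_zero _).2 hu
  have hv : (1 / (q * starRingEnd ℂ u) : ℂ) ≠ 0 := one_div_ne_zero (mul_ne_zero hq0 hcu)
  rw [LL_sum q hq g k0 N W hN u hu, LL_sum q hq g k0 N W hN _ hv]
  have e1 : (1 / (q * starRingEnd ℂ (1 / (q * starRingEnd ℂ u))) : ℂ) = u := by
    rw [map_div₀, map_one, map_mul, Complex.conj_conj, Complex.conj_natCast]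
    field_simp
  rw [e1, map_add, map_mul, Complex.conj_conj, map_mul, map_pow, map_mul, Complex.conj_ofReal,
    map_div₀, map_one, map_mul, Complex.conj_conj, Complex.conj_natCast]
  have hWW : W * starRingEnd ℂ W = 1 := by
    rw [Complex.mul_conj, Complex.normSq_eq_norm_sq, hW]
    norm_num
  have hs : ((√(q : ℝ) : ℝ) : ℂ) * ((√(q : ℝ) : ℝ) : ℂ) = q := by
    rw [← Complex.ofReal_mul, Real.mul_self_sqrt (Nat.cast_nonneg q), Complex.ofReal_natCast]
  have e2 : W * ((√(q : ℝ) : ℝ) * u) ^ N * (starRingEnd ℂ W * ((√(q : ℝ) : ℝ) * (1 / (q * u))) ^ N) =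
      1 := by
    have h1 : (((√(q : ℝ) : ℝ) : ℂ) * u) * (((√(q : ℝ) : ℝ) : ℂ) * (1 / (q * u))) = 1 := by
      have h2 : (((√(q : ℝ) : ℝ) : ℂ) * u) * (((√(q : ℝ) : ℝ) : ℂ) * (1 / (q * u))) =
          (((√(q : ℝ) : ℝ) : ℂ) * ((√(q : ℝ) : ℝ) : ℂ)) * (u * (1 / (q * u))) := by ring
      rw [h2, hs]
      field_simp
    calc W * ((√(q : ℝ) : ℝ) * u) ^ N * (starRingEnd ℂ W * ((√(q : ℝ) : ℝ) * (1 / (q * u))) ^ N)
        = (W * starRingEnd ℂ W) *
          ((((√(q : ℝ) : ℝ) : ℂ) * u) * (((√(q : ℝ) : ℝ) : ℂ) * (1 / (q * u)))) ^ N := by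
          rw [mul_pow _ _ N]; ring
      _ = 1 := by rw [hWW, h1, one_pow, one_mul]
  rw [mul_add, ← mul_assoc (W * _), e2, one_mul, add_comm]


end Pool.Agent.H497.FF
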