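import Pool.Agent.H497.FF.CDefs

set_option autoImplicit false



namespace Pool.Agent.H497.FF

open Polynomial



theorem tn_le {𝓟 𝓧 : Type} (S : Sys 𝓟 𝓧) {d : ℕ} (hd : d ≠ 0) : ((S.Pr d).card : ℝ) ≤ (S.q : ℝ) ^ d := by
  have h := S.Pr_le d
  have h1 : (S.Pr d).card ≤ S.q ^ d :=
    le_trans (Nat.le_mul_of_pos_left _ (Nat.pos_of_ne_zero hd)) h
  exact_mod_cast h1

theorem geo_le (q : ℕ) (hq : 2 ≤ q) (k : ℕ) : ∑ d ∈ Finset.range (k + 1), (q : ℝ) ^ d ≤ 2 * (q : ℝ) ^ k := by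
  have hq' : (2 : ℝ) ≤ q := by exact_mod_cast hq
  induction k with
  | zero => simp
  | succ k ih =>
    rw [Finset.sum_range_succ]
    have : (0 : ℝ) < (q : ℝ) ^ k := by positivity
    rw [pow_succ]
    nlinarith

theorem div_le (q : ℕ) (hq : 2 ≤ q) (k : ℕ) : ∑ d ∈ k.divisors, (q : ℝ) ^ d ≤ 2 * (q : ℝ) ^ k := by
  refine le_trans (Finset.sum_le_sum_of_subset_of_nonneg (t := Finset.range (k + 1)) ?_ ?_) (geo_le q hq k)
  · intro d hd
    rw [Finset.mem_range]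
    exact Nat.lt_succ_of_le (Nat.divisor_le hd)
  · intros; positivity

theorem fib_hasSum {𝓟 𝓧 : Type} (S : Sys 𝓟 𝓧) {M : Type} [AddCommMonoid M] [TopologicalSpace M]
    (h : 𝓟 → ℕ → M) {k : ℕ} (hk : k ≠ 0) :
    HasSum (fun c : {x : {P : 𝓟 // P ∈ S.Pr (S.deg P) ∧ S.deg P ≠ 0} × ℕ | S.deg (x.1 : 𝓟) * (x.2 + 1) = k} =>
      h (c.1.1 : 𝓟) (c.1.2 + 1)) (∑ d ∈ k.divisors, ∑ P ∈ S.Pr d, h P (k / d)) := by
  classical
  let e : {y : Σ _ : ℕ, 𝓟 // y ∈ k.divisors.sigma S.Pr} ≃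
      {x : {P : 𝓟 // P ∈ S.Pr (S.deg P) ∧ S.deg P ≠ 0} × ℕ | S.deg (x.1 : 𝓟) * (x.2 + 1) = k} :=
    { toFun := fun y => ⟨(⟨y.1.2, by
          obtain ⟨⟨d, P⟩, hy⟩ := y
          rw [Finset.mem_sigma] at hy
          have h1 := S.Pr_deg d P hy.2
          simp only [h1]
          refine ⟨hy.2, ?_⟩
          have := Nat.pos_of_mem_divisors hy.1
          simp only at this
          omega⟩, k / y.1.1 - 1), by
          obtain ⟨⟨d, P⟩, hy⟩ := y
          rw [Finset.mem_sigma] at hy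
          have h1 := S.Pr_deg d P hy.2
          have h2 := Nat.dvd_of_mem_divisors hy.1
          have h3 := Nat.pos_of_mem_divisors hy.1
          simp only at h1 h2 h3
          simp only [Set.mem_ofPred_eq, h1]
          have h4 : 1 ≤ k / d := (Nat.one_le_div_iff h3).2 (Nat.le_of_dvd (Nat.pos_of_ne_zero hk) h2)
          rw [Nat.sub_add_cancel h4, Nat.mul_div_cancel' h2]⟩
      invFun := fun x => ⟨⟨S.deg (x.1.1 : 𝓟), x.1.1⟩, by
          obtain ⟨⟨⟨P, hP⟩, e⟩, hx⟩ := x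
          rw [Finset.mem_sigma]
          simp only [Set.mem_ofPred_eq] at hx
          exact ⟨Nat.mem_divisors.2 ⟨⟨e + 1, hx.symm⟩, hk⟩, hP.1⟩⟩
      left_inv := by
        rintro ⟨⟨d, P⟩, hy⟩
        have hy' := hy
        rw [Finset.mem_sigma] at hy'
        have h1 : S.deg P = d := S.Pr_deg d P hy'.2
        subst h1
        rfl
      right_inv := by
        rintro ⟨⟨⟨P, hP⟩, e⟩, hx⟩
        simp only [Set.mem_ofPred_eq] at hx
        apply Subtype.ext
        simp only [Prod.mk.injEq, true_and]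
        have h1 : 0 < S.deg P := Nat.pos_of_ne_zero hP.2
        rw [← hx, Nat.mul_div_cancel_left _ h1]
        omega }
  rw [← e.hasSum_iff]
  have h1 := Finset.hasSum (k.divisors.sigma S.Pr) (fun y : Σ _ : ℕ, 𝓟 => h y.2 (k / y.1))
  rw [Finset.sum_sigma] at h1
  refine Eq.mp (congrArg (fun F => HasSum F _) ?_) h1
  symm
  funext y
  obtain ⟨⟨d, P⟩, hy⟩ := y
  rw [Finset.mem_sigma] at hy
  have h2 := Nat.dvd_of_mem_divisors hy.1
  have h3 := Nat.pos_of_mem_divisors hy.1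
  simp only at h2 h3
  have h4 : 1 ≤ k / d := (Nat.one_le_div_iff h3).2 (Nat.le_of_dvd (Nat.pos_of_ne_zero hk) h2)
  simp only [e, Function.comp, Equiv.coe_fn_mk]
  rw [Nat.sub_add_cancel h4]

theorem exp_eq (q : ℝ) (hq : 0 < q) (C : ℝ) (T a : ℕ → ℂ) (N : ℕ) (ha0 : a 0 = 1) (haN : ∀ j, N < j → a j = 0)
    (hTb : ∀ k : ℕ, ‖T (k + 1)‖ ≤ C * q ^ (k + 1))
    (hrec : ∀ k : ℕ, (k : ℂ) * a k = ∑ j ∈ Finset.range k, T (j + 1) * a (k - 1 - j)) (u : ℂ)
    (hu : ‖u‖ < 1 / q) :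
    Complex.exp (∑' k : ℕ, T (k + 1) * u ^ (k + 1) / ((k + 1 : ℕ) : ℂ)) = ∑ j ∈ Finset.range (N + 1), a j * u ^ j := by
  obtain ⟨R, hR1, hR2⟩ := exists_between hu
  have hR0 : 0 < R := lt_of_le_of_lt (norm_nonneg _) hR1
  have hC : 0 ≤ C := by
    have := (norm_nonneg _).trans (hTb 0)
    by_contra hneg
    push Not at hneg
    have : C * q ^ (0 + 1) < 0 := mul_neg_of_neg_of_pos hneg (by positivity)
    linarith
  have hqR : q * R < 1 := by
    rw [lt_div_iff₀ hq] at hR2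
    linarith
  have hsum : Summable (fun k : ℕ => C * q * (q * R) ^ k) :=
    (summable_geometric_of_lt_one (by positivity) hqR).mul_left _
  have hball : ∀ y ∈ Metric.ball (0 : ℂ) R, ‖y‖ ≤ R := fun y hy => by
    rw [mem_ball_zero_iff] at hy; exact hy.le
  have hbd : ∀ (k : ℕ) (y : ℂ), y ∈ Metric.ball (0 : ℂ) R → ‖T (k + 1) * y ^ k‖ ≤ C * q * (q * R) ^ k := by
    intro k y hy
    rw [norm_mul, norm_pow]
    calc ‖T (k + 1)‖ * ‖y‖ ^ k ≤ (C * q ^ (k + 1)) * R ^ k := by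
          gcongr
          · exact hTb k
          · exact hball y hy
      _ = C * q * (q * R) ^ k := by rw [mul_pow, pow_succ]; ring
  have hder : ∀ y ∈ Metric.ball (0 : ℂ) R,
      HasDerivAt (fun z : ℂ => ∑' k : ℕ, T (k + 1) * z ^ (k + 1) / ((k + 1 : ℕ) : ℂ)) (∑' k : ℕ, T (k + 1) * y ^ k) y := by
    intro y hy
    refine hasDerivAt_tsum_of_isPreconnected (u := fun k : ℕ => C * q * (q * R) ^ k)
      (t := Metric.ball (0 : ℂ) R) (y₀ := 0) hsum Metric.isOpen_ball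
      (convex_ball (0 : ℂ) R).isPreconnected ?_ hbd (Metric.mem_ball_self hR0) ?_ hy
    · intro k y _
      have h1 := ((hasDerivAt_pow (k + 1) y).const_mul (T (k + 1))).div_const ((k + 1 : ℕ) : ℂ)
      have h2 : ((k + 1 : ℕ) : ℂ) ≠ 0 := by exact_mod_cast Nat.succ_ne_zero k
      refine h1.congr_deriv ?_
      rw [Nat.add_sub_cancel]
      field_simp
    · simp
  have hA : ∀ y : ℂ, (∑ j ∈ Finset.range (N + 1), a j * y ^ j) = ∑' j, a j * y ^ j := by
    intro y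
    rw [tsum_eq_sum]
    intro j hj
    rw [Finset.mem_range, not_lt] at hj
    rw [haN j (by omega), zero_mul]
  have hdA : ∀ y : ℂ, HasDerivAt (fun z : ℂ => ∑ j ∈ Finset.range (N + 1), a j * z ^ j)
      (∑' j : ℕ, ((j + 1 : ℕ) : ℂ) * a (j + 1) * y ^ j) y := by
    intro y
    have h1 : HasDerivAt (fun z : ℂ => ∑ j ∈ Finset.range (N + 1), a j * z ^ j)
        (∑ j ∈ Finset.range (N + 1), a j * ((j : ℂ) * y ^ (j - 1))) y := by
      apply HasDerivAt.fun_sum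
      intro j _
      exact (hasDerivAt_pow j y).const_mul (a j)
    convert h1 using 1
    rw [Finset.sum_range_succ', tsum_eq_sum (s := Finset.range N)]
    · simp only [Nat.cast_zero, zero_mul, mul_zero, add_zero, Nat.add_sub_cancel]
      exact Finset.sum_congr rfl fun j _ => by ring
    · intro j hj
      rw [Finset.mem_range, not_lt] at hj
      rw [haN (j + 1) (by omega), mul_zero, zero_mul]
  have hid : ∀ y ∈ Metric.ball (0 : ℂ) R, (∑' j : ℕ, ((j + 1 : ℕ) : ℂ) * a (j + 1) * y ^ j) =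
      (∑' k : ℕ, T (k + 1) * y ^ k) * ∑ j ∈ Finset.range (N + 1), a j * y ^ j := by
    intro y hy
    rw [hA, tsum_mul_tsum_eq_tsum_sum_range_of_summable_norm]
    · congr 1
      funext k
      rw [hrec (k + 1), Finset.sum_mul]
      refine Finset.sum_congr rfl fun j hj => ?_
      rw [Finset.mem_range] at hj
      rw [Nat.add_sub_cancel]
      have : y ^ k = y ^ j * y ^ (k - j) := by rw [← pow_add]; congr 1; omega
      rw [this]; ring
    · exact Summable.of_nonneg_of_le (fun _ => norm_nonneg _) (fun k => hbd k y hy) hsum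
    · apply summable_of_ne_finset_zero (s := Finset.range (N + 1))
      intro j hj
      rw [Finset.mem_range, not_lt] at hj
      rw [haN j (by omega), zero_mul, norm_zero]
  set G : ℂ → ℂ := fun z : ℂ => ∑' k : ℕ, T (k + 1) * z ^ (k + 1) / ((k + 1 : ℕ) : ℂ) with hG
  set A : ℂ → ℂ := fun z : ℂ => ∑ j ∈ Finset.range (N + 1), a j * z ^ j with hAdef
  have hh : ∀ y ∈ Metric.ball (0 : ℂ) R, HasDerivAt (fun z => A z * Complex.exp (-G z)) 0 y := by
    intro y hy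
    have h1 : HasDerivAt (fun z => A z * Complex.exp (-G z)) _ y :=
      (hdA y).fun_mul ((hder y hy).fun_neg.cexp)
    refine h1.congr_deriv ?_
    rw [hid y hy]
    simp only [hAdef]
    ring
  have hconst := Metric.isOpen_ball.is_const_of_deriv_eq_zero (s := Metric.ball (0 : ℂ) R)
    (f := fun z => A z * Complex.exp (-G z)) (convex_ball (0 : ℂ) R).isPreconnected
    (fun y hy => (hh y hy).differentiableAt.differentiableWithinAt)
    (fun y hy => (hh y hy).deriv) (x := u) (y := 0) (by rw [mem_ball_zero_iff]; exact hR1)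
    (Metric.mem_ball_self hR0)
  have hG0 : G 0 = 0 := by simp [hG]
  have hA0 : A 0 = 1 := by
    simp only [hAdef]
    rw [Finset.sum_range_succ']
    simp [ha0]
  have h3 : A u * Complex.exp (-G u) = 1 := by
    have := hconst
    simp only [hG0, hA0] at this
    simpa using this
  have h4 : Complex.exp (G u) = A u := by
    rw [Complex.exp_neg] at h3
    have := Complex.exp_ne_zero (G u)
    field_simp at h3
    exact h3.symm
  exact h4

/-- From the power sums to the Euler product. `‖T_k‖ ≤ n q^k`, so for `‖u‖ < 1/q` the product converges absolutely,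
with logarithm `∑_P ∑_i ∑_e (α_{P,i} χ(P) u^(deg P))^e / e = ∑_{k ≥ 1} T_k u^k / k`, and `exp(∑ T_k u^k/k) = ∑ a_j u^j`
on the disc (the quotient of the two sides has zero derivative, by the recursion `hrec`, and value `1` at `0`; or compare
Taylor coefficients). -/
theorem euler {𝓟 𝓧 : Type} (S : Sys 𝓟 𝓧) {n : ℕ} (α : 𝓟 → Fin n → ℂ) (hα : ∀ P i, ‖α P i‖ ≤ 1) (χ : 𝓧)
    (a T : ℕ → ℂ) (N : ℕ) (ha0 : a 0 = 1) (haN : ∀ j, N < j → a j = 0)
    (hT : ∀ k : ℕ, k ≠ 0 → T k =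
      ∑ d ∈ k.divisors, (d : ℂ) * ∑ P ∈ S.Pr d, (∑ i, α P i ^ (k / d)) * S.ev χ P ^ (k / d))
    (hrec : ∀ k : ℕ, (k : ℂ) * a k = ∑ j ∈ Finset.range k, T (j + 1) * a (k - 1 - j)) (u : ℂ)
    (hu : ‖u‖ < 1 / S.q) :
    HasProd (fun P : {P : 𝓟 // P ∈ S.Pr (S.deg P) ∧ S.deg P ≠ 0} =>
      ∏ i, (1 - α P i * S.ev χ P * u ^ S.deg (P : 𝓟))⁻¹) (∑ j ∈ Finset.range (N + 1), a j * u ^ j) := by
  classical
  have hq0 : (0 : ℝ) < S.q := by
    have := S.hq
    exact_mod_cast (by omega : 0 < S.q)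
  have hq1 : (1 : ℝ) ≤ S.q := by
    have := S.hq
    exact_mod_cast (by omega : 1 ≤ S.q)
  have hr1 : S.q * ‖u‖ < 1 := by
    rw [lt_div_iff₀ hq0] at hu
    linarith
  have hu1 : ‖u‖ < 1 := by
    refine lt_of_le_of_lt ?_ hr1
    nlinarith [norm_nonneg u]
  set r : ℝ := ‖u‖ with hr
  have hr0 : 0 ≤ r := norm_nonneg u
  -- the bound for the local terms
  have hev : ∀ (P : 𝓟) (i : Fin n) (e : ℕ), ‖α P i ^ e‖ ≤ 1 := by
    intro P i e
    rw [norm_pow]
    exact pow_le_one₀ (norm_nonneg _) (hα P i)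
  have hchi : ∀ (P : 𝓟) (e : ℕ), ‖S.ev χ P ^ e‖ ≤ 1 := by
    intro P e
    rw [norm_pow]
    exact pow_le_one₀ (norm_nonneg _) (S.ev_le χ P)
  have hpow : ∀ (P : 𝓟) (e : ℕ), ‖∑ i, α P i ^ e‖ ≤ n := by
    intro P e
    refine le_trans (norm_sum_le _ _) ?_
    refine le_trans (Finset.sum_le_sum fun i _ => hev P i e) ?_
    simp
  have hTb : ∀ k : ℕ, ‖T (k + 1)‖ ≤ (2 * n) * (S.q : ℝ) ^ (k + 1) := by
    intro k
    rw [hT (k + 1) (Nat.succ_ne_zero k)]
    refine le_trans (norm_sum_le _ _) ?_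
    have h1 : ∀ d ∈ (k + 1).divisors, ‖(d : ℂ) * ∑ P ∈ S.Pr d, (∑ i, α P i ^ ((k + 1) / d)) *
        S.ev χ P ^ ((k + 1) / d)‖ ≤ n * (S.q : ℝ) ^ d := by
      intro d _
      rw [norm_mul, Complex.norm_natCast]
      have h2 : ‖∑ P ∈ S.Pr d, (∑ i, α P i ^ ((k + 1) / d)) * S.ev χ P ^ ((k + 1) / d)‖ ≤
          (S.Pr d).card * (n : ℝ) := by
        refine le_trans (norm_sum_le _ _) ?_
        rw [← nsmul_eq_mul]
        refine Finset.sum_le_card_nsmul _ _ _ fun P _ => ?_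
        rw [norm_mul]
        calc _ ≤ (n : ℝ) * 1 := by
              gcongr
              · exact hpow P _
              · exact hchi P _
          _ = n := mul_one _
      have h3 : (d : ℝ) * (S.Pr d).card ≤ (S.q : ℝ) ^ d := by exact_mod_cast S.Pr_le d
      calc _ ≤ (d : ℝ) * ((S.Pr d).card * (n : ℝ)) := by gcongr
        _ = ((d : ℝ) * (S.Pr d).card) * n := by ring
        _ ≤ (S.q : ℝ) ^ d * n := by gcongr
        _ = n * (S.q : ℝ) ^ d := mul_comm _ _
    refine le_trans (Finset.sum_le_sum h1) ?_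
    rw [← Finset.mul_sum]
    have := div_le S.q S.hq (k + 1)
    have hn : (0 : ℝ) ≤ n := by positivity
    nlinarith
  have hexp := exp_eq (S.q : ℝ) hq0 (2 * n) T a N ha0 haN hTb hrec u hu
  set f : {P : 𝓟 // P ∈ S.Pr (S.deg P) ∧ S.deg P ≠ 0} × ℕ → ℂ := fun x =>
    (∑ i, α x.1 i ^ (x.2 + 1)) * S.ev χ x.1 ^ (x.2 + 1) * u ^ (S.deg (x.1 : 𝓟) * (x.2 + 1)) / ((x.2 + 1 : ℕ) : ℂ)
    with hf
  set s : ℕ → Set ({P : 𝓟 // P ∈ S.Pr (S.deg P) ∧ S.deg P ≠ 0} × ℕ) :=
    fun k => {x | S.deg (x.1 : 𝓟) * (x.2 + 1) = k} with hs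
  have hempty : IsEmpty (s 0) := by
    constructor
    rintro ⟨⟨⟨P, hP⟩, e⟩, hx⟩
    simp only [hs, Set.mem_ofPred_eq] at hx
    rcases Nat.mul_eq_zero.1 hx with h | h
    · exact hP.2 h
    · omega
  -- norm sums over the fibres
  have hnorm : ∀ k : ℕ, k ≠ 0 → HasSum (fun c : s k => (n : ℝ) * r ^ (S.deg (c.1.1 : 𝓟) * (c.1.2 + 1)))
      (∑ d ∈ k.divisors, ∑ P ∈ S.Pr d, (n : ℝ) * r ^ (S.deg P * (k / d))) := fun k hk =>
    fib_hasSum S (fun P e => (n : ℝ) * r ^ (S.deg P * e)) hk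
  have hnorm2 : ∀ k : ℕ, k ≠ 0 → ∑ d ∈ k.divisors, ∑ P ∈ S.Pr d, (n : ℝ) * r ^ (S.deg P * (k / d)) ≤
      (2 * n) * (S.q * r) ^ k := by
    intro k hk
    have h1 : ∀ d ∈ k.divisors, ∑ P ∈ S.Pr d, (n : ℝ) * r ^ (S.deg P * (k / d)) ≤
        (n * r ^ k) * (S.q : ℝ) ^ d := by
      intro d hd
      have h2 : ∀ P ∈ S.Pr d, (n : ℝ) * r ^ (S.deg P * (k / d)) = n * r ^ k := by
        intro P hP
        rw [S.Pr_deg d P hP, Nat.mul_div_cancel' (Nat.dvd_of_mem_divisors hd)]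
      rw [Finset.sum_congr rfl h2, Finset.sum_const, nsmul_eq_mul, mul_comm]
      have := tn_le S (Nat.pos_of_mem_divisors hd).ne'
      gcongr
    refine le_trans (Finset.sum_le_sum h1) ?_
    rw [← Finset.mul_sum]
    have h3 := div_le S.q S.hq k
    calc (n * r ^ k) * ∑ d ∈ k.divisors, (S.q : ℝ) ^ d ≤ (n * r ^ k) * (2 * (S.q : ℝ) ^ k) := by gcongr
      _ = (2 * n) * (S.q * r) ^ k := by rw [mul_pow]; ring
  have hsum0 : Summable (fun x : {P : 𝓟 // P ∈ S.Pr (S.deg P) ∧ S.deg P ≠ 0} × ℕ =>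
      (n : ℝ) * r ^ (S.deg (x.1 : 𝓟) * (x.2 + 1))) := by
    rw [summable_partition (s := s) (fun x => by positivity) (fun x => ⟨_, rfl, fun y hy => hy.symm⟩)]
    constructor
    · intro k
      rcases Nat.eq_zero_or_pos k with rfl | hk
      · exact Summable.of_finite
      · exact (hnorm k hk.ne').summable
    · refine Summable.of_nonneg_of_le (fun k => tsum_nonneg fun _ => by positivity) (fun k => ?_)
        ((summable_geometric_of_lt_one (by positivity) hr1).mul_left (2 * (n : ℝ)))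
      rcases Nat.eq_zero_or_pos k with rfl | hk
      · rw [tsum_empty]
        positivity
      · rw [(hnorm k hk.ne').tsum_eq]
        exact hnorm2 k hk.ne'
  have hsumf : Summable f := by
    refine Summable.of_norm_bounded hsum0 fun x => ?_
    rw [hf]
    simp only
    rw [norm_div, norm_mul, norm_mul, norm_pow u, Complex.norm_natCast]
    have h1 : (1 : ℝ) ≤ ((x.2 + 1 : ℕ) : ℝ) := by
      push_cast
      linarith [(Nat.cast_nonneg x.2 : (0 : ℝ) ≤ x.2)]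
    refine le_trans (div_le_self (by positivity) h1) ?_
    refine mul_le_mul_of_nonneg_right ?_ (by positivity)
    calc _ ≤ (n : ℝ) * 1 := by
          gcongr
          · exact hpow _ _
          · exact hchi _ _
      _ = n := mul_one _
  have hfib : ∀ k : ℕ, ∑' c : (fun x : {P : 𝓟 // P ∈ S.Pr (S.deg P) ∧ S.deg P ≠ 0} × ℕ =>
      S.deg (x.1 : 𝓟) * (x.2 + 1)) ⁻¹' {k}, f c = T k * u ^ k / (k : ℂ) := by
    intro k
    change ∑' c : s k, f c = T k * u ^ k / (k : ℂ)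
    rcases Nat.eq_zero_or_pos k with rfl | hk
    · rw [tsum_empty]; simp
    · have h1 := fib_hasSum S (fun P e => (∑ i, α P i ^ e) * S.ev χ P ^ e * u ^ (S.deg (P : 𝓟) * e) / (e : ℂ)) hk.ne'
      rw [hf]
      refine h1.tsum_eq.trans ?_
      rw [hT k hk.ne', Finset.sum_mul, Finset.sum_div]
      refine Finset.sum_congr rfl fun d hd => ?_
      have hd1 := Nat.dvd_of_mem_divisors hd
      have hd2 : (d : ℂ) ≠ 0 := by exact_mod_cast (Nat.pos_of_mem_divisors hd).ne'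
      have hk2 : (k : ℂ) ≠ 0 := by exact_mod_cast hk.ne'
      rw [Finset.mul_sum, Finset.sum_mul, Finset.sum_div]
      refine Finset.sum_congr rfl fun P hP => ?_
      rw [S.Pr_deg d P hP, Nat.mul_div_cancel' hd1, Nat.cast_div hd1 hd2]
      field_simp
  have hG : HasSum (fun k : ℕ => T k * u ^ k / (k : ℂ)) (∑' x, f x) := by
    have h1 := hsumf.hasSum.tsum_fiberwise (fun x : {P : 𝓟 // P ∈ S.Pr (S.deg P) ∧ S.deg P ≠ 0} × ℕ =>
      S.deg (x.1 : 𝓟) * (x.2 + 1))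
    simpa only [hfib] using h1
  have hG2 : ∑' x, f x = ∑' k : ℕ, T (k + 1) * u ^ (k + 1) / ((k + 1 : ℕ) : ℂ) := by
    rw [← hasSum_nat_add_iff' 1] at hG
    simp only [Finset.range_one, Finset.sum_singleton, Nat.cast_zero, div_zero, sub_zero] at hG
    exact hG.tsum_eq.symm
  have hz : ∀ (P : {P : 𝓟 // P ∈ S.Pr (S.deg P) ∧ S.deg P ≠ 0}) (i : Fin n),
      ‖α P i * S.ev χ P * u ^ S.deg (P : 𝓟)‖ < 1 := by
    intro P i
    rw [norm_mul, norm_mul, norm_pow]
    have h1 : ‖u‖ ^ S.deg (P : 𝓟) < 1 := pow_lt_one₀ (norm_nonneg _) hu1 P.2.2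
    have h2 : ‖α P i‖ * ‖S.ev χ P‖ ≤ 1 := mul_le_one₀ (hα P i) (norm_nonneg _) (S.ev_le χ P)
    calc _ ≤ 1 * ‖u‖ ^ S.deg (P : 𝓟) := by gcongr
      _ < 1 := by rwa [one_mul]
  have hloc : ∀ P : {P : 𝓟 // P ∈ S.Pr (S.deg P) ∧ S.deg P ≠ 0},
      HasSum (fun e : ℕ => f (P, e)) (∑ i, -Complex.log (1 - α P i * S.ev χ P * u ^ S.deg (P : 𝓟))) := by
    intro P
    have h1 : ∀ i : Fin n, HasSum (fun e : ℕ => (α P i * S.ev χ P * u ^ S.deg (P : 𝓟)) ^ (e + 1) / ((e + 1 : ℕ) : ℂ))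
        (-Complex.log (1 - α P i * S.ev χ P * u ^ S.deg (P : 𝓟))) := by
      intro i
      have h2 := Complex.hasSum_taylorSeries_neg_log (hz P i)
      rw [← hasSum_nat_add_iff' 1] at h2
      simpa using h2
    have h3 := hasSum_sum (s := Finset.univ) (fun i _ => h1 i)
    convert h3 using 1
    funext e
    rw [hf]
    simp only
    rw [Finset.sum_mul, Finset.sum_mul, Finset.sum_div]
    refine Finset.sum_congr rfl fun i _ => ?_
    rw [mul_pow, mul_pow, pow_mul]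
  have hfin := (hsumf.hasSum.prod_fiberwise hloc).cexp
  rw [hG2, hexp] at hfin
  convert hfin using 1
  funext P
  simp only [Function.comp]
  rw [Complex.exp_sum]
  refine Finset.prod_congr rfl fun i _ => ?_
  have h1 : (1 - α P i * S.ev χ P * u ^ S.deg (P : 𝓟)) ≠ 0 := by
    intro h
    have h2 := hz P i
    rw [← sub_eq_zero.1 h, norm_one] at h2
    exact lt_irrefl _ h2
  rw [Complex.exp_neg, Complex.exp_log h1]


end Pool.Agent.H497.FF
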