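import Pool.Agent.H497.FF.Defs

set_option autoImplicit false



namespace Pool.Agent.H497.FF

open Polynomial

namespace C9aAux

variable {F : Type} [Field F] [Fintype F]

theorem exists_pow_sub_one {g : F[X]} (hg : g.Monic) {A : F[X]} (hA : IsCoprime A g) :
    ∃ N : ℕ, 0 < N ∧ g ∣ A ^ N - 1 := by
  have hfin := hg.finite_adjoinRoot
  have hfin2 : Finite (AdjoinRoot g) := Module.finite_of_finite F
  obtain ⟨a, b, hab⟩ := hA
  have h1 : AdjoinRoot.mk g A * AdjoinRoot.mk g a = 1 := by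
    have h2 : AdjoinRoot.mk g (a * A + b * g) = 1 := by rw [hab, map_one]
    rw [map_add, map_mul, map_mul, AdjoinRoot.mk_self, mul_zero, add_zero] at h2
    rw [mul_comm]; exact h2
  have hu : IsUnit (AdjoinRoot.mk g A) := IsUnit.of_mul_eq_one _ h1
  obtain ⟨u, hu⟩ := hu
  refine ⟨orderOf u, orderOf_pos u, ?_⟩
  have h3 : (u ^ orderOf u : (AdjoinRoot g)ˣ) = 1 := pow_orderOf_eq_one u
  have h4 : AdjoinRoot.mk g (A ^ orderOf u - 1) = 0 := by
    rw [map_sub, map_pow, map_one, ← hu, ← Units.val_pow_eq_pow_val, h3, Units.val_one, sub_self]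
  exact AdjoinRoot.mk_eq_zero.mp h4

theorem dvd_pow_mul_sub_one {g A : F[X]} {N : ℕ} (h : g ∣ A ^ N - 1) (M : ℕ) :
    g ∣ A ^ (N * M) - 1 := by
  rw [pow_mul]
  exact h.trans (sub_one_dvd_pow_sub_one _ _)

theorem reverse_pow (D : F[X]) (n : ℕ) : (D ^ n).reverse = D.reverse ^ n := by
  induction n with
  | zero => simpa using reverse_C (1 : F)
  | succ n ih => rw [pow_succ, reverse_mul_of_domain, ih, pow_succ]

theorem reverse_coprime_X_pow {D : F[X]} (hD : D.Monic) (m : ℕ) :
    IsCoprime D.reverse (X ^ m : F[X]) := by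
  apply IsCoprime.pow_right
  refine (irreducible_X.coprime_iff_not_dvd.mpr ?_).symm
  rw [X_dvd_iff, coeff_zero_reverse, hD.leadingCoeff]
  exact one_ne_zero

theorem chi_pow {f : F[X]} {m : ℕ} {χ : F[X] → ℂ} (h : IsHecke f m χ) {D : F[X]} (hD : D.Monic)
    (n : ℕ) : χ (D ^ n) = χ D ^ n := by
  induction n with
  | zero => simpa using h.one
  | succ n ih => rw [pow_succ, h.mul _ _ (hD.pow n) hD, ih, pow_succ]

end C9aAux

open C9aAux

/-- `‖χ D‖ = 1` for `D` monic prime to `f` (a power of `D` is `1` modulo `f` and has reverse `1` modulo `X^m`) -/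
theorem IsHecke.norm_eq {F : Type} [Field F] [Fintype F] {f : F[X]} {m : ℕ} {χ : F[X] → ℂ} (h : IsHecke f m χ)
    {D : F[X]} (hD : D.Monic) (hc : IsCoprime D f) : ‖χ D‖ = 1 := by
  obtain ⟨N, hN, hNd⟩ := exists_pow_sub_one h.monic hc
  obtain ⟨M, hM, hMd⟩ := exists_pow_sub_one (monic_X_pow (R := F) m) (reverse_coprime_X_pow hD m)
  have h1 : χ (D ^ (N * M)) = χ 1 := by
    apply h.cong _ _ (hD.pow _) monic_one (dvd_pow_mul_sub_one hNd M)
    rw [reverse_pow, mul_comm N M]
    have : (1 : F[X]).reverse = 1 := by simpa using reverse_C (1 : F)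
    rw [this]
    exact dvd_pow_mul_sub_one hMd N
  rw [chi_pow h hD, h.one] at h1
  have h2 : ‖χ D‖ ^ (N * M) = 1 := by rw [← norm_pow, h1, norm_one]
  exact (pow_eq_one_iff_of_nonneg (norm_nonneg _) (Nat.mul_pos hN hM).ne').mp h2

theorem IsHecke.norm_le {F : Type} [Field F] [Fintype F] {f : F[X]} {m : ℕ} {χ : F[X] → ℂ} (h : IsHecke f m χ)
    (D : F[X]) : ‖χ D‖ ≤ 1 := by
  by_cases hD : D.Monic
  · by_cases hc : IsCoprime D f
    · exact (h.norm_eq hD hc).le
    · have : χ D = 0 := by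
        by_contra h0
        exact hc ((h.supp D hD).mp h0)
      rw [this, norm_zero]
      exact zero_le_one
  · rw [h.zero D hD, norm_zero]
    exact zero_le_one

theorem IsHecke.bar {F : Type} [Field F] [Fintype F] {f : F[X]} {m : ℕ} {χ : F[X] → ℂ} (h : IsHecke f m χ) :
    IsHecke f m (fun D => starRingEnd ℂ (χ D)) where
  monic := h.monic
  one := by simp [h.one]
  mul D E hD hE := by simp [h.mul D E hD hE]
  supp D hD := by
    rw [← h.supp D hD]
    simp
  cong D E hD hE h1 h2 := by simp [h.cong D E hD hE h1 h2]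
  zero D hD := by simp [h.zero D hD]

theorem IsPrim.bar {F : Type} [Field F] [Fintype F] {f : F[X]} {m : ℕ} {χ : F[X] → ℂ} (h : IsPrim f m χ) :
    IsPrim f m (fun D => starRingEnd ℂ (χ D)) := by
  refine ⟨h.1.bar, ?_⟩
  intro f' m' χ' h' hag
  refine h.2 f' m' _ h'.bar ?_
  intro D hD hc hc'
  have := hag D hD hc hc'
  simp only at this
  rw [← this, Complex.conj_conj]

theorem IsHecke.mul_bar {F : Type} [Field F] [Fintype F] {f f' : F[X]} {m m' : ℕ} {χ χ' : F[X] → ℂ}
    (h : IsHecke f m χ) (h' : IsHecke f' m' χ') :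
    IsHecke (f * f') (max m m') (fun D => χ D * starRingEnd ℂ (χ' D)) where
  monic := h.monic.mul h'.monic
  one := by simp [h.one, h'.one]
  mul D E hD hE := by
    simp only [h.mul D E hD hE, h'.mul D E hD hE, map_mul]
    ring
  supp D hD := by
    rw [IsCoprime.mul_right_iff, ← h.supp D hD, ← h'.supp D hD]
    simp [not_or]
  cong D E hD hE h1 h2 := by
    have e1 := h.cong D E hD hE ((dvd_mul_right f f').trans h1)
      ((pow_dvd_pow X (le_max_left m m')).trans h2)
    have e2 := h'.cong D E hD hE ((dvd_mul_left f' f).trans h1)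
      ((pow_dvd_pow X (le_max_right m m')).trans h2)
    simp only [e1, e2]
  zero D hD := by simp [h.zero D hD]

theorem IsPrim.cond_unique {F : Type} [Field F] [Fintype F] {f f' : F[X]} {m m' : ℕ} {χ : F[X] → ℂ}
    (h : IsPrim f m χ) (h' : IsPrim f' m' χ) : f = f' ∧ m = m' := by
  obtain ⟨h1, h2⟩ := h.2 f' m' χ h'.1 (fun _ _ _ _ => rfl)
  obtain ⟨h3, h4⟩ := h'.2 f m χ h.1 (fun _ _ _ _ => rfl)
  exact ⟨eq_of_monic_of_associated h.1.monic h'.1.monic (associated_of_dvd_dvd h1 h3),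
    le_antisymm h2 h4⟩

theorem IsPrim.nontriv {F : Type} [Field F] [Fintype F] {f f' : F[X]} {m m' : ℕ} {χ χ' : F[X] → ℂ}
    (h : IsPrim f m χ) (h' : IsPrim f' m' χ') (hne : χ ≠ χ') :
    Nontriv (fun D => χ D * starRingEnd ℂ (χ' D)) := by
  by_contra hcon
  have key : ∀ D : F[X], D.Monic → IsCoprime D f → IsCoprime D f' → χ D = χ' D := by
    intro D hD hc hc'
    have h1 : χ D ≠ 0 := (h.1.supp D hD).mpr hc
    have h2 : χ' D ≠ 0 := (h'.1.supp D hD).mpr hc'
    have h3 : χ D * starRingEnd ℂ (χ' D) = 1 := by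
      by_contra h4
      exact hcon ⟨D, hD, mul_ne_zero h1 (by simpa using h2), h4⟩
    have h5 : χ' D * starRingEnd ℂ (χ' D) = 1 := by
      rw [Complex.mul_conj, Complex.normSq_eq_norm_sq, h'.1.norm_eq hD hc']
      simp
    have h6 : starRingEnd ℂ (χ' D) ≠ 0 := by simpa using h2
    exact mul_right_cancel₀ h6 (h3.trans h5.symm)
  obtain ⟨h1, h2⟩ := h.2 f' m' χ' h'.1 key
  obtain ⟨h3, h4⟩ := h'.2 f m χ h.1 (fun D hD hc hc' => (key D hD hc' hc).symm)
  have hff : f = f' :=
    eq_of_monic_of_associated h.1.monic h'.1.monic (associated_of_dvd_dvd h1 h3)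
  subst hff
  apply hne
  funext D
  by_cases hD : D.Monic
  · by_cases hc : IsCoprime D f
    · exact key D hD hc hc
    · have e1 : χ D = 0 := by
        by_contra h0
        exact hc ((h.1.supp D hD).mp h0)
      have e2 : χ' D = 0 := by
        by_contra h0
        exact hc ((h'.1.supp D hD).mp h0)
      rw [e1, e2]
  · rw [h.1.zero D hD, h'.1.zero D hD]

/-- at most `deg f` primes of degree `k ≥ 1` divide `f` -/
theorem IsHecke.diag {F : Type} [Field F] [Fintype F] {f : F[X]} {m : ℕ} {χ : F[X] → ℂ} (h : IsHecke f m χ)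
    {k : ℕ} (hk : k ≠ 0) : ((irr F k).card : ℝ) - f.natDegree ≤ ∑ P ∈ irr F k, ‖χ P‖ ^ 2 := by
  classical
  have hsplit := Finset.sum_filter_add_sum_filter_not (irr F k) (fun P => P ∣ f)
    (fun P => ‖χ P‖ ^ 2)
  have hcard := Finset.card_filter_add_card_filter_not (s := irr F k) (fun P => P ∣ f)
  have h1 : ∑ P ∈ (irr F k).filter (fun P => ¬ P ∣ f), ‖χ P‖ ^ 2
      = (((irr F k).filter (fun P => ¬ P ∣ f)).card : ℝ) := by
    rw [Finset.sum_congr rfl (g := fun _ => (1 : ℝ))]
    · simp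
    · intro P hP
      rw [Finset.mem_filter, mem_irr] at hP
      obtain ⟨⟨hPm, _, hPi⟩, hPf⟩ := hP
      rw [h.norm_eq hPm (hPi.coprime_iff_not_dvd.mpr hPf)]
      norm_num
  have h2 : 0 ≤ ∑ P ∈ (irr F k).filter (fun P => P ∣ f), ‖χ P‖ ^ 2 :=
    Finset.sum_nonneg fun _ _ => by positivity
  have h3 : ((irr F k).filter (fun P => P ∣ f)).card ≤ f.natDegree := by
    have hprod : ∏ P ∈ (irr F k).filter (fun P => P ∣ f), P ∣ f := by
      apply Finset.prod_dvd_of_coprime
      · intro P hP Q hQ hPQ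
        simp only [Finset.coe_filter, Set.mem_ofPred_eq, mem_irr] at hP hQ
        refine (hP.1.2.2.coprime_iff_not_dvd).mpr ?_
        intro hdvd
        exact hPQ (eq_of_monic_of_associated hP.1.1 hQ.1.1
          (hP.1.2.2.associated_of_dvd hQ.1.2.2 hdvd))
      · intro P hP
        exact (Finset.mem_filter.mp hP).2
    have hdeg := natDegree_le_of_dvd hprod h.monic.ne_zero
    rw [natDegree_prod_of_monic] at hdeg
    · refine le_trans ?_ hdeg
      rw [Finset.sum_congr rfl (g := fun _ => k)]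
      · rw [Finset.sum_const, smul_eq_mul]
        exact Nat.le_mul_of_pos_right _ (Nat.pos_of_ne_zero hk)
      · intro P hP
        rw [Finset.mem_filter, mem_irr] at hP
        exact hP.1.2.1
    · intro P hP
      rw [Finset.mem_filter, mem_irr] at hP
      exact hP.1.1
  have h3' : ((((irr F k).filter (fun P => P ∣ f)).card : ℕ) : ℝ) ≤ f.natDegree := by
    exact_mod_cast h3
  have h4 : ((irr F k).card : ℝ) = (((irr F k).filter (fun P => P ∣ f)).card : ℝ)
      + (((irr F k).filter (fun P => ¬ P ∣ f)).card : ℝ) := by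
    exact_mod_cast hcard.symm
  linarith

end Pool.Agent.H497.FF
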