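import Pool.Agent.H497.FF.A1
import Pool.Agent.H497.FF.C9a

set_option autoImplicit false



namespace Pool.Agent.H497.FF

open Polynomial


theorem card_mon {F : Type} [Field F] [Fintype F] (k : ℕ) : (mon F k).card = Fintype.card F ^ k := by
  classical
  have e : (mon F k : Set F[X]) ≃ (Fin k → F) :=
    (Equiv.subtypeEquivRight (fun D => by
      rw [Finset.mem_coe, mem_mon])).trans ((monicEquivDegreeLT k).trans (degreeLTEquiv F k).toEquiv)
  have h1 : Fintype.card (mon F k : Set F[X]) = Fintype.card (Fin k → F) := Fintype.card_congr e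
  simpa using h1

theorem IsHecke.mulConj {F : Type} [Field F] [Fintype F] {f : F[X]} {m : ℕ} {χ χ' : F[X] → ℂ}
    (h : IsHecke f m χ) (h' : IsHecke f m χ') :
    IsHecke f m (fun D => χ D * starRingEnd ℂ (χ' D)) where
  monic := h.monic
  one := by
    show χ 1 * starRingEnd ℂ (χ' 1) = 1
    rw [h.one, h'.one, map_one, one_mul]
  mul := fun D E hD hE => by
    show χ (D * E) * starRingEnd ℂ (χ' (D * E)) = (χ D * starRingEnd ℂ (χ' D)) * (χ E * starRingEnd ℂ (χ' E))
    rw [h.mul D E hD hE, h'.mul D E hD hE, map_mul]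
    ring
  supp := fun D hD => by
    show χ D * starRingEnd ℂ (χ' D) ≠ 0 ↔ IsCoprime D f
    rw [mul_ne_zero_iff, _root_.map_ne_zero, h.supp D hD, h'.supp D hD, and_self]
  cong := fun D E hD hE h1 h2 => by
    show χ D * starRingEnd ℂ (χ' D) = χ E * starRingEnd ℂ (χ' E)
    rw [h.cong D E hD hE h1 h2, h'.cong D E hD hE h1 h2]
  zero := fun D hD => by
    show χ D * starRingEnd ℂ (χ' D) = 0
    rw [h.zero D hD, zero_mul]

theorem IsHecke.nontriv_mulConj {F : Type} [Field F] [Fintype F] {f : F[X]} {m : ℕ} {χ χ' : F[X] → ℂ}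
    (h : IsHecke f m χ) (h' : IsHecke f m χ') (hne : χ ≠ χ') :
    Nontriv (fun D => χ D * starRingEnd ℂ (χ' D)) := by
  obtain ⟨D, hD⟩ := Function.ne_iff.1 hne
  have hm : D.Monic := by
    by_contra hm
    rw [h.zero D hm, h'.zero D hm] at hD
    exact hD rfl
  have hc : IsCoprime D f := by
    by_contra hc
    apply hD
    have h1 : χ D = 0 := by
      by_contra h1
      exact hc ((h.supp D hm).1 h1)
    have h2 : χ' D = 0 := by
      by_contra h2
      exact hc ((h'.supp D hm).1 h2)
    rw [h1, h2]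
  refine ⟨D, hm, ?_, ?_⟩
  · exact ((h.mulConj h').supp D hm).2 hc
  · intro h1
    apply hD
    have h2 : starRingEnd ℂ (χ' D) * χ' D = 1 := by
      rw [mul_comm, Complex.mul_conj, Complex.normSq_eq_norm_sq, h'.norm_eq hm hc]
      norm_num
    calc χ D = χ D * (starRingEnd ℂ (χ' D) * χ' D) := by rw [h2, mul_one]
      _ = (χ D * starRingEnd ℂ (χ' D)) * χ' D := by ring
      _ = χ' D := by
        have h3 : χ D * starRingEnd ℂ (χ' D) = 1 := h1
        rw [h3, one_mul]

theorem exists_coprime_mon {F : Type} [Field F] [Fintype F] {f : F[X]} (hf : f.Monic) (m : ℕ) :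
    ∃ D ∈ mon F (f.natDegree + m), IsCoprime D f := by
  rcases Nat.eq_zero_or_pos (f.natDegree + m) with h0 | h0
  · refine ⟨1, ?_, isCoprime_one_left⟩
    rw [mem_mon, h0]
    exact ⟨monic_one, natDegree_one⟩
  · have h1 : (X ^ m * f).Monic := (monic_X_pow m).mul hf
    have h2 : (X ^ m * f).natDegree = f.natDegree + m := by
      rw [(monic_X_pow m).natDegree_mul hf, natDegree_X_pow, add_comm]
    have h3 : (1 : F[X]).degree < (X ^ m * f).degree := by
      rw [degree_one, degree_eq_natDegree h1.ne_zero, h2]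
      exact_mod_cast h0
    refine ⟨X ^ m * f + 1, ?_, ?_⟩
    · rw [mem_mon]
      refine ⟨h1.add_of_left h3, ?_⟩
      rw [natDegree_add_eq_left_of_degree_lt h3, h2]
    · exact ⟨1, -X ^ m, by ring⟩

/-- To prove: number of Hecke characters of given modulus. (Distinct characters `χ, χ'` of modulus `(f,m)` are orthogonal
nonzero vectors on the `q^(deg f + m)` elements of `mon F (deg f + m)`, since `χ conj χ'` is a nontrivial Hecke character
of modulus `(f, m)`; or: a Hecke character of modulus `(f,m)` is a monoid hom on a finite commutative monoid;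
orthogonality/linear independence of characters.) -/
theorem hecke_count {F : Type} [Field F] [Fintype F] (f : F[X]) (m : ℕ) :
    {χ : F[X] → ℂ | IsHecke f m χ}.Finite ∧
      {χ : F[X] → ℂ | IsHecke f m χ}.ncard ≤ Fintype.card F ^ (f.natDegree + m) := by
  classical
  let v : {χ : F[X] → ℂ | IsHecke f m χ} → (mon F (f.natDegree + m) → ℂ) := fun χ D => χ.1 D
  have hv : LinearIndependent ℂ v := by
    rw [linearIndependent_iff']
    intro s g hg i hi
    have hval : ∀ D ∈ mon F (f.natDegree + m), ∑ χ ∈ s, g χ * χ.1 D = 0 := by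
      intro D hD
      have := congrFun hg ⟨D, hD⟩
      simpa [v, Finset.sum_apply] using this
    have h1 : ∑ D ∈ mon F (f.natDegree + m), (∑ χ ∈ s, g χ * χ.1 D) * starRingEnd ℂ (i.1 D) = 0 := by
      apply Finset.sum_eq_zero
      intro D hD
      rw [hval D hD, zero_mul]
    have h2 : ∑ D ∈ mon F (f.natDegree + m), (∑ χ ∈ s, g χ * χ.1 D) * starRingEnd ℂ (i.1 D) =
        ∑ χ ∈ s, g χ * ∑ D ∈ mon F (f.natDegree + m), χ.1 D * starRingEnd ℂ (i.1 D) := by
      simp_rw [Finset.sum_mul, Finset.mul_sum]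
      rw [Finset.sum_comm]
      apply Finset.sum_congr rfl
      intro χ _
      apply Finset.sum_congr rfl
      intro D _
      ring
    rw [h2, Finset.sum_eq_single i] at h1
    · rcases mul_eq_zero.1 h1 with h3 | h3
      · exact h3
      · exfalso
        obtain ⟨D₀, hD₀, hc⟩ := exists_coprime_mon i.2.monic m
        have h4 : ∑ D ∈ mon F (f.natDegree + m), i.1 D * starRingEnd ℂ (i.1 D) =
            ((∑ D ∈ mon F (f.natDegree + m), ‖i.1 D‖ ^ 2 : ℝ) : ℂ) := by
          push_cast
          apply Finset.sum_congr rfl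
          intro D _
          rw [Complex.mul_conj, Complex.normSq_eq_norm_sq]
          push_cast
          rfl
        rw [h4] at h3
        have h5 : ∑ D ∈ mon F (f.natDegree + m), ‖i.1 D‖ ^ 2 = 0 := by exact_mod_cast h3
        rw [Finset.sum_eq_zero_iff_of_nonneg (fun D _ => sq_nonneg _)] at h5
        have h6 := h5 D₀ hD₀
        rw [i.2.norm_eq (mem_mon F |>.1 hD₀).1 hc] at h6
        norm_num at h6
    · intro χ _ hχ
      have h3 : ∑ D ∈ mon F (f.natDegree + m), χ.1 D * starRingEnd ℂ (i.1 D) = 0 :=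
        sum_mon_eq_zero (χ.2.mulConj i.2) (χ.2.nontriv_mulConj i.2 (fun h => hχ (Subtype.ext h))) _ le_rfl
      rw [h3, mul_zero]
    · intro h
      exact absurd hi h
  have hfin : Finite {χ : F[X] → ℂ | IsHecke f m χ} := hv.finite_of_isNoetherian
  refine ⟨Set.toFinite _, ?_⟩
  let _ : Fintype {χ : F[X] → ℂ | IsHecke f m χ} := Fintype.ofFinite _
  have h := hv.fintype_card_le_finrank
  rw [Module.finrank_fintype_fun_eq_card, Fintype.card_coe, card_mon] at h
  rw [← Nat.card_coe_set_eq, Nat.card_eq_fintype_card]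
  exact h

/-- `∑_{d + m ≤ n} q^d q^(d+m) ≤ q^(2n+2)` -/
theorem prim_count {F : Type} [Field F] [Fintype F] (n : ℕ) :
    {x : F[X] × ℕ × (F[X] → ℂ) | IsPrim x.1 x.2.1 x.2.2 ∧ x.1.natDegree + x.2.1 ≤ n}.Finite ∧
      {x : F[X] × ℕ × (F[X] → ℂ) | IsPrim x.1 x.2.1 x.2.2 ∧ x.1.natDegree + x.2.1 ≤ n}.ncard ≤
        Fintype.card F ^ (2 * n + 2) := by
  classical
  let T : Finset (F[X] × ℕ × (F[X] → ℂ)) :=
    (Finset.range (n + 1)).biUnion fun d => (Finset.range (n - d + 1)).biUnion fun m =>
      (mon F d).biUnion fun f => (hecke_count f m).1.toFinset.image (fun χ => (f, m, χ))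
  have hsub : {x : F[X] × ℕ × (F[X] → ℂ) | IsPrim x.1 x.2.1 x.2.2 ∧ x.1.natDegree + x.2.1 ≤ n} ⊆ (T : Set _) := by
    rintro ⟨f, m, χ⟩ ⟨h1, h2⟩
    simp only at h1 h2
    have hf := h1.1.monic
    simp only [T, Finset.coe_biUnion, Set.mem_iUnion, Finset.mem_coe, Finset.mem_range, Finset.mem_image]
    refine ⟨f.natDegree, by omega, m, by omega, f, (mem_mon F).2 ⟨hf, rfl⟩, χ, ?_, rfl⟩
    rw [Set.Finite.mem_toFinset]
    exact h1.1
  have hq : 2 ≤ Fintype.card F := Fintype.one_lt_card
  have hgeom : ∀ k : ℕ, ∑ i ∈ Finset.range (k + 1), Fintype.card F ^ i ≤ Fintype.card F ^ (k + 1) := by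
    intro k
    induction k with
    | zero => simp; omega
    | succ k ih =>
      rw [Finset.sum_range_succ]
      calc ∑ i ∈ Finset.range (k + 1), Fintype.card F ^ i + Fintype.card F ^ (k + 1)
          ≤ Fintype.card F ^ (k + 1) + Fintype.card F ^ (k + 1) := by omega
        _ = 2 * Fintype.card F ^ (k + 1) := by ring
        _ ≤ Fintype.card F * Fintype.card F ^ (k + 1) := Nat.mul_le_mul_right _ hq
        _ = Fintype.card F ^ (k + 1 + 1) := by ring
  have hcard : T.card ≤ Fintype.card F ^ (2 * n + 2) := by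
    calc T.card ≤ ∑ d ∈ Finset.range (n + 1), ∑ m ∈ Finset.range (n - d + 1), ∑ f ∈ mon F d,
          Fintype.card F ^ (d + m) := by
          refine Finset.card_biUnion_le.trans (Finset.sum_le_sum fun d _ => ?_)
          refine Finset.card_biUnion_le.trans (Finset.sum_le_sum fun m _ => ?_)
          refine Finset.card_biUnion_le.trans (Finset.sum_le_sum fun f hf => ?_)
          refine Finset.card_image_le.trans ?_
          have h := (hecke_count f m).2
          rw [Set.ncard_eq_toFinset_card _ (hecke_count f m).1] at h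
          refine h.trans (le_of_eq ?_)
          rw [((mem_mon F).1 hf).2]
      _ = ∑ d ∈ Finset.range (n + 1), Fintype.card F ^ (2 * d) *
          ∑ m ∈ Finset.range (n - d + 1), Fintype.card F ^ m := by
          apply Finset.sum_congr rfl
          intro d _
          rw [Finset.mul_sum]
          apply Finset.sum_congr rfl
          intro m _
          rw [Finset.sum_const, card_mon, smul_eq_mul]
          ring
      _ ≤ ∑ d ∈ Finset.range (n + 1), Fintype.card F ^ (n + 1) * Fintype.card F ^ d := by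
          apply Finset.sum_le_sum
          intro d hd
          rw [Finset.mem_range] at hd
          calc Fintype.card F ^ (2 * d) * ∑ m ∈ Finset.range (n - d + 1), Fintype.card F ^ m
              ≤ Fintype.card F ^ (2 * d) * Fintype.card F ^ (n - d + 1) := Nat.mul_le_mul_left _ (hgeom _)
            _ = Fintype.card F ^ (n + 1) * Fintype.card F ^ d := by
              rw [← pow_add, ← pow_add]
              congr 1
              omega
      _ = Fintype.card F ^ (n + 1) * ∑ d ∈ Finset.range (n + 1), Fintype.card F ^ d := by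
          rw [Finset.mul_sum]
      _ ≤ Fintype.card F ^ (n + 1) * Fintype.card F ^ (n + 1) := Nat.mul_le_mul_left _ (hgeom n)
      _ = Fintype.card F ^ (2 * n + 2) := by ring
  refine ⟨T.finite_toSet.subset hsub, ?_⟩
  calc _ ≤ (T : Set (F[X] × ℕ × (F[X] → ℂ))).ncard := Set.ncard_le_ncard hsub T.finite_toSet
    _ = T.card := Set.ncard_coe_finset T
    _ ≤ _ := hcard


end Pool.Agent.H497.FF
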