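import Mathlib

set_option autoImplicit false

namespace Pool.Agent.H497.FF

noncomputable section

/-- exponential of `∑_j g_j u^j / j`: `a_0 = 1`, `(k+1) a_{k+1} = ∑_{j ≤ k} g_{j+1} a_{k-j}` -/
def expc (g : ℕ → ℂ) : ℕ → ℂ
  | 0 => 1
  | (k + 1) => (∑ j : Fin (k + 1), g (j + 1) * expc g (k - j)) / ((k : ℂ) + 1)
  decreasing_by omega

theorem expc_zero (g : ℕ → ℂ) : expc g 0 = 1 := by
  unfold expc; rfl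

theorem expc_rec (g : ℕ → ℂ) (k : ℕ) :
    (k : ℂ) * expc g k = ∑ j ∈ Finset.range k, g (j + 1) * expc g (k - 1 - j) := by
  cases k with
  | zero => simp
  | succ k =>
    rw [expc]
    have : ((k : ℂ) + 1) ≠ 0 := by exact_mod_cast Nat.succ_ne_zero k
    push_cast
    rw [mul_div_cancel₀ _ this]
    rw [Fin.sum_univ_eq_sum_range (fun j => g (j + 1) * expc g (k - j)) (k + 1)]

/-- logarithmic derivative: the `g` with `k a_k = ∑_{1 ≤ j ≤ k} g_j a_{k-j}` -/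
def ldc (a : ℕ → ℂ) : ℕ → ℂ
  | 0 => 0
  | (k + 1) => ((k : ℂ) + 1) * a (k + 1) - ∑ j : Fin k, ldc a (j + 1) * a (k - j)
  decreasing_by omega

theorem ldc_rec (a : ℕ → ℂ) (h0 : a 0 = 1) (k : ℕ) :
    (k : ℂ) * a k = ∑ j ∈ Finset.range k, ldc a (j + 1) * a (k - 1 - j) := by
  cases k with
  | zero => simp
  | succ k =>
    rw [Finset.sum_range_succ]
    have h1 : ldc a (k + 1) = ((k : ℂ) + 1) * a (k + 1) - ∑ j : Fin k, ldc a (j + 1) * a (k - j) := by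
      rw [ldc]
    rw [h1, Fin.sum_univ_eq_sum_range (fun j => ldc a (j + 1) * a (k - j)) k]
    simp [h0]

/-- coefficients of the polynomial `A(u) + W √q^N u^N conj(A(1/(q conj u)))`, `A` the truncation of
`exp(∑ g_j u^j / j)` to degrees `< k0` -/
def LL (q : ℕ) (g : ℕ → ℂ) (k0 N : ℕ) (W : ℂ) (j : ℕ) : ℂ :=
  (if j < k0 then expc g j else 0) +
    (if j ≤ N ∧ N - j < k0 then W * starRingEnd ℂ (expc g (N - j)) * ((√(q : ℝ) ^ N / (q : ℝ) ^ (N - j) : ℝ) : ℂ) else 0)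

/-- an abstract system of primes (`Pr k` = primes of degree `k`) and primitive characters `𝓧` with conductor sizes
`c`, satisfying the Riemann hypothesis (`orth`) -/
structure Sys (𝓟 𝓧 : Type) where
  q : ℕ
  hq : 2 ≤ q
  deg : 𝓟 → ℕ
  Pr : ℕ → Finset 𝓟
  Pr_deg : ∀ k, ∀ P ∈ Pr k, deg P = k
  c : 𝓧 → ℕ
  ev : 𝓧 → 𝓟 → ℂ
  ev_le : ∀ χ P, ‖ev χ P‖ ≤ 1
  Pr_le : ∀ k : ℕ, k * (Pr k).card ≤ q ^ k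
  Pr_ge : ∀ k : ℕ, k ≠ 0 → (q : ℝ) ^ k - 2 * √(q : ℝ) ^ k ≤ k * (Pr k).card
  orth : ∀ χ χ' : 𝓧, χ ≠ χ' → ∀ k : ℕ, k ≠ 0 →
    ‖∑ P ∈ Pr k, ev χ P * starRingEnd ℂ (ev χ' P)‖ ≤ ((c χ : ℝ) + c χ' + 2) * √(q : ℝ) ^ k
  diag : ∀ (χ : 𝓧) (k : ℕ), k ≠ 0 → ((Pr k).card : ℝ) - c χ ≤ ∑ P ∈ Pr k, ‖ev χ P‖ ^ 2
  fin : ∀ n : ℕ, {χ : 𝓧 | c χ ≤ n}.Finite
  fin_card : ∀ n : ℕ, {χ : 𝓧 | c χ ≤ n}.ncard ≤ q ^ (2 * n + 2)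

variable {𝓟 𝓧 : Type}

/-- the power sums `T_k(χ) = ∑_{e d = k} d ∑_{deg P = d} p_e(t_P) χ(P)^e` of the Euler product -/
def TS (S : Sys 𝓟 𝓧) (pw : ℂ → ℕ → ℂ) (t : 𝓟 → ℂ) (χ : 𝓧) (k : ℕ) : ℂ :=
  ∑ d ∈ k.divisors, (d : ℂ) * ∑ P ∈ S.Pr d, pw (t P) (k / d) * S.ev χ P ^ (k / d)

/-- the level at which the constraint for `χ` starts -/
def k0 (S : Sys 𝓟 𝓧) (κ kb : ℕ) (χ : 𝓧) : ℕ := κ * (S.c χ + 1) + kb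

/-- the characters active at degree `K` -/
def XF (S : Sys 𝓟 𝓧) (κ kb K : ℕ) : Finset 𝓧 :=
  ((S.fin K).subset (fun _ h => h.1) : {χ : 𝓧 | S.c χ ≤ K ∧ k0 S κ kb χ ≤ K}.Finite).toFinset

theorem mem_XF {S : Sys 𝓟 𝓧} {κ kb K : ℕ} (hκ : 1 ≤ κ) {χ : 𝓧} : χ ∈ XF S κ kb K ↔ k0 S κ kb χ ≤ K := by
  rw [XF, Set.Finite.mem_toFinset]
  constructor
  · exact fun h => h.2
  · intro h
    refine ⟨?_, h⟩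
    unfold k0 at h
    nlinarith

/-- properties of the power sums of the Satake parameters attached to a trace `z` -/
structure PW (n E0 : ℕ) (pw : ℂ → ℕ → ℂ) : Prop where
  one : ∀ z : ℂ, ‖z‖ ≤ 1 / 16 → pw z 1 = z
  small : ∀ z : ℂ, ‖z‖ ≤ 1 / 16 → ∀ e : ℕ, 2 ≤ e → e ≤ E0 → ‖pw z e‖ ≤ ‖z‖ ^ e
  all : ∀ z : ℂ, ‖z‖ ≤ 1 / 16 → ∀ e : ℕ, ‖pw z e‖ ≤ n
  real : ∀ z : ℂ, ‖z‖ ≤ 1 / 16 → starRingEnd ℂ z = z → ∀ e : ℕ, starRingEnd ℂ (pw z e) = pw z e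

/-- the state of the construction up to degree `< K` -/
structure Good (S : Sys 𝓟 𝓧) (pw : ℂ → ℕ → ℂ) (η : ℝ) (κ kb : ℕ) (N : 𝓧 → ℕ) (W : 𝓧 → ℂ) (t : 𝓟 → ℂ) (K : ℕ) :
    Prop where
  lin : ∀ k : ℕ, k ≠ 0 → k < K → ∃ y : 𝓧 → ℂ,
    (∀ P ∈ S.Pr k, t P = ∑ χ ∈ XF S κ kb k, y χ * starRingEnd ℂ (S.ev χ P)) ∧
    ∑ χ ∈ XF S κ kb k, ‖y χ‖ ≤ (S.q : ℝ) ^ (-(1 / 2 - 2 * η) * k)
  eqn : ∀ (χ : 𝓧) (k : ℕ), k0 S κ kb χ ≤ k → k < K →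
    TS S pw t χ k = ldc (LL S.q (TS S pw t χ) (k0 S κ kb χ) (N χ) (W χ)) k

/-- compatibility with complex conjugation -/
structure Sym (S : Sys 𝓟 𝓧) (bar : 𝓧 → 𝓧) (N : 𝓧 → ℕ) (W : 𝓧 → ℂ) : Prop where
  inv : ∀ χ, bar (bar χ) = χ
  ev : ∀ χ P, S.ev (bar χ) P = starRingEnd ℂ (S.ev χ P)
  c : ∀ χ, S.c (bar χ) = S.c χ
  N : ∀ χ, N (bar χ) = N χ
  W : ∀ χ, W (bar χ) = starRingEnd ℂ (W χ)

/-- numerical conditions on the parameters -/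
structure Num (q n : ℕ) (η : ℝ) (κ kb ν N0 : ℕ) : Prop where
  κ1 : 1 ≤ κ
  kb1 : 16 ≤ kb
  core : ∀ c N : ℕ, ν * (c + 1) + N0 ≤ N → 2 * (κ * (c + 1) + kb) ≤ N ∧
    Real.exp (2 * ∑ j ∈ Finset.Ico 1 (κ * (c + 1) + kb),
        ((c : ℝ) + j + 4 + 2 * n) * (q : ℝ) ^ (2 * η * j) * ((q : ℝ) ^ (-(1 / 4 + η))) ^ j) *
      (((q : ℝ) ^ (-(1 / 2 + η)) / (q : ℝ) ^ (-(1 / 4 + η))) ^ (κ * (c + 1) + kb) +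
        (q : ℝ) ^ (-η * N + 2 * η * (κ * (c + 1) + kb : ℕ))) ≤ 1 / 2
  i1 : ∀ K : ℕ, kb ≤ K → (q : ℝ) ^ K / (2 * K) ≤ ((q : ℝ) ^ K - 2 * √(q : ℝ) ^ K) / K - K
  i2 : ∀ K : ℕ, kb ≤ K → 2 * (q : ℝ) ^ (2 * (K : ℝ) / κ) * ((2 * K + 2) * √(q : ℝ) ^ K) ≤ (q : ℝ) ^ K / (2 * K)
  i3 : ∀ K : ℕ, kb ≤ K →
    2 / ((q : ℝ) ^ K / (2 * K)) * ((q : ℝ) ^ (2 * (K : ℝ) / κ) * ((3 + 2 * n) * (q : ℝ) ^ ((1 / 2 + η) * K))) ≤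
      (q : ℝ) ^ (-(1 / 2 - 2 * η) * K)

end

end Pool.Agent.H497.FF
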