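import Mathlib

set_option autoImplicit false

open Polynomial

namespace Pool.Agent.H497.FF

noncomputable section

variable (F : Type) [Field F] [Fintype F]

theorem finite_monic (k : ℕ) : {D : F[X] | D.Monic ∧ D.natDegree = k}.Finite := by
  classical
  have : Set.Finite (Set.range (fun c : Fin (k + 1) → F => ∑ i : Fin (k + 1), C (c i) * X ^ (i : ℕ))) :=
    Set.finite_range _
  refine this.subset ?_
  rintro D ⟨_, hD⟩
  refine ⟨fun i => D.coeff i, ?_⟩
  have h := D.as_sum_range_C_mul_X_pow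
  rw [hD] at h
  conv_rhs => rw [h]
  exact Fin.sum_univ_eq_sum_range (fun i => C (D.coeff i) * X ^ i) (k + 1)

/-- monic polynomials of degree `k` -/
def mon (k : ℕ) : Finset F[X] := (finite_monic F k).toFinset

theorem mem_mon {k : ℕ} {D : F[X]} : D ∈ mon F k ↔ D.Monic ∧ D.natDegree = k := by
  simp [mon]

open Classical in
/-- monic irreducible polynomials of degree `k` (the places of degree `k` of `F(t)` other than infinity
when `k = 1`) -/
def irr (k : ℕ) : Finset F[X] := (mon F k).filter Irreducible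

theorem mem_irr {k : ℕ} {D : F[X]} : D ∈ irr F k ↔ D.Monic ∧ D.natDegree = k ∧ Irreducible D := by
  simp [irr, mem_mon, and_assoc]

variable {F}

/-- a (normalised, unitary) Hecke character of `F(t)` of modulus `f * infinity^m`, given by its values at
monic polynomials -/
structure IsHecke (f : F[X]) (m : ℕ) (χ : F[X] → ℂ) : Prop where
  monic : f.Monic
  one : χ 1 = 1
  mul : ∀ D E : F[X], D.Monic → E.Monic → χ (D * E) = χ D * χ E
  supp : ∀ D : F[X], D.Monic → (χ D ≠ 0 ↔ IsCoprime D f)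
  cong : ∀ D E : F[X], D.Monic → E.Monic → f ∣ D - E → X ^ m ∣ D.reverse - E.reverse → χ D = χ E
  zero : ∀ D : F[X], ¬ D.Monic → χ D = 0

/-- `χ` is not the trivial character -/
def Nontriv (χ : F[X] → ℂ) : Prop := ∃ D : F[X], D.Monic ∧ χ D ≠ 0 ∧ χ D ≠ 1

/-- primitive Hecke characters: `f * infinity^m` is the exact conductor (up to the tame part at infinity) -/
def IsPrim (f : F[X]) (m : ℕ) (χ : F[X] → ℂ) : Prop :=
  IsHecke f m χ ∧ ∀ (f' : F[X]) (m' : ℕ) (χ' : F[X] → ℂ), IsHecke f' m' χ' →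
    (∀ D : F[X], D.Monic → IsCoprime D f → IsCoprime D f' → χ D = χ' D) → f ∣ f' ∧ m ≤ m'

/-- power sums of a completely multiplicative function over primes: `T_r = ∑_{e deg P = r} deg P χ(P)^e` -/
def TT (χ : F[X] → ℂ) (r : ℕ) : ℂ :=
  ∑ d ∈ r.divisors, (d : ℂ) * ∑ P ∈ irr F d, χ P ^ (r / d)

variable (F)

/-- the points of `F_{q^r}` inside the algebraic closure -/
def fix (r : ℕ) : Finset (AlgebraicClosure F) := by
  classical
  exact ((X ^ (Fintype.card F ^ r) - X : (AlgebraicClosure F)[X]).roots).toFinset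

theorem mem_fix {r : ℕ} (hr : r ≠ 0) {a : AlgebraicClosure F} :
    a ∈ fix F r ↔ a ^ (Fintype.card F ^ r) = a := by
  classical
  have h1 : 1 < Fintype.card F ^ r := Nat.one_lt_pow hr Fintype.one_lt_card
  have h0 : (X ^ (Fintype.card F ^ r) - X : (AlgebraicClosure F)[X]) ≠ 0 :=
    FiniteField.X_pow_card_sub_X_ne_zero _ h1
  simp [fix, Multiset.mem_toFinset, mem_roots h0, IsRoot.def, sub_eq_zero]

variable {F}

/-- the norm polynomial `∏_{i<r} (X - a^{q^i})` of `a ∈ F_{q^r}`, as a polynomial over `F` -/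
def DD (r : ℕ) (a : AlgebraicClosure F) : F[X] :=
  (minpoly F a) ^ (r / (minpoly F a).natDegree)

/-- homogenised evaluation: `∑_j D_j e0^j e1^(r-j)` -/
def homEval {R : Type} [CommRing R] [Algebra F R] (e0 e1 : R) (r : ℕ) (D : F[X]) : R :=
  ∑ j ∈ Finset.range (r + 1), algebraMap F R (D.coeff j) * e0 ^ j * e1 ^ (r - j)

end

end Pool.Agent.H497.FF
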