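import Pool.Agent.H497.FF.A5
import Pool.Agent.H497.FF.A7
import Pool.Agent.H497.FF.C9a
import Pool.Agent.H497.FF.C9b
import Pool.Agent.H497.FF.CDefs

set_option autoImplicit false

namespace Pool.Agent.H497.FF

open Polynomial

/-- primitive Hecke characters of `F(t)` (with their conductor) -/
abbrev XP (F : Type) [Field F] [Fintype F] : Type :=
  {x : F[X] × ℕ × (F[X] → ℂ) // IsPrim x.1 x.2.1 x.2.2}

/-- The Riemann hypothesis in the form used: for distinct primitive Hecke characters. -/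
theorem orth_ff {F : Type} [Field F] [Fintype F] {f f' : F[X]} {m m' : ℕ} {χ χ' : F[X] → ℂ}
    (h : IsPrim f m χ) (h' : IsPrim f' m' χ') (hne : χ ≠ χ') {k : ℕ} (hk : k ≠ 0) :
    ‖∑ P ∈ irr F k, χ P * starRingEnd ℂ (χ' P)‖ ≤
      ((f.natDegree + m : ℕ) + (f'.natDegree + m' : ℕ) + 2 : ℝ) * √(Fintype.card F : ℝ) ^ k := by
  have hH := h.1.mul_bar h'.1
  have hT := TT_bound hH (h.nontriv h' hne) hk
  have hs := irr_sum_bound _ (fun D => norm_le_one hH D) _ hk hT
  have hk1 : (1 : ℝ) ≤ k := by exact_mod_cast Nat.one_le_iff_ne_zero.2 hk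
  have hdeg : (f * f').natDegree = f.natDegree + f'.natDegree := h.1.monic.natDegree_mul h'.1.monic
  have hmax : ((max m m' : ℕ) : ℝ) ≤ m + m' := by
    have : max m m' ≤ m + m' := by omega
    exact_mod_cast this
  have hq : (0 : ℝ) ≤ √(Fintype.card F : ℝ) ^ k := by positivity
  calc ‖∑ P ∈ irr F k, χ P * starRingEnd ℂ (χ' P)‖
      ≤ (k : ℝ) * ‖∑ P ∈ irr F k, χ P * starRingEnd ℂ (χ' P)‖ :=
        le_mul_of_one_le_left (norm_nonneg _) hk1
    _ ≤ _ := hs
    _ ≤ _ := by
        refine mul_le_mul_of_nonneg_right ?_ hq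
        rw [hdeg]
        push_cast at hmax ⊢
        linarith

/-- the system of primes and primitive characters of `F(t)` -/
noncomputable def sysF (F : Type) [Field F] [Fintype F] : Sys F[X] (XP F) where
  q := Fintype.card F
  hq := Fintype.one_lt_card
  deg := natDegree
  Pr := irr F
  Pr_deg := fun k P hP => ((mem_irr F).1 hP).2.1
  c := fun x => x.1.1.natDegree + x.1.2.1
  ev := fun x P => x.1.2.2 P
  ev_le := fun x P => norm_le_one x.2.1 P
  Pr_le := fun k => card_irr_le k
  Pr_ge := fun k hk => card_irr_ge hk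
  orth := fun x x' hne k hk => by
    refine orth_ff x.2 x'.2 (fun he => hne ?_) hk
    obtain ⟨⟨f, m, χ⟩, h⟩ := x
    obtain ⟨⟨f', m', χ'⟩, h'⟩ := x'
    dsimp only at he
    subst he
    obtain ⟨h1, h2⟩ := h.cond_unique h'
    dsimp only at h1 h2
    subst h1; subst h2
    rfl
  diag := fun x k hk => by
    refine le_trans ?_ (x.2.1.diag hk)
    push_cast
    have : (0 : ℝ) ≤ x.1.2.1 := Nat.cast_nonneg _
    linarith
  fin := fun n => by
    have h := (prim_count (F := F) n).1
    have : {x : XP F | x.1.1.natDegree + x.1.2.1 ≤ n} =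
        (fun x : XP F => x.1) ⁻¹' {x | IsPrim x.1 x.2.1 x.2.2 ∧ x.1.natDegree + x.2.1 ≤ n} := by
      ext x
      exact ⟨fun hx => ⟨x.2, hx⟩, fun hx => hx.2⟩
    rw [this]
    exact h.preimage Subtype.val_injective.injOn
  fin_card := fun n => by
    have h := prim_count (F := F) n
    refine le_trans ?_ h.2
    refine Set.ncard_le_ncard_of_injOn (fun x : XP F => x.1) (fun x hx => ⟨x.2, hx⟩)
      Subtype.val_injective.injOn h.1

end Pool.Agent.H497.FF
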