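import Pool.Agent.H497.FF.Defs

set_option autoImplicit false

namespace Pool.Agent.H497.FF

open Polynomial


noncomputable section

/-- regular representation over an extension field `K` -/
def MM {F : Type} [Field F] {R : Type} [CommRing R] [Algebra F R] {N : ℕ} (b : Module.Basis (Fin N) F R)
    (K : Type) [Field K] [Algebra F K] (c : R) : Matrix (Fin N) (Fin N) K :=
  (Algebra.leftMulMatrix b c).map (algebraMap F K)

/-- multiplication matrix of the element `∑_j g_j b_j` of `K ⊗ R` -/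
def MV {F : Type} [Field F] {R : Type} [CommRing R] [Algebra F R] {N : ℕ} (b : Module.Basis (Fin N) F R)
    (K : Type) [Field K] [Algebra F K] (g : Fin N → K) : Matrix (Fin N) (Fin N) K :=
  ∑ j, g j • MM b K (b j)

end

noncomputable section

/-- coordinates of `e0 - x e1` -/
def ee {F : Type} [Field F] {R : Type} [CommRing R] [Algebra F R] {N : ℕ} (b : Module.Basis (Fin N) F R)
    (K : Type) [Field K] [Algebra F K] (e0 e1 : R) (x : K) : Fin N → K :=
  fun j => algebraMap F K (b.repr e0 j) - x * algebraMap F K (b.repr e1 j)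

/-- the matrix of multiplication by `e0 - X e1`, over `F[X]` -/
def EX {F : Type} [Field F] {R : Type} [CommRing R] [Algebra F R] {N : ℕ} (b : Module.Basis (Fin N) F R)
    (e0 e1 : R) : Matrix (Fin N) (Fin N) F[X] :=
  Matrix.of fun j l => C (Algebra.leftMulMatrix b e0 j l) - C (Algebra.leftMulMatrix b e1 j l) * X

/-- the same over `k[X]`, `k` the algebraic closure -/
def Ent {F : Type} [Field F] {R : Type} [CommRing R] [Algebra F R] {N : ℕ} (b : Module.Basis (Fin N) F R)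
    (e0 e1 : R) (j l : Fin N) : (AlgebraicClosure F)[X] :=
  (EX b e0 e1 j l).map (algebraMap F (AlgebraicClosure F))

/-- `Δ · θ_c` as a polynomial in `X, θ` -/
def Gc {F : Type} [Field F] {R : Type} [CommRing R] [Algebra F R] {N : ℕ} (b : Module.Basis (Fin N) F R)
    (T : ℕ) (G : Fin N → (AlgebraicClosure F)[X][X]) (c : R) : (AlgebraicClosure F)[X][X] :=
  ∑ j : Fin N, C (X ^ (T * (j : ℕ))) *
    ∑ l : Fin N, C (C (algebraMap F (AlgebraicClosure F) (Algebra.leftMulMatrix b c j l))) * G l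

/-- the algebraic data of a geometric component of the Lang torsor `g^(q) = (e0 - X e1) g` -/
def TorsorData {F : Type} [Field F] [Fintype F] {R : Type} [CommRing R] [Algebra F R] {N : ℕ}
    (b : Module.Basis (Fin N) F R) (e0 e1 : R) : Prop :=
  ∃ (H : Subgroup Rˣ) (μ : (AlgebraicClosure F)[X][X]) (Δ : (AlgebraicClosure F)[X])
    (G : Fin N → (AlgebraicClosure F)[X][X]) (T : ℕ) (δ : (AlgebraicClosure F)[X]),
    μ.Monic ∧ Irreducible (μ.map (algebraMap (AlgebraicClosure F)[X] (RatFunc (AlgebraicClosure F)))) ∧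
    (μ.map (algebraMap (AlgebraicClosure F)[X] (RatFunc (AlgebraicClosure F)))).Separable ∧
    μ.natDegree = Nat.card H ∧ Δ ≠ 0 ∧ δ ≠ 0 ∧
    (∀ j, μ ∣ G j ^ Fintype.card F - C (Δ ^ (Fintype.card F - 1)) * ∑ l, C (Ent b e0 e1 j l) * G l) ∧
    (μ ∣ C Δ * X - ∑ j : Fin N, C (X ^ (T * (j : ℕ))) * G j) ∧
    (∀ c : Rˣ, c ∉ H → ∀ a τ : AlgebraicClosure F, Δ.eval a ≠ 0 → δ.eval a ≠ 0 → μ.evalEval a τ = 0 →
      μ.evalEval a ((Gc b T G (c : R)).evalEval a τ / Δ.eval a) ≠ 0)

end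

/-- the Bombieri-Stepanov bound -/
def ASBound : Prop :=
  ∀ (k : Type) [Field k] [IsAlgClosed k] (p : ℕ) [Fact p.Prime] [CharP k p] (μ G : k[X][X]) (Δ : k[X]),
    μ.Monic → Irreducible (μ.map (algebraMap k[X] (RatFunc k))) →
    (μ.map (algebraMap k[X] (RatFunc k))).Separable → Δ ≠ 0 →
    ∃ K : ℝ, ∀ (s : ℕ) (S : Finset k), 0 < s →
      (∀ a ∈ S, a ^ (p ^ (2 * s)) = a ∧
        ∀ τ : k, μ.evalEval a τ = 0 → Δ.eval a * τ ^ (p ^ (2 * s)) = G.evalEval a τ) →
      (S.card : ℝ) ≤ (p : ℝ) ^ (2 * s) / μ.natDegree + K * (p : ℝ) ^ s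

open Classical in
/-- number of `a ∈ F_{q^r}` whose norm `∏_{i<r} (e0 - a^(q^i) e1)` is `c` -/
noncomputable def cnt {F : Type} [Field F] [Fintype F] {R : Type} [CommRing R] [Algebra F R] (e0 e1 : R) (r : ℕ)
    (c : R) : ℕ :=
  ((fix F r).filter (fun a => homEval e0 e1 r (DD r a) = c)).card

end Pool.Agent.H497.FF
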